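import Pool.Agent.NTC.C0

/-!
# [NTC-C2] the category of modules and its opposite (no row: definitions, complete)

Our own copies, with the linear maps themselves as morphisms, so that `f ≫ g = g ∘ₗ f` holds by `rfl` in `Ca` and `f ≫ g = f ∘ₗ g` in `Cb`.
-/

set_option autoImplicit false

open CategoryTheory

namespace NTC

variable (K A : Type) [Field K] [Ring A] [Algebra K A]

/-- the category of `A`-modules -/
structure Ca : Type 1 where
  /-- the module -/
  V : Mo K A

/-- the opposite of the category of `A`-modules -/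
structure Cb : Type 1 where
  /-- the module -/
  V : Mo K A

variable {K A}

instance : Category.{0} (Ca K A) where
  Hom M N := M.V.T →ₗ[A] N.V.T
  id _ := LinearMap.id
  comp f g := g ∘ₗ f
  id_comp _ := rfl
  comp_id _ := rfl
  assoc _ _ _ := rfl

instance : Preadditive (Ca K A) where
  homGroup M N := inferInstanceAs (AddCommGroup (M.V.T →ₗ[A] N.V.T))
  add_comp M N L f f' g := LinearMap.comp_add (f : M.V.T →ₗ[A] N.V.T) (f' : M.V.T →ₗ[A] N.V.T)
    (g : N.V.T →ₗ[A] L.V.T)
  comp_add M N L f g g' := LinearMap.add_comp (f : M.V.T →ₗ[A] N.V.T) (g' : N.V.T →ₗ[A] L.V.T)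
    (g : N.V.T →ₗ[A] L.V.T)

instance : Linear K (Ca K A) where
  homModule M N := inferInstanceAs (Module K (M.V.T →ₗ[A] N.V.T))
  smul_comp M N L c f g := LinearMap.ext fun x =>
    LinearMap.map_smul_of_tower (g : N.V.T →ₗ[A] L.V.T) c
      ((show M.V.T →ₗ[A] N.V.T from f) x)
  comp_smul _ _ _ _ _ _ := LinearMap.ext fun _ => rfl

instance : Category.{0} (Cb K A) where
  Hom M N := N.V.T →ₗ[A] M.V.T
  id _ := LinearMap.id
  comp f g := f ∘ₗ g
  id_comp _ := rfl
  comp_id _ := rfl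
  assoc _ _ _ := rfl

instance : Preadditive (Cb K A) where
  homGroup M N := inferInstanceAs (AddCommGroup (N.V.T →ₗ[A] M.V.T))
  add_comp M N L f f' g := LinearMap.add_comp (g : L.V.T →ₗ[A] N.V.T) (f' : N.V.T →ₗ[A] M.V.T)
    (f : N.V.T →ₗ[A] M.V.T)
  comp_add M N L f g g' := LinearMap.comp_add (g : L.V.T →ₗ[A] N.V.T) (g' : L.V.T →ₗ[A] N.V.T)
    (f : N.V.T →ₗ[A] M.V.T)

instance : Linear K (Cb K A) where
  homModule M N := inferInstanceAs (Module K (N.V.T →ₗ[A] M.V.T))
  smul_comp _ _ _ _ _ _ := LinearMap.ext fun _ => rfl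
  comp_smul M N L f c g := LinearMap.ext fun x =>
    LinearMap.map_smul_of_tower (f : N.V.T →ₗ[A] M.V.T) c
      ((show L.V.T →ₗ[A] N.V.T from g) x)

/-- the morphism in `Ca` -/
def Ca.hom {V W : Mo K A} (f : V.T →ₗ[A] W.T) : (⟨V⟩ : Ca K A) ⟶ ⟨W⟩ := f

/-- the morphism in `Cb` -/
def Cb.hom {V W : Mo K A} (f : V.T →ₗ[A] W.T) : (⟨W⟩ : Cb K A) ⟶ ⟨V⟩ := f

/-- the linear map of a morphism in `Ca` -/
def Ca.un {M N : Ca K A} (f : M ⟶ N) : M.V.T →ₗ[A] N.V.T := f

/-- the linear map of a morphism in `Cb` -/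
def Cb.un {M N : Cb K A} (f : M ⟶ N) : N.V.T →ₗ[A] M.V.T := f

/-- an `A`-module as an object of `Mo K A` -/
def Mo.ofMod (K : Type) {A : Type} [Field K] [Ring A] [Algebra K A] (V : Type) [AddCommGroup V]
    [Module A V] : Mo K A :=
  letI : Module K V := Module.compHom V (algebraMap K A)
  haveI : IsScalarTower K A V := ⟨fun c a x => by
    show (c • a) • x = algebraMap K A c • a • x
    rw [Algebra.smul_def, mul_smul]⟩
  ⟨V⟩

end NTC
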