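import Pool.Agent.NTC.R
import Pool.Agent.NTC.C2

/-!
# [NTC-A1a] a Fitting type lemma
-/

set_option autoImplicit false

open CategoryTheory

namespace NTC

variable {K A : Type} [Field K] [Ring A] [Algebra K A]

/-- Fitting: an endomorphism of an indecomposable module of finite length is bijective or nilpotent -/
theorem a1a_bij_or_nil {M : Type} [AddCommGroup M] [Module K M] [Module A M] [IsScalarTower K A M]
    (hfd : FiniteDimensional K M)
    (hind : ∀ M₁ M₂ : Submodule A M, IsCompl M₁ M₂ → M₁ = ⊥ ∨ M₂ = ⊥)
    (f : M →ₗ[A] M) : Function.Bijective f ∨ ∃ m, f ^ m = 0 := by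
  have : IsNoetherian K M := inferInstance
  have : IsArtinian K M := inferInstance
  have : IsNoetherian A M := isNoetherian_of_tower K inferInstance
  have : IsArtinian A M := isArtinian_of_tower K inferInstance
  obtain ⟨m, hm⟩ := (LinearMap.eventually_isCompl_ker_pow_range_pow f).exists_forall_of_atTop
  have h1 := hm (m + 1) (by omega)
  rcases hind _ _ h1 with h | h
  · left
    have hinj : Function.Injective (f ^ (m + 1)) := LinearMap.ker_eq_bot.1 h
    have hfi : Function.Injective f := by
      have : f ^ (m + 1) = f ^ m * f := pow_succ f m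
      rw [this] at hinj
      exact Function.Injective.of_comp (f := (f ^ m : M →ₗ[A] M)) hinj
    exact IsArtinian.bijective_of_injective_endomorphism f hfi
  · right
    exact ⟨m + 1, LinearMap.range_eq_bot.1 h⟩

/-- [A1a] PROOF. Fitting: for `f : M → M`, `M = ker f^m ⊕ range f^m` for large `m` (`M` has finite length; e.g. `LinearMap.eventually_isCompl_ker_pow_range_pow`), so `f` is nilpotent or bijective
(if `ker f^m = ⊥` then `f` is injective, hence bijective; if `range f^m = ⊥` then `f^m = 0`). Induction on `n`: let `u = ∑ f k` be bijective; `u = g + f 0`. If `f 0` is not bijective then `u⁻¹ f 0` is not bijective, so nilpotent, and `u⁻¹ g = 1 - u⁻¹ f 0`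
is a unit, so `g`, the sum of the other `f k`, is bijective. (`n = 0`: `u = 0` is bijective only if `M` is trivial.) -/
theorem fitting {M : Type} [AddCommGroup M] [Module K M] [Module A M] [IsScalarTower K A M]
    (hfd : FiniteDimensional K M) (hne : Nontrivial M)
    (hind : ∀ M₁ M₂ : Submodule A M, IsCompl M₁ M₂ → M₁ = ⊥ ∨ M₂ = ⊥) {n : ℕ}
    (f : Fin n → (M →ₗ[A] M)) (hf : Function.Bijective (∑ k, f k)) :
    ∃ k, Function.Bijective (f k) := by
  induction n with
  | zero =>
    exfalso
    rw [Fin.sum_univ_zero] at hf
    obtain ⟨x, y, hxy⟩ := exists_pair_ne M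
    exact hxy (hf.1 (by simp))
  | succ n ih =>
    by_cases h0 : Function.Bijective (f 0)
    · exact ⟨0, h0⟩
    · rw [Fin.sum_univ_succ] at hf
      set g : M →ₗ[A] M := ∑ k : Fin n, f k.succ with hg
      have hco : (⇑(f 0) + ∑ i : Fin n, ⇑(f i.succ)) = ⇑(f 0 + g) := by
        funext x
        simp [hg, Finset.sum_apply, LinearMap.sum_apply]
      rw [hco] at hf
      have hu : IsUnit (f 0 + g : Module.End A M) := (Module.End.isUnit_iff _).2 hf
      obtain ⟨u, hu⟩ := hu
      have h1 : ¬ Function.Bijective ((↑u⁻¹ : Module.End A M) * f 0) := by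
        intro hb
        apply h0
        have h2 : IsUnit ((↑u⁻¹ : Module.End A M) * f 0) := (Module.End.isUnit_iff _).2 hb
        have h3 : IsUnit ((f 0 : Module.End A M)) := by
          have : (f 0 : Module.End A M) = (u : Module.End A M) * ((↑u⁻¹ : Module.End A M) * f 0) := by
            rw [← mul_assoc, Units.mul_inv, one_mul]
          rw [this]
          exact u.isUnit.mul h2
        exact (Module.End.isUnit_iff _).1 h3
      rcases a1a_bij_or_nil hfd hind ((↑u⁻¹ : Module.End A M) * f 0) with h2 | h2
      · exact absurd h2 h1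
      · have h3 : IsUnit (1 - (↑u⁻¹ : Module.End A M) * f 0) := IsNilpotent.isUnit_one_sub h2
        have h4 : (g : Module.End A M) = (u : Module.End A M) * (1 - (↑u⁻¹ : Module.End A M) * f 0) := by
          rw [mul_sub, mul_one, ← mul_assoc, Units.mul_inv, one_mul, hu]
          abel
        have h5 : Function.Bijective g := by
          have : IsUnit (g : Module.End A M) := by
            rw [h4]
            exact u.isUnit.mul h3
          exact (Module.End.isUnit_iff _).1 this
        have hco' : (∑ i : Fin n, ⇑(f i.succ)) = ⇑g := by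
          funext x
          simp [hg, Finset.sum_apply, LinearMap.sum_apply]
        obtain ⟨k, hk⟩ := ih (fun k => f k.succ) (by rw [hco']; exact h5)
        exact ⟨k.succ, hk⟩

end NTC
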