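import Pool.Agent.NTC.A1a

/-!
# [NTC-A1b] the largest injective left ideal
-/

set_option autoImplicit false

open CategoryTheory

namespace NTC

variable {K A : Type} [Field K] [Ring A] [Algebra K A]

theorem a1b_inj_prod {M N : Type} [AddCommGroup M] [Module A M] [AddCommGroup N] [Module A N]
    (hM : Module.Injective A M) (hN : Module.Injective A N) : Module.Injective A (M × N) := by
  refine ⟨fun X Y _ _ _ _ f hf g => ?_⟩
  obtain ⟨h₁, e₁⟩ := hM.out f hf (LinearMap.fst A M N ∘ₗ g)
  obtain ⟨h₂, e₂⟩ := hN.out f hf (LinearMap.snd A M N ∘ₗ g)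
  refine ⟨LinearMap.prod h₁ h₂, fun x => ?_⟩
  exact Prod.ext (e₁ x) (e₂ x)

theorem a1b_inj_punit : Module.Injective A PUnit.{1} := by
  refine ⟨fun X Y _ _ _ _ f hf g => ⟨0, fun x => ?_⟩⟩
  exact Subsingleton.elim _ _

/-- a `K`-linear map -/
def a1b_toK {M N : Type} [AddCommGroup M] [Module K M] [Module A M] [IsScalarTower K A M]
    [AddCommGroup N] [Module K N] [Module A N] [IsScalarTower K A N] (f : M →ₗ[A] N) :
    M →ₗ[K] N := f.restrictScalars K

theorem a1b_two {M M₁ M₂ N : Type} [AddCommGroup M] [Module A M] [AddCommGroup M₁] [Module A M₁]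
    [AddCommGroup M₂] [Module A M₂] [AddCommGroup N] [Module A N]
    (i₁ : M₁ →ₗ[A] M) (r₁ : M →ₗ[A] M₁) (i₂ : M₂ →ₗ[A] M) (r₂ : M →ₗ[A] M₂)
    (h : i₁ ∘ₗ r₁ + i₂ ∘ₗ r₂ = LinearMap.id) (h1 : InAdd A M₁ N) (h2 : InAdd A M₂ N) :
    InAdd A M N := by
  obtain ⟨n, a, b, hab⟩ := h1
  obtain ⟨m, c, d, hcd⟩ := h2
  refine InAdd.of_fintype (J := Fin n ⊕ Fin m)
    (Sum.elim (fun k => a k ∘ₗ r₁) (fun k => c k ∘ₗ r₂))
    (Sum.elim (fun k => i₁ ∘ₗ b k) (fun k => i₂ ∘ₗ d k)) ?_
  rw [Fintype.sum_sum_type]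
  simp only [Sum.elim_inl, Sum.elim_inr]
  have e1 : ∑ k, (i₁ ∘ₗ b k) ∘ₗ (a k ∘ₗ r₁) = i₁ ∘ₗ r₁ := by
    ext1 x
    have h3 := LinearMap.congr_fun hab (r₁ x)
    simp only [LinearMap.sum_apply, LinearMap.comp_apply, LinearMap.id_apply] at h3 ⊢
    rw [← map_sum, h3]
  have e2 : ∑ k, (i₂ ∘ₗ d k) ∘ₗ (c k ∘ₗ r₂) = i₂ ∘ₗ r₂ := by
    ext1 x
    have h3 := LinearMap.congr_fun hcd (r₂ x)
    simp only [LinearMap.sum_apply, LinearMap.comp_apply, LinearMap.id_apply] at h3 ⊢
    rw [← map_sum, h3]
  rw [e1, e2, h]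

/-- a proper direct summand has smaller dimension -/
theorem a1b_lt {M : Type} [AddCommGroup M] [Module K M] [Module A M] [IsScalarTower K A M]
    (hfd : FiniteDimensional K M) (M₁ : Submodule A M) (h : M₁ ≠ ⊤) :
    Module.finrank K M₁ < Module.finrank K M := by
  have h1 : M₁.restrictScalars K < ⊤ := by
    refine lt_of_le_of_ne le_top (fun e => h ?_)
    refine Submodule.eq_top_iff'.mpr (fun x => ?_)
    have h2 : x ∈ M₁.restrictScalars K := by
      rw [e]
      exact Submodule.mem_top
    exact h2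
  exact Submodule.finrank_lt h1.ne

theorem a1b_fit {M : Type} [AddCommGroup M] [Module K M] [Module A M] [IsScalarTower K A M]
    (hfd : FiniteDimensional K M) (hne : Nontrivial M)
    (hind : ∀ M₁ M₂ : Submodule A M, IsCompl M₁ M₂ → M₁ = ⊥ ∨ M₂ = ⊥) {n : ℕ}
    (f : Fin n → (M →ₗ[A] M)) (hf : Function.Bijective ((∑ k, f k : M →ₗ[A] M) : M → M)) :
    ∃ k, Function.Bijective (f k) := by
  have h : ((∑ k, f k : M →ₗ[A] M) : M → M) = ∑ k, ((f k : M →ₗ[A] M) : M → M) := by
    funext x
    rw [Finset.sum_apply, LinearMap.sum_apply]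
  rw [h] at hf
  exact fitting (K := K) hfd hne hind f hf

/-- the choice of `J` -/
def a1b_P (K A : Type) [Field K] [Ring A] [Algebra K A] (n : ℕ) : Prop :=
  ∃ (J : Mo K A) (i : J.T →ₗ[A] A) (r : A →ₗ[A] J.T), r ∘ₗ i = LinearMap.id ∧
      Module.Injective A J.T ∧ Module.finrank K J.T = n

theorem a1b_fd (hfd : FiniteDimensional K A) {J : Type} [AddCommGroup J] [Module K J]
    [Module A J] [IsScalarTower K A J] (i : J →ₗ[A] A) (r : A →ₗ[A] J)
    (h : r ∘ₗ i = LinearMap.id) : FiniteDimensional K J ∧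
      Module.finrank K J ≤ Module.finrank K A := by
  have hi : Function.Injective (a1b_toK (K := K) i) := by
    intro x y hxy
    have h1 := LinearMap.congr_fun h x
    have h2 := LinearMap.congr_fun h y
    have h3 : i x = i y := hxy
    simp only [LinearMap.comp_apply, LinearMap.id_apply] at h1 h2
    rw [← h1, ← h2, h3]
  exact ⟨FiniteDimensional.of_injective _ hi, LinearMap.finrank_le_finrank_of_injective hi⟩

/-- the induction -/
theorem a1b_main (hfd : FiniteDimensional K A) {J : Type} [AddCommGroup J] [Module K J]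
    [Module A J] [IsScalarTower K A J] (i : J →ₗ[A] A) (r : A →ₗ[A] J)
    (h : r ∘ₗ i = LinearMap.id) (hJ : Module.Injective A J)
    (hmax : ∀ n, a1b_P K A n → n ≤ Module.finrank K J) :
    ∀ (d : ℕ) (M : Type) [AddCommGroup M] [Module K M] [Module A M] [IsScalarTower K A M],
      FiniteDimensional K M → Module.Projective A M → Module.Injective A M →
      Module.finrank K M = d → InAdd A M J := by
  intro d
  induction d using Nat.strong_induction_on with
  | _ d ih =>
    intro M _ _ _ _ hM hMp hMi hd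
    have hMf : Module.Finite A M := Module.Finite.of_restrictScalars_finite K A M
    rcases subsingleton_or_nontrivial M with hs | hne
    · refine ⟨0, fun _ => 0, fun _ => 0, ?_⟩
      ext1 x
      exact Subsingleton.elim _ _
    by_cases hex : ∃ M₁ M₂ : Submodule A M, IsCompl M₁ M₂ ∧ M₁ ≠ ⊥ ∧ M₂ ≠ ⊥
    · obtain ⟨M₁, M₂, hc, hb1, hb2⟩ := hex
      have ht1 : M₁ ≠ ⊤ := by
        rintro rfl
        exact hb2 (by simpa using hc.disjoint.eq_bot)
      have ht2 : M₂ ≠ ⊤ := by
        rintro rfl
        exact hb1 (by simpa using hc.disjoint.eq_bot)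
      have hr1 : (M₁.projectionOnto M₂ hc) ∘ₗ M₁.subtype = LinearMap.id :=
        Submodule.projectionOnto_comp_subtype hc
      have hr2 : (M₂.projectionOnto M₁ hc.symm) ∘ₗ M₂.subtype = LinearMap.id :=
        Submodule.projectionOnto_comp_subtype hc.symm
      have ha1 : InAdd A M₁ M := InAdd.of_retract _ _ hr1
      have ha2 : InAdd A M₂ M := InAdd.of_retract _ _ hr2
      have hf1 : FiniteDimensional K M₁ :=
        FiniteDimensional.of_injective (a1b_toK (K := K) M₁.subtype) Subtype.val_injective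
      have hf2 : FiniteDimensional K M₂ :=
        FiniteDimensional.of_injective (a1b_toK (K := K) M₂.subtype) Subtype.val_injective
      have hI1 : InAdd A M₁ J := ih _ (hd ▸ a1b_lt hM M₁ ht1) M₁ hf1 (ha1.projective hMp)
        (ha1.injective hMi) rfl
      have hI2 : InAdd A M₂ J := ih _ (hd ▸ a1b_lt hM M₂ ht2) M₂ hf2 (ha2.projective hMp)
        (ha2.injective hMi) rfl
      refine a1b_two M₁.subtype (M₁.projectionOnto M₂ hc) M₂.subtype
        (M₂.projectionOnto M₁ hc.symm) ?_ hI1 hI2
      ext1 x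
      exact Submodule.projection_add_projection_eq_self hc x
    have hind : ∀ M₁ M₂ : Submodule A M, IsCompl M₁ M₂ → M₁ = ⊥ ∨ M₂ = ⊥ := by
      intro M₁ M₂ hc
      by_contra hcon
      rw [not_or] at hcon
      exact hex ⟨M₁, M₂, hc, hcon.1, hcon.2⟩
    obtain ⟨n, i', r', hir⟩ := inAdd_of_projective hMp hMf
    obtain ⟨k, hk⟩ := a1b_fit (K := K) hM hne hind (fun k => r' k ∘ₗ i' k)
      (by rw [hir]; exact Function.bijective_id)
    let e : A →ₗ[A] A := LinearMap.id - i ∘ₗ r
    have hri : ∀ x, r (i x) = x := fun x => LinearMap.congr_fun h x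
    have hre : ∀ x, r (e x) = 0 := by
      intro x
      show r (x - i (r x)) = 0
      rw [map_sub, hri, sub_self]
    have hei : ∀ x, e (i x) = 0 := by
      intro x
      show i x - i (r (i x)) = 0
      rw [hri, sub_self]
    have hee : ∀ x, e (e x) = e x := by
      intro x
      show e x - i (r (e x)) = e x
      rw [hre, map_zero, sub_zero]
    have hsplit : ∑ l : Fin 2, (![(r' k ∘ₗ i) ∘ₗ (r ∘ₗ i' k), (r' k ∘ₗ e) ∘ₗ (e ∘ₗ i' k)] :
        Fin 2 → (M →ₗ[A] M)) l = r' k ∘ₗ i' k := by
      rw [Fin.sum_univ_two]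
      ext1 x
      show r' k (i (r (i' k x))) + r' k (e (e (i' k x))) = r' k (i' k x)
      rw [hee, ← map_add]
      congr 1
      show i (r (i' k x)) + (i' k x - i (r (i' k x))) = i' k x
      abel
    obtain ⟨l, hl⟩ := a1b_fit (K := K) hM hne hind
      (![(r' k ∘ₗ i) ∘ₗ (r ∘ₗ i' k), (r' k ∘ₗ e) ∘ₗ (e ∘ₗ i' k)] : Fin 2 → (M →ₗ[A] M))
      (by rw [hsplit]; exact hk)
    have hl01 : l = 0 ∨ l = 1 := by
      clear hl
      revert l
      decide
    rcases hl01 with hl0 | hl1
    · subst hl0
      have hb : Function.Bijective ((r' k ∘ₗ i) ∘ₗ (r ∘ₗ i' k)) := hl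
      let u := LinearEquiv.ofBijective _ hb
      refine InAdd.of_retract (r ∘ₗ i' k) (u.symm.toLinearMap ∘ₗ (r' k ∘ₗ i)) ?_
      ext1 x
      exact u.symm_apply_apply x
    · exfalso
      subst hl1
      have hb : Function.Bijective ((r' k ∘ₗ e) ∘ₗ (e ∘ₗ i' k)) := hl
      let u := LinearEquiv.ofBijective _ hb
      let s : M →ₗ[A] A := e ∘ₗ i' k
      let t : A →ₗ[A] M := u.symm.toLinearMap ∘ₗ (r' k ∘ₗ e)
      have hts : ∀ x, t (s x) = x := fun x => u.symm_apply_apply x
      have hti : ∀ x, t (i x) = 0 := by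
        intro x
        show u.symm (r' k (e (i x))) = 0
        rw [hei, map_zero, map_zero]
      have hrs : ∀ x, r (s x) = 0 := fun x => hre _
      have hP : a1b_P K A (Module.finrank K (J × M)) := by
        refine ⟨Mo.of K A (J × M), LinearMap.coprod i s, LinearMap.prod r t, ?_,
          a1b_inj_prod hJ hMi, rfl⟩
        apply LinearMap.ext
        rintro ⟨x, y⟩
        show (r (i x + s y), t (i x + s y)) = (x, y)
        rw [map_add, map_add, hri, hrs, hti, hts, add_zero, zero_add]
      have h1 := hmax _ hP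
      have hJf : FiniteDimensional K J := (a1b_fd hfd i r h).1
      rw [Module.finrank_prod] at h1
      have h2 : 0 < Module.finrank K M := Module.finrank_pos
      omega

/-- [A1b] PROOF. Consider all pairs (submodule `J` of `A` which is injective and has a complement `J'`); `⊥` is one. Choose one with maximal `finrank K`. `J ≠ ⊤` as `A` is not injective, so `finrank J < finrank A`.
Claim: every finitely generated projective injective `M` is in `add J`. Otherwise choose a counterexample `M` with minimal `finrank K M` (`K`-structure: `Module.compHom`, or `Mo.ofMod`; `M` is finite-dimensional). `M` is not zero, and if `M₁ ⊕ M₂ = M` with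
`M₁, M₂ ≠ ⊥` then both have smaller dimension, are finitely generated projective injective (direct summands), so are in `add J`, and so is `M`: contradiction; so `M` satisfies the hypothesis of `fitting`.
`M ∈ add A` (`inAdd_of_projective`): `id = ∑ r k ∘ i k`, and `r k ∘ i k = (r k ∘ ι) ∘ (ρ ∘ i k) + (r k ∘ ι') ∘ (ρ' ∘ i k)` with `ι, ρ, ι', ρ'` the inclusions and projections of `A = J ⊕ J'`. By `fitting` one of these `2n` endomorphisms of `M` is bijective.
If `(r k ι)(ρ i k)` is bijective then `M` is a retract of `J`, in `add J`. If `u = (r k ι')(ρ' i k)` is bijective let `s = ρ' i k : M → J'`, `t = u⁻¹ r k ι' : J' → M`, `t s = id`. Then `J ⊕ s(M) ⊆ A` is injective (isomorphic to `J × M`), has the complement `ker t ⊆ J'`, and is larger than `J`: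
contradiction to the choice of `J`. -/
theorem exists_J (hfd : FiniteDimensional K A) (hn : ¬ Module.Injective A A) :
    ∃ (J : Mo K A) (i : J.T →ₗ[A] A) (r : A →ₗ[A] J.T), r ∘ₗ i = LinearMap.id ∧
      Module.Injective A J.T ∧ Module.finrank K J.T < Module.finrank K A ∧
      ∀ (M : Type) [AddCommGroup M] [Module A M], Module.Finite A M → Module.Projective A M →
        Module.Injective A M → InAdd A M J.T := by
  classical
  have hP0 : a1b_P K A 0 := by
    refine ⟨Mo.of K A PUnit.{1}, 0, 0, ?_, a1b_inj_punit, ?_⟩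
    · ext1 x
      exact Subsingleton.elim (α := PUnit.{1}) _ _
    · exact Module.finrank_zero_of_subsingleton
  have hle : ∀ n, a1b_P K A n → n ≤ Module.finrank K A := by
    rintro n ⟨J, i, r, h, -, rfl⟩
    exact (a1b_fd hfd i r h).2
  obtain ⟨J, i, r, h, hJ, hJn⟩ := Nat.findGreatest_spec (P := a1b_P K A)
    (Nat.zero_le (Module.finrank K A)) hP0
  have hmax : ∀ n, a1b_P K A n → n ≤ Module.finrank K J.T := by
    intro n hn'
    rw [hJn]
    exact Nat.le_findGreatest (hle n hn') hn'
  refine ⟨J, i, r, h, hJ, ?_, ?_⟩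
  · have hJf := (a1b_fd hfd i r h).1
    refine lt_of_le_of_ne (a1b_fd hfd i r h).2 (fun heq => hn ?_)
    have hi : Function.Injective (a1b_toK (K := K) i) := by
      intro x y hxy
      have h1 := LinearMap.congr_fun h x
      have h2 := LinearMap.congr_fun h y
      have h3 : i x = i y := hxy
      simp only [LinearMap.comp_apply, LinearMap.id_apply] at h1 h2
      rw [← h1, ← h2, h3]
    have hs := (LinearMap.injective_iff_surjective_of_finrank_eq_finrank heq).mp hi
    have hb : Function.Bijective i := ⟨hi, hs⟩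
    exact (InAdd.of_equiv (LinearEquiv.ofBijective i hb).symm).injective hJ
  · intro M _ _ hMf hMp hMi
    let _ : Module K M := Module.compHom M (algebraMap K A)
    have _ : IsScalarTower K A M := ⟨fun c a m => by
      rw [Algebra.smul_def, mul_smul]
      rfl⟩
    have hMK : FiniteDimensional K M := Module.Finite.trans A M
    exact a1b_main hfd i r h hJ hmax _ M hMK hMp hMi rfl

end NTC
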