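import Pool.Agent.NTC.E0a

/-!
# [NTC-E1] vanishing of `Ext` from a resolution
-/

set_option autoImplicit false

open CategoryTheory

namespace NTC

section
variable {A : Type} [Ring A] [HasExt.{1} (ModuleCat.{0} A)]
variable {M N : Type} [AddCommGroup M] [Module A M] [AddCommGroup N] [Module A N]

theorem e1_main (i : ℕ) : ∀ (M : Type) [AddCommGroup M] [Module A M]
    (P : ℕ → Type) [∀ n, AddCommGroup (P n)] [∀ n, Module A (P n)]
    (_ : ∀ n, Module.Projective A (P n)) (d : ∀ n, P (n + 1) →ₗ[A] P n) (π : P 0 →ₗ[A] M)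
    (_ : Function.Surjective π) (_ : LinearMap.ker π = LinearMap.range (d 0))
    (_ : ∀ n, LinearMap.ker (d n) = LinearMap.range (d (n + 1)))
    (_ : ∀ n (f : P (n + 1) →ₗ[A] N), f ∘ₗ d (n + 1) = 0 → ∃ g : P n →ₗ[A] N, f = g ∘ₗ d n),
    Ev A M N (i + 1) := by
  induction i with
  | zero =>
    intro M _ _ P _ _ hP d π hπ h0 hd hN
    have hmem : ∀ x : P 1, d 0 x ∈ LinearMap.ker π := fun x => h0 ▸ LinearMap.mem_range_self _ _
    refine ses_ext' (LinearMap.ker π).subtype π (Submodule.injective_subtype _) hπ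
      (Submodule.range_subtype _) (ev_proj (hP 0) 0) ?_
    intro f
    have h1 : (f ∘ₗ (d 0).codRestrict (LinearMap.ker π) hmem) ∘ₗ d 1 = 0 := by
      apply LinearMap.ext
      intro z
      have h2 : d 0 (d 1 z) = 0 := by
        have h3 : d 1 z ∈ LinearMap.ker (d 0) := (hd 0) ▸ LinearMap.mem_range_self _ _
        exact h3
      have h4 : (d 0).codRestrict (LinearMap.ker π) hmem (d 1 z) = 0 := Subtype.ext h2
      rw [LinearMap.comp_apply, LinearMap.comp_apply, h4, map_zero, LinearMap.zero_apply]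
    obtain ⟨g, hg⟩ := hN 0 _ h1
    refine ⟨g, LinearMap.ext fun y => ?_⟩
    obtain ⟨y, hy⟩ := y
    have hy' : y ∈ LinearMap.range (d 0) := h0 ▸ hy
    obtain ⟨z, rfl⟩ := hy'
    have h5 := LinearMap.congr_fun hg z
    exact h5
  | succ i ih =>
    intro M _ _ P _ _ hP d π hπ h0 hd hN
    have hmem : ∀ x : P 1, d 0 x ∈ LinearMap.ker π := fun x => h0 ▸ LinearMap.mem_range_self _ _
    refine ses_shift (LinearMap.ker π).subtype π (Submodule.injective_subtype _) hπ
      (Submodule.range_subtype _) (ev_proj (hP 0) (i + 1)) ?_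
    refine ih (LinearMap.ker π) (fun n => P (n + 1)) (fun n => hP (n + 1)) (fun n => d (n + 1))
      ((d 0).codRestrict (LinearMap.ker π) hmem) ?_ ?_ (fun n => hd (n + 1))
      (fun n f hf => hN (n + 1) f hf)
    · rintro ⟨y, hy⟩
      have hy' : y ∈ LinearMap.range (d 0) := h0 ▸ hy
      obtain ⟨z, rfl⟩ := hy'
      exact ⟨z, rfl⟩
    · rw [LinearMap.ker_codRestrict]
      exact hd 0

/-- [E1] `Ext` vanishes if `Hom(P_•, N)` is exact for one projective resolution `P_•` of `M`.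
PROOF. Claim by induction on `i`: `Ev A M N (i + 1)` for all `(M, P, d, π)` as in the theorem. Let `L = ker π`, `0 → L → P 0 → M → 0`; `d 0` corestricts to a surjection `π' : P 1 → L`, and `P (n + 1)`, `d (n + 1)`, `π'` is a resolution of `L` of the same kind.
`i = 0`: `ses_ext'`: let `f : L → N`; `f ∘ π' : P 1 → N` kills `d 1`, so `f ∘ π' = g ∘ d 0` (`hN 0`), so `f = g` on `L`. `i + 1`: `ses_shift` (`ev_proj`) and the induction hypothesis for `L`. -/
theorem ev_of_resolution (P : ℕ → Type) [∀ n, AddCommGroup (P n)] [∀ n, Module A (P n)]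
    (hP : ∀ n, Module.Projective A (P n)) (d : ∀ n, P (n + 1) →ₗ[A] P n) (π : P 0 →ₗ[A] M)
    (hπ : Function.Surjective π) (h0 : LinearMap.ker π = LinearMap.range (d 0))
    (hd : ∀ n, LinearMap.ker (d n) = LinearMap.range (d (n + 1)))
    (hN : ∀ n (f : P (n + 1) →ₗ[A] N), f ∘ₗ d (n + 1) = 0 → ∃ g : P n →ₗ[A] N, f = g ∘ₗ d n) :
    EV A M N := by
  intro i hi
  obtain ⟨j, rfl⟩ : ∃ j, i = j + 1 := ⟨i - 1, by omega⟩
  exact e1_main j M P hP d π hπ h0 hd hN

end

end NTC
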