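import Pool.Agent.NTC.G3d
import Pool.Agent.NTC.E1

/-!
# [NTC-G3b] a resolution of `LL K N X` by a complex in `add N`
-/

set_option autoImplicit false

open CategoryTheory

namespace NTC

variable {K : Type} [Field K] {𝒟 : Type 1} [Category.{0} 𝒟] [Preadditive 𝒟] [Linear K 𝒟]

/-- the regular module and `N ⟶ N` -/
def g3b_to (N : 𝒟) : End N →ₗ[End N] (N ⟶ N) where
  toFun a := a
  map_add' _ _ := rfl
  map_smul' _ _ := rfl

/-- the regular module and `N ⟶ N` -/
def g3b_of (N : 𝒟) : (N ⟶ N) →ₗ[End N] End N where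
  toFun a := a
  map_add' _ _ := rfl
  map_smul' _ _ := rfl

/-- [G3] PROOF. `ev_of_resolution` with `P n = (M n ⟶ N)`, `d n = pre N (δ n)`, `π = prL N θ` (`surj`, `ker`, `θ0`, `exl`, `comp`; `projC`).
`hN`: `f : (M (n+1) ⟶ N) → End N` is precomposition with `t : N ⟶ M (n+1)` (`yonC`, `End N` and `N ⟶ N` are the same), `t ≫ δ (n+1) = 0` by `faiC`, `exr`. -/
theorem ev_LL {X N : 𝒟} [HasExt.{1} (ModuleCat.{0} (End N))] (C : Cx K X)
    (hM : ∀ n, InAddC (C.M n) N) (hT : C.Test N) : EV (End N) (LL K N X) (End N) := by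
  refine ev_of_resolution (fun n => (C.M n ⟶ N)) (fun n => projC (hM n)) (fun n => pre N (C.δ n))
    (prL N C.θ) ?_ ?_ ?_ ?_
  · intro ξ
    obtain ⟨g, hg⟩ := hT.surj ξ.toFun
    exact ⟨g, LL.ext' fun x => (hg x).symm⟩
  · ext g
    rw [LinearMap.mem_ker, LinearMap.mem_range]
    constructor
    · intro hg
      obtain ⟨k, hk⟩ := hT.ker g fun f => by
        have := congrArg (fun ξ : LL K N X => ξ.toFun f) hg
        exact this
      exact ⟨k, hk.symm⟩
    · rintro ⟨k, rfl⟩
      refine LL.ext' fun x => ?_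
      rw [prL_apply, pre_apply, Category.assoc, C.θ0]
      rfl
  · intro n
    ext f
    rw [LinearMap.mem_ker, LinearMap.mem_range]
    constructor
    · intro hf
      obtain ⟨k, hk⟩ := hT.exl n f hf
      exact ⟨k, hk.symm⟩
    · rintro ⟨k, rfl⟩
      rw [pre_apply, pre_apply, ← Category.assoc, C.comp, Limits.zero_comp]
  · intro n f hf
    obtain ⟨t, ht⟩ := yonC (hM (n + 1)) (g3b_to N ∘ₗ f)
    have h1 : t ≫ C.δ (n + 1) = 0 := by
      refine faiC (hM (n + 2)) _ fun z => ?_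
      have h2 := ht (C.δ (n + 1) ≫ z)
      rw [Category.assoc, ← h2]
      have h3 := LinearMap.congr_fun hf z
      exact h3
    obtain ⟨k, hk⟩ := hT.exr n t h1
    refine ⟨g3b_of N ∘ₗ pre N k, LinearMap.ext fun x => ?_⟩
    have h2 := ht x
    rw [hk, Category.assoc] at h2
    exact h2

end NTC
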