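import Pool.Agent.NTC.E0b

/-!
# [NTC-E4] additivity
-/

set_option autoImplicit false

open CategoryTheory

namespace NTC

section
variable {A : Type} [Ring A] [HasExt.{1} (ModuleCat.{0} A)]
variable {M N : Type} [AddCommGroup M] [Module A M] [AddCommGroup N] [Module A N]

theorem e4_id {J : Type} [Fintype J] (Mj : J → Type) [∀ j, AddCommGroup (Mj j)]
    [∀ j, Module A (Mj j)] (i : ∀ j, M →ₗ[A] Mj j) (r : ∀ j, Mj j →ₗ[A] M)
    (h : ∑ j, r j ∘ₗ i j = LinearMap.id) :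
    ∑ j, (ModuleCat.ofHom (i j) ≫ ModuleCat.ofHom (r j)) = 𝟙 (ModuleCat.of A M) := by
  apply ModuleCat.hom_ext
  rw [ModuleCat.hom_sum, ModuleCat.hom_id]
  simp only [ModuleCat.hom_comp, ModuleCat.hom_ofHom]
  exact h

/-- [E4] PROOF. `Ext^i(-, N)` is additive: `α = (mk₀ id).comp α = ∑ j, (mk₀ (i j)).comp ((mk₀ (r j)).comp α)` and `(mk₀ (r j)).comp α ∈ Ext^i(M_j, N) = 0`. -/
theorem EV.sum_left {J : Type} [Fintype J] (Mj : J → Type) [∀ j, AddCommGroup (Mj j)]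
    [∀ j, Module A (Mj j)] (i : ∀ j, M →ₗ[A] Mj j) (r : ∀ j, Mj j →ₗ[A] M)
    (h : ∑ j, r j ∘ₗ i j = LinearMap.id) (hE : ∀ j, EV A (Mj j) N) : EV A M N := by
  intro n hn
  refine subsingleton_of_forall_eq 0 (fun α => ?_)
  rw [← Abelian.Ext.mk₀_id_comp α, ← e4_id Mj i r h, Abelian.Ext.mk₀_sum, Abelian.Ext.sum_comp]
  refine Finset.sum_eq_zero (fun j _ => ?_)
  rw [← Abelian.Ext.mk₀_comp_mk₀_assoc]
  have := hE j n hn
  rw [Subsingleton.elim ((Abelian.Ext.mk₀ (ModuleCat.ofHom (r j))).comp α (zero_add n)) 0,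
    Abelian.Ext.comp_zero]

/-- [E4] -/
theorem EV.sum_right {J : Type} [Fintype J] (Nj : J → Type) [∀ j, AddCommGroup (Nj j)]
    [∀ j, Module A (Nj j)] (i : ∀ j, N →ₗ[A] Nj j) (r : ∀ j, Nj j →ₗ[A] N)
    (h : ∑ j, r j ∘ₗ i j = LinearMap.id) (hE : ∀ j, EV A M (Nj j)) : EV A M N := by
  intro n hn
  refine subsingleton_of_forall_eq 0 (fun α => ?_)
  rw [← Abelian.Ext.comp_mk₀_id α, ← e4_id Nj i r h, Abelian.Ext.mk₀_sum, Abelian.Ext.comp_sum]
  refine Finset.sum_eq_zero (fun j _ => ?_)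
  rw [← Abelian.Ext.mk₀_comp_mk₀, ← Abelian.Ext.comp_assoc_of_third_deg_zero]
  have := hE j n hn
  rw [Subsingleton.elim (α.comp (Abelian.Ext.mk₀ (ModuleCat.ofHom (i j))) (add_zero n)) 0,
    Abelian.Ext.zero_comp]

variable {M' N' : Type} [AddCommGroup M'] [Module A M'] [AddCommGroup N'] [Module A N']

/-- [E4] -/
theorem EV.add_left (h : EV A M N) (hM : InAdd A M' M) : EV A M' N := by
  obtain ⟨n, i, r, hir⟩ := hM
  exact EV.sum_left (fun _ : Fin n => M) i r hir (fun _ => h)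

/-- [E4] -/
theorem EV.add_right (h : EV A M N) (hN : InAdd A N' N) : EV A M N' := by
  obtain ⟨n, i, r, hir⟩ := hN
  exact EV.sum_right (fun _ : Fin n => N) i r hir (fun _ => h)

/-- [E4] -/
theorem ev_of_injective (hN : Module.Injective A N) : EV A M N := by
  intro i hi
  obtain ⟨n, rfl⟩ : ∃ n, i = n + 1 := ⟨i - 1, by omega⟩
  exact ev_inj hN n

/-- [E4] -/
theorem ev_of_projective (hM : Module.Projective A M) : EV A M N := by
  intro i hi
  obtain ⟨n, rfl⟩ : ∃ n, i = n + 1 := ⟨i - 1, by omega⟩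
  exact ev_proj hM n

/-- [E4] -/
theorem tvan_iff : TVan A ↔ ∀ (M : Type) [AddCommGroup M] [Module A M], Module.Injective A M →
    Module.Finite A M → EV A M A := by
  constructor
  · intro h M _ _ hi hf i h1
    exact h (ModuleCat.of A M) hi hf i h1
  · intro h M hi hf i h1
    exact h M hi hf i h1

end

end NTC
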