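import Pool.Agent.NTC.R3a
import Pool.Agent.NTC.E4

/-!
# [NTC-R3b] finitely generated injective modules are in `add D(A)`
-/

set_option autoImplicit false

open CategoryTheory

namespace NTC

section DD
variable {K A : Type} [Field K] [Ring A] [Algebra K A]

/-- [R3] -/
theorem inAdd_of_injective (h : FiniteDimensional K A) (M : Type) [AddCommGroup M] [Module A M]
    (hf : Module.Finite A M) (hM : Module.Injective A M) : InAdd A M (DD K A) := by
  obtain ⟨n, f, hinj⟩ := exists_embed h M hf
  obtain ⟨r, hr⟩ := hM.out f hinj LinearMap.id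
  exact (InAdd.of_retract f r (LinearMap.ext hr)).trans (InAdd.pi n)

/-- [R3] -/
theorem tvan_of_dd [HasExt.{1} (ModuleCat.{0} A)] (h : FiniteDimensional K A)
    (hE : EV A (DD K A) A) : TVan A := by
  rw [tvan_iff]
  intro M _ _ hM hf
  exact hE.add_left (inAdd_of_injective h M hf hM)

end DD

end NTC
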