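import Pool.Agent.NTC.G3d
import Pool.Agent.NTC.E4
import Pool.Agent.NTC.R3b

/-!
# [NTC-G3c] `TVan` for `End N`
-/

set_option autoImplicit false

open CategoryTheory

namespace NTC

variable {K : Type} [Field K] {𝒟 : Type 1} [Category.{0} 𝒟] [Preadditive 𝒟] [Linear K 𝒟]

/-- a morphism `u : M ⟶ M'` induces `LL K N M' → LL K N M` -/
def g3c_map (N : 𝒟) {M M' : 𝒟} (u : M ⟶ M') : LL K N M' →ₗ[End N] LL K N M where
  toFun ξ := ⟨ξ.toFun ∘ₗ Linear.rightComp K N u⟩
  map_add' ξ η := by ext x; simp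
  map_smul' a ξ := by ext x; simp

@[simp] theorem g3c_map_apply (N : 𝒟) {M M' : 𝒟} (u : M ⟶ M') (ξ : LL K N M') (x : N ⟶ M) :
    (g3c_map N u ξ).toFun x = ξ.toFun (x ≫ u) := rfl

theorem g3c_sum {N : 𝒟} {M : 𝒟} {J : Type} (s : Finset J) (ξ : J → LL K N M) (x : N ⟶ M) :
    (∑ j ∈ s, ξ j).toFun x = ∑ j ∈ s, (ξ j).toFun x := by
  classical
  induction s using Finset.induction_on with
  | empty => simp
  | insert a s ha ih => rw [Finset.sum_insert ha, Finset.sum_insert ha, LL.add_toFun, LinearMap.add_apply, ih]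

/-- [G3] `End N` satisfies `TVan` if all summands `S j` of `N` have such a complex.
PROOF. `tvan_of_dd`; `DD K (End N) ∈ add (LL K N N)`, `LL K N N` is a retract of the product of the `LL K N (S j)`: `EV` by the same argument as `EV.add_left` with finitely
many different modules: prove first: if `∑ j, r j ∘ₗ i j = id_M` for `i j : M → M_j`, `r j : M_j → M` and `EV A (M_j) N` for all `j` then `EV A M N`. -/
theorem tvan_of_cx {N : 𝒟} [HasExt.{1} (ModuleCat.{0} (End N))] (hfd : FiniteDimensional K (End N))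
    {J : Type} [Fintype J] (S : J → 𝒟)
    (ι : ∀ j, S j ⟶ N) (π : ∀ j, N ⟶ S j) (h : ∑ j, π j ≫ ι j = 𝟙 N)
    (hS : ∀ j, EV (End N) (LL K N (S j)) (End N)) : TVan (End N) := by
  refine tvan_of_dd (K := K) hfd (EV.add_left (M := LL K N N) ?_ (inAdd_LL' N))
  refine EV.sum_left (fun j => LL K N (S j)) (fun j => g3c_map N (ι j)) (fun j => g3c_map N (π j)) ?_ hS
  refine LinearMap.ext fun ξ => LL.ext' fun x => ?_
  rw [LinearMap.sum_apply, g3c_sum, LinearMap.id_apply]
  have h1 : ∀ j, ((g3c_map (K := K) N (π j) ∘ₗ g3c_map N (ι j)) ξ).toFun x = ξ.toFun (x ≫ (π j ≫ ι j)) := by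
    intro j
    rw [LinearMap.comp_apply, g3c_map_apply, g3c_map_apply, Category.assoc]
  simp only [h1]
  rw [← map_sum, ← Preadditive.comp_sum, h, Category.comp_id]

end NTC
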