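import Pool.Agent.NTC.C2
import Pool.Agent.NTC.G3

/-!
# [NTC-A2] `add`, finiteness in `Ca` and `Cb`
-/

set_option autoImplicit false

open CategoryTheory

namespace NTC

variable {K A : Type} [Field K] [Ring A] [Algebra K A]

theorem inAdd_Ca {V W : Mo K A} (h : InAdd A V.T W.T) : InAddC (⟨V⟩ : Ca K A) ⟨W⟩ := by
  obtain ⟨n, i, r, hir⟩ := h
  exact ⟨n, i, r, hir⟩

/-- [A2] the roles of the two families are interchanged -/
theorem inAdd_Cb {V W : Mo K A} (h : InAdd A V.T W.T) : InAddC (⟨V⟩ : Cb K A) ⟨W⟩ := by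
  obtain ⟨n, i, r, hir⟩ := h
  exact ⟨n, r, i, hir⟩

theorem inAdd_of_Ca {V W : Mo K A} (h : InAddC (⟨V⟩ : Ca K A) ⟨W⟩) : InAdd A V.T W.T := by
  obtain ⟨n, i, r, hir⟩ := h
  exact ⟨n, i, r, hir⟩

/-- the linear maps between finite-dimensional modules form a finite-dimensional space -/
theorem a2_fd (V W : Mo K A) (hV : FiniteDimensional K V.T) (hW : FiniteDimensional K W.T) :
    FiniteDimensional K (V.T →ₗ[A] W.T) := by
  let ρ : (V.T →ₗ[A] W.T) →ₗ[K] (V.T →ₗ[K] W.T) :=
    { toFun := fun f => f.restrictScalars K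
      map_add' := fun _ _ => rfl
      map_smul' := fun _ _ => rfl }
  refine FiniteDimensional.of_injective ρ fun f g hfg => ?_
  ext x
  exact LinearMap.congr_fun hfg x

theorem fd_Ca (V W : Mo K A) (hV : FiniteDimensional K V.T) (hW : FiniteDimensional K W.T) :
    FiniteDimensional K ((⟨V⟩ : Ca K A) ⟶ ⟨W⟩) :=
  a2_fd V W hV hW

theorem fd_Cb (V : Mo K A) (hV : FiniteDimensional K V.T) :
    FiniteDimensional K (End (⟨V⟩ : Cb K A)) :=
  a2_fd V V hV hV

/-- [A2] PROOF. `End J = (J.T →ₗ[A] J.T)`; `f ↦ (f ∘ r) 1 = f (r 1)` is injective and `K`-linear: if `f (r 1) = 0` then `f (r a) = a • f (r 1) = 0` and `r` is surjective. -/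
theorem finrank_end_le (J : Mo K A) (i : J.T →ₗ[A] A) (r : A →ₗ[A] J.T)
    (h : r ∘ₗ i = LinearMap.id) (hfd : FiniteDimensional K J.T) :
    FiniteDimensional K (End (⟨J⟩ : Ca K A)) ∧
      Module.finrank K (End (⟨J⟩ : Ca K A)) ≤ Module.finrank K J.T := by
  refine ⟨a2_fd J J hfd hfd, ?_⟩
  let ρ : (J.T →ₗ[A] J.T) →ₗ[K] J.T :=
    { toFun := fun f => f (r 1)
      map_add' := fun _ _ => rfl
      map_smul' := fun _ _ => rfl }
  have hρ : Function.Injective ρ := by
    rw [← LinearMap.ker_eq_bot, LinearMap.ker_eq_bot']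
    intro f hf
    have hf' : f (r 1) = 0 := hf
    ext x
    have h1 : x = r (i x) := (LinearMap.congr_fun h x).symm
    have h2 : i x = i x • (1 : A) := by rw [smul_eq_mul, mul_one]
    rw [h1, h2, map_smul, map_smul, hf', smul_zero]
    rfl
  exact LinearMap.finrank_le_finrank_of_injective hρ

end NTC
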