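import Pool.Agent.NTC.A3d

/-!
# [NTC-A3b] `X` is not projective
-/

set_option autoImplicit false

open CategoryTheory

namespace NTC

variable {K A : Type} [Field K] [Ring A] [Algebra K A]

section
variable (J : Mo K A) (hJ : Module.Injective A J.T)
  (hadd : ∀ (M : Type) [AddCommGroup M] [Module A M], Module.Finite A M → Module.Projective A M →
        Module.Injective A M → InAdd A M J.T)
include hJ hadd

/-- [A3b] PROOF. Let `A →ε I 0 →d I 1` be the beginning of the coresolution, `I' n = Mo.ofMod K (I n)`, `⟨I' n⟩ ∈ add ⟨J⟩` (`inAdd_Ca`, `hadd`). `X = (RA ⟶ ⟨J⟩)` is finitely generated over `End J`: `pre ⟨J⟩ ε : (⟨I' 0⟩ ⟶ ⟨J⟩) → (RA ⟶ ⟨J⟩)` is surjective as `J` is injective, and `(⟨I' 0⟩ ⟶ ⟨J⟩)` is finitely generated (`finC`). So (`inAdd_of_projective`, `inAdd_end'`)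
`X ∈ add (End J) = add (J ⟶ J)`: `id = ∑ r k ∘ i k`, `i k : (RA ⟶ ⟨J⟩) → (⟨J⟩ ⟶ ⟨J⟩)`, `r k` back. `r k = (ρ k ≫ ·)`, `ρ k : RA ⟶ ⟨J⟩` (`yonC`, `InAddC.refl`). Let `A →ε I 0 →d I 1` be the beginning of the coresolution (`I' n` as in A3a).
`i k ∘ pre ε : (⟨I' 0⟩ ⟶ ⟨J⟩) → (⟨J⟩ ⟶ ⟨J⟩)` is `(σ k ≫ ·)`, `σ k : ⟨J⟩ ⟶ ⟨I' 0⟩` (`yonC`), and `σ k ≫ d = 0` (`faiC`: `(σ k ≫ d) ≫ f = i k (ε ≫ d ≫ f) = 0`), so `σ k = σ' k ≫ ε`, `σ' k : ⟨J⟩ ⟶ RA` (`range ε = ker d`, `ε` injective). Let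
`τ = 𝟙 - ∑ ρ k ≫ σ' k : RA ⟶ RA`. For `g : ⟨I' 0⟩ ⟶ ⟨J⟩`: `(∑ ρ k ≫ σ' k) ≫ ε ≫ g = ∑ ρ k ≫ σ k ≫ g = ∑ ρ k ≫ i k (ε ≫ g) = ∑ r k (i k (ε ≫ g)) = ε ≫ g`. So `(τ ≫ ε) ≫ g = 0` for all `g`, `τ ≫ ε = 0` (`faiC`), `τ = 0`. So `A ∈ add J`
and `A` is injective. -/
theorem injective_of_projective (hD : DomInf A)
    (hP : Module.Projective (End (⟨J⟩ : Ca K A)) (RA K A ⟶ ⟨J⟩)) : Module.Injective A A := by
  obtain ⟨I, ε, d, hε, h0, hd, hI⟩ := hD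
  have hc : ∀ n, InAddC (⟨Mo.ofMod K (I n)⟩ : Ca K A) ⟨J⟩ := fun n =>
    inAdd_Ca (hadd (I n) (hI n).1 (hI n).2.1 (hI n).2.2)
  let εm : RA K A ⟶ (⟨Mo.ofMod K (I 0)⟩ : Ca K A) := ε
  let dm : (⟨Mo.ofMod K (I 0)⟩ : Ca K A) ⟶ (⟨Mo.ofMod K (I 1)⟩ : Ca K A) := d 0
  have hε0 : εm ≫ dm = 0 := by
    refine LinearMap.ext fun x => ?_
    have h1 : ε x ∈ LinearMap.ker (d 0) := by
      rw [← h0]
      exact ⟨x, rfl⟩
    exact h1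
  have hs : Function.Surjective (pre (⟨J⟩ : Ca K A) εm) := by
    intro f
    obtain ⟨g, hg⟩ := hJ.out ε hε (f : A →ₗ[A] J.T)
    exact ⟨g, LinearMap.ext fun x => hg x⟩
  have hfin : Module.Finite (End (⟨J⟩ : Ca K A)) (RA K A ⟶ ⟨J⟩) := by
    have := finC (hc 0)
    exact Module.Finite.of_surjective (pre (⟨J⟩ : Ca K A) εm) hs
  obtain ⟨n, i, r, hir⟩ := (inAdd_of_projective hP hfin).trans (inAdd_end' (⟨J⟩ : Ca K A))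
  have hρ : ∀ k, ∃ θ : RA K A ⟶ (⟨J⟩ : Ca K A), ∀ f : (⟨J⟩ : Ca K A) ⟶ ⟨J⟩, r k f = θ ≫ f :=
    fun k => yonC (InAddC.refl _) (r k)
  choose ρ hρ using hρ
  have hσ : ∀ k, ∃ θ : (⟨J⟩ : Ca K A) ⟶ (⟨Mo.ofMod K (I 0)⟩ : Ca K A),
      ∀ f : (⟨Mo.ofMod K (I 0)⟩ : Ca K A) ⟶ ⟨J⟩, i k (εm ≫ f) = θ ≫ f :=
    fun k => yonC (hc 0) (i k ∘ₗ pre (⟨J⟩ : Ca K A) εm)
  choose σ hσ using hσ
  have hσd : ∀ k, σ k ≫ dm = 0 := by
    intro k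
    refine faiC (hc 1) _ fun f => ?_
    rw [Category.assoc, ← hσ, ← Category.assoc, hε0, Limits.zero_comp, map_zero]
  have hσ' : ∀ k, ∃ θ : (⟨J⟩ : Ca K A) ⟶ RA K A, θ ≫ εm = σ k := by
    intro k
    have h1 : ∀ y, (Ca.un (σ k)) y ∈ LinearMap.range ε := by
      intro y
      rw [h0]
      exact LinearMap.congr_fun (hσd k) y
    refine ⟨((LinearEquiv.ofInjective ε hε).symm : LinearMap.range ε →ₗ[A] A) ∘ₗ
      LinearMap.codRestrict (LinearMap.range ε) (Ca.un (σ k)) h1, ?_⟩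
    refine LinearMap.ext fun y => ?_
    show ε ((LinearEquiv.ofInjective ε hε).symm ⟨(Ca.un (σ k)) y, h1 y⟩) =
      (Ca.un (σ k)) y
    have h2 := (LinearEquiv.ofInjective ε hε).apply_symm_apply ⟨(Ca.un (σ k)) y, h1 y⟩
    exact congrArg Subtype.val h2
  choose σ' hσ' using hσ'
  have hτ : (∑ k, ρ k ≫ σ' k - 𝟙 (RA K A)) ≫ εm = 0 := by
    refine faiC (hc 0) _ fun g => ?_
    have h1 : (∑ k, ρ k ≫ σ' k) ≫ (εm ≫ g) = εm ≫ g := by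
      have h2 : ∀ k, (ρ k ≫ σ' k) ≫ (εm ≫ g) = r k (i k (εm ≫ g)) := by
        intro k
        rw [hσ, hρ, ← hσ' k]
        simp only [Category.assoc]
      rw [Preadditive.sum_comp, Finset.sum_congr rfl (fun k _ => h2 k)]
      have h3 := LinearMap.congr_fun hir (εm ≫ g)
      rw [LinearMap.sum_apply] at h3
      exact h3
    rw [Category.assoc, Preadditive.sub_comp, h1, Category.id_comp, sub_self]
  have hτ' : ∑ k, ρ k ≫ σ' k = 𝟙 (RA K A) := by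
    rw [← sub_eq_zero]
    refine LinearMap.ext fun x => hε ?_
    have h1 := LinearMap.congr_fun hτ x
    exact h1.trans (map_zero ε).symm
  have hA : InAddC (RA K A) ⟨J⟩ := ⟨n, ρ, σ', hτ'⟩
  exact (inAdd_of_Ca hA).injective hJ

end

end NTC
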