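import Pool.Agent.NTC.A3d

/-!
# [NTC-A3c] `X` is a generator
-/

set_option autoImplicit false

open CategoryTheory

namespace NTC

variable {K A : Type} [Field K] [Ring A] [Algebra K A]

section
variable (J : Mo K A) (hJ : Module.Injective A J.T) (hfd : FiniteDimensional K A)
  (i : J.T →ₗ[A] A) (r : A →ₗ[A] J.T) (h : r ∘ₗ i = LinearMap.id)
include hJ hfd h

/-- [A3c] `RA ⟶ ⟨J⟩` is finite-dimensional -/
theorem fin_X : Module.Finite (End (⟨J⟩ : Ca K A)) (RA K A ⟶ ⟨J⟩) := by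
  haveI : Module.Finite K A := hfd
  have hr : Function.Surjective (r.restrictScalars K) := fun x =>
    ⟨i x, LinearMap.congr_fun h x⟩
  have hJf : FiniteDimensional K J.T := Module.Finite.of_surjective (r.restrictScalars K) hr
  haveI h1 : Module.Finite K (RA K A ⟶ ⟨J⟩) := fd_Ca (Mo.of K A A) J hfd hJf
  haveI : IsScalarTower K (End (⟨J⟩ : Ca K A)) (RA K A ⟶ ⟨J⟩) :=
    ⟨fun c a f => Linear.comp_smul (RA K A) (⟨J⟩ : Ca K A) (⟨J⟩ : Ca K A) f c a⟩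
  exact Module.Finite.of_restrictScalars_finite K (End (⟨J⟩ : Ca K A)) (RA K A ⟶ ⟨J⟩)

/-- [A3c] (`InAddC.pre`, `inAdd_end'`) -/
theorem end_inAdd_X : InAdd (End (⟨J⟩ : Ca K A)) (End (⟨J⟩ : Ca K A)) (RA K A ⟶ ⟨J⟩) := by
  have h1 : InAddC (⟨J⟩ : Ca K A) (RA K A) := InAddC.of_retract (Ca.hom i) (Ca.hom r) h
  exact (inAdd_end' (⟨J⟩ : Ca K A)).trans (h1.pre (⟨J⟩ : Ca K A))

end

end NTC
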