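import Pool.Agent.NTC.A3d

/-!
# [NTC-A3e] `X` is a cogenerator
-/

set_option autoImplicit false

open CategoryTheory

namespace NTC

variable {K A : Type} [Field K] [Ring A] [Algebra K A]

/-- the `A`-linear map `J → DD` defined by a linear form on `J` -/
def a3e_Phi {V : Type} [AddCommGroup V] [Module K V] [Module A V] [IsScalarTower K A V]
    (φ : V →ₗ[K] K) : V →ₗ[A] DD K A where
  toFun y := ⟨φ ∘ₗ (LinearMap.toSpanSingleton A V y).restrictScalars K⟩
  map_add' y z := by ext a; simp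
  map_smul' b y := by ext a; simp [mul_smul]

theorem a3e_Phi_apply {V : Type} [AddCommGroup V] [Module K V] [Module A V] [IsScalarTower K A V]
    (φ : V →ₗ[K] K) (y : V) (a : A) : (a3e_Phi (A := A) φ y).toFun a = φ (a • y) := rfl

/-- the linear form on `J` defined by an `A`-linear map `J → DD` -/
def a3e_form {V : Type} [AddCommGroup V] [Module K V] [Module A V] [IsScalarTower K A V]
    (f : V →ₗ[A] DD K A) : V →ₗ[K] K where
  toFun y := (f y).toFun 1
  map_add' y z := by simp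
  map_smul' c y := by
    rw [LinearMap.map_smul_of_tower]
    simp

theorem a3e_Phi_form {V : Type} [AddCommGroup V] [Module K V] [Module A V] [IsScalarTower K A V]
    (f : V →ₗ[A] DD K A) : a3e_Phi (A := A) (a3e_form f) = f := by
  ext y a
  rw [a3e_Phi_apply]
  show (f (a • y)).toFun 1 = (f y).toFun a
  rw [map_smul, DD.smul_toFun, one_mul]

/-- `Phi` as a linear map in `φ` -/
def a3e_PhiL {V : Type} [AddCommGroup V] [Module K V] [Module A V] [IsScalarTower K A V] :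
    (V →ₗ[K] K) →ₗ[K] (V →ₗ[A] DD K A) where
  toFun φ := a3e_Phi φ
  map_add' φ ψ := by ext y a; simp [a3e_Phi_apply]
  map_smul' c φ := by ext y a; simp [a3e_Phi_apply]

section
variable (J : Mo K A) (hJ : Module.Injective A J.T) (hfd : FiniteDimensional K A)
  (i : J.T →ₗ[A] A) (r : A →ₗ[A] J.T) (h : r ∘ₗ i = LinearMap.id)
include hJ hfd h

/-- [A3c] PROOF. `inAdd_of_pairing` with `M₁ = RA`, `M₂ = ⟨Mo.of K A (DD K A)⟩`, `θ h = (h 1).toFun 1`: for `g : A → J`, `y = g 1` (all `y : J` occur), the maps `f : J → DD` correspond to the linear forms `φ` on `J` (`f y = (a ↦ φ (a y))`, `(f y) 1 = φ y`), `θ (g ≫ f) = φ y`: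
`h0`, `h1` hold as `J` is finite-dimensional. So `LL ⟨J⟩ ⟨DD⟩ ∈ add X`. `J ∈ add DD` (`inAdd_of_injective`; `J` is finitely generated) gives `LL ⟨J⟩ ⟨J⟩ ∈ add (LL ⟨J⟩ ⟨DD⟩)` (`InAddC.LL`), `inAdd_LL'`. -/
theorem dd_inAdd_X : InAdd (End (⟨J⟩ : Ca K A)) (DD K (End (⟨J⟩ : Ca K A))) (RA K A ⟶ ⟨J⟩) := by
  have hr : Function.Surjective r := fun y => ⟨i y, LinearMap.congr_fun h y⟩
  have hfin : Module.Finite A J.T := Module.Finite.of_surjective r hr
  have hfdJ : FiniteDimensional K J.T := Module.Finite.trans A J.T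
  let W : Mo K A := Mo.of K A (DD K A)
  let θ : (RA K A ⟶ (⟨W⟩ : Ca K A)) →ₗ[K] K :=
    { toFun := fun f => ((Ca.un f : A →ₗ[A] DD K A) 1).toFun 1
      map_add' := fun f g => rfl
      map_smul' := fun c f => rfl }
  have hθ : ∀ (g : RA K A ⟶ (⟨J⟩ : Ca K A)) (f : (⟨J⟩ : Ca K A) ⟶ (⟨W⟩ : Ca K A)),
      θ (g ≫ f) = ((Ca.un f : J.T →ₗ[A] DD K A) ((Ca.un g : A →ₗ[A] J.T) 1)).toFun 1 :=
    fun g f => rfl
  have key := inAdd_of_pairing (N := (⟨J⟩ : Ca K A)) θ ?_ ?_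
  · have h1 : InAdd A J.T (DD K A) := inAdd_of_injective (K := K) hfd J.T hfin hJ
    have h2 : InAddC (⟨J⟩ : Ca K A) (⟨W⟩ : Ca K A) := inAdd_Ca (V := J) (W := W) h1
    exact ((inAdd_LL' (K := K) (⟨J⟩ : Ca K A)).trans (h2.LL (⟨J⟩ : Ca K A))).trans key.2
  · intro g hg
    have hy : (Ca.un g : A →ₗ[A] J.T) 1 = 0 := by
      refine (Module.forall_dual_apply_eq_zero_iff K _).1 fun φ => ?_
      have h3 := hg (Ca.hom (V := J) (W := W) (a3e_Phi φ))
      rw [hθ] at h3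
      have h4 : (a3e_Phi (A := A) φ ((Ca.un g : A →ₗ[A] J.T) 1)).toFun 1 = 0 := h3
      rw [a3e_Phi_apply, one_smul] at h4
      exact h4
    have : (Ca.un g : A →ₗ[A] J.T) = 0 := by
      apply LinearMap.ext_ring
      rw [hy]
      rfl
    exact this
  · intro ξ
    let ev := Module.evalEquiv K J.T
    let y : J.T := ev.symm (ξ ∘ₗ (a3e_PhiL : (J.T →ₗ[K] K) →ₗ[K] (J.T →ₗ[A] DD K A)))
    have hy : ∀ φ : J.T →ₗ[K] K, φ y = ξ (Ca.hom (V := J) (W := W) (a3e_Phi φ)) := by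
      intro φ
      have h3 : ev y = ξ ∘ₗ (a3e_PhiL : (J.T →ₗ[K] K) →ₗ[K] (J.T →ₗ[A] DD K A)) :=
        ev.apply_symm_apply _
      have h4 := LinearMap.congr_fun h3 φ
      exact h4
    refine ⟨Ca.hom (V := Mo.of K A A) (W := J) (LinearMap.toSpanSingleton A J.T y), fun f => ?_⟩
    rw [hθ]
    have h5 : (Ca.un (Ca.hom (V := Mo.of K A A) (W := J) (LinearMap.toSpanSingleton A J.T y)) :
        A →ₗ[A] J.T) 1 = y := by
      show (LinearMap.toSpanSingleton A J.T y) 1 = y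
      simp
    rw [h5]
    have h6 := hy (a3e_form (Ca.un f : J.T →ₗ[A] DD K A))
    rw [a3e_Phi_form] at h6
    exact h6.symm

end

end NTC
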