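import Pool.Agent.NTC.A3d

/-!
# [NTC-A3a] `EV X X`
-/

set_option autoImplicit false

open CategoryTheory

namespace NTC

variable {K A : Type} [Field K] [Ring A] [Algebra K A]

theorem a3a_ext {Q : Type} [AddCommGroup Q] [Module A Q] (hQ : Module.Injective A Q)
    {X Y Z : Type} [AddCommGroup X] [Module A X] [AddCommGroup Y] [Module A Y] [AddCommGroup Z]
    [Module A Z] (a : X →ₗ[A] Y) (b : Y →ₗ[A] Z) (h : LinearMap.range a = LinearMap.ker b)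
    (f : Y →ₗ[A] Q) (hf : f ∘ₗ a = 0) : ∃ g : Z →ₗ[A] Q, g ∘ₗ b = f := by
  have hk : LinearMap.ker b ≤ LinearMap.ker f := by
    rw [← h]; exact LinearMap.range_le_ker_iff.2 hf
  obtain ⟨g, hg⟩ := hQ.out ((LinearMap.ker b).liftQ b le_rfl)
    (LinearMap.ker_eq_bot.1 (Submodule.ker_liftQ_eq_bot _ _ _ le_rfl))
    ((LinearMap.ker b).liftQ f hk)
  refine ⟨g, LinearMap.ext fun y => ?_⟩
  have := hg ((LinearMap.ker b).mkQ y)
  simpa using this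

section
variable (J : Mo K A) (hJ : Module.Injective A J.T)
  (hadd : ∀ (M : Type) [AddCommGroup M] [Module A M], Module.Finite A M → Module.Projective A M →
        Module.Injective A M → InAdd A M J.T)
include hJ hadd

/-- [A3a] PROOF. Let `A → I 0 → I 1 → ...` be as in `DomInf`; `I' n = Mo.ofMod K (I n)`, `⟨I' n⟩ ∈ add ⟨J⟩` (`inAdd_Ca`, `hadd`). `ev_of_resolution` with `P n = (⟨I' n⟩ ⟶ ⟨J⟩)`, `d n = pre ⟨J⟩ (d n)`, `π = pre ⟨J⟩ ε : P 0 → (RA ⟶ ⟨J⟩)`.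
`π` is surjective and the complex is exact as `J` is injective (a map `f : I (n+1) → J` with `f ∘ d n = 0` induces a map on `I (n+1) ⧸ range (d n) = I (n+1) ⧸ ker (d (n+1)) ≅ range (d (n+1))`, which extends to `I (n+2)`). `hN`: a linear map
`f : P (n+1) → (RA ⟶ ⟨J⟩)` is `θ ≫ ·` for `θ : RA ⟶ ⟨I' (n+1)⟩` (`yonC`), `θ ≫ d (n+1) = 0` (`faiC`), so `θ 1 ∈ ker (d (n+1)) = range (d n)`, `θ 1 = d n y`, `θ = θ' ≫ d n` with `θ' a = a • y`. -/
theorem ev_XX (hD : DomInf A) [HasExt.{1} (ModuleCat.{0} (End (⟨J⟩ : Ca K A)))] :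
    EV (End (⟨J⟩ : Ca K A)) (RA K A ⟶ ⟨J⟩) (RA K A ⟶ ⟨J⟩) := by
  obtain ⟨I, ε, d, hε, h0, hd, hI⟩ := hD
  let mK : ∀ n, Module K (I n) := fun n => Module.compHom (I n) (algebraMap K A)
  have tow : ∀ n, IsScalarTower K A (I n) := fun n => ⟨fun c a x => by
    show (c • a) • x = algebraMap K A c • a • x
    rw [Algebra.smul_def, mul_smul]⟩
  let O : ℕ → Ca K A := fun n => ⟨Mo.of K A (I n)⟩
  let δ : ∀ n, O n ⟶ O (n + 1) := fun n => d n
  let e : RA K A ⟶ O 0 := ε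
  have hO : ∀ n, InAddC (O n) (⟨J⟩ : Ca K A) := fun n =>
    inAdd_Ca (V := Mo.of K A (I n)) (W := J) (hadd (I n) (hI n).1 (hI n).2.1 (hI n).2.2)
  have hE : ∀ n (f : O (n + 1) ⟶ (⟨J⟩ : Ca K A)), δ n ≫ f = 0 →
      ∃ g : O (n + 2) ⟶ (⟨J⟩ : Ca K A), δ (n + 1) ≫ g = f := fun n f hf =>
    a3a_ext hJ (d n) (d (n + 1)) (hd n) f hf
  refine ev_of_resolution (A := End (⟨J⟩ : Ca K A)) (fun n => (O n ⟶ (⟨J⟩ : Ca K A)))
    (fun n => projC (hO n)) (fun n => pre ⟨J⟩ (δ n)) (pre ⟨J⟩ e) ?_ ?_ ?_ ?_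
  · intro f
    obtain ⟨g, hg⟩ := hJ.out ε hε (show A →ₗ[A] J.T from f)
    exact ⟨g, LinearMap.ext hg⟩
  · apply le_antisymm
    · intro f hf
      obtain ⟨g, hg⟩ := a3a_ext hJ ε (d 0) h0 (show I 0 →ₗ[A] J.T from f) hf
      exact ⟨g, hg⟩
    · rintro _ ⟨g, rfl⟩
      show (g : I 1 →ₗ[A] J.T) ∘ₗ d 0 ∘ₗ ε = 0
      have : d 0 ∘ₗ ε = 0 := LinearMap.range_le_ker_iff.1 h0.le
      rw [this, LinearMap.comp_zero]
  · intro n
    apply le_antisymm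
    · intro f hf
      obtain ⟨g, hg⟩ := hE n f hf
      exact ⟨g, hg⟩
    · rintro _ ⟨g, rfl⟩
      show (g : I (n + 2) →ₗ[A] J.T) ∘ₗ d (n + 1) ∘ₗ d n = 0
      have : d (n + 1) ∘ₗ d n = 0 := LinearMap.range_le_ker_iff.1 (hd n).le
      rw [this, LinearMap.comp_zero]
  · intro n f hf
    obtain ⟨θ, hθ⟩ := yonC (hO (n + 1)) f
    have h1 : θ ≫ δ (n + 1) = 0 := by
      refine faiC (hO (n + 2)) _ fun g => ?_
      rw [Category.assoc, ← hθ]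
      exact LinearMap.congr_fun hf g
    have h2 : d (n + 1) ((show A →ₗ[A] I (n + 1) from θ) 1) = 0 :=
      LinearMap.congr_fun (show d (n + 1) ∘ₗ (show A →ₗ[A] I (n + 1) from θ) = 0 from h1) 1
    obtain ⟨y, hy⟩ : (show A →ₗ[A] I (n + 1) from θ) 1 ∈ LinearMap.range (d n) := by
      rw [hd n]; exact h2
    let θ' : RA K A ⟶ O n := LinearMap.toSpanSingleton A (I n) y
    have h3 : θ' ≫ δ n = θ := by
      show d n ∘ₗ LinearMap.toSpanSingleton A (I n) y = (show A →ₗ[A] I (n + 1) from θ)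
      refine LinearMap.ext_ring ?_
      rw [LinearMap.comp_apply, LinearMap.toSpanSingleton_apply, one_smul, hy]
    refine ⟨pre ⟨J⟩ θ', LinearMap.ext fun x => ?_⟩
    show f x = θ' ≫ δ n ≫ x
    rw [hθ, ← Category.assoc, h3]

end

end NTC
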