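import Pool.Agent.NTC.A2

/-!
# [NTC-A3d] the regular module as an object of `Ca` (no sorry)
-/

set_option autoImplicit false

open CategoryTheory

namespace NTC

variable {K A : Type} [Field K] [Ring A] [Algebra K A]

/-- the regular module -/
abbrev RA (K A : Type) [Field K] [Ring A] [Algebra K A] : Ca K A := ⟨Mo.of K A A⟩

end NTC
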