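import Pool.Agent.NTC.P1a

/-!
# [NTC-P2b] the beginning of the coresolution
-/

set_option autoImplicit false

open CategoryTheory

namespace NTC

namespace Dat

variable {K Λ : Type} [Field K] [Ring Λ] [Algebra K Λ] (D : Dat K Λ)

theorem p2b_glue {J : Type} [Fintype J] [DecidableEq J] (S : J → Gr K Λ) {T T' : Gr K Λ}
    (π : T ⟶ T') (g : T ⟶ pi S) (f : ∀ j, T' ⟶ S j)
    (hf : ∀ j, g ≫ pi.proj S j = π ≫ f j) : g = π ≫ (∑ j, f j ≫ pi.inj S j) := by
  have h1 : g = g ≫ 𝟙 (pi S) := (Category.comp_id g).symm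
  rw [h1, ← pi.total, Preadditive.comp_sum, Preadditive.comp_sum]
  refine Finset.sum_congr rfl fun j _ => ?_
  rw [← Category.assoc, hf j, Category.assoc]

theorem p2b_comp3 {J : Type} [Fintype J] [DecidableEq J] (S : J → Gr K Λ) {T : Gr K Λ} (i j : J)
    (φ : T ⟶ S j) (a : pi S ⟶ pi S) (h : (φ ≫ pi.inj S j) ≫ a = 0) :
    φ ≫ (pi.inj S j ≫ a ≫ pi.proj S i) = 0 := by
  rw [← Category.assoc, ← Category.assoc, h, Limits.zero_comp]

/-- a morphism into `N` is determined by its components -/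
theorem p2b_ext {T : Gr K Λ} (f : T ⟶ pi D.S) (h : ∀ j, f ≫ pi.proj D.S j = 0) : f = 0 := by
  have h1 : f = f ≫ 𝟙 (pi D.S) := (Category.comp_id f).symm
  rw [h1, ← pi.total, Preadditive.comp_sum]
  refine Finset.sum_eq_zero fun j _ => ?_
  rw [← Category.assoc, h j, Limits.zero_comp]

/-- a morphism from `N` is determined by its components -/
theorem p2b_ext' {T : Gr K Λ} (f : pi D.S ⟶ T) (h : ∀ j, pi.inj D.S j ≫ f = 0) : f = 0 := by
  have h1 : f = 𝟙 (pi D.S) ≫ f := (Category.id_comp f).symm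
  rw [h1, ← pi.total, Preadditive.sum_comp]
  refine Finset.sum_eq_zero fun j _ => ?_
  rw [Category.assoc, h j, Limits.comp_zero]

theorem p2b_un {a b : ZMod 6} (h : adm a b) {V W : Mo K Λ} (φ : V.T →ₗ[Λ] W.T)
    (h0 : bm (K := K) (Λ := Λ) a b φ = 0) : φ = 0 := by
  rw [← un_bm h φ, h0, map_zero]

/-- cancellation of `π` for the components -/
theorem p2b_epi (b : ZMod 6) (V : Mo K Λ) (f : B 1 D.X ⟶ B b V)
    (h : bm (V := Fr K Λ D.p) (W := D.X) 1 1 D.π ≫ f = 0) : f = 0 := by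
  by_cases hb : adm 1 b
  · rw [← bm_un f] at h ⊢
    rw [bm_comp (adm_refl 1) hb] at h
    have h1 := p2b_un hb _ h
    have h2 : un f = 0 := by
      ext x
      obtain ⟨y, rfl⟩ := D.π_surj x
      exact LinearMap.congr_fun h1 y
    rw [h2, bm_zero]
  · exact hom_zero hb f

/-- [P2] PROOF. The components `F_l` of `f : B 1 X ⟶ N` satisfy `F_l ∘ π = 0`. -/
theorem epi_π (f : B 1 D.X ⟶ D.N) (h : bm (V := Fr K Λ D.p) (W := D.X) 1 1 D.π ≫ f = 0) : f = 0 := by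
  refine D.p2b_ext f fun j => ?_
  refine D.p2b_epi (at' j) (D.mo j) _ ?_
  have h1 : bm (V := Fr K Λ D.p) (W := D.X) 1 1 D.π ≫ (f ≫ pi.proj D.S j) =
      (bm (V := Fr K Λ D.p) (W := D.X) 1 1 D.π ≫ f) ≫ pi.proj D.S j :=
    (Category.assoc _ _ _).symm
  exact h1.trans ((congrArg (fun t => t ≫ pi.proj D.S j) h).trans Limits.zero_comp)

/-- factorization of the components -/
theorem p2b_fac (b : ZMod 6) (V : Mo K Λ) (g : B 1 (Fr K Λ D.p) ⟶ B b V)
    (h : bF K 1 D.d ≫ g = 0) :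
    ∃ f : B 1 D.X ⟶ B b V, g = bm (V := Fr K Λ D.p) (W := D.X) 1 1 D.π ≫ f := by
  by_cases hb : adm 1 b
  · rw [← bm_un g] at h
    rw [bm_comp (adm_refl 1) hb] at h
    obtain ⟨ψ, hψ⟩ : ∃ ψ : D.X.T →ₗ[Λ] V.T, un g = ψ ∘ₗ D.π :=
      D.P_fac (un g) (p2b_un hb _ h)
    refine ⟨bm (V := D.X) (W := V) 1 b ψ, ?_⟩
    rw [bm_comp (adm_refl 1) hb]
    have h2 : g = bm 1 b (un g) := (bm_un g).symm
    rw [h2, hψ]
  · exact ⟨0, by rw [Limits.comp_zero]; exact hom_zero hb g⟩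

/-- [P2] PROOF. Compose with the projections to the summands: `g ≫ proj i = bm 1 _ φ` or `0`, `φ ∘ d = 0`, `φ = ψ ∘ π` (`P_fac`). -/
theorem ex_π (g : B 1 (Fr K Λ D.p) ⟶ D.N) (h : bF K 1 D.d ≫ g = 0) :
    ∃ f : B 1 D.X ⟶ D.N, g = bm (V := Fr K Λ D.p) (W := D.X) 1 1 D.π ≫ f := by
  have key : ∀ j, ∃ f : B 1 D.X ⟶ B (at' j) (D.mo j),
      (g ≫ pi.proj D.S j : B 1 (Fr K Λ D.p) ⟶ B (at' j) (D.mo j)) =
        bm (V := Fr K Λ D.p) (W := D.X) 1 1 D.π ≫ f := by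
    intro j
    refine D.p2b_fac (at' j) (D.mo j) _ ?_
    have h1 : bF K 1 D.d ≫ (g ≫ pi.proj D.S j) = (bF K 1 D.d ≫ g) ≫ pi.proj D.S j :=
      (Category.assoc _ _ _).symm
    exact h1.trans ((congrArg (fun t => t ≫ pi.proj D.S j) h).trans Limits.zero_comp)
  choose f hf using key
  exact ⟨_, p2b_glue D.S _ g f hf⟩

/-- separation for the components -/
theorem p2b_sep {b c : ZMod 6} {V W : Mo K Λ} (a : B b V ⟶ B c W)
    (h : ∀ φ : B b (Mo.of K Λ Λ) ⟶ B b V, φ ≫ a = 0) : a = 0 := by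
  by_cases hb : adm b c
  · rw [← bm_un a]
    have h2 : un a = 0 := by
      ext t
      have h3 := h (bm (V := Mo.of K Λ Λ) (W := V) b b (LinearMap.toSpanSingleton Λ V.T t))
      rw [← bm_un a, bm_comp (adm_refl b) hb] at h3
      have h4 := LinearMap.congr_fun (p2b_un hb _ h3) (1 : Λ)
      have h5 : un a (LinearMap.toSpanSingleton Λ V.T t 1) = 0 := h4
      rw [LinearMap.toSpanSingleton_apply, one_smul] at h5
      exact h5
    rw [h2, bm_zero]
  · exact hom_zero hb a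

/-- [P2] PROOF. Let `t` be an element of the module of a summand `S j = B b V` and `φ : B b Λ ⟶ N` the composition of `bm b b (x ↦ x • t)` with `inj j`. `φ ≫ a = 0` says that the components of `a` vanish at `inj t`. -/
theorem sep (a : D.N ⟶ D.N) (h : ∀ (b : ZMod 6) (φ : B b (Mo.of K Λ Λ) ⟶ D.N), φ ≫ a = 0) :
    a = 0 := by
  refine D.p2b_ext a fun i => ?_
  refine D.p2b_ext' _ fun j => ?_
  refine p2b_sep (b := at' j) (c := at' i) (V := D.mo j) (W := D.mo i)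
    (pi.inj D.S j ≫ a ≫ pi.proj D.S i) fun φ => ?_
  have h1 := h (at' j) (φ ≫ pi.inj D.S j)
  exact p2b_comp3 D.S i j φ a h1

end Dat

end NTC
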