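import Pool.Agent.NTC.P2a
import Pool.Agent.NTC.P2b

/-!
# [NTC-P2c] `End N` has finite dominant dimension
-/

set_option autoImplicit false

open CategoryTheory

namespace NTC

namespace Dat

variable {K Λ : Type} [Field K] [Ring Λ] [Algebra K Λ] (D : Dat K Λ)

/-- [P2] PROOF. `not_domInf` with `Q₀ = B 1 Λ^p`, `Q₁ = B 1 Λ^q`, `Y = B 1 X`, `δ = bF 1 d`, `p = bm 1 1 π`, `W b = B b Λ`. Let `c₀ : Λ^q → U` be as in `exists_c` (`D.nproj`); `c = bm 1 0 c₀ ≫ inj (inr true)`.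
`hc`: `l = bm b 1 λ₀` or `0`, `d ∘ λ₀ = 0`, so `c₀ ∘ λ₀ = 0`, `l ≫ bm 1 0 c₀ = bm b 0 (c₀ ∘ λ₀) = 0`. `hc'`: if `c = δ ≫ g` then `bm 1 0 c₀ = bF 1 d ≫ (g ≫ proj (inr true))`, `g ≫ proj = bm 1 0 g₀`, `c₀ = g₀ ∘ d`. -/
theorem not_domInf_N : ¬ DomInf (End D.N) := by
  obtain ⟨c₀, hc1, hc2⟩ := exists_c D.d D.jU D.jU_inj D.jU_range D.π D.π_surj D.π_ker D.nproj
  have hπd : D.π ∘ₗ D.d = 0 := by
    apply LinearMap.ext
    intro x
    have h1 : D.d x ∈ LinearMap.ker D.π := by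
      rw [D.π_ker]
      exact ⟨x, rfl⟩
    exact h1
  have a11 : adm (1 : ZMod 6) 1 := adm_refl 1
  have a10 : adm (1 : ZMod 6) 0 := by decide
  let cU : B 1 (Fr K Λ D.q) ⟶ B 0 D.U := bm (V := Fr K Λ D.q) (W := D.U) 1 0 c₀
  let iU : B 0 D.U ⟶ D.N := pi.inj D.S (Sum.inr true)
  let pU : D.N ⟶ B 0 D.U := pi.proj D.S (Sum.inr true)
  have hip : iU ≫ pU = 𝟙 (B 0 D.U) := pi.inj_proj D.S (Sum.inr true)
  refine not_domInf (N := D.N) (Q₀ := B 1 (Fr K Λ D.p)) (Q₁ := B 1 (Fr K Λ D.q)) (Y := B 1 D.X)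
    (D.N_inAdd' 1 _ (InAdd.pi D.p)) (D.N_inAdd' 1 _ (InAdd.pi D.q)) D.N_X (bF K 1 D.d)
    (bm (V := Fr K Λ D.p) (W := D.X) 1 1 D.π) ?_ (fun f h => D.epi_π f h) (fun g h => D.ex_π g h)
    (D.inj_B 1 D.p) (D.inj_B 1 D.q) (fun b : ZMod 6 => B b (Mo.of K Λ Λ))
    (fun a h => D.sep a h) (cU ≫ iU) ?_ ?_
  · rw [bm_comp a11 a11]
    have : (D.π ∘ₗ D.d : (Fr K Λ D.q).T →ₗ[Λ] D.X.T) = 0 := hπd
    rw [this, bm_zero]
  · intro b l hl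
    rw [← Category.assoc]
    by_cases hb : adm b 1
    · have h1 : l = bm (V := Mo.of K Λ Λ) (W := Fr K Λ D.q) b 1 (un l) := (bm_un l).symm
      have h2 : (D.d ∘ₗ (un l : Λ →ₗ[Λ] (Fin D.q → Λ))) = 0 := by
        rw [h1, bm_comp hb a11] at hl
        have h3 := congrArg un hl
        rw [un_bm hb, map_zero] at h3
        exact h3
      have h3 : (c₀ ∘ₗ (un l : Λ →ₗ[Λ] (Fin D.q → Λ)) : Λ →ₗ[Λ] D.U.T) = 0 := by
        apply LinearMap.ext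
        intro x
        exact hc1 _ (LinearMap.congr_fun h2 x)
      have h4 : l ≫ cU = 0 := by
        rw [h1, bm_comp hb a10]
        rw [show (c₀ ∘ₗ (un l : (Mo.of K Λ Λ).T →ₗ[Λ] (Fr K Λ D.q).T) :
          (Mo.of K Λ Λ).T →ₗ[Λ] D.U.T) = 0 from h3, bm_zero]
      rw [h4, Limits.zero_comp]
    · rw [hom_zero hb l, Limits.zero_comp, Limits.zero_comp]
  · rintro ⟨g, hg⟩
    apply hc2
    refine ⟨un (g ≫ pU), ?_⟩
    have h1 : cU = bF K 1 D.d ≫ (g ≫ pU) := by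
      rw [← Category.assoc, ← hg, Category.assoc, hip, Category.comp_id]
    have h2 : g ≫ pU = bm (V := Fr K Λ D.p) (W := D.U) 1 0 (un (g ≫ pU)) := (bm_un _).symm
    rw [h2, bm_comp a11 a10] at h1
    have h3 := congrArg un h1
    rw [un_bm a10, un_bm a10] at h3
    exact h3

end Dat

end NTC
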