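import Pool.Agent.NTC.P1
import Pool.Agent.NTC.P2c

/-!
# [NTC-P2] Part B (complete)
-/

set_option autoImplicit false

open CategoryTheory

namespace NTC

/-- [P2] Part B. -/
theorem partB {K Λ : Type} [Field K] [Ring Λ] [Algebra K Λ] [HasExt.{1} (ModuleCat.{0} Λ)]
    (hfd : FiniteDimensional K Λ) (hinj : Module.Injective Λ Λ) (hdd : InAdd Λ (DD K Λ) Λ)
    (X : Type) [AddCommGroup X] [Module Λ X] (hX : Module.Finite Λ X) (hE : EV Λ X X)
    (hn : ¬ Module.Projective Λ X) :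
    ∃ (A : Type) (_ : Ring A) (_ : Algebra K A), FiniteDimensional K A ∧ ¬ DomInf A ∧
      ∀ [HasExt.{1} (ModuleCat.{0} A)], TVan A := by
  obtain ⟨D⟩ := exists_dat hfd hinj hdd X hX hE hn
  exact ⟨End D.N, inferInstance, inferInstance, D.fdN, D.not_domInf_N, D.tvan_N⟩

end NTC
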