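import Pool.Agent.NTC.Q1

/-!
# [NTC-Q2] a left selfinjective finite-dimensional algebra is quasi-Frobenius
-/

set_option autoImplicit false

namespace NTC

open Module in
theorem q2_claim {K Λ : Type} [Field K] [Ring Λ] [Algebra K Λ] (hfd : FiniteDimensional K Λ) :
    ∀ (n : ℕ) (P Q : Type) [AddCommGroup P] [Module Λ P] [AddCommGroup Q] [Module Λ Q],
      finrank K ((tr Λ P).restrictScalars K) < n → InAdd Λ P Λ → InAdd Λ Q (DD K Λ) →
      InAdd Λ (NN K Λ Q) P → InAdd Λ P Q → InAdd Λ Q P := by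
  intro n
  induction n with
  | zero =>
    intro P Q _ _ _ _ h
    exact absurd h (Nat.not_lt_zero _)
  | succ n ih =>
    intro P Q _ _ _ _ hn hP hQ hNQ hPQ
    by_contra hQP
    have h1 : InAdd Λ (NN K Λ P) (NN K Λ Q) := hPQ.nn
    have h2 : InAdd Λ (NN K Λ P) P := h1.trans hNQ
    have h3 : InAdd Λ P (DD K Λ) := hPQ.trans hQ
    have h4 : ¬ InAdd Λ P (NN K Λ P) := by
      intro h5
      apply hQP
      exact nn_reflect hfd hQ h3 (hNQ.trans h5)
    have h6 : tr Λ (NN K Λ P) ≤ tr Λ P := tr_mono h2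
    have h7 : tr Λ (NN K Λ P) < tr Λ P := by
      refine lt_of_le_not_ge h6 fun h8 => h4 ?_
      exact inAdd_of_tr hP h8
    have h9 : finrank K ((tr Λ (NN K Λ P)).restrictScalars K) <
        finrank K ((tr Λ P).restrictScalars K) := by
      apply Submodule.finrank_lt_finrank_of_lt
      exact h7
    apply h4
    exact ih (NN K Λ P) P (by omega) (h2.trans hP) h3 (InAdd.refl Λ _) h2

/-- [Q2] PROOF. `Λ ∈ add DD` (`inAdd_of_injective`). Suppose `DD ∉ add Λ`. Claim: for all `n`, there are no modules `P`, `Q` (in `Type`) with `finrank K (tr P) ≤ n`, `P ∈ add Λ`, `Q ∈ add DD`, `P ∈ add NN(Q)`, `NN(Q) ∈ add P`, `P ∈ add Q`, `Q ∉ add P`.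
(For `P = Λ`, `Q = DD` all these conditions hold by `nn_dd`; contradiction.)
Induction on `n`: let `P, Q` be such modules and `P' = NN(P)`, `Q' = P`. `Q' = P ∈ add Q ⊆ add DD`. `P' ∈ add NN(Q')`, `NN(Q') ∈ add P'` (`InAdd.refl`). `P' = NN(P) ∈ add NN(Q)` (`InAdd.nn`) `⊆ add P = add Q'`; so `P' ∈ add Λ`. `Q' ∉ add P'`: if
`P ∈ add NN(P)` then `NN(Q) ∈ add P ⊆ add NN(P)`, so `Q ∈ add P` (`nn_reflect`), contradiction. `tr P' ≤ tr P` (`tr_mono`) and `tr P' ≠ tr P` (otherwise `P ∈ add P'` by `inAdd_of_tr`), so `finrank (tr P') < finrank (tr P)` (as `K`-subspaces of `Λ`: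
`Submodule.restrictScalars K`; `Submodule.finrank_lt_finrank_of_lt`). -/
theorem qf {K Λ : Type} [Field K] [Ring Λ] [Algebra K Λ] (hfd : FiniteDimensional K Λ)
    (h : Module.Injective Λ Λ) : InAdd Λ (DD K Λ) Λ := by
  refine q2_claim hfd _ Λ (DD K Λ) (Nat.lt_succ_self _) (InAdd.refl Λ Λ) (InAdd.refl Λ _)
    (nn_dd hfd).1 ?_
  exact inAdd_of_injective hfd Λ inferInstance h

end NTC
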