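import Pool.Agent.NTC.A1
import Pool.Agent.NTC.A3
import Pool.Agent.NTC.P2
import Pool.Agent.NTC.Q2

/-!
# [NTC-A4] Q1 for all algebras implies the Nakayama conjecture
-/

set_option autoImplicit false

open CategoryTheory

namespace NTC

/-- [A4] PROOF. Strong induction on `n = finrank K A`. Suppose `DomInf A` and `A` is not injective. `J` as in `exists_J`, `L = End ⟨J⟩` (in `Ca`), `X = (RA ⟶ ⟨J⟩)`, `finrank L < finrank A` (`finrank_end_le`). By induction NC holds for `L`, so `TC1 L` (`H`).
`TVan L`: `tvan_of_dd` and `EV L (DD K L) L`, from `ev_XX` by `EV.add_left` (`dd_inAdd_X`) and `EV.add_right` (`end_inAdd_X`). So `L` is injective; `InAdd L (DD K L) L` by `qf`. `X` is not projective (`injective_of_projective`), so `partB` gives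
`A'` with `¬ DomInf A'` and `TVan A'`. `NC A'` holds, so `TC1 A'` (`H`), so `A'` is injective, so `DomInf A'` (`domInf_of_injective`): contradiction. -/
theorem partA (K : Type) [Field K]
    (H : ∀ (A : Type) [Ring A] [Algebra K A] [FiniteDimensional K A]
      [HasExt.{1} (ModuleCat.{0} A)], NC A → TC1 A)
    (A : Type) [Ring A] [Algebra K A] [FiniteDimensional K A] : NC A := by
  suffices key : ∀ (n : ℕ) (A : Type) [Ring A] [Algebra K A] [FiniteDimensional K A],
      Module.finrank K A = n → NC A from key _ A rfl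
  intro n
  induction n using Nat.strong_induction_on with
  | _ n IH =>
    intro A _ _ hfd hn hD
    by_contra hninj
    obtain ⟨J, i, r, h, hJ, hlt, hadd⟩ := exists_J (K := K) hfd hninj
    have hr : Function.Surjective r := fun y => ⟨i y, LinearMap.congr_fun h y⟩
    have hfin : Module.Finite A J.T := Module.Finite.of_surjective r hr
    have hfdJ : FiniteDimensional K J.T := Module.Finite.trans A J.T
    obtain ⟨hfdL, hle⟩ := finrank_end_le J i r h hfdJ
    have hext : HasExt.{1} (ModuleCat.{0} (End (⟨J⟩ : Ca K A))) := HasExt.standard _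
    have hNC : NC (End (⟨J⟩ : Ca K A)) :=
      IH (Module.finrank K (End (⟨J⟩ : Ca K A))) (by omega) (End (⟨J⟩ : Ca K A)) rfl
    have hTC : TC1 (End (⟨J⟩ : Ca K A)) := H (End (⟨J⟩ : Ca K A)) hNC
    have hxx := ev_XX J hJ hadd hD
    have hEV : EV (End (⟨J⟩ : Ca K A)) (DD K (End (⟨J⟩ : Ca K A))) (End (⟨J⟩ : Ca K A)) :=
      (hxx.add_left (dd_inAdd_X J hJ hfd i r h)).add_right (end_inAdd_X J hJ hfd i r h)
    have hTV : TVan (End (⟨J⟩ : Ca K A)) := tvan_of_dd hfdL hEV
    have hinjL : Module.Injective (End (⟨J⟩ : Ca K A)) (End (⟨J⟩ : Ca K A)) := hTC hTV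
    have hdd := qf hfdL hinjL
    have hnp : ¬ Module.Projective (End (⟨J⟩ : Ca K A)) (RA K A ⟶ ⟨J⟩) :=
      fun hP => hninj (injective_of_projective J hJ hadd hD hP)
    obtain ⟨A', _, _, hfd', hnD, hTV'⟩ :=
      partB hfdL hinjL hdd (RA K A ⟶ ⟨J⟩) (fin_X J hJ hfd i r h) hxx hnp
    have hext' : HasExt.{1} (ModuleCat.{0} A') := HasExt.standard _
    have hNC' : NC A' := fun hD' => absurd hD' hnD
    have hinj' : Module.Injective A' A' := H A' hNC' hTV'
    exact hnD (domInf_of_injective A' hinj')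

end NTC
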