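import Pool.Agent.NTC.G3

/-!
# [NTC-C0] the category `Gr K Λ` (no row: definitions, complete)

`Gr K Λ` is the category of modules over `Λ ⊗ C`, `C` the selfinjective Nakayama algebra with six vertices and `rad ^ 3 = 0`, in disguise, restricted to the objects
induced from `Λ`. An object is a `Λ`-module `T` with endomorphisms `p a`, `a : ZMod 6`; a morphism is a triple `(F₀, F₁, F₂)` of linear maps, `F_l ∘ p a = p (a - l) ∘ F_l`,
composed as truncated polynomials. `B a V` is the module `V` at the vertex `a`.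
-/

set_option autoImplicit false

open CategoryTheory

namespace NTC

section
variable (K Λ : Type) [Field K] [Ring Λ] [Algebra K Λ]

/-- bundled modules -/
structure Mo : Type 1 where
  /-- the module -/
  T : Type
  [acg : AddCommGroup T]
  [modK : Module K T]
  [mod : Module Λ T]
  [tower : IsScalarTower K Λ T]

attribute [instance] Mo.acg Mo.modK Mo.mod Mo.tower

/-- the category -/
structure Gr : Type 1 where
  /-- the module -/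
  T : Type
  [acg : AddCommGroup T]
  [modK : Module K T]
  [mod : Module Λ T]
  [tower : IsScalarTower K Λ T]
  /-- the endomorphisms -/
  p : ZMod 6 → (T →ₗ[Λ] T)

attribute [instance] Gr.acg Gr.modK Gr.mod Gr.tower

end

variable {K Λ : Type} [Field K] [Ring Λ] [Algebra K Λ]

/-- bundling -/
abbrev Mo.of (K Λ V : Type) [Field K] [Ring Λ] [Algebra K Λ] [AddCommGroup V] [Module K V] [Module Λ V]
    [IsScalarTower K Λ V] : Mo K Λ := ⟨V⟩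

/-- the morphisms -/
def Gr.sub (M M' : Gr K Λ) :
    Submodule K ((M.T →ₗ[Λ] M'.T) × (M.T →ₗ[Λ] M'.T) × (M.T →ₗ[Λ] M'.T)) where
  carrier := {F | ∀ a, F.1 ∘ₗ M.p a = M'.p a ∘ₗ F.1 ∧ F.2.1 ∘ₗ M.p a = M'.p (a - 1) ∘ₗ F.2.1 ∧
    F.2.2 ∘ₗ M.p a = M'.p (a - 2) ∘ₗ F.2.2}
  zero_mem' a := by simp
  add_mem' {F G} hF hG a := by
    obtain ⟨h0, h1, h2⟩ := hF a
    obtain ⟨g0, g1, g2⟩ := hG a
    refine ⟨?_, ?_, ?_⟩
    · rw [Prod.fst_add, LinearMap.add_comp, LinearMap.comp_add, h0, g0]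
    · rw [Prod.snd_add, Prod.fst_add, LinearMap.add_comp, LinearMap.comp_add, h1, g1]
    · rw [Prod.snd_add, Prod.snd_add, LinearMap.add_comp, LinearMap.comp_add, h2, g2]
  smul_mem' c F hF a := by
    obtain ⟨h0, h1, h2⟩ := hF a
    refine ⟨?_, ?_, ?_⟩
    · ext x
      have := LinearMap.congr_fun h0 x
      simp only [LinearMap.comp_apply] at this
      simp [this, LinearMap.map_smul_of_tower]
    · ext x
      have := LinearMap.congr_fun h1 x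
      simp only [LinearMap.comp_apply] at this
      simp [this, LinearMap.map_smul_of_tower]
    · ext x
      have := LinearMap.congr_fun h2 x
      simp only [LinearMap.comp_apply] at this
      simp [this, LinearMap.map_smul_of_tower]

theorem Gr.mem_sub {M M' : Gr K Λ}
    {F : (M.T →ₗ[Λ] M'.T) × (M.T →ₗ[Λ] M'.T) × (M.T →ₗ[Λ] M'.T)} :
    F ∈ Gr.sub M M' ↔ ∀ a, F.1 ∘ₗ M.p a = M'.p a ∘ₗ F.1 ∧ F.2.1 ∘ₗ M.p a = M'.p (a - 1) ∘ₗ F.2.1 ∧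
      F.2.2 ∘ₗ M.p a = M'.p (a - 2) ∘ₗ F.2.2 := Iff.rfl

instance : Category.{0} (Gr K Λ) where
  Hom M M' := Gr.sub M M'
  id M := ⟨(LinearMap.id, 0, 0), fun a => by simp⟩
  comp {M M' M''} F G := ⟨(G.1.1 ∘ₗ F.1.1, G.1.2.1 ∘ₗ F.1.1 + G.1.1 ∘ₗ F.1.2.1,
      G.1.2.2 ∘ₗ F.1.1 + G.1.2.1 ∘ₗ F.1.2.1 + G.1.1 ∘ₗ F.1.2.2), fun a => by
    have hF := F.2
    have hG := G.2
    rw [Gr.mem_sub] at hF hG
    have e1 : a - 1 - 1 = a - 2 := by ring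
    refine ⟨?_, ?_, ?_⟩
    · show (G.1.1 ∘ₗ F.1.1) ∘ₗ M.p a = M''.p a ∘ₗ (G.1.1 ∘ₗ F.1.1)
      rw [LinearMap.comp_assoc, (hF a).1, ← LinearMap.comp_assoc, (hG a).1, LinearMap.comp_assoc]
    · show (G.1.2.1 ∘ₗ F.1.1 + G.1.1 ∘ₗ F.1.2.1) ∘ₗ M.p a =
        M''.p (a - 1) ∘ₗ (G.1.2.1 ∘ₗ F.1.1 + G.1.1 ∘ₗ F.1.2.1)
      rw [LinearMap.add_comp, LinearMap.comp_add, LinearMap.comp_assoc, (hF a).1,
        ← LinearMap.comp_assoc, (hG a).2.1, LinearMap.comp_assoc, LinearMap.comp_assoc, (hF a).2.1,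
        ← LinearMap.comp_assoc F.1.2.1, (hG (a - 1)).1, LinearMap.comp_assoc]
    · show (G.1.2.2 ∘ₗ F.1.1 + G.1.2.1 ∘ₗ F.1.2.1 + G.1.1 ∘ₗ F.1.2.2) ∘ₗ M.p a =
        M''.p (a - 2) ∘ₗ (G.1.2.2 ∘ₗ F.1.1 + G.1.2.1 ∘ₗ F.1.2.1 + G.1.1 ∘ₗ F.1.2.2)
      rw [LinearMap.add_comp, LinearMap.add_comp, LinearMap.comp_add, LinearMap.comp_add,
        LinearMap.comp_assoc, (hF a).1, ← LinearMap.comp_assoc, (hG a).2.2, LinearMap.comp_assoc,
        LinearMap.comp_assoc, (hF a).2.1, ← LinearMap.comp_assoc F.1.2.1, (hG (a - 1)).2.1, e1,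
        LinearMap.comp_assoc, LinearMap.comp_assoc, (hF a).2.2, ← LinearMap.comp_assoc F.1.2.2,
        (hG (a - 2)).1, LinearMap.comp_assoc]⟩
  id_comp {M M'} F := by
    apply Subtype.ext
    refine Prod.ext ?_ (Prod.ext ?_ ?_)
    · ext x; simp
    · ext x; simp
    · ext x; simp
  comp_id {M M'} F := by
    apply Subtype.ext
    refine Prod.ext ?_ (Prod.ext ?_ ?_)
    · ext x; simp
    · ext x; simp
    · ext x; simp
  assoc {M M' M'' M'''} F G H := by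
    apply Subtype.ext
    refine Prod.ext ?_ (Prod.ext ?_ ?_)
    · ext x; simp
    · ext x; simp; abel
    · ext x; simp; abel

instance : Preadditive (Gr K Λ) where
  homGroup M M' := inferInstanceAs (AddCommGroup (Gr.sub M M'))
  add_comp M M' M'' F F' G := by
    apply Subtype.ext
    refine Prod.ext ?_ (Prod.ext ?_ ?_)
    · show G.1.1 ∘ₗ (F.1.1 + F'.1.1) = G.1.1 ∘ₗ F.1.1 + G.1.1 ∘ₗ F'.1.1
      ext x; simp
    · show G.1.2.1 ∘ₗ (F.1.1 + F'.1.1) + G.1.1 ∘ₗ (F.1.2.1 + F'.1.2.1) =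
        (G.1.2.1 ∘ₗ F.1.1 + G.1.1 ∘ₗ F.1.2.1) + (G.1.2.1 ∘ₗ F'.1.1 + G.1.1 ∘ₗ F'.1.2.1)
      ext x; simp; abel
    · show G.1.2.2 ∘ₗ (F.1.1 + F'.1.1) + G.1.2.1 ∘ₗ (F.1.2.1 + F'.1.2.1) +
          G.1.1 ∘ₗ (F.1.2.2 + F'.1.2.2) =
        (G.1.2.2 ∘ₗ F.1.1 + G.1.2.1 ∘ₗ F.1.2.1 + G.1.1 ∘ₗ F.1.2.2) +
          (G.1.2.2 ∘ₗ F'.1.1 + G.1.2.1 ∘ₗ F'.1.2.1 + G.1.1 ∘ₗ F'.1.2.2)
      ext x; simp; abel
  comp_add M M' M'' F G G' := by
    apply Subtype.ext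
    refine Prod.ext ?_ (Prod.ext ?_ ?_)
    · show (G.1.1 + G'.1.1) ∘ₗ F.1.1 = G.1.1 ∘ₗ F.1.1 + G'.1.1 ∘ₗ F.1.1
      ext x; simp
    · show (G.1.2.1 + G'.1.2.1) ∘ₗ F.1.1 + (G.1.1 + G'.1.1) ∘ₗ F.1.2.1 =
        (G.1.2.1 ∘ₗ F.1.1 + G.1.1 ∘ₗ F.1.2.1) + (G'.1.2.1 ∘ₗ F.1.1 + G'.1.1 ∘ₗ F.1.2.1)
      ext x; simp; abel
    · show (G.1.2.2 + G'.1.2.2) ∘ₗ F.1.1 + (G.1.2.1 + G'.1.2.1) ∘ₗ F.1.2.1 +
          (G.1.1 + G'.1.1) ∘ₗ F.1.2.2 =
        (G.1.2.2 ∘ₗ F.1.1 + G.1.2.1 ∘ₗ F.1.2.1 + G.1.1 ∘ₗ F.1.2.2) +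
          (G'.1.2.2 ∘ₗ F.1.1 + G'.1.2.1 ∘ₗ F.1.2.1 + G'.1.1 ∘ₗ F.1.2.2)
      ext x; simp; abel

instance : Linear K (Gr K Λ) where
  homModule M M' := inferInstanceAs (Module K (Gr.sub M M'))
  smul_comp M M' M'' c F G := by
    apply Subtype.ext
    refine Prod.ext ?_ (Prod.ext ?_ ?_)
    · show G.1.1 ∘ₗ (c • F.1.1) = c • (G.1.1 ∘ₗ F.1.1)
      ext x; simp [LinearMap.map_smul_of_tower]
    · show G.1.2.1 ∘ₗ (c • F.1.1) + G.1.1 ∘ₗ (c • F.1.2.1) =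
        c • (G.1.2.1 ∘ₗ F.1.1 + G.1.1 ∘ₗ F.1.2.1)
      ext x; simp [LinearMap.map_smul_of_tower]
    · show G.1.2.2 ∘ₗ (c • F.1.1) + G.1.2.1 ∘ₗ (c • F.1.2.1) + G.1.1 ∘ₗ (c • F.1.2.2) =
        c • (G.1.2.2 ∘ₗ F.1.1 + G.1.2.1 ∘ₗ F.1.2.1 + G.1.1 ∘ₗ F.1.2.2)
      ext x; simp [LinearMap.map_smul_of_tower]
  comp_smul M M' M'' F c G := by
    apply Subtype.ext
    refine Prod.ext ?_ (Prod.ext ?_ ?_)
    · show (c • G.1.1) ∘ₗ F.1.1 = c • (G.1.1 ∘ₗ F.1.1)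
      ext x; simp
    · show (c • G.1.2.1) ∘ₗ F.1.1 + (c • G.1.1) ∘ₗ F.1.2.1 =
        c • (G.1.2.1 ∘ₗ F.1.1 + G.1.1 ∘ₗ F.1.2.1)
      ext x; simp
    · show (c • G.1.2.2) ∘ₗ F.1.1 + (c • G.1.2.1) ∘ₗ F.1.2.1 + (c • G.1.1) ∘ₗ F.1.2.2 =
        c • (G.1.2.2 ∘ₗ F.1.1 + G.1.2.1 ∘ₗ F.1.2.1 + G.1.1 ∘ₗ F.1.2.2)
      ext x; simp

namespace Gr

variable {M M' M'' : Gr K Λ}

/-- component of degree 0 -/
def c0 (F : M ⟶ M') : M.T →ₗ[Λ] M'.T := F.1.1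
/-- component of degree 1 -/
def c1 (F : M ⟶ M') : M.T →ₗ[Λ] M'.T := F.1.2.1
/-- component of degree 2 -/
def c2 (F : M ⟶ M') : M.T →ₗ[Λ] M'.T := F.1.2.2

theorem ext3 {F G : M ⟶ M'} (h0 : c0 F = c0 G) (h1 : c1 F = c1 G) (h2 : c2 F = c2 G) : F = G :=
  Subtype.ext (Prod.ext h0 (Prod.ext h1 h2))

theorem c0_p (F : M ⟶ M') (a : ZMod 6) : c0 F ∘ₗ M.p a = M'.p a ∘ₗ c0 F := (F.2 a).1
theorem c1_p (F : M ⟶ M') (a : ZMod 6) : c1 F ∘ₗ M.p a = M'.p (a - 1) ∘ₗ c1 F := (F.2 a).2.1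
theorem c2_p (F : M ⟶ M') (a : ZMod 6) : c2 F ∘ₗ M.p a = M'.p (a - 2) ∘ₗ c2 F := (F.2 a).2.2

@[simp] theorem c0_id (M : Gr K Λ) : c0 (𝟙 M) = LinearMap.id := rfl
@[simp] theorem c1_id (M : Gr K Λ) : c1 (𝟙 M) = 0 := rfl
@[simp] theorem c2_id (M : Gr K Λ) : c2 (𝟙 M) = 0 := rfl
@[simp] theorem c0_comp (F : M ⟶ M') (G : M' ⟶ M'') : c0 (F ≫ G) = c0 G ∘ₗ c0 F := rfl
@[simp] theorem c1_comp (F : M ⟶ M') (G : M' ⟶ M'') :
    c1 (F ≫ G) = c1 G ∘ₗ c0 F + c0 G ∘ₗ c1 F := rfl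
@[simp] theorem c2_comp (F : M ⟶ M') (G : M' ⟶ M'') :
    c2 (F ≫ G) = c2 G ∘ₗ c0 F + c1 G ∘ₗ c1 F + c0 G ∘ₗ c2 F := rfl
@[simp] theorem c0_zero : c0 (0 : M ⟶ M') = 0 := rfl
@[simp] theorem c1_zero : c1 (0 : M ⟶ M') = 0 := rfl
@[simp] theorem c2_zero : c2 (0 : M ⟶ M') = 0 := rfl
@[simp] theorem c0_add (F G : M ⟶ M') : c0 (F + G) = c0 F + c0 G := rfl
@[simp] theorem c1_add (F G : M ⟶ M') : c1 (F + G) = c1 F + c1 G := rfl
@[simp] theorem c2_add (F G : M ⟶ M') : c2 (F + G) = c2 F + c2 G := rfl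
@[simp] theorem c0_smul (c : K) (F : M ⟶ M') : c0 (c • F) = c • c0 F := rfl
@[simp] theorem c1_smul (c : K) (F : M ⟶ M') : c1 (c • F) = c • c1 F := rfl
@[simp] theorem c2_smul (c : K) (F : M ⟶ M') : c2 (c • F) = c • c2 F := rfl

/-- construction of morphisms -/
def mk3 (F₀ F₁ F₂ : M.T →ₗ[Λ] M'.T) (h : ∀ a, F₀ ∘ₗ M.p a = M'.p a ∘ₗ F₀ ∧
    F₁ ∘ₗ M.p a = M'.p (a - 1) ∘ₗ F₁ ∧ F₂ ∘ₗ M.p a = M'.p (a - 2) ∘ₗ F₂) : M ⟶ M' :=
  ⟨(F₀, F₁, F₂), h⟩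

end Gr

/-- the module `V` at the vertex `a` -/
def B (a : ZMod 6) (V : Mo K Λ) : Gr K Λ where
  T := V.T
  p b := if b = a then LinearMap.id else 0

/-- degree of a morphism from vertex `a` to vertex `b`: there are nonzero morphisms `B a V ⟶ B b W` iff `adm a b` -/
def adm (a b : ZMod 6) : Prop := a = b ∨ a = b + 1 ∨ a = b + 2

instance (a b : ZMod 6) : Decidable (adm a b) := by unfold adm; infer_instance

/-- the morphism `B a V ⟶ B b W` defined by `φ : V → W` (it is `0` if `adm a b` does not hold) -/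
def bm (a b : ZMod 6) {V W : Mo K Λ} (φ : V.T →ₗ[Λ] W.T) : B a V ⟶ B b W :=
  Gr.mk3 (if a = b then φ else 0) (if a = b + 1 then φ else 0) (if a = b + 2 then φ else 0) (by
    intro c
    show (if a = b then φ else 0) ∘ₗ (if c = a then LinearMap.id else 0) =
        (if c = b then LinearMap.id else 0) ∘ₗ (if a = b then φ else 0) ∧
      (if a = b + 1 then φ else 0) ∘ₗ (if c = a then LinearMap.id else 0) =
        (if c - 1 = b then LinearMap.id else 0) ∘ₗ (if a = b + 1 then φ else 0) ∧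
      (if a = b + 2 then φ else 0) ∘ₗ (if c = a then LinearMap.id else 0) =
        (if c - 2 = b then LinearMap.id else 0) ∘ₗ (if a = b + 2 then φ else 0)
    have e1 : c - 1 = b ↔ c = b + 1 := sub_eq_iff_eq_add
    have e2 : c - 2 = b ↔ c = b + 2 := sub_eq_iff_eq_add
    rw [if_congr e1 rfl rfl, if_congr e2 rfl rfl]
    refine ⟨?_, ?_, ?_⟩
    · by_cases h : a = b
      · subst h; by_cases h' : c = a <;> simp [h']
      · simp [h]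
    · by_cases h : a = b + 1
      · subst h; by_cases h' : c = b + 1 <;> simp [h']
      · simp [h]
    · by_cases h : a = b + 2
      · subst h; by_cases h' : c = b + 2 <;> simp [h']
      · simp [h])

/-- the product of two objects -/
def prod (M M' : Gr K Λ) : Gr K Λ where
  T := M.T × M'.T
  p b := LinearMap.prodMap (M.p b) (M'.p b)

namespace prod
variable (M M' : Gr K Λ)

/-- first injection -/
def inl : M ⟶ prod M M' := Gr.mk3 (LinearMap.inl Λ M.T M'.T) 0 0 (fun a => by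
  refine ⟨LinearMap.ext fun x => ?_, by simp, by simp⟩
  show ((M.p a x, 0) : M.T × M'.T) = (M.p a x, M'.p a 0)
  rw [map_zero])
/-- second injection -/
def inr : M' ⟶ prod M M' := Gr.mk3 (LinearMap.inr Λ M.T M'.T) 0 0 (fun a => by
  refine ⟨LinearMap.ext fun x => ?_, by simp, by simp⟩
  show ((0, M'.p a x) : M.T × M'.T) = (M.p a 0, M'.p a x)
  rw [map_zero])
/-- first projection -/
def fst : prod M M' ⟶ M := Gr.mk3 (LinearMap.fst Λ M.T M'.T) 0 0 (fun a =>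
  ⟨LinearMap.ext fun _ => rfl, by simp, by simp⟩)
/-- second projection -/
def snd : prod M M' ⟶ M' := Gr.mk3 (LinearMap.snd Λ M.T M'.T) 0 0 (fun a =>
  ⟨LinearMap.ext fun _ => rfl, by simp, by simp⟩)

end prod

/-- finite products -/
def pi {J : Type} (S : J → Gr K Λ) : Gr K Λ where
  T := ∀ j, (S j).T
  p b := LinearMap.pi fun j => (S j).p b ∘ₗ LinearMap.proj j

namespace pi
variable {J : Type} [DecidableEq J] (S : J → Gr K Λ)

/-- injections -/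
def inj (j : J) : S j ⟶ pi S := Gr.mk3 (LinearMap.single Λ (fun j => (S j).T) j) 0 0 (fun a => by
  refine ⟨LinearMap.ext fun x => ?_, by simp, by simp⟩
  show (Pi.single j ((S j).p a x) : ∀ j, (S j).T) = fun i => (S i).p a ((Pi.single j x : ∀ j, (S j).T) i)
  funext i
  by_cases h : i = j
  · subst h; rw [Pi.single_eq_same, Pi.single_eq_same]
  · rw [Pi.single_eq_of_ne h, Pi.single_eq_of_ne h, map_zero])
/-- projections -/
def proj (j : J) : pi S ⟶ S j := Gr.mk3 (LinearMap.proj j) 0 0 (fun a =>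
  ⟨LinearMap.ext fun _ => rfl, by simp, by simp⟩)

end pi

end NTC
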