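import Pool.Agent.NTC.C0

/-!
# [NTC-C1a] the objects `B a V` and the morphisms `bm`
-/

set_option autoImplicit false

open CategoryTheory

namespace NTC

variable {K Λ : Type} [Field K] [Ring Λ] [Algebra K Λ] {V W Y : Mo K Λ}

/-- the linear map of a morphism `B a V ⟶ B b W` (at most one of the three components is nonzero) -/
def un {a b : ZMod 6} {V W : Mo K Λ} : (B a V ⟶ B b W) →ₗ[K] (V.T →ₗ[Λ] W.T) where
  toFun F := (Gr.c0 F + Gr.c1 F + Gr.c2 F : (B a V).T →ₗ[Λ] (B b W).T)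
  map_add' F G := by
    show (Gr.c0 (F + G) + Gr.c1 (F + G) + Gr.c2 (F + G) : (B a V).T →ₗ[Λ] (B b W).T) =
      (Gr.c0 F + Gr.c1 F + Gr.c2 F) + (Gr.c0 G + Gr.c1 G + Gr.c2 G)
    rw [Gr.c0_add, Gr.c1_add, Gr.c2_add]
    abel
  map_smul' c F := by
    show (Gr.c0 (c • F) + Gr.c1 (c • F) + Gr.c2 (c • F) : (B a V).T →ₗ[Λ] (B b W).T) =
      c • (Gr.c0 F + Gr.c1 F + Gr.c2 F)
    rw [Gr.c0_smul, Gr.c1_smul, Gr.c2_smul, smul_add, smul_add]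

theorem c1a_c0 (a b : ZMod 6) (φ : V.T →ₗ[Λ] W.T) :
    Gr.c0 (bm a b φ) = if a = b then φ else 0 := rfl

theorem c1a_c1 (a b : ZMod 6) (φ : V.T →ₗ[Λ] W.T) :
    Gr.c1 (bm a b φ) = if a = b + 1 then φ else 0 := rfl

theorem c1a_c2 (a b : ZMod 6) (φ : V.T →ₗ[Λ] W.T) :
    Gr.c2 (bm a b φ) = if a = b + 2 then φ else 0 := rfl

theorem c1a_p (a b : ZMod 6) (V : Mo K Λ) :
    (B a V).p b = if b = a then (LinearMap.id : V.T →ₗ[Λ] V.T) else 0 := rfl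

theorem c1a_z0 {a b : ZMod 6} (F : B a V ⟶ B b W) (h : a ≠ b) : Gr.c0 F = 0 := by
  have h1 := Gr.c0_p F a
  rw [c1a_p, c1a_p, if_pos rfl, if_neg h] at h1
  exact h1

theorem c1a_z1 {a b : ZMod 6} (F : B a V ⟶ B b W) (h : a ≠ b + 1) : Gr.c1 F = 0 := by
  have h1 := Gr.c1_p F a
  rw [c1a_p, c1a_p, if_pos rfl, if_neg (fun h2 => h (sub_eq_iff_eq_add.1 h2))] at h1
  exact h1

theorem c1a_z2 {a b : ZMod 6} (F : B a V ⟶ B b W) (h : a ≠ b + 2) : Gr.c2 F = 0 := by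
  have h1 := Gr.c2_p F a
  rw [c1a_p, c1a_p, if_pos rfl, if_neg (fun h2 => h (sub_eq_iff_eq_add.1 h2))] at h1
  exact h1

theorem c1a_un {a b : ZMod 6} (F : B a V ⟶ B b W) :
    un F = (Gr.c0 F + Gr.c1 F + Gr.c2 F : (B a V).T →ₗ[Λ] (B b W).T) := rfl

theorem c1a_n1 (b : ZMod 6) : b ≠ b + 1 := by revert b; decide
theorem c1a_n2 (b : ZMod 6) : b ≠ b + 2 := by revert b; decide
theorem c1a_n3 (b : ZMod 6) : b + 1 ≠ b + 2 := by revert b; decide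

theorem bm_add (a b : ZMod 6) (φ ψ : V.T →ₗ[Λ] W.T) : bm a b (φ + ψ) = bm a b φ + bm a b ψ := by
  refine Gr.ext3 ?_ ?_ ?_
  · rw [Gr.c0_add, c1a_c0, c1a_c0, c1a_c0]
    split_ifs
    · rfl
    · exact (add_zero _).symm
  · rw [Gr.c1_add, c1a_c1, c1a_c1, c1a_c1]
    split_ifs
    · rfl
    · exact (add_zero _).symm
  · rw [Gr.c2_add, c1a_c2, c1a_c2, c1a_c2]
    split_ifs
    · rfl
    · exact (add_zero _).symm

theorem bm_smul (a b : ZMod 6) (c : K) (φ : V.T →ₗ[Λ] W.T) : bm a b (c • φ) = c • bm a b φ := by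
  refine Gr.ext3 ?_ ?_ ?_
  · rw [Gr.c0_smul, c1a_c0, c1a_c0]
    split_ifs
    · rfl
    · show (0 : V.T →ₗ[Λ] W.T) = c • (0 : V.T →ₗ[Λ] W.T)
      rw [smul_zero]
  · rw [Gr.c1_smul, c1a_c1, c1a_c1]
    split_ifs
    · rfl
    · show (0 : V.T →ₗ[Λ] W.T) = c • (0 : V.T →ₗ[Λ] W.T)
      rw [smul_zero]
  · rw [Gr.c2_smul, c1a_c2, c1a_c2]
    split_ifs
    · rfl
    · show (0 : V.T →ₗ[Λ] W.T) = c • (0 : V.T →ₗ[Λ] W.T)
      rw [smul_zero]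

theorem bm_zero (a b : ZMod 6) : bm a b (0 : V.T →ₗ[Λ] W.T) = 0 := by
  refine Gr.ext3 ?_ ?_ ?_
  · rw [c1a_c0, ite_self]
    rfl
  · rw [c1a_c1, ite_self]
    rfl
  · rw [c1a_c2, ite_self]
    rfl

theorem bm_neg (a b : ZMod 6) (φ : V.T →ₗ[Λ] W.T) : bm a b (-φ) = - bm a b φ := by
  have h1 := bm_add a b φ (-φ)
  rw [add_neg_cancel, bm_zero] at h1
  exact (neg_eq_of_add_eq_zero_right h1.symm).symm

/-- `bm` as a linear map -/
def bmL (a b : ZMod 6) (V W : Mo K Λ) : (V.T →ₗ[Λ] W.T) →ₗ[K] (B a V ⟶ B b W) where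
  toFun := bm a b
  map_add' := bm_add a b
  map_smul' := bm_smul a b

theorem bm_id (a : ZMod 6) (V : Mo K Λ) : bm a a (LinearMap.id : V.T →ₗ[Λ] V.T) = 𝟙 (B a V) := by
  refine Gr.ext3 ?_ ?_ ?_
  · rw [c1a_c0, if_pos rfl]
    rfl
  · rw [c1a_c1, if_neg (c1a_n1 a)]
    rfl
  · rw [c1a_c2, if_neg (c1a_n2 a)]
    rfl

theorem bm_of_not_adm {a b : ZMod 6} (h : ¬ adm a b) (φ : V.T →ₗ[Λ] W.T) : bm a b φ = 0 := by
  unfold adm at h
  push Not at h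
  obtain ⟨h0, h1, h2⟩ := h
  refine Gr.ext3 ?_ ?_ ?_
  · rw [c1a_c0, if_neg h0]
    rfl
  · rw [c1a_c1, if_neg h1]
    rfl
  · rw [c1a_c2, if_neg h2]
    rfl

/-- [C1a] PROOF. `F₀ ∘ p a = F₀`, `p a ∘ F₀ = F₀` if `a = b` and `0` otherwise, in the same way for `F₁`, `F₂`: `F_l = 0` unless `a = b + l`. -/
theorem bm_un {a b : ZMod 6} (F : B a V ⟶ B b W) : bm a b (un F) = F := by
  refine Gr.ext3 ?_ ?_ ?_
  · rw [c1a_c0]
    by_cases h : a = b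
    · subst h
      rw [if_pos rfl, c1a_un, c1a_z1 F (c1a_n1 a), c1a_z2 F (c1a_n2 a), add_zero, add_zero]
    · rw [if_neg h]
      exact (c1a_z0 F h).symm
  · rw [c1a_c1]
    by_cases h : a = b + 1
    · subst h
      rw [if_pos rfl, c1a_un, c1a_z0 F (c1a_n1 b).symm, c1a_z2 F (c1a_n3 b), add_zero, zero_add]
    · rw [if_neg h]
      exact (c1a_z1 F h).symm
  · rw [c1a_c2]
    by_cases h : a = b + 2
    · subst h
      rw [if_pos rfl, c1a_un, c1a_z0 F (c1a_n2 b).symm, c1a_z1 F (c1a_n3 b).symm, zero_add,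
        zero_add]
    · rw [if_neg h]
      exact (c1a_z2 F h).symm

theorem un_bm {a b : ZMod 6} (h : adm a b) (φ : V.T →ₗ[Λ] W.T) : un (bm a b φ) = φ := by
  rw [c1a_un, c1a_c0, c1a_c1, c1a_c2]
  rcases h with rfl | rfl | rfl
  · rw [if_pos rfl, if_neg (c1a_n1 a), if_neg (c1a_n2 a)]
    exact (add_zero _).trans (add_zero _)
  · rw [if_neg (c1a_n1 b).symm, if_pos rfl, if_neg (c1a_n3 b)]
    exact (add_zero _).trans (zero_add _)
  · rw [if_neg (c1a_n2 b).symm, if_neg (c1a_n3 b).symm, if_pos rfl]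
    exact (congrArg (fun x => x + φ) (add_zero (0 : V.T →ₗ[Λ] W.T))).trans (zero_add φ)

theorem hom_zero {a b : ZMod 6} (h : ¬ adm a b) (F : B a V ⟶ B b W) : F = 0 := by
  rw [← bm_un F, bm_of_not_adm h]

/-- [C1a] PROOF. Both sides are `0` if `adm a c` fails (the degrees add up to more than 2). A case check over `l, l' ∈ {0, 1, 2}`, `a = b + l`, `b = c + l'`. -/
theorem bm_comp {a b c : ZMod 6} (h : adm a b) (h' : adm b c) (φ : V.T →ₗ[Λ] W.T)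
    (ψ : W.T →ₗ[Λ] Y.T) : bm a b φ ≫ bm b c ψ = bm a c (ψ ∘ₗ φ) := by
  refine Gr.ext3 ?_ ?_ ?_
  · rw [Gr.c0_comp, c1a_c0, c1a_c0, c1a_c0]
    show (if b = c then ψ else 0 : W.T →ₗ[Λ] Y.T) ∘ₗ (if a = b then φ else 0 : V.T →ₗ[Λ] W.T) =
      (if a = c then ψ ∘ₗ φ else 0)
    rcases h with rfl | rfl | rfl <;> rcases h' with rfl | rfl | rfl <;>
      simp (decide := true) [add_assoc]
  · rw [Gr.c1_comp, c1a_c0, c1a_c0, c1a_c1, c1a_c1, c1a_c1]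
    show (if b = c + 1 then ψ else 0 : W.T →ₗ[Λ] Y.T) ∘ₗ (if a = b then φ else 0 : V.T →ₗ[Λ] W.T) +
        (if b = c then ψ else 0 : W.T →ₗ[Λ] Y.T) ∘ₗ
          (if a = b + 1 then φ else 0 : V.T →ₗ[Λ] W.T) =
      (if a = c + 1 then ψ ∘ₗ φ else 0)
    rcases h with rfl | rfl | rfl <;> rcases h' with rfl | rfl | rfl <;>
      simp (decide := true) [add_assoc]
  · rw [Gr.c2_comp, c1a_c0, c1a_c0, c1a_c1, c1a_c1, c1a_c2, c1a_c2, c1a_c2]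
    show (if b = c + 2 then ψ else 0 : W.T →ₗ[Λ] Y.T) ∘ₗ (if a = b then φ else 0 : V.T →ₗ[Λ] W.T) +
        (if b = c + 1 then ψ else 0 : W.T →ₗ[Λ] Y.T) ∘ₗ
          (if a = b + 1 then φ else 0 : V.T →ₗ[Λ] W.T) +
        (if b = c then ψ else 0 : W.T →ₗ[Λ] Y.T) ∘ₗ
          (if a = b + 2 then φ else 0 : V.T →ₗ[Λ] W.T) =
      (if a = c + 2 then ψ ∘ₗ φ else 0)
    rcases h with rfl | rfl | rfl <;> rcases h' with rfl | rfl | rfl <;>
      simp (decide := true) [add_assoc]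

theorem adm_refl (a : ZMod 6) : adm a a := Or.inl rfl

/-- [C1a] `decide` -/
theorem adm_iff {s a : ZMod 6} (h : s = a + 2) (b : ZMod 6) : adm s b ↔ adm b a := by
  subst h
  unfold adm
  revert a b
  decide

end NTC
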