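import Pool.Agent.NTC.C1a

/-!
# [NTC-C1b] products in `Gr K Λ`, `add`, finiteness
-/

set_option autoImplicit false

open CategoryTheory

namespace NTC

variable {K Λ : Type} [Field K] [Ring Λ] [Algebra K Λ] {V W Y : Mo K Λ}

theorem bm_inAdd (h : InAdd Λ V.T W.T) (a : ZMod 6) : InAddC (B a V) (B a W) := by
  obtain ⟨n, i, r, h⟩ := h
  refine ⟨n, fun k => bm a a (i k), fun k => bm a a (r k), ?_⟩
  have h1 : ∀ k, bm a a (i k) ≫ bm a a (r k) = bmL a a V V (r k ∘ₗ i k) := fun k =>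
    bm_comp (adm_refl a) (adm_refl a) (i k) (r k)
  rw [Finset.sum_congr rfl fun k _ => h1 k, ← map_sum, h]
  exact bm_id a V

/-- [C1b] PROOF. `M ⟶ M'` is a subspace of `(M.T → M'.T)³` and `M.T →ₗ[Λ] M'.T` embeds (`K`-linearly) into `M.T →ₗ[K] M'.T` (`LinearMap.restrictScalarsₗ`). -/
theorem finiteDimensional_hom (M M' : Gr K Λ) (h : FiniteDimensional K M.T)
    (h' : FiniteDimensional K M'.T) : FiniteDimensional K (M ⟶ M') := by
  have h1 : FiniteDimensional K (M.T →ₗ[Λ] M'.T) :=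
    FiniteDimensional.of_injective (LinearMap.restrictScalarsₗ K Λ M.T M'.T K)
      (LinearMap.restrictScalars_injective K)
  have h2 : FiniteDimensional K (Gr.sub M M') := inferInstance
  exact h2

theorem finiteDimensional_end (M : Gr K Λ) (h : FiniteDimensional K M.T) :
    FiniteDimensional K (End M) :=
  finiteDimensional_hom M M h h

theorem c1b_deg1 {M M' M'' : Gr K Λ} (F : M ⟶ M') (G : M' ⟶ M'') (h : Gr.c1 F = 0)
    (h' : Gr.c1 G = 0) : Gr.c1 (F ≫ G) = 0 := by
  rw [Gr.c1_comp, h, h', LinearMap.zero_comp, LinearMap.comp_zero, add_zero]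

theorem c1b_deg2 {M M' M'' : Gr K Λ} (F : M ⟶ M') (G : M' ⟶ M'') (h : Gr.c1 F = 0)
    (h' : Gr.c1 G = 0) (h2 : Gr.c2 F = 0) (h2' : Gr.c2 G = 0) : Gr.c2 (F ≫ G) = 0 := by
  rw [Gr.c2_comp, h, h', h2, h2', LinearMap.zero_comp, LinearMap.comp_zero, LinearMap.comp_zero,
    add_zero, add_zero]

theorem c1b_c0_sum {M M' : Gr K Λ} {J : Type} (s : Finset J) (F : J → (M ⟶ M')) :
    Gr.c0 (∑ j ∈ s, F j) = ∑ j ∈ s, Gr.c0 (F j) := by
  classical
  induction s using Finset.induction_on with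
  | empty => rw [Finset.sum_empty, Finset.sum_empty, Gr.c0_zero]
  | insert a s ha ih => rw [Finset.sum_insert ha, Finset.sum_insert ha, Gr.c0_add, ih]

theorem c1b_c1_sum {M M' : Gr K Λ} {J : Type} (s : Finset J) (F : J → (M ⟶ M')) :
    Gr.c1 (∑ j ∈ s, F j) = ∑ j ∈ s, Gr.c1 (F j) := by
  classical
  induction s using Finset.induction_on with
  | empty => rw [Finset.sum_empty, Finset.sum_empty, Gr.c1_zero]
  | insert a s ha ih => rw [Finset.sum_insert ha, Finset.sum_insert ha, Gr.c1_add, ih]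

theorem c1b_c2_sum {M M' : Gr K Λ} {J : Type} (s : Finset J) (F : J → (M ⟶ M')) :
    Gr.c2 (∑ j ∈ s, F j) = ∑ j ∈ s, Gr.c2 (F j) := by
  classical
  induction s using Finset.induction_on with
  | empty => rw [Finset.sum_empty, Finset.sum_empty, Gr.c2_zero]
  | insert a s ha ih => rw [Finset.sum_insert ha, Finset.sum_insert ha, Gr.c2_add, ih]

namespace prod
variable (M M' : Gr K Λ)

@[reassoc (attr := simp)] theorem inl_fst : inl M M' ≫ fst M M' = 𝟙 M := by
  refine Gr.ext3 ?_ ?_ ?_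
  · exact LinearMap.ext fun x => rfl
  · exact c1b_deg1 _ _ rfl rfl
  · exact c1b_deg2 _ _ rfl rfl rfl rfl
@[reassoc (attr := simp)] theorem inl_snd : inl M M' ≫ snd M M' = 0 := by
  refine Gr.ext3 ?_ ?_ ?_
  · exact LinearMap.ext fun x => rfl
  · exact c1b_deg1 _ _ rfl rfl
  · exact c1b_deg2 _ _ rfl rfl rfl rfl
@[reassoc (attr := simp)] theorem inr_fst : inr M M' ≫ fst M M' = 0 := by
  refine Gr.ext3 ?_ ?_ ?_
  · exact LinearMap.ext fun x => rfl
  · exact c1b_deg1 _ _ rfl rfl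
  · exact c1b_deg2 _ _ rfl rfl rfl rfl
@[reassoc (attr := simp)] theorem inr_snd : inr M M' ≫ snd M M' = 𝟙 M' := by
  refine Gr.ext3 ?_ ?_ ?_
  · exact LinearMap.ext fun x => rfl
  · exact c1b_deg1 _ _ rfl rfl
  · exact c1b_deg2 _ _ rfl rfl rfl rfl
theorem total : fst M M' ≫ inl M M' + snd M M' ≫ inr M M' = 𝟙 (prod M M') := by
  refine Gr.ext3 ?_ ?_ ?_
  · refine LinearMap.ext fun x => ?_
    exact Prod.ext (add_zero _) (zero_add _)
  · rw [Gr.c1_add, c1b_deg1 _ _ rfl rfl, c1b_deg1 _ _ rfl rfl, add_zero, Gr.c1_id]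
  · rw [Gr.c2_add, c1b_deg2 _ _ rfl rfl rfl rfl, c1b_deg2 _ _ rfl rfl rfl rfl, add_zero, Gr.c2_id]

variable {M M'}

/-- extensionality -/
theorem hom_ext {T : Gr K Λ} {f g : T ⟶ prod M M'} (h : f ≫ fst M M' = g ≫ fst M M')
    (h' : f ≫ snd M M' = g ≫ snd M M') : f = g := by
  rw [← Category.comp_id f, ← Category.comp_id g, ← total M M', Preadditive.comp_add,
    Preadditive.comp_add, ← Category.assoc, ← Category.assoc, ← Category.assoc, ← Category.assoc,
    h, h']

theorem hom_ext' {T : Gr K Λ} {f g : prod M M' ⟶ T} (h : inl M M' ≫ f = inl M M' ≫ g)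
    (h' : inr M M' ≫ f = inr M M' ≫ g) : f = g := by
  rw [← Category.id_comp f, ← Category.id_comp g, ← total M M', Preadditive.add_comp,
    Preadditive.add_comp, Category.assoc, Category.assoc, Category.assoc, Category.assoc,
    h, h']

theorem inAdd {N : Gr K Λ} (h : InAddC M N) (h' : InAddC M' N) : InAddC (prod M M') N := by
  obtain ⟨n, i, r, h⟩ := h
  obtain ⟨n', i', r', h'⟩ := h'
  refine ⟨n + n', Fin.append (fun k => fst M M' ≫ i k) (fun k => snd M M' ≫ i' k),
    Fin.append (fun k => r k ≫ inl M M') (fun k => r' k ≫ inr M M'), ?_⟩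
  rw [Fin.sum_univ_add]
  have h1 : ∀ k : Fin n, Fin.append (fun k => fst M M' ≫ i k) (fun k => snd M M' ≫ i' k)
        (Fin.castAdd n' k) ≫ Fin.append (fun k => r k ≫ inl M M') (fun k => r' k ≫ inr M M')
        (Fin.castAdd n' k) = fst M M' ≫ (i k ≫ r k) ≫ inl M M' := fun k => by
    rw [Fin.append_left, Fin.append_left, Category.assoc, Category.assoc]
  have h2 : ∀ k : Fin n', Fin.append (fun k => fst M M' ≫ i k) (fun k => snd M M' ≫ i' k)
        (Fin.natAdd n k) ≫ Fin.append (fun k => r k ≫ inl M M') (fun k => r' k ≫ inr M M')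
        (Fin.natAdd n k) = snd M M' ≫ (i' k ≫ r' k) ≫ inr M M' := fun k => by
    rw [Fin.append_right, Fin.append_right, Category.assoc, Category.assoc]
  rw [Finset.sum_congr rfl fun k _ => h1 k, Finset.sum_congr rfl fun k _ => h2 k,
    ← Preadditive.comp_sum, ← Preadditive.comp_sum, ← Preadditive.sum_comp,
    ← Preadditive.sum_comp, h, h', Category.id_comp, Category.id_comp]
  exact total M M'

end prod

namespace pi
variable {J : Type} [Fintype J] [DecidableEq J] (S : J → Gr K Λ)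

theorem inj_proj (j : J) : inj S j ≫ proj S j = 𝟙 (S j) := by
  refine Gr.ext3 ?_ ?_ ?_
  · refine LinearMap.ext fun x => ?_
    exact Pi.single_eq_same (M := fun j => (S j).T) j x
  · exact c1b_deg1 _ _ rfl rfl
  · exact c1b_deg2 _ _ rfl rfl rfl rfl

theorem inj_proj_ne {i j : J} (h : i ≠ j) : inj S i ≫ proj S j = 0 := by
  refine Gr.ext3 ?_ ?_ ?_
  · refine LinearMap.ext fun x => ?_
    exact Pi.single_eq_of_ne (M := fun j => (S j).T) (Ne.symm h) x
  · exact c1b_deg1 _ _ rfl rfl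
  · exact c1b_deg2 _ _ rfl rfl rfl rfl

theorem total : ∑ j, proj S j ≫ inj S j = 𝟙 (pi S) := by
  refine Gr.ext3 ?_ ?_ ?_
  · rw [c1b_c0_sum]
    refine LinearMap.ext fun x => ?_
    rw [LinearMap.sum_apply]
    show (∑ j, (Pi.single j (x j) : ∀ j, (S j).T)) = x
    exact Finset.univ_sum_single x
  · rw [c1b_c1_sum, Finset.sum_congr rfl fun j _ => c1b_deg1 (proj S j) (inj S j) rfl rfl,
      Finset.sum_const_zero, Gr.c1_id]
  · rw [c1b_c2_sum, Finset.sum_congr rfl fun j _ => c1b_deg2 (proj S j) (inj S j) rfl rfl rfl rfl,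
      Finset.sum_const_zero, Gr.c2_id]

theorem inAdd (j : J) : InAddC (S j) (pi S) := InAddC.of_retract (inj S j) (proj S j) (inj_proj S j)

theorem finiteDimensional (h : ∀ j, FiniteDimensional K (S j).T) :
    FiniteDimensional K (pi S).T := by
  have h1 : FiniteDimensional K (∀ j, (S j).T) := inferInstance
  exact h1

end pi

end NTC
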