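import Mathlib

/-!
# [NTC] MP_68f647_al: Q1 for all algebras is equivalent to the Nakayama conjecture: definitions
-/

set_option autoImplicit false

open CategoryTheory

namespace NTC

/-! ## The two conjectures for one algebra -/

/-- infinite dominant dimension: the regular module has a coresolution by finitely generated modules which are projective and injective -/
def DomInf (A : Type) [Ring A] : Prop :=
  ∃ (I : ℕ → ModuleCat.{0} A) (ε : A →ₗ[A] I 0) (d : ∀ n, I n →ₗ[A] I (n + 1)),
    Function.Injective ε ∧ LinearMap.range ε = LinearMap.ker (d 0) ∧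
    (∀ n, LinearMap.range (d n) = LinearMap.ker (d (n + 1))) ∧
    ∀ n, Module.Finite A (I n) ∧ Module.Projective A (I n) ∧ Module.Injective A (I n)

/-- the Nakayama conjecture holds for `A` -/
def NC (A : Type) [Ring A] : Prop := DomInf A → Module.Injective A A

/-- `Ext^i(M, A) = 0` for all `i ≥ 1` and all finitely generated injective modules `M`, that is `Ext^i(D(A), A) = 0` for all `i ≥ 1` -/
def TVan (A : Type) [Ring A] [HasExt.{1} (ModuleCat.{0} A)] : Prop :=
  ∀ M : ModuleCat.{0} A, Module.Injective A M → Module.Finite A M →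
    ∀ i : ℕ, 1 ≤ i → Subsingleton (Abelian.Ext.{1} M (ModuleCat.of A A) i)

/-- the first Tachikawa conjecture holds for `A` -/
def TC1 (A : Type) [Ring A] [HasExt.{1} (ModuleCat.{0} A)] : Prop := TVan A → Module.Injective A A

/-! ## Tools -/

/-- `Ext^i(M, N) = 0` for all `i ≥ 1` -/
def EV (A : Type) [Ring A] [HasExt.{1} (ModuleCat.{0} A)] (M N : Type) [AddCommGroup M] [Module A M]
    [AddCommGroup N] [Module A N] : Prop :=
  ∀ i : ℕ, 1 ≤ i → Subsingleton (Abelian.Ext.{1} (ModuleCat.of A M) (ModuleCat.of A N) i)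

/-- `M ∈ add N`: `M` is a direct summand of a finite power of `N` -/
def InAdd (A : Type) [Ring A] (M N : Type) [AddCommGroup M] [Module A M] [AddCommGroup N]
    [Module A N] : Prop :=
  ∃ (n : ℕ) (i : Fin n → (M →ₗ[A] N)) (r : Fin n → (N →ₗ[A] M)),
    ∑ k, r k ∘ₗ i k = LinearMap.id

section DD
variable (K A : Type) [Field K] [Ring A] [Algebra K A]

/-- the dual `D(A) = Hom_K(A, K)` as a left `A`-module -/
structure DD where
  /-- the linear form -/
  toFun : A →ₗ[K] K

variable {K A}

namespace DD

@[ext] theorem ext' {ξ η : DD K A} (h : ∀ x, ξ.toFun x = η.toFun x) : ξ = η := by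
  cases ξ; cases η
  congr
  exact LinearMap.ext h

/-- the equivalence with the linear forms -/
def eq : DD K A ≃ (A →ₗ[K] K) where
  toFun := DD.toFun
  invFun := DD.mk
  left_inv _ := rfl
  right_inv _ := rfl

instance : AddCommGroup (DD K A) := eq.addCommGroup

instance : Module K (DD K A) := eq.module K

@[simp] theorem add_toFun (ξ η : DD K A) : (ξ + η).toFun = ξ.toFun + η.toFun := rfl
@[simp] theorem zero_toFun : (0 : DD K A).toFun = 0 := rfl
@[simp] theorem smulK_toFun (c : K) (ξ : DD K A) : (c • ξ).toFun = c • ξ.toFun := rfl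

instance : SMul A (DD K A) := ⟨fun a ξ => ⟨ξ.toFun ∘ₗ LinearMap.mulRight K a⟩⟩

@[simp] theorem smul_toFun (a : A) (ξ : DD K A) (x : A) : (a • ξ).toFun x = ξ.toFun (x * a) := rfl

instance : Module A (DD K A) where
  one_smul ξ := by ext x; simp
  mul_smul a b ξ := by ext x; simp [mul_assoc]
  smul_zero a := by ext x; simp
  smul_add a ξ η := by ext x; simp
  add_smul a b ξ := by ext x; simp [mul_add]
  zero_smul ξ := by ext x; simp

instance : IsScalarTower K A (DD K A) where
  smul_assoc c a ξ := by ext x; simp

end DD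
end DD

end NTC
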