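import Pool.Agent.NTC.X0

/-!
# [NTC-D1] the data of the construction, the module `N` (definitions; the theorems are row D1)
-/

set_option autoImplicit false

open CategoryTheory

namespace NTC

/-- The data: `Λ` is selfinjective, `X` is a nonprojective module with a coresolution `X → DD^{m 0} → DD^{m 1} → ...` which stays exact under `Hom(X, -)`, `Λ^q → Λ^p → X → 0` is a presentation and
`U = ker (nu d)`. -/
structure Dat (K Λ : Type) [Field K] [Ring Λ] [Algebra K Λ] where
  fd : FiniteDimensional K Λ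
  inj : Module.Injective Λ Λ
  dd : InAdd Λ (DD K Λ) Λ
  /-- the module `X` -/
  X : Mo K Λ
  fdX : FiniteDimensional K X.T
  nproj : ¬ Module.Projective Λ X.T
  /-- ranks -/
  m : ℕ → ℕ
  /-- the matrices of the coresolution -/
  c : ∀ n, (Fin (m n) → Λ) →ₗ[Λ] (Fin (m (n + 1)) → Λ)
  /-- the first map -/
  jX : X.T →ₗ[Λ] (Fin (m 0) → DD K Λ)
  jX_inj : Function.Injective jX
  jX_range : LinearMap.range jX = LinearMap.ker (nu K (c 0))
  ex : ∀ n, LinearMap.range (nu K (c n)) = LinearMap.ker (nu K (c (n + 1)))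
  hom : ∀ n (f : X.T →ₗ[Λ] (Fin (m (n + 1)) → DD K Λ)), nu K (c (n + 1)) ∘ₗ f = 0 →
    ∃ g : X.T →ₗ[Λ] (Fin (m n) → DD K Λ), f = nu K (c n) ∘ₗ g
  /-- ranks of the presentation -/
  p : ℕ
  /-- ranks of the presentation -/
  q : ℕ
  /-- the presentation -/
  d : (Fin q → Λ) →ₗ[Λ] (Fin p → Λ)
  /-- the presentation -/
  π : (Fin p → Λ) →ₗ[Λ] X.T
  π_surj : Function.Surjective π
  π_ker : LinearMap.ker π = LinearMap.range d
  /-- the module `τ X` (up to injective summands) -/
  U : Mo K Λ
  fdU : FiniteDimensional K U.T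
  /-- the inclusion -/
  jU : U.T →ₗ[Λ] (Fin q → DD K Λ)
  jU_inj : Function.Injective jU
  jU_range : LinearMap.range jU = LinearMap.ker (nu K d)

/-- [D1] existence of the data.
PROOF. `X' = Mo.ofMod K X`. `exists_coresolution` gives `m`, `jX`, `c`. `hom`: `exact_of_ev_inj` for the injective coresolution `DD^{m n}` (`dd_injective`, `InAdd.pi'`, `InAdd.injective`). `X` is finite-dimensional over `K`
(finite over `Λ`). Presentation: `Λ^p → X` surjective; its kernel is finite-dimensional over `K`, so finitely generated. `U = Mo.of K Λ (ker (nu d))`, `jU` the inclusion. -/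
theorem exists_dat {K Λ : Type} [Field K] [Ring Λ] [Algebra K Λ] [HasExt.{1} (ModuleCat.{0} Λ)]
    (hfd : FiniteDimensional K Λ) (hinj : Module.Injective Λ Λ) (hdd : InAdd Λ (DD K Λ) Λ)
    (X : Type) [AddCommGroup X] [Module Λ X] (hX : Module.Finite Λ X) (hE : EV Λ X X)
    (hn : ¬ Module.Projective Λ X) : Nonempty (Dat K Λ) := by
  letI mK : Module K X := Module.compHom X (algebraMap K Λ)
  haveI tow : IsScalarTower K Λ X := ⟨fun c a x => by
    show (c • a) • x = algebraMap K Λ c • a • x
    rw [Algebra.smul_def, mul_smul]⟩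
  haveI h1 : Module.Finite K Λ := hfd
  haveI h2 : Module.Finite Λ X := hX
  haveI fdX : Module.Finite K X := Module.Finite.trans Λ X
  haveI h3 : Module.Finite Λ (DD K Λ) := dd_finite hfd
  haveI h4 : Module.Finite K (DD K Λ) := Module.Finite.trans Λ (DD K Λ)
  obtain ⟨m, j, c, hj, hr, hc⟩ := exists_coresolution (K := K) hfd X hX
  have hhom := exact_of_ev_inj hE (fun n => Fin (m n) → DD K Λ)
    (fun n => (InAdd.pi (m n)).injective dd_injective) (fun n => nu K (c n)) j hj hr.symm
    (fun n => (hc n).symm)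
  obtain ⟨p, π, hπ⟩ := Module.Finite.exists_fin' Λ X
  haveI h5 : Module.Finite K (LinearMap.ker π) :=
    Module.Finite.of_injective ((LinearMap.ker π).subtype.restrictScalars K)
      (Submodule.injective_subtype _)
  haveI h6 : Module.Finite Λ (LinearMap.ker π) := Module.Finite.of_restrictScalars_finite K Λ _
  obtain ⟨q, d', hd'⟩ := Module.Finite.exists_fin' Λ (LinearMap.ker π)
  let d : (Fin q → Λ) →ₗ[Λ] (Fin p → Λ) := (LinearMap.ker π).subtype ∘ₗ d'
  have hd : LinearMap.ker π = LinearMap.range d := by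
    rw [LinearMap.range_comp, LinearMap.range_eq_top.2 hd', Submodule.map_top,
      Submodule.range_subtype]
  haveI h7 : Module.Finite K (LinearMap.ker (nu K d)) :=
    Module.Finite.of_injective ((LinearMap.ker (nu K d)).subtype.restrictScalars K)
      (Submodule.injective_subtype _)
  exact ⟨{
    fd := hfd
    inj := hinj
    dd := hdd
    X := Mo.of K Λ X
    fdX := fdX
    nproj := hn
    m := m
    c := c
    jX := j
    jX_inj := hj
    jX_range := hr
    ex := hc
    hom := hhom
    p := p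
    q := q
    d := d
    π := π
    π_surj := hπ
    π_ker := hd
    U := Mo.of K Λ (LinearMap.ker (nu K d))
    fdU := h7
    jU := (LinearMap.ker (nu K d)).subtype
    jU_inj := Submodule.injective_subtype _
    jU_range := Submodule.range_subtype _ }⟩

namespace Dat

variable {K Λ : Type} [Field K] [Ring Λ] [Algebra K Λ] (D : Dat K Λ)

/-- the modules `X, DD^{m 0}, DD^{m 1}, ...` -/
def E : ℕ → Mo K Λ
  | 0 => D.X
  | n + 1 => Dn K Λ (D.m n)

/-- the maps -/
def e : ∀ n, (D.E n).T →ₗ[Λ] (D.E (n + 1)).T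
  | 0 => D.jX
  | n + 1 => nu K (D.c n)

theorem e_inj : Function.Injective (D.e 0) := D.jX_inj

theorem e_ex : ∀ n, LinearMap.range (D.e n) = LinearMap.ker (D.e (n + 1))
  | 0 => D.jX_range
  | n + 1 => D.ex n

/-- index set of the summands of `N` -/
abbrev J : Type := ZMod 6 ⊕ Bool

/-- the vertices of the summands -/
def at' : J → ZMod 6
  | Sum.inl b => b
  | Sum.inr false => 1
  | Sum.inr true => 0

/-- the summands -/
def mo : J → Mo K Λ
  | Sum.inl _ => Mo.of K Λ Λ
  | Sum.inr false => D.X
  | Sum.inr true => D.U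

/-- the summands in `Gr K Λ` -/
def S (j : J) : Gr K Λ := B (at' j) (D.mo j)

/-- the module `N' = Λ' ⊕ X_1 ⊕ X_2` -/
def N : Gr K Λ := pi D.S

end Dat

end NTC
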