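import Pool.Agent.NTC.D1

/-!
# [NTC-D2] exactness properties of the data
-/

set_option autoImplicit false

open CategoryTheory

namespace NTC

namespace Dat

variable {K Λ : Type} [Field K] [Ring Λ] [Algebra K Λ] (D : Dat K Λ)

theorem e_comp (n : ℕ) : D.e (n + 1) ∘ₗ D.e n = 0 := by
  refine LinearMap.ext fun x => ?_
  have : D.e n x ∈ LinearMap.range (D.e n) := ⟨x, rfl⟩
  rw [D.e_ex n] at this
  exact this

theorem E_inAdd (n : ℕ) : InAdd Λ (D.E (n + 1)).T Λ := by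
  exact D.dd.pi' (D.m n)

/-- [D2] (`exact_c`) -/
theorem cex (n : ℕ) : LinearMap.range (D.c n) = LinearMap.ker (D.c (n + 1)) := by
  exact exact_c D.fd D.dd (D.c n) (D.c (n + 1)) (D.ex n)

theorem c_comp (n : ℕ) : D.c (n + 1) ∘ₗ D.c n = 0 := by
  refine LinearMap.ext fun x => ?_
  have : D.c n x ∈ LinearMap.range (D.c n) := ⟨x, rfl⟩
  rw [D.cex n] at this
  exact this

/-- [D2] (`hom_c`, `D.hom`) -/
theorem chom (n : ℕ) (f : (Fin (D.m (n + 1)) → Λ) →ₗ[Λ] D.X.T) (h : f ∘ₗ D.c n = 0) :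
    ∃ g : (Fin (D.m (n + 2)) → Λ) →ₗ[Λ] D.X.T, f = g ∘ₗ D.c (n + 1) := by
  exact hom_c (D.c n) (D.c (n + 1)) (D.hom n) f h

section inj
variable {V : Type} [AddCommGroup V] [Module Λ V] (hV : Module.Injective Λ V)
include hV

/-- [D2] PROOF. general: if `range a = ker b`, `f ∘ a = 0` then `f` factors through `b` (it induces a map on `range b`, extend by injectivity) -/
theorem factor_inj {M M' M'' : Type} [AddCommGroup M] [Module Λ M] [AddCommGroup M'] [Module Λ M']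
    [AddCommGroup M''] [Module Λ M''] (a : M →ₗ[Λ] M') (b : M' →ₗ[Λ] M'')
    (hab : LinearMap.range a = LinearMap.ker b) (f : M' →ₗ[Λ] V) (hf : f ∘ₗ a = 0) :
    ∃ g : M'' →ₗ[Λ] V, f = g ∘ₗ b := by
  have hk : LinearMap.ker b ≤ LinearMap.ker f := by
    rw [← hab]
    rintro _ ⟨x, rfl⟩
    exact LinearMap.congr_fun hf x
  have hi : Function.Injective ((LinearMap.ker b).liftQ b le_rfl) := by
    rw [← LinearMap.ker_eq_bot]
    exact Submodule.ker_liftQ_eq_bot _ _ _ le_rfl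
  obtain ⟨g, hg⟩ := hV.out ((LinearMap.ker b).liftQ b le_rfl) hi ((LinearMap.ker b).liftQ f hk)
  refine ⟨g, LinearMap.ext fun x => ?_⟩
  exact (hg ((LinearMap.ker b).mkQ x)).symm

theorem c_inj (n : ℕ) (f : (Fin (D.m (n + 1)) → Λ) →ₗ[Λ] V) (h : f ∘ₗ D.c n = 0) :
    ∃ g : (Fin (D.m (n + 2)) → Λ) →ₗ[Λ] V, f = g ∘ₗ D.c (n + 1) := by
  exact factor_inj hV (D.c n) (D.c (n + 1)) (D.cex n) f h

theorem E_inj (n : ℕ) (f : (D.E (n + 1)).T →ₗ[Λ] V) (h : f ∘ₗ D.e n = 0) :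
    ∃ g : (D.E (n + 2)).T →ₗ[Λ] V, f = g ∘ₗ D.e (n + 1) := by
  exact factor_inj hV (D.e n) (D.e (n + 1)) (D.e_ex n) f h

theorem E_inj0 (f : (D.E 0).T →ₗ[Λ] V) : ∃ g : (D.E 1).T →ₗ[Λ] V, f = g ∘ₗ D.e 0 := by
  obtain ⟨g, hg⟩ := hV.out (D.e 0) D.e_inj f
  exact ⟨g, LinearMap.ext fun x => (hg x).symm⟩

/-- [D2] (`ker (e 0 ∘ π) = ker π = range d`) -/
theorem P_inj (f : (Fin D.p → Λ) →ₗ[Λ] V) (h : f ∘ₗ D.d = 0) :
    ∃ g : (D.E 1).T →ₗ[Λ] V, f = g ∘ₗ D.e 0 ∘ₗ D.π := by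
  have hk : LinearMap.range D.d = LinearMap.ker (D.e 0 ∘ₗ D.π) := by
    rw [← D.π_ker]
    refine Submodule.ext fun x => ?_
    show D.π x = 0 ↔ D.e 0 (D.π x) = 0
    exact (map_eq_zero_iff (D.e 0) D.e_inj).symm
  exact factor_inj hV D.d (D.e 0 ∘ₗ D.π) hk f h

end inj

/-- [D2] every `V` -/
theorem P_fac {V : Type} [AddCommGroup V] [Module Λ V] (f : (Fin D.p → Λ) →ₗ[Λ] V)
    (h : f ∘ₗ D.d = 0) : ∃ g : (D.E 0).T →ₗ[Λ] V, f = g ∘ₗ D.π := by
  have hk : LinearMap.ker D.π ≤ LinearMap.ker f := by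
    rw [D.π_ker]
    rintro _ ⟨x, rfl⟩
    exact LinearMap.congr_fun h x
  let e := D.π.quotKerEquivOfSurjective D.π_surj
  refine ⟨(LinearMap.ker D.π).liftQ f hk ∘ₗ e.symm.toLinearMap, LinearMap.ext fun x => ?_⟩
  have h1 : e.symm (D.π x) = (LinearMap.ker D.π).mkQ x := by
    rw [LinearEquiv.symm_apply_eq]
    rfl
  show f x = (LinearMap.ker D.π).liftQ f hk (e.symm (D.π x))
  rw [h1]
  rfl

section proj
variable {V : Type} [AddCommGroup V] [Module Λ V] (hV : Module.Projective Λ V)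
include hV

/-- [D2] PROOF. general: lift `V → ker b = range a` (`Module.projective_lifting_property`) -/
theorem factor_proj {M M' M'' : Type} [AddCommGroup M] [Module Λ M] [AddCommGroup M'] [Module Λ M']
    [AddCommGroup M''] [Module Λ M''] (a : M →ₗ[Λ] M') (b : M' →ₗ[Λ] M'')
    (hab : LinearMap.range a = LinearMap.ker b) (f : V →ₗ[Λ] M') (hf : b ∘ₗ f = 0) :
    ∃ g : V →ₗ[Λ] M, f = a ∘ₗ g := by
  have hf' : ∀ x, f x ∈ LinearMap.range a := fun x => by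
    rw [hab]
    exact LinearMap.congr_fun hf x
  obtain ⟨g, hg⟩ := Module.projective_lifting_property a.rangeRestrict
    (f.codRestrict (LinearMap.range a) hf') a.surjective_rangeRestrict
  refine ⟨g, LinearMap.ext fun x => ?_⟩
  exact (congrArg Subtype.val (LinearMap.congr_fun hg x)).symm

theorem c_proj (n : ℕ) (f : V →ₗ[Λ] (Fin (D.m (n + 1)) → Λ)) (h : D.c (n + 1) ∘ₗ f = 0) :
    ∃ g : V →ₗ[Λ] (Fin (D.m n) → Λ), f = D.c n ∘ₗ g := by
  exact factor_proj hV (D.c n) (D.c (n + 1)) (D.cex n) f h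

theorem E_proj (n : ℕ) (f : V →ₗ[Λ] (D.E (n + 1)).T) (h : D.e (n + 1) ∘ₗ f = 0) :
    ∃ g : V →ₗ[Λ] (D.E n).T, f = D.e n ∘ₗ g := by
  exact factor_proj hV (D.e n) (D.e (n + 1)) (D.e_ex n) f h

theorem P_proj (f : V →ₗ[Λ] (Fin D.p → Λ)) (h : D.π ∘ₗ f = 0) :
    ∃ g : V →ₗ[Λ] (Fin D.q → Λ), f = D.d ∘ₗ g := by
  exact factor_proj hV D.d D.π D.π_ker.symm f h

theorem P_lift (f : V →ₗ[Λ] (D.E 0).T) : ∃ g : V →ₗ[Λ] (Fin D.p → Λ), f = D.π ∘ₗ g := by
  obtain ⟨g, hg⟩ := Module.projective_lifting_property D.π f D.π_surj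
  exact ⟨g, hg.symm⟩

end proj

/-- [D2] PROOF. `n = 0`: `range (e 0) = ker (e 1)` and `e 0` is injective; `n + 1`: `D.hom`. -/
theorem E_hom (n : ℕ) (f : D.X.T →ₗ[Λ] (D.E (n + 1)).T) (h : D.e (n + 1) ∘ₗ f = 0) :
    ∃ g : D.X.T →ₗ[Λ] (D.E n).T, f = D.e n ∘ₗ g := by
  cases n with
  | zero =>
    have hf : ∀ x, f x ∈ LinearMap.range (D.e 0) := fun x => by
      rw [D.e_ex 0]
      exact LinearMap.congr_fun h x
    let i := LinearEquiv.ofInjective (D.e 0) D.e_inj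
    refine ⟨i.symm.toLinearMap ∘ₗ f.codRestrict (LinearMap.range (D.e 0)) hf,
      LinearMap.ext fun x => ?_⟩
    have h1 : i (i.symm (f.codRestrict (LinearMap.range (D.e 0)) hf x)) =
      f.codRestrict (LinearMap.range (D.e 0)) hf x := i.apply_symm_apply _
    exact (congrArg Subtype.val h1).symm
  | succ n => exact D.hom n f h

theorem fdE (n : ℕ) : FiniteDimensional K (D.E n).T := by
  cases n with
  | zero => exact D.fdX
  | succ n =>
    have := D.fd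
    have h1 : FiniteDimensional K (DD K Λ) :=
      Module.Finite.equiv (DD.eq.linearEquiv K : DD K Λ ≃ₗ[K] (Λ →ₗ[K] K)).symm
    exact (inferInstance : FiniteDimensional K (Fin (D.m n) → DD K Λ))

end Dat

end NTC
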