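import Pool.Agent.NTC.E0a

/-!
# [NTC-E2] exactness of `Hom(P_•, N)`
-/

set_option autoImplicit false

open CategoryTheory

namespace NTC

section
variable {A : Type} [Ring A] [HasExt.{1} (ModuleCat.{0} A)]
variable {M N : Type} [AddCommGroup M] [Module A M] [AddCommGroup N] [Module A N]

/-- factoring through a surjection -/
theorem e2_factor {A : Type} [Ring A] {P L N : Type} [AddCommGroup P] [Module A P]
    [AddCommGroup L] [Module A L] [AddCommGroup N] [Module A N] (p : P →ₗ[A] L)
    (hp : Function.Surjective p) (f : P →ₗ[A] N) (hf : LinearMap.ker p ≤ LinearMap.ker f) :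
    ∃ g : L →ₗ[A] N, ∀ x, g (p x) = f x := by
  refine ⟨(LinearMap.ker p).liftQ f hf ∘ₗ (p.quotKerEquivOfSurjective hp).symm.toLinearMap, ?_⟩
  intro x
  have h1 : (p.quotKerEquivOfSurjective hp).symm (p x) = Submodule.Quotient.mk x := by
    rw [LinearEquiv.symm_apply_eq]
    rfl
  show (LinearMap.ker p).liftQ f hf ((p.quotKerEquivOfSurjective hp).symm (p x)) = f x
  rw [h1]
  exact Submodule.liftQ_apply _ _ _

/-- [E2] If `Ext` vanishes then `Hom(P_•, N)` is exact for every projective resolution.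
PROOF. Induction on `n` for all `(M, P, d, π)`. `L = ker π`, `π' : P 1 → L` as in E1. `n = 0`: `f : P 1 → N` kills `range (d 1) = ker (d 0) = ker π'`, so `f = f' ∘ π'`, `f' : L → N`, `f' = g` on `L` for some `g : P 0 → N` (`ses_ext`), `f = g ∘ d 0`. `n + 1`: `EV A L N` by
`ses_shift'` (`ev_proj`) and the induction hypothesis for `L`. -/
theorem exact_of_ev_proj (h : EV A M N) (P : ℕ → Type) [∀ n, AddCommGroup (P n)]
    [∀ n, Module A (P n)] (hP : ∀ n, Module.Projective A (P n))
    (d : ∀ n, P (n + 1) →ₗ[A] P n) (π : P 0 →ₗ[A] M)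
    (hπ : Function.Surjective π) (h0 : LinearMap.ker π = LinearMap.range (d 0))
    (hd : ∀ n, LinearMap.ker (d n) = LinearMap.range (d (n + 1))) :
    ∀ n (f : P (n + 1) →ₗ[A] N), f ∘ₗ d (n + 1) = 0 → ∃ g : P n →ₗ[A] N, f = g ∘ₗ d n := by
  intro n
  induction n generalizing M P with
  | zero =>
    intro f hf
    have hr : ∀ x, d 0 x ∈ LinearMap.ker π := fun x => by
      rw [h0]
      exact LinearMap.mem_range_self _ x
    have hs : Function.Surjective ((d 0).codRestrict (LinearMap.ker π) hr) := by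
      rintro ⟨y, hy⟩
      rw [h0] at hy
      obtain ⟨x, hx⟩ := hy
      exact ⟨x, Subtype.ext hx⟩
    have hk : LinearMap.ker ((d 0).codRestrict (LinearMap.ker π) hr) ≤ LinearMap.ker f := by
      rw [LinearMap.ker_codRestrict, hd 0]
      rintro _ ⟨y, rfl⟩
      rw [LinearMap.mem_ker]
      exact LinearMap.congr_fun hf y
    obtain ⟨f', hf'⟩ := e2_factor _ hs f hk
    obtain ⟨g, hg⟩ := ses_ext (LinearMap.ker π).subtype π Subtype.coe_injective hπ
      (Submodule.range_subtype _) (h 1 le_rfl) f'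
    refine ⟨g, ?_⟩
    ext x
    rw [← hf' x, hg]
    rfl
  | succ n ih =>
    have hr : ∀ x, d 0 x ∈ LinearMap.ker π := fun x => by
      rw [h0]
      exact LinearMap.mem_range_self _ x
    have hs : Function.Surjective ((d 0).codRestrict (LinearMap.ker π) hr) := by
      rintro ⟨y, hy⟩
      rw [h0] at hy
      obtain ⟨x, hx⟩ := hy
      exact ⟨x, Subtype.ext hx⟩
    have hL : EV A (LinearMap.ker π) N := by
      intro i hi
      obtain ⟨j, rfl⟩ : ∃ j, i = j + 1 := ⟨i - 1, by omega⟩
      exact ses_shift' (LinearMap.ker π).subtype π Subtype.coe_injective hπ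
        (Submodule.range_subtype _) (ev_proj (hP 0) j) (h (j + 1 + 1) (by omega))
    exact ih hL (fun n => P (n + 1)) (fun n => hP (n + 1)) (fun n => d (n + 1))
      ((d 0).codRestrict (LinearMap.ker π) hr) hs
      (by rw [LinearMap.ker_codRestrict]; exact hd 0) (fun n => hd (n + 1))

end

end NTC
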