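import Pool.Agent.NTC.E0b

/-!
# [NTC-E3] exactness of `Hom(M, E^•)`
-/

set_option autoImplicit false

open CategoryTheory

namespace NTC

section
variable {A : Type} [Ring A] [HasExt.{1} (ModuleCat.{0} A)]
variable {M N : Type} [AddCommGroup M] [Module A M] [AddCommGroup N] [Module A N]

/-- the cosyzygy has vanishing `Ext` -/
theorem e3_ev (h : EV A M N) {E0 : Type} [AddCommGroup E0] [Module A E0]
    (hE : Module.Injective A E0) (ε : N →ₗ[A] E0) (hε : Function.Injective ε) :
    EV A M (E0 ⧸ LinearMap.range ε) := by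
  intro i hi
  obtain ⟨k, rfl⟩ : ∃ k, i = k + 1 := ⟨i - 1, by omega⟩
  refine ses_coshift (A := A) (M := M) (N := N) (E := E0) ε (LinearMap.range ε).mkQ hε
    (Submodule.mkQ_surjective _) (Submodule.ker_mkQ _).symm (n := k + 1) (ev_inj hE k) ?_
  exact h _ (by omega)

theorem e3_aux (n : ℕ) : ∀ (N : Type) [AddCommGroup N] [Module A N] (_ : EV A M N) (E : ℕ → Type)
    [∀ n, AddCommGroup (E n)] [∀ n, Module A (E n)] (_ : ∀ n, Module.Injective A (E n))
    (d : ∀ n, E n →ₗ[A] E (n + 1)) (ε : N →ₗ[A] E 0)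
    (_ : Function.Injective ε) (_ : LinearMap.ker (d 0) = LinearMap.range ε)
    (_ : ∀ n, LinearMap.ker (d (n + 1)) = LinearMap.range (d n))
    (f : M →ₗ[A] E (n + 1)) (_ : d (n + 1) ∘ₗ f = 0), ∃ g : M →ₗ[A] E n, f = d n ∘ₗ g := by
  induction n with
  | zero =>
    intro N _ _ h E _ _ hE d ε hε h0 hd f hf
    -- the quotient `C = E 0 / range ε` and the induced map into `E 1`
    let e' : (E 0 ⧸ LinearMap.range ε) →ₗ[A] E 1 :=
      (LinearMap.range ε).liftQ (d 0) (le_of_eq h0.symm)
    have he' : Function.Injective e' := by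
      rw [← LinearMap.ker_eq_bot]
      exact Submodule.ker_liftQ_eq_bot _ _ _ (le_of_eq h0)
    have hr : LinearMap.range e' = LinearMap.range (d 0) := Submodule.range_liftQ _ _ _
    have hmem : ∀ m, f m ∈ LinearMap.range e' := by
      intro m
      rw [hr, ← hd 0, LinearMap.mem_ker]
      exact LinearMap.congr_fun hf m
    let eq := LinearEquiv.ofInjective e' he'
    let f' : M →ₗ[A] (E 0 ⧸ LinearMap.range ε) :=
      eq.symm.toLinearMap ∘ₗ f.codRestrict (LinearMap.range e') hmem
    have hf' : ∀ m, e' (f' m) = f m := by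
      intro m
      have h1 : eq (f' m) = f.codRestrict (LinearMap.range e') hmem m := by
        change eq (eq.symm _) = _
        rw [LinearEquiv.apply_symm_apply]
      have h2 := congrArg Subtype.val h1
      simpa [eq] using h2
    obtain ⟨g, hg⟩ := ses_lift (A := A) (M := M) ε (LinearMap.range ε).mkQ hε
      (Submodule.mkQ_surjective _) (Submodule.ker_mkQ _).symm (h 1 (by omega)) f'
    refine ⟨g, ?_⟩
    ext m
    rw [← hf' m, hg]
    rfl
  | succ n ih =>
    intro N _ _ h E _ _ hE d ε hε h0 hd f hf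
    let e' : (E 0 ⧸ LinearMap.range ε) →ₗ[A] E 1 :=
      (LinearMap.range ε).liftQ (d 0) (le_of_eq h0.symm)
    have he' : Function.Injective e' := by
      rw [← LinearMap.ker_eq_bot]
      exact Submodule.ker_liftQ_eq_bot _ _ _ (le_of_eq h0)
    have hr : LinearMap.range e' = LinearMap.range (d 0) := Submodule.range_liftQ _ _ _
    exact ih (E 0 ⧸ LinearMap.range ε) (e3_ev h (hE 0) ε hε) (fun n => E (n + 1))
      (fun n => hE (n + 1)) (fun n => d (n + 1)) e' he' (by rw [hr]; exact hd 0)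
      (fun n => hd (n + 1)) f hf

/-- [E3] If `Ext` vanishes then `Hom(M, E^•)` is exact for every injective coresolution of `N`.
PROOF. Induction on `n` for all `(N, E, d, ε)`. `C = E 0 ⧸ range ε`, `0 → N → E 0 → C → 0`, `ε' : C → E 1` induced by `d 0` (injective as `ker (d 0) = range ε`), and `E (n + 1)`, `d (n + 1)`, `ε'` is a coresolution of `C`. `n = 0`: `f : M → E 1` has values in
`ker (d 1) = range (d 0) = range ε'`, so `f = ε' ∘ f'`, `f' : M → C`, `f' = mkQ ∘ g`, `g : M → E 0` (`ses_lift`), `f = d 0 ∘ g`. `n + 1`: `EV A M C` by `ses_coshift` (`ev_inj`) and the induction hypothesis for `C`. -/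
theorem exact_of_ev_inj (h : EV A M N) (E : ℕ → Type) [∀ n, AddCommGroup (E n)]
    [∀ n, Module A (E n)] (hE : ∀ n, Module.Injective A (E n))
    (d : ∀ n, E n →ₗ[A] E (n + 1)) (ε : N →ₗ[A] E 0)
    (hε : Function.Injective ε) (h0 : LinearMap.ker (d 0) = LinearMap.range ε)
    (hd : ∀ n, LinearMap.ker (d (n + 1)) = LinearMap.range (d n)) :
    ∀ n (f : M →ₗ[A] E (n + 1)), d (n + 1) ∘ₗ f = 0 → ∃ g : M →ₗ[A] E n, f = d n ∘ₗ g :=
  fun n f hf => e3_aux n N h E hE d ε hε h0 hd f hf

end

end NTC
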