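import Pool.Agent.NTC.D0

/-!
# [NTC-E0a] `Ext` and short exact sequences in the first argument
-/

set_option autoImplicit false

open CategoryTheory

namespace NTC

/-- `Ext^i(M, N) = 0` -/
def Ev (A : Type) [Ring A] [HasExt.{1} (ModuleCat.{0} A)] (M N : Type) [AddCommGroup M] [Module A M]
    [AddCommGroup N] [Module A N] (i : ℕ) : Prop :=
  Subsingleton (Abelian.Ext.{1} (ModuleCat.of A M) (ModuleCat.of A N) i)

section
variable {A : Type} [Ring A] [HasExt.{1} (ModuleCat.{0} A)]
variable {L P M N : Type} [AddCommGroup L] [Module A L] [AddCommGroup P] [Module A P]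
  [AddCommGroup M] [Module A M] [AddCommGroup N] [Module A N]

/-- [E0a] Mathlib: `Abelian.Ext` of a projective object vanishes in positive degrees (`Abelian.Ext.eq_zero_of_projective` / `Ext.subsingleton_of_projective`), `ModuleCat` is projective iff the module is
(`IsProjective.iff_projective`). -/
theorem ev_proj (hP : Module.Projective A P) (n : ℕ) : Ev A P N (n + 1) := by
  have h1 : Projective (ModuleCat.of A P) := (IsProjective.iff_projective P).1 hP
  exact Abelian.Ext.subsingleton_of_projective (ModuleCat.of A P) (ModuleCat.of A N) n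

variable (i : L →ₗ[A] P) (p : P →ₗ[A] M) (hi : Function.Injective i) (hp : Function.Surjective p)
  (h : LinearMap.range i = LinearMap.ker p)
include hi hp h

/-- the short exact sequence -/
theorem e0a_ses : ∃ z : ModuleCat.ofHom i ≫ ModuleCat.ofHom p = 0,
    (ShortComplex.mk (ModuleCat.ofHom i) (ModuleCat.ofHom p) z).ShortExact := by
  have z : ModuleCat.ofHom i ≫ ModuleCat.ofHom p = 0 := by
    ext x
    have hx : i x ∈ LinearMap.ker p := by
      rw [← h]
      exact LinearMap.mem_range_self i x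
    exact LinearMap.mem_ker.1 hx
  exact ⟨z, {
    exact := (ShortComplex.moduleCat_exact_iff_range_eq_ker _).2 h
    mono_f := (ModuleCat.mono_iff_injective _).2 hi
    epi_g := (ModuleCat.epi_iff_surjective _).2 hp }⟩

/-- [E0a] PROOF. The sequence `0 → L → P → M → 0` gives a `ShortComplex.ShortExact` in `ModuleCat A` with extension class `e : Ext M L 1` (`ShortComplex.ShortExact.extClass`). For `f : L → N`, `e.comp (mk₀ f) ∈ Ext^1(M, N) = 0`, so `f` extends to `P` by the
contravariant long exact sequence (`Abelian.Ext.contravariant_sequence_exact₁` and `₃` etc.). -/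
theorem ses_ext (h1 : Ev A M N 1) (f : L →ₗ[A] N) : ∃ g : P →ₗ[A] N, f = g ∘ₗ i := by
  obtain ⟨z, hS⟩ := e0a_ses i p hi hp h
  have h1' : Subsingleton (Abelian.Ext.{1} (ModuleCat.of A M) (ModuleCat.of A N) 1) := h1
  obtain ⟨x, hx⟩ := Abelian.Ext.contravariant_sequence_exact₁ hS (ModuleCat.of A N)
    (Abelian.Ext.mk₀ (ModuleCat.ofHom f)) (n₁ := 1) rfl (Subsingleton.elim _ _)
  obtain ⟨g, hg⟩ := (Abelian.Ext.mk₀_bijective _ _).2 x
  rw [← hg, Abelian.Ext.mk₀_comp_mk₀] at hx
  have h2 := (Abelian.Ext.mk₀_bijective _ _).1 hx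
  refine ⟨g.hom, ?_⟩
  have h3 := congrArg ModuleCat.Hom.hom h2
  exact h3.symm

/-- [E0a] PROOF. contravariant long exact sequence: `x ∈ Ext^1(M, N)` restricts to `0` in `Ext^1(P, N)`, so `x = e.comp (mk₀ f)`, `f = g ∘ i`, so `x = 0`. -/
theorem ses_ext' (hP : Ev A P N 1) (hf : ∀ f : L →ₗ[A] N, ∃ g : P →ₗ[A] N, f = g ∘ₗ i) :
    Ev A M N 1 := by
  obtain ⟨z, hS⟩ := e0a_ses i p hi hp h
  have hP' : Subsingleton (Abelian.Ext.{1} (ModuleCat.of A P) (ModuleCat.of A N) 1) := hP
  refine subsingleton_of_forall_eq 0 fun x => ?_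
  obtain ⟨y, hy⟩ := Abelian.Ext.contravariant_sequence_exact₃ hS (ModuleCat.of A N) x
    (Subsingleton.elim _ _) (n₀ := 0) rfl
  obtain ⟨f, rfl⟩ := (Abelian.Ext.mk₀_bijective _ _).2 y
  obtain ⟨g, hg⟩ := hf f.hom
  have h1 : f = ModuleCat.ofHom i ≫ ModuleCat.ofHom g := by
    ext x
    exact LinearMap.congr_fun hg x
  rw [← hy, h1, ← Abelian.Ext.mk₀_comp_mk₀, hS.extClass_comp_assoc]

/-- [E0a] (contravariant long exact sequence) -/
theorem ses_shift {n : ℕ} (hP : Ev A P N (n + 1)) (hL : Ev A L N n) : Ev A M N (n + 1) := by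
  obtain ⟨z, hS⟩ := e0a_ses i p hi hp h
  have hP' : Subsingleton (Abelian.Ext.{1} (ModuleCat.of A P) (ModuleCat.of A N) (n + 1)) := hP
  have hL' : Subsingleton (Abelian.Ext.{1} (ModuleCat.of A L) (ModuleCat.of A N) n) := hL
  refine subsingleton_of_forall_eq 0 fun x => ?_
  obtain ⟨y, hy⟩ := Abelian.Ext.contravariant_sequence_exact₃ hS (ModuleCat.of A N) x
    (Subsingleton.elim _ _) (n₀ := n) (add_comm 1 n)
  have h0 : y = 0 := Subsingleton.elim _ _
  rw [← hy, h0, Abelian.Ext.comp_zero]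

/-- [E0a] -/
theorem ses_shift' {n : ℕ} (hP : Ev A P N n) (hM : Ev A M N (n + 1)) : Ev A L N n := by
  obtain ⟨z, hS⟩ := e0a_ses i p hi hp h
  have hP' : Subsingleton (Abelian.Ext.{1} (ModuleCat.of A P) (ModuleCat.of A N) n) := hP
  have hM' : Subsingleton (Abelian.Ext.{1} (ModuleCat.of A M) (ModuleCat.of A N) (n + 1)) := hM
  refine subsingleton_of_forall_eq 0 fun x => ?_
  obtain ⟨y, hy⟩ := Abelian.Ext.contravariant_sequence_exact₁ hS (ModuleCat.of A N) x
    (n₁ := n + 1) (add_comm 1 n) (Subsingleton.elim _ _)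
  have h0 : y = 0 := Subsingleton.elim _ _
  rw [← hy, h0, Abelian.Ext.comp_zero]

end

end NTC
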