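import Pool.Agent.NTC.E0a

/-!
# [NTC-E0b] `Ext` and short exact sequences in the second argument
-/

set_option autoImplicit false

open CategoryTheory

namespace NTC

section
variable {A : Type} [Ring A] [HasExt.{1} (ModuleCat.{0} A)]
variable {N E C M : Type} [AddCommGroup N] [Module A N] [AddCommGroup E] [Module A E]
  [AddCommGroup C] [Module A C] [AddCommGroup M] [Module A M]

/-- [E0b] (Mathlib: `Ext` into an injective object vanishes in positive degrees; `Module.injective_object_of_injective_module`) -/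
theorem ev_inj (hE : Module.Injective A E) (n : ℕ) : Ev A M E (n + 1) := by
  have : CategoryTheory.Injective (ModuleCat.of A E) :=
    Module.injective_object_of_injective_module A E
  exact Abelian.Ext.subsingleton_of_injective _ _ n

variable (i : N →ₗ[A] E) (p : E →ₗ[A] C) (hi : Function.Injective i) (hp : Function.Surjective p)
  (h : LinearMap.range i = LinearMap.ker p)
include hi hp h

omit [HasExt.{1} (ModuleCat.{0} A)] hi hp in
theorem e0b_zero : ModuleCat.ofHom i ≫ ModuleCat.ofHom p = 0 := by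
  rw [← ModuleCat.ofHom_comp]
  have : p ∘ₗ i = 0 := by
    ext x
    have : i x ∈ LinearMap.ker p := by
      rw [← h]
      exact ⟨x, rfl⟩
    exact this
  rw [this]
  rfl

omit [HasExt.{1} (ModuleCat.{0} A)] in
/-- the short exact sequence in `ModuleCat A` -/
theorem e0b_short : (ShortComplex.mk (ModuleCat.ofHom i) (ModuleCat.ofHom p)
    (e0b_zero i p h)).ShortExact where
  exact := (ShortComplex.moduleCat_exact_iff_range_eq_ker _).2 h
  mono_f := (ModuleCat.mono_iff_injective _).2 hi
  epi_g := (ModuleCat.epi_iff_surjective _).2 hp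

/-- [E0b] (covariant long exact sequence) -/
theorem ses_lift (h1 : Ev A M N 1) (f : M →ₗ[A] C) : ∃ g : M →ₗ[A] E, f = p ∘ₗ g := by
  have hS := e0b_short i p hi hp h
  have : Subsingleton (Abelian.Ext.{1} (ModuleCat.of A M) (ModuleCat.of A N) 1) := h1
  obtain ⟨x, hx⟩ := Abelian.Ext.covariant_sequence_exact₃ (ModuleCat.of A M) hS
    (Abelian.Ext.mk₀ (ModuleCat.ofHom f)) (zero_add 1) (Subsingleton.elim _ _)
  obtain ⟨g, rfl⟩ := Abelian.Ext.addEquiv₀.symm.surjective x
  refine ⟨g.hom, ?_⟩
  have h2 : Abelian.Ext.mk₀ (g ≫ ModuleCat.ofHom p) =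
      Abelian.Ext.mk₀ (ModuleCat.ofHom f) := by
    rw [← hx, Abelian.Ext.addEquiv₀_symm_apply, Abelian.Ext.mk₀_comp_mk₀]
  have h3 := (Abelian.Ext.mk₀_bijective _ _).1 h2
  have h4 := congrArg ModuleCat.Hom.hom h3
  rw [ModuleCat.hom_comp] at h4
  exact h4.symm

/-- [E0b] -/
theorem ses_coshift {n : ℕ} (hE : Ev A M E n) (hN : Ev A M N (n + 1)) : Ev A M C n := by
  have hS := e0b_short i p hi hp h
  have h1 : Subsingleton (Abelian.Ext.{1} (ModuleCat.of A M) (ModuleCat.of A E) n) := hE
  have h2 : Subsingleton (Abelian.Ext.{1} (ModuleCat.of A M) (ModuleCat.of A N) (n + 1)) := hN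
  refine subsingleton_of_forall_eq 0 fun x => ?_
  obtain ⟨y, hy⟩ := Abelian.Ext.covariant_sequence_exact₃ (ModuleCat.of A M) hS x rfl
    (Subsingleton.elim _ _)
  have h3 : y = 0 := h1.elim _ _
  rw [← hy, h3, Abelian.Ext.zero_comp]

end

end NTC
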