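import Pool.Agent.NTC.R2

/-!
# [NTC-R3a] the dual `D(A)` is an injective cogenerator
-/

set_option autoImplicit false

open CategoryTheory

namespace NTC

section DD
variable {K A : Type} [Field K] [Ring A] [Algebra K A]

/-- the linear map `y ↦ (a ↦ φ (a • y))` -/
def r3a_lift {M : Type} [AddCommGroup M] [Module A M] [Module K M] [IsScalarTower K A M]
    (φ : M →ₗ[K] K) : M →ₗ[A] DD K A where
  toFun y := ⟨{ toFun := fun a => φ (a • y)
                map_add' := fun a b => by rw [add_smul, map_add]
                map_smul' := fun c a => by rw [smul_assoc, map_smul]; rfl }⟩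
  map_add' x y := by
    refine DD.ext' fun a => ?_
    change φ (a • (x + y)) = φ (a • x) + φ (a • y)
    rw [smul_add, map_add]
  map_smul' b y := by
    refine DD.ext' fun a => ?_
    change φ (a • b • y) = φ ((a * b) • y)
    rw [mul_smul]

theorem r3a_lift_apply {M : Type} [AddCommGroup M] [Module A M] [Module K M] [IsScalarTower K A M]
    (φ : M →ₗ[K] K) (y : M) (a : A) : (r3a_lift φ y : DD K A).toFun a = φ (a • y) := rfl

theorem r3a_tower (M : Type) [AddCommGroup M] [Module A M] :
    letI : Module K M := Module.compHom M (algebraMap K A)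
    IsScalarTower K A M := by
  let : Module K M := Module.compHom M (algebraMap K A)
  refine ⟨fun c a m => ?_⟩
  change (c • a) • m = (algebraMap K A c) • (a • m)
  rw [Algebra.smul_def, mul_smul]

/-- [R3] -/
theorem dd_finite (h : FiniteDimensional K A) : Module.Finite A (DD K A) := by
  have : Module.Finite K (DD K A) :=
    Module.Finite.equiv (DD.eq.linearEquiv K : DD K A ≃ₗ[K] (A →ₗ[K] K)).symm
  exact Module.Finite.of_restrictScalars_finite K A (DD K A)

/-- [R3] PROOF. Let `f : X → Y` be injective, `g : X → DD`. With the `K`-structures `Module.compHom _ (algebraMap K A)` on `X` and `Y` the linear form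
`x ↦ (g x).toFun 1` on `X` extends to a linear form `φ` on `Y` (`LinearMap.exists_extend` / `exists_leftInverse`); `h y = (a ↦ φ (a • y))` is `A`-linear, and
`h (f x) a = φ (f (a • x)) = (g (a • x)).toFun 1 = (a • g x).toFun 1 = (g x).toFun (1 * a)`. No finiteness is needed. -/
theorem dd_injective : Module.Injective A (DD K A) := by
  refine ⟨fun X Y _ _ _ _ f hf g => ?_⟩
  let : Module K X := Module.compHom X (algebraMap K A)
  let : Module K Y := Module.compHom Y (algebraMap K A)
  have : IsScalarTower K A Y := r3a_tower Y
  let fK : X →ₗ[K] Y :=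
    { toFun := f
      map_add' := map_add f
      map_smul' := fun c x => f.map_smul (algebraMap K A c) x }
  have hfK : LinearMap.ker fK = ⊥ := LinearMap.ker_eq_bot.mpr hf
  obtain ⟨gK, hgK⟩ := LinearMap.exists_leftInverse_of_injective fK hfK
  let ψ : X →ₗ[K] K :=
    { toFun := fun x => (g x).toFun 1
      map_add' := fun x y => by rw [map_add]; rfl
      map_smul' := fun c x => by
        have h1 : g (c • x) = (algebraMap K A c) • g x := g.map_smul (algebraMap K A c) x
        rw [h1, DD.smul_toFun, one_mul, Algebra.algebraMap_eq_smul_one, map_smul]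
        rfl }
  refine ⟨r3a_lift (ψ ∘ₗ gK), fun x => ?_⟩
  refine DD.ext' fun a => ?_
  rw [r3a_lift_apply, LinearMap.comp_apply, ← map_smul]
  have h2 : gK (f (a • x)) = a • x := LinearMap.congr_fun hgK (a • x)
  rw [h2]
  change (g (a • x)).toFun 1 = (g x).toFun a
  rw [map_smul, DD.smul_toFun, one_mul]

/-- [R3] every finitely generated module over a finite-dimensional algebra embeds in a finite power of `DD`.
PROOF. `M` is finite-dimensional over `K` (`K`-structure `Module.compHom`); for a basis `φ_k` of the dual space map `x` to `(a ↦ φ_k (a • x))_k`; if all are `0` then (`a = 1`) all `φ_k x = 0`. -/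
theorem exists_embed (h : FiniteDimensional K A) (M : Type) [AddCommGroup M] [Module A M]
    (hf : Module.Finite A M) : ∃ (n : ℕ) (f : M →ₗ[A] (Fin n → DD K A)), Function.Injective f := by
  let : Module K M := Module.compHom M (algebraMap K A)
  have : IsScalarTower K A M := r3a_tower M
  have : Module.Finite K A := h
  have : Module.Finite K M := Module.Finite.trans A M
  let b := Module.finBasis K M
  refine ⟨Module.finrank K M, LinearMap.pi fun k => r3a_lift (b.coord k), ?_⟩
  rw [injective_iff_map_eq_zero]
  intro x hx
  refine b.ext_elem fun k => ?_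
  have h1 := congrFun hx k
  have h2 : b.coord k ((1 : A) • x) = 0 := by
    rw [← r3a_lift_apply]
    have h3 : r3a_lift (K := K) (A := A) (b.coord k) x = 0 := h1
    rw [h3]
    rfl
  rw [one_smul, Module.Basis.coord_apply] at h2
  rw [h2, map_zero]
  rfl

end DD

end NTC
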