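import Pool.Agent.NTC.L1a
import Pool.Agent.NTC.R3a

/-!
# [NTC-L3a] coresolutions by powers of `D(Λ)`
-/

set_option autoImplicit false

open CategoryTheory

namespace NTC

variable {K Λ : Type} [Field K] [Ring Λ] [Algebra K Λ]

/-- bundled finitely generated modules -/
structure L3aS (Λ : Type) [Ring Λ] : Type 1 where
  /-- the module -/
  C : Type
  [acg : AddCommGroup C]
  [mod : Module Λ C]
  fin : Module.Finite Λ C

attribute [instance] L3aS.acg L3aS.mod

/-- the next cokernel -/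
def l3a_next (mm : L3aS Λ → ℕ) (ff : ∀ s : L3aS Λ, s.C →ₗ[Λ] (Fin (mm s) → DD K Λ))
    (hfin : ∀ n : ℕ, Module.Finite Λ (Fin n → DD K Λ)) (s : L3aS Λ) : L3aS Λ where
  C := (Fin (mm s) → DD K Λ) ⧸ LinearMap.range (ff s)
  fin := by
    have := hfin (mm s)
    infer_instance

/-- the sequence of cokernels -/
def l3a_seq (mm : L3aS Λ → ℕ) (ff : ∀ s : L3aS Λ, s.C →ₗ[Λ] (Fin (mm s) → DD K Λ))
    (hfin : ∀ n : ℕ, Module.Finite Λ (Fin n → DD K Λ)) (s : L3aS Λ) : ℕ → L3aS Λ
  | 0 => s
  | n + 1 => l3a_next mm ff hfin (l3a_seq mm ff hfin s n)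

/-- [L3] PROOF. Every finitely generated module embeds into some `DD^m` (`exists_embed`); apply it to `X`, to the cokernel of `X → DD^{m 0}` etc. (recursively: the data of step `n` are a finitely
generated module `C_n` (cokernel) with a surjection `DD^{m n} → C_n`; the next map is `DD^{m n} → C_n → DD^{m (n+1)}`), and write the maps as `nu (c n)` (`nu_surj`). Quotients of finitely generated modules are finitely
generated. A convenient form: first prove the statement for a sequence of maps `F n : DD^{m n} → DD^{m (n+1)}`. -/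
theorem exists_coresolution (hfd : FiniteDimensional K Λ) (X : Type) [AddCommGroup X] [Module Λ X]
    (hX : Module.Finite Λ X) :
    ∃ (m : ℕ → ℕ) (j : X →ₗ[Λ] (Fin (m 0) → DD K Λ))
      (c : ∀ n, (Fin (m n) → Λ) →ₗ[Λ] (Fin (m (n + 1)) → Λ)),
      Function.Injective j ∧ LinearMap.range j = LinearMap.ker (nu K (c 0)) ∧
        ∀ n, LinearMap.range (nu K (c n)) = LinearMap.ker (nu K (c (n + 1))) := by
  have hemb : ∀ s : L3aS Λ, ∃ (n : ℕ) (f : s.C →ₗ[Λ] (Fin n → DD K Λ)), Function.Injective f :=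
    fun s => exists_embed hfd s.C s.fin
  choose mm ff hff using hemb
  have hfin : ∀ n : ℕ, Module.Finite Λ (Fin n → DD K Λ) := by
    intro n
    have := dd_finite (K := K) (A := Λ) hfd
    infer_instance
  let s0 : L3aS Λ := ⟨X, hX⟩
  let S : ℕ → L3aS Λ := l3a_seq mm ff hfin s0
  let F : ∀ n, (Fin (mm (S n)) → DD K Λ) →ₗ[Λ] (Fin (mm (S (n + 1))) → DD K Λ) := fun n =>
    ff (S (n + 1)) ∘ₗ
      (show (Fin (mm (S n)) → DD K Λ) →ₗ[Λ] (S (n + 1)).C from
        (LinearMap.range (ff (S n))).mkQ)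
  have hker : ∀ n, LinearMap.ker (F n) = LinearMap.range (ff (S n)) := by
    intro n
    show LinearMap.ker (ff (S (n + 1)) ∘ₗ
      (show (Fin (mm (S n)) → DD K Λ) →ₗ[Λ] (S (n + 1)).C from
        (LinearMap.range (ff (S n))).mkQ)) = _
    rw [LinearMap.ker_comp_of_ker_eq_bot _ (LinearMap.ker_eq_bot.mpr (hff (S (n + 1))))]
    exact Submodule.ker_mkQ _
  have hran : ∀ n, LinearMap.range (F n) = LinearMap.range (ff (S (n + 1))) := by
    intro n
    apply LinearMap.range_comp_of_range_eq_top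
    exact Submodule.range_mkQ _
  have hc : ∀ n, ∃ d : (Fin (mm (S n)) → Λ) →ₗ[Λ] (Fin (mm (S (n + 1))) → Λ), nu K d = F n :=
    fun n => nu_surj hfd (F n)
  choose c hcF using hc
  refine ⟨fun n => mm (S n), ff (S 0), c, hff (S 0), ?_, ?_⟩
  · rw [hcF 0, hker 0]
    rfl
  · intro n
    show LinearMap.range (nu K (c n)) = LinearMap.ker (nu K (c (n + 1)))
    rw [hcF n, hcF (n + 1), hran n, hker (n + 1)]

end NTC
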