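import Pool.Agent.NTC.R
import Pool.Agent.NTC.C0

/-!
# [NTC-L0] the Nakayama functor on matrices (no row: definitions, complete)

A linear map `d : Λ^m → Λ^n` has the matrix `D k j = d (e_k) j`; `nu d : D(Λ)^m → D(Λ)^n` is `(ξ_k) ↦ (x ↦ ∑_k ξ_k (D k j x))_j`. The trace form `th j : Hom(Λ^n, U) → K` of a map
`j : U → D(Λ)^n` is `h ↦ ∑_k (j (h e_k))_k (1)`.
-/

set_option autoImplicit false

open CategoryTheory

namespace NTC

variable {K Λ : Type} [Field K] [Ring Λ] [Algebra K Λ]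

/-- the Nakayama functor on matrices -/
def nu (K : Type) {Λ : Type} [Field K] [Ring Λ] [Algebra K Λ] {m n : ℕ}
    (d : (Fin m → Λ) →ₗ[Λ] (Fin n → Λ)) : (Fin m → DD K Λ) →ₗ[Λ] (Fin n → DD K Λ) where
  toFun ξ j := ⟨∑ k, (ξ k).toFun ∘ₗ LinearMap.mulLeft K (d (Pi.single k 1) j)⟩
  map_add' ξ η := by
    funext j
    ext x
    simp [Finset.sum_add_distrib]
  map_smul' a ξ := by
    funext j
    ext x
    simp [mul_assoc]

theorem nu_apply {m n : ℕ} (d : (Fin m → Λ) →ₗ[Λ] (Fin n → Λ)) (ξ : Fin m → DD K Λ) (j : Fin n)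
    (x : Λ) : (nu K d ξ j).toFun x = ∑ k, (ξ k).toFun (d (Pi.single k 1) j * x) := by
  simp [nu]

section
variable {U : Type} [AddCommGroup U] [Module K U] [Module Λ U] [IsScalarTower K Λ U]

/-- the trace form -/
def th {n : ℕ} (j : U →ₗ[Λ] (Fin n → DD K Λ)) : ((Fin n → Λ) →ₗ[Λ] U) →ₗ[K] K where
  toFun h := ∑ k, (j (h (Pi.single k 1)) k).toFun 1
  map_add' f g := by
    simp [Finset.sum_add_distrib]
  map_smul' c f := by
    simp only [LinearMap.smul_apply, RingHom.id_apply, Finset.smul_sum]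
    refine Finset.sum_congr rfl fun k _ => ?_
    rw [LinearMap.map_smul_of_tower j c]
    rfl

theorem th_apply {n : ℕ} (j : U →ₗ[Λ] (Fin n → DD K Λ)) (h : (Fin n → Λ) →ₗ[Λ] U) :
    th j h = ∑ k, (j (h (Pi.single k 1)) k).toFun 1 := rfl

end

/-- the free module -/
abbrev Fr (K Λ : Type) [Field K] [Ring Λ] [Algebra K Λ] (n : ℕ) : Mo K Λ := Mo.of K Λ (Fin n → Λ)

/-- the module `D(Λ)^n` -/
abbrev Dn (K Λ : Type) [Field K] [Ring Λ] [Algebra K Λ] (n : ℕ) : Mo K Λ :=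
  Mo.of K Λ (Fin n → DD K Λ)

end NTC
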