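import Pool.Agent.NTC.V1d
import Pool.Agent.NTC.L0

/-!
# [NTC-V1e] the modules `(D(A)^m ⟶ A ⊕ D(A))` over `End (A ⊕ D(A))`
-/

set_option autoImplicit false

open CategoryTheory

namespace NTC

variable {K A : Type} [Field K] [Ring A] [Algebra K A]

/-- [V1e] PROOF. `inAdd_Cb`: `DD^m ∈ add (A × DD)` (`InAdd.pi'`, `InAdd.of_retract` with `LinearMap.inr`, `LinearMap.snd`). -/
theorem Dn_inAdd_VN (m : ℕ) : InAddC (⟨Dn K A m⟩ : Cb K A) (VN K A) := by
  refine inAdd_Cb (V := Dn K A m) (W := Mo.of K A (A × DD K A)) ?_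
  refine InAdd.pi' (InAdd.of_retract (LinearMap.inr A A (DD K A)) (LinearMap.snd A A (DD K A)) ?_) m
  ext x
  rfl

/-- [V1e] (`projC`, `finC`) -/
theorem proj_Dn_VN (m : ℕ) : Module.Projective (End (VN K A)) ((⟨Dn K A m⟩ : Cb K A) ⟶ VN K A) :=
  projC (Dn_inAdd_VN m)

/-- [V1e] -/
theorem fin_Dn_VN (m : ℕ) : Module.Finite (End (VN K A)) ((⟨Dn K A m⟩ : Cb K A) ⟶ VN K A) :=
  finC (Dn_inAdd_VN m)

/-- the dual module as an object -/
abbrev v1e_D (K A : Type) [Field K] [Ring A] [Algebra K A] : Cb K A := ⟨Mo.of K A (DD K A)⟩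

/-- the regular module as an object -/
abbrev v1e_A (K A : Type) [Field K] [Ring A] [Algebra K A] : Cb K A := ⟨Mo.of K A A⟩

/-- the trace form -/
def v1e_th (K A : Type) [Field K] [Ring A] [Algebra K A] : (v1e_D K A ⟶ v1e_A K A) →ₗ[K] K where
  toFun h := (show A →ₗ[A] DD K A from h) 1 |>.toFun 1
  map_add' _ _ := rfl
  map_smul' _ _ := rfl

/-- a morphism given by an element -/
def v1e_f (y : A × DD K A) : VN K A ⟶ v1e_A K A := LinearMap.toSpanSingleton A (A × DD K A) y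

theorem v1e_th_comp (g : v1e_D K A ⟶ VN K A) (f : VN K A ⟶ v1e_A K A) :
    v1e_th K A (g ≫ f) =
      ((show A × DD K A →ₗ[A] DD K A from g) ((show A →ₗ[A] A × DD K A from f) 1)).toFun 1 := rfl

theorem v1e_f_one (y : A × DD K A) : (show A →ₗ[A] A × DD K A from v1e_f y) 1 = y :=
  one_smul A y

theorem v1e_f_eq (f : VN K A ⟶ v1e_A K A) :
    v1e_f ((show A →ₗ[A] A × DD K A from f) 1) = f := by
  refine LinearMap.ext_ring (R := A) (M₃ := A × DD K A) ?_
  exact v1e_f_one _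

/-- a linear form on the morphisms gives a linear form on `A × DD` -/
def v1e_phi (ξ : (VN K A ⟶ v1e_A K A) →ₗ[K] K) : (A × DD K A) →ₗ[K] K where
  toFun y := ξ (v1e_f y)
  map_add' y z := by
    rw [← map_add]
    refine congrArg ξ ?_
    refine LinearMap.ext_ring (R := A) (M₃ := A × DD K A) ?_
    show (1 : A) • (y + z) = (1 : A) • y + (1 : A) • z
    exact smul_add _ _ _
  map_smul' c y := by
    rw [RingHom.id_apply, ← map_smul]
    refine congrArg ξ ?_
    refine LinearMap.ext_ring (R := A) (M₃ := A × DD K A) ?_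
    show (1 : A) • (c • y) = c • ((1 : A) • y)
    rw [one_smul, one_smul]

/-- the morphism given by a linear form -/
def v1e_g (φ : (A × DD K A) →ₗ[K] K) : (A × DD K A) →ₗ[A] DD K A where
  toFun y := ⟨φ ∘ₗ (LinearMap.toSpanSingleton A (A × DD K A) y).restrictScalars K⟩
  map_add' y z := by
    ext x
    show φ (x • (y + z)) = φ (x • y) + φ (x • z)
    rw [smul_add, map_add]
  map_smul' a y := by
    ext x
    show φ (x • (a • y)) = φ ((x * a) • y)
    rw [smul_smul]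

theorem v1e_inj : Module.Injective (End (VN K A)) (v1e_D K A ⟶ VN K A) := by
  have hM : InAddC (v1e_A K A) (VN K A) := by
    refine inAdd_Cb (V := Mo.of K A A) (W := Mo.of K A (A × DD K A)) ?_
    refine InAdd.of_retract (LinearMap.inl A A (DD K A)) (LinearMap.fst A A (DD K A)) ?_
    ext
    rfl
  refine inj_of_pairing hM (v1e_th K A) ?_ ?_
  · intro g hg
    have h1 : (show A × DD K A →ₗ[A] DD K A from g) = 0 := by
      refine LinearMap.ext fun y => ?_
      refine DD.ext' fun x => ?_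
      have h2 := hg (v1e_f (x • y))
      rw [v1e_th_comp, v1e_f_one, map_smul, DD.smul_toFun, one_mul] at h2
      exact h2
    exact h1
  · intro ξ
    refine ⟨(v1e_g (v1e_phi ξ) : A × DD K A →ₗ[A] DD K A), ?_⟩
    intro f
    have h1 : ξ f = v1e_phi ξ ((1 : A) • ((show A →ₗ[A] A × DD K A from f) 1)) := by
      rw [one_smul]
      exact congrArg ξ (v1e_f_eq f).symm
    exact h1

/-- [V1e] PROOF. First for `DD` instead of `DD^m`: `inj_of_pairing` with `N = VN`, `M₁ = ⟨Mo.of K A (DD K A)⟩`, `M₂ = ⟨Mo.of K A A⟩` (`M₂ ∈ add VN`), `θ : (M₁ ⟶ M₂) → K`, `h ↦ (h 1).toFun 1` (a morphism `h : M₁ ⟶ M₂` in `Cb` is a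
linear map `h : A → DD`). A morphism `g : M₁ ⟶ VN` is a linear map `g : A × DD → DD`, a morphism `f : VN ⟶ M₂` is a linear map `f : A → A × DD` (`f a = a • y`, `y = f 1`, every `y` occurs: `LinearMap.toSpanSingleton`), and
`θ (g ≫ f) = (g y).toFun 1`. `h0`: `(g y).toFun x = (x • g y).toFun 1 = (g (x • y)).toFun 1 = 0` for all `x`, so `g = 0`. `h1`: `ξ` is a linear form on `(VN ⟶ M₂) ≅ A × DD`; let `φ y = ξ (a ↦ a • y)` (`K`-linear) and `g y = (x ↦ φ (x • y))`;
then `(g y).toFun 1 = φ y`. For `DD^m`: `DD^m ∈ add DD` (`InAdd.pi`), `inAdd_Cb`, `InAddC.pre`, `InAdd.injective`. -/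
theorem inj_Dn_VN (m : ℕ) : Module.Injective (End (VN K A)) ((⟨Dn K A m⟩ : Cb K A) ⟶ VN K A) := by
  have h1 : InAddC (⟨Dn K A m⟩ : Cb K A) (v1e_D K A) :=
    inAdd_Cb (V := Dn K A m) (W := Mo.of K A (DD K A)) (InAdd.pi m)
  exact (h1.pre (VN K A)).injective v1e_inj

end NTC
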