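import Pool.Agent.NTC.V1a
import Pool.Agent.NTC.V1e
import Pool.Agent.NTC.L3a

/-!
# [NTC-V1b] infinite dominant dimension of `End (A ⊕ D(A))`
-/

set_option autoImplicit false

open CategoryTheory

namespace NTC

variable {K A : Type} [Field K] [Ring A] [Algebra K A]

/-- [V1b] PROOF. `A ⊕ DD` is finitely generated (`dd_finite`), so (`exists_embed` for the successive cokernels; quotients of finitely generated modules are finitely generated) it has a coresolution `A × DD →ε DD^{m 0} →d DD^{m 1} → ...` by linear maps, exact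
everywhere (the existence is `exists_coresolution` from `L3a` with `X = A × DD`, `d n = nu K (c n)`; `import Pool.Agent.NTC.L3a` is allowed). By `ev_VN` and `exact_of_ev_inj` (E3) the complex
`Hom(A × DD, DD^{m n})` is exact at `n ≥ 1`; at `0` and at the beginning it is exact as `Hom` is left exact. Let `I n = ModuleCat.of _ (⟨Dn K A (m n)⟩ ⟶ VN K A)` (morphisms in `Cb`: linear maps `A × DD → DD^{m n}`), `d n = pre (VN K A) (Cb.hom (d n))`; `End (VN K A) → I 0` is `f ↦ ε ∘ f`.
`I n` is finitely generated, projective and injective by `V1e`. -/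
theorem domInf_VN (hfd : FiniteDimensional K A) [HasExt.{1} (ModuleCat.{0} A)] (h : TVan A) :
    DomInf (End (VN K A)) := by
  have : Module.Finite A (DD K A) := dd_finite hfd
  have hfin : Module.Finite A (A × DD K A) := inferInstance
  obtain ⟨m, j, c, hj, h0, hn⟩ := exists_coresolution hfd (A × DD K A) hfin
  have hE : ∀ n, Module.Injective A (Fin (m n) → DD K A) := fun n =>
    (InAdd.pi (m n)).injective dd_injective
  have hex := exact_of_ev_inj (ev_VN hfd h) (fun n => Fin (m n) → DD K A) hE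
    (fun n => nu K (c n)) j hj h0.symm (fun n => (hn n).symm)
  have hz : ∀ n, nu K (c (n + 1)) ∘ₗ nu K (c n) = 0 := fun n => by
    apply LinearMap.range_le_ker_iff.1
    rw [hn n]
  have hz0 : nu K (c 0) ∘ₗ j = 0 := by
    apply LinearMap.range_le_ker_iff.1
    rw [h0]
  -- the maps
  let jj : (⟨Dn K A (m 0)⟩ : Cb K A) ⟶ VN K A := Cb.hom (V := (VN K A).V) (W := Dn K A (m 0)) j
  let F : ∀ n, (⟨Dn K A (m (n + 1))⟩ : Cb K A) ⟶ ⟨Dn K A (m n)⟩ := fun n =>
    Cb.hom (V := Dn K A (m n)) (W := Dn K A (m (n + 1))) (nu K (c n))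
  refine ⟨fun n => ModuleCat.of (End (VN K A)) ((⟨Dn K A (m n)⟩ : Cb K A) ⟶ VN K A),
    pre (VN K A) jj, fun n => pre (VN K A) (F n), ?_, ?_, ?_, ?_⟩
  · intro f g hfg
    have h1 : j ∘ₗ Cb.un f = j ∘ₗ Cb.un g := hfg
    have h2 : Cb.un f = Cb.un g := by
      refine LinearMap.ext fun x => hj ?_
      exact LinearMap.congr_fun h1 x
    exact h2
  · apply le_antisymm
    · rintro _ ⟨f, rfl⟩
      rw [LinearMap.mem_ker]
      have h1 : nu K (c 0) ∘ₗ (j ∘ₗ Cb.un (f : VN K A ⟶ VN K A)) = 0 := by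
        rw [← LinearMap.comp_assoc, hz0, LinearMap.zero_comp]
      exact h1
    · intro g hg
      rw [LinearMap.mem_ker] at hg
      have h1 : nu K (c 0) ∘ₗ Cb.un (g : (⟨Dn K A (m 0)⟩ : Cb K A) ⟶ VN K A) = 0 := hg
      have h2 : ∀ x, Cb.un (g : (⟨Dn K A (m 0)⟩ : Cb K A) ⟶ VN K A) x ∈ LinearMap.range j := by
        intro x
        rw [h0, LinearMap.mem_ker]
        exact LinearMap.congr_fun h1 x
      let f : (A × DD K A) →ₗ[A] (A × DD K A) := (LinearEquiv.ofInjective j hj).symm.toLinearMap ∘ₗ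
        LinearMap.codRestrict (LinearMap.range j)
          (Cb.un (g : (⟨Dn K A (m 0)⟩ : Cb K A) ⟶ VN K A)) h2
      have h3 : j ∘ₗ f = Cb.un (g : (⟨Dn K A (m 0)⟩ : Cb K A) ⟶ VN K A) := by
        refine LinearMap.ext fun x => ?_
        have h4 := (LinearEquiv.ofInjective j hj).apply_symm_apply
          (LinearMap.codRestrict (LinearMap.range j)
            (Cb.un (g : (⟨Dn K A (m 0)⟩ : Cb K A) ⟶ VN K A)) h2 x)
        exact congrArg Subtype.val h4
      exact ⟨Cb.hom (V := (VN K A).V) (W := (VN K A).V) f, h3⟩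
  · intro n
    apply le_antisymm
    · rintro _ ⟨f, rfl⟩
      rw [LinearMap.mem_ker]
      have h1 : nu K (c (n + 1)) ∘ₗ (nu K (c n) ∘ₗ
          Cb.un (f : (⟨Dn K A (m n)⟩ : Cb K A) ⟶ VN K A)) = 0 := by
        rw [← LinearMap.comp_assoc, hz n, LinearMap.zero_comp]
      exact h1
    · intro g hg
      rw [LinearMap.mem_ker] at hg
      have h1 : nu K (c (n + 1)) ∘ₗ
        Cb.un (g : (⟨Dn K A (m (n + 1))⟩ : Cb K A) ⟶ VN K A) = 0 := hg
      obtain ⟨f, hf⟩ := hex n _ h1
      exact ⟨Cb.hom (V := (VN K A).V) (W := Dn K A (m n)) f, hf.symm⟩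
  · intro n
    exact ⟨fin_Dn_VN (m n), proj_Dn_VN (m n), inj_Dn_VN (m n)⟩

end NTC
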