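import Pool.Agent.NTC.V1d

/-!
# [NTC-V1c] `A` is injective if `End (A ⊕ D(A))` is
-/

set_option autoImplicit false

open CategoryTheory

namespace NTC

variable {K A : Type} [Field K] [Ring A] [Algebra K A]

/-- [V1c] PROOF. `A` embeds into some `DD^m`: `f : A → DD^m` (`exists_embed`). `W = ⟨Mo.of K A A⟩ ∈ add VN`, so `(W ⟶ VN) ∈ add (End VN)` is injective. `pre VN (Cb.hom f) : (W ⟶ VN) → (⟨DD^m⟩ ⟶ VN)` (`Cb.hom f : ⟨DD^m⟩ ⟶ W`) is injective (`f ∘ g = 0` implies `g = 0`), so it has a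
left inverse `φ`, which is `(θ ≫ ·)` for some `θ : W ⟶ ⟨DD^m⟩` (`yonC`; `DD^m ∈ add (A × DD)`), i.e. a linear map `θ : DD^m → A`; `θ ≫ Cb.hom f = 𝟙` by `faiC`, i.e. `θ ∘ f = id`. So `A` is a retract of the injective module `DD^m`. -/
theorem injective_of_VN (hfd : FiniteDimensional K A)
    (h : Module.Injective (End (VN K A)) (End (VN K A))) : Module.Injective A A := by
  obtain ⟨m, f, hf⟩ := exists_embed (K := K) hfd A inferInstance
  have hW : InAddC (⟨Mo.of K A A⟩ : Cb K A) (VN K A) :=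
    inAdd_Cb (V := Mo.of K A A) (W := Mo.of K A (A × DD K A))
      (InAdd.of_retract (LinearMap.inl A A (DD K A)) (LinearMap.fst A A (DD K A)) rfl)
  have hD : InAddC (⟨Mo.of K A (Fin m → DD K A)⟩ : Cb K A) (VN K A) :=
    inAdd_Cb (V := Mo.of K A (Fin m → DD K A)) (W := Mo.of K A (A × DD K A))
      ((InAdd.of_retract (LinearMap.inr A A (DD K A)) (LinearMap.snd A A (DD K A)) rfl).pi' m)
  have hinj : Module.Injective (End (VN K A)) ((⟨Mo.of K A A⟩ : Cb K A) ⟶ VN K A) :=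
    ((hW.pre (VN K A)).trans (inAdd_end (VN K A))).injective h
  let F : (⟨Mo.of K A (Fin m → DD K A)⟩ : Cb K A) ⟶ ⟨Mo.of K A A⟩ :=
    Cb.hom (V := Mo.of K A A) (W := Mo.of K A (Fin m → DD K A)) f
  have hpre : Function.Injective (pre (VN K A) F) := by
    intro g g' hg
    have h1 : ∀ x, f (Cb.un g x) = f (Cb.un g' x) := fun x =>
      LinearMap.congr_fun (show f ∘ₗ Cb.un g = f ∘ₗ Cb.un g' from hg) x
    exact LinearMap.ext fun x => hf (h1 x)
  obtain ⟨φ, hφ⟩ := hinj.out (pre (VN K A) F) hpre LinearMap.id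
  obtain ⟨θ, hθ⟩ := yonC hD φ
  have h2 : θ ≫ F - 𝟙 _ = 0 := by
    apply faiC hW
    intro g
    have h3 := hφ g
    rw [hθ] at h3
    rw [Preadditive.sub_comp, Category.assoc, Category.id_comp]
    exact sub_eq_zero.2 h3
  have h4 : Cb.un θ ∘ₗ f = LinearMap.id := sub_eq_zero.1 h2
  exact ((InAdd.of_retract f (Cb.un θ) h4).trans (InAdd.pi m)).injective dd_injective

end NTC
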