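import Pool.Agent.NTC.A4
import Pool.Agent.NTC.V1

/-!
# [NTC] the final theorem (assembly)
-/

set_option autoImplicit false

open CategoryTheory

namespace NTC

/-- the converse -/
theorem converse (K : Type) [Field K]
    (H : ∀ (A : Type) [Ring A] [Algebra K A] [FiniteDimensional K A], NC A)
    (A : Type) [Ring A] [Algebra K A] [hfd : FiniteDimensional K A] [HasExt.{1} (ModuleCat.{0} A)] :
    TC1 A := by
  intro hT
  haveI := fd_VN hfd
  exact injective_of_VN hfd (H (End (VN K A)) (domInf_VN hfd hT))

theorem main (K : Type) [Field K] :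
    (∀ (A : Type) [Ring A] [Algebra K A] [FiniteDimensional K A]
      [HasExt.{1} (ModuleCat.{0} A)], NC A → TC1 A) ↔
    (∀ (A : Type) [Ring A] [Algebra K A] [FiniteDimensional K A], NC A) :=
  ⟨fun H A _ _ _ => partA K H A, fun H A _ _ _ _ _ => converse K H A⟩

end NTC
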