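import Pool.Agent.NTC.R1

/-!
# [NTC-R2] `add` and projective / injective / finite modules
-/

set_option autoImplicit false

open CategoryTheory

namespace NTC

section InAdd
variable {A : Type} [Ring A]
variable {M N L : Type} [AddCommGroup M] [Module A M] [AddCommGroup N] [Module A N]
  [AddCommGroup L] [Module A L]

/-- [R2] -/
theorem InAdd.projective (h : InAdd A M N) (hN : Module.Projective A N) : Module.Projective A M := by
  obtain ⟨n, i, r, h⟩ := h
  refine Module.Projective.of_lifting_property'' fun f hf => ?_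
  choose g hg using fun k => Module.projective_lifting_property f (r k) hf
  refine ⟨∑ k, g k ∘ₗ i k, ?_⟩
  rw [← h]
  refine LinearMap.ext fun x => ?_
  simp only [LinearMap.comp_apply, LinearMap.sum_apply, map_sum]
  exact Finset.sum_congr rfl fun k _ => LinearMap.congr_fun (hg k) (i k x)

/-- [R2] `M` is a retract of `Fin n → N`; products of injective modules are injective. -/
theorem InAdd.injective (h : InAdd A M N) (hN : Module.Injective A N) : Module.Injective A M := by
  obtain ⟨n, i, r, h⟩ := h
  refine ⟨fun X Y _ _ _ _ f hf g => ?_⟩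
  choose e he using fun k => hN.out f hf (i k ∘ₗ g)
  refine ⟨∑ k, r k ∘ₗ e k, fun x => ?_⟩
  have h2 := LinearMap.congr_fun h (g x)
  simp only [LinearMap.comp_apply, LinearMap.sum_apply, LinearMap.id_apply] at h2 he ⊢
  rw [← h2]
  refine Finset.sum_congr rfl fun k _ => ?_
  rw [he]

/-- [R2] -/
theorem InAdd.finite (h : InAdd A M N) (hN : Module.Finite A N) : Module.Finite A M := by
  obtain ⟨n, i, r, h⟩ := h
  refine Module.Finite.of_surjective (∑ k, r k ∘ₗ LinearMap.proj (R := A) (φ := fun _ : Fin n => N) k) fun x => ?_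
  refine ⟨fun k => i k x, ?_⟩
  have h2 := LinearMap.congr_fun h x
  simpa only [LinearMap.comp_apply, LinearMap.sum_apply, LinearMap.id_apply, LinearMap.proj_apply] using h2

/-- [R2] PROOF. a surjection `Fin n → A` onto `M` splits. -/
theorem inAdd_of_projective (hM : Module.Projective A M) (hf : Module.Finite A M) :
    InAdd A M A := by
  obtain ⟨n, f, hf⟩ := Module.Finite.exists_fin' A M
  obtain ⟨s, hs⟩ := Module.projective_lifting_property f LinearMap.id hf
  exact (InAdd.of_retract s f hs).trans (InAdd.pi n)

/-- [R2] if there are finitely many maps `N → M` whose images generate the projective module `M` then `M ∈ add N` -/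
theorem inAdd_of_generate (hM : Module.Projective A M) (hf : Module.Finite A M)
    (h : ∀ x : M, x ∈ ⨆ f : N →ₗ[A] M, LinearMap.range f) : InAdd A M N := by
  classical
  have h1 : (⊤ : Submodule A M) ≤ ⨆ f : N →ₗ[A] M, LinearMap.range f := fun x _ => h x
  obtain ⟨s, hs⟩ := CompleteLattice.IsCompactElement.exists_finset_of_le_iSup _ ((Submodule.fg_iff_compact _).mp hf.fg_top) _ h1
  have h2 : Function.Surjective
      (∑ k : s, (k : N →ₗ[A] M) ∘ₗ LinearMap.proj (R := A) (φ := fun _ : s => N) k : (s → N) →ₗ[A] M) := by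
    rw [← LinearMap.range_eq_top, ← top_le_iff]
    refine hs.trans (iSup₂_le fun f hfs => ?_)
    rintro _ ⟨v, rfl⟩
    refine ⟨Pi.single ⟨f, hfs⟩ v, ?_⟩
    simp only [LinearMap.sum_apply, LinearMap.comp_apply, LinearMap.proj_apply]
    rw [Finset.sum_eq_single ⟨f, hfs⟩]
    · rw [Pi.single_eq_same]
    · intro b _ hb
      rw [Pi.single_eq_of_ne hb, map_zero]
    · intro hb
      exact absurd (Finset.mem_univ _) hb
  obtain ⟨σ, hσ⟩ := Module.projective_lifting_property _ LinearMap.id h2
  refine InAdd.of_fintype (J := s) (fun k => LinearMap.proj k ∘ₗ σ) (fun k => (k : N →ₗ[A] M)) ?_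
  rw [← hσ]
  refine LinearMap.ext fun x => ?_
  simp only [LinearMap.comp_apply, LinearMap.sum_apply, LinearMap.proj_apply]

end InAdd

end NTC
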