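import Pool.Agent.NTC.D0

/-!
# [NTC-R4] selfinjective algebras have infinite dominant dimension
-/

set_option autoImplicit false

open CategoryTheory

namespace NTC

/-- the modules `A, 0, 0, ...` -/
def r4_I (A : Type) [Ring A] : ℕ → ModuleCat.{0} A
  | 0 => ModuleCat.of A A
  | _ + 1 => ModuleCat.of A PUnit

theorem r4_inj (A : Type) [Ring A] : Module.Injective A PUnit :=
  ⟨fun _ _ _ _ _ _ _ _ _ => ⟨0, fun _ => Subsingleton.elim _ _⟩⟩

instance r4_sub (A : Type) [Ring A] (n : ℕ) : Subsingleton (r4_I A (n + 1)) :=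
  inferInstanceAs (Subsingleton PUnit)

/-- [R4] a selfinjective algebra has infinite dominant dimension: `I 0 = A`, `I n = 0` for `n ≥ 1` -/
theorem domInf_of_injective (A : Type) [Ring A] (h : Module.Injective A A) : DomInf A := by
  refine ⟨r4_I A, LinearMap.id, fun _ => 0, fun _ _ h => h, ?_, ?_, ?_⟩
  · apply Submodule.ext
    intro x
    exact ⟨fun _ => rfl, fun _ => ⟨x, rfl⟩⟩
  · intro n
    apply Submodule.ext
    intro x
    rw [Subsingleton.elim x 0]
    simp
  · intro n
    cases n with
    | zero => exact ⟨inferInstanceAs (Module.Finite A A), inferInstanceAs (Module.Projective A A), h⟩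
    | succ n =>
      exact ⟨inferInstanceAs (Module.Finite A PUnit), inferInstanceAs (Module.Projective A PUnit), r4_inj A⟩

end NTC
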