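import Pool.Agent.NTC.E
import Pool.Agent.NTC.R

/-!
# [NTC-G0] a `K`-linear category, the endomorphism algebra of an object: definitions

`𝒟` is a `K`-linear category (no limits needed), `N` an object. `End N` is a ring (`a * b = b ≫ a`), `M ⟶ N` is a left `End N`-module (`a • f = f ≫ a`;
`End.smul_right`), contravariant in `M` (`pre`). `LL K N M` is the dual of the right module `N ⟶ M`.
-/

set_option autoImplicit false

open CategoryTheory

namespace NTC

section
variable {𝒟 : Type 1} [Category.{0} 𝒟] [Preadditive 𝒟]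

/-- `M` is a direct summand of a finite power of `N` -/
def InAddC (M N : 𝒟) : Prop :=
  ∃ (n : ℕ) (i : Fin n → (M ⟶ N)) (r : Fin n → (N ⟶ M)), ∑ k, i k ≫ r k = 𝟙 M

/-- precomposition -/
def pre {M M' : 𝒟} (N : 𝒟) (θ : M' ⟶ M) : (M ⟶ N) →ₗ[End N] (M' ⟶ N) where
  toFun f := θ ≫ f
  map_add' _ _ := Preadditive.comp_add _ _ _ _ _ _
  map_smul' _ _ := (Category.assoc _ _ _).symm

@[simp] theorem pre_apply {M M' N : 𝒟} (θ : M' ⟶ M) (f : M ⟶ N) : pre N θ f = θ ≫ f := rfl

end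

section LL
variable (K : Type) [Field K] {𝒟 : Type 1} [Category.{0} 𝒟] [Preadditive 𝒟] [Linear K 𝒟]

/-- the dual of the right `End N`-module `N ⟶ M` -/
structure LL (N M : 𝒟) where
  /-- the linear form -/
  toFun : (N ⟶ M) →ₗ[K] K

variable {K}

namespace LL

variable {N M : 𝒟}

@[ext] theorem ext' {ξ η : LL K N M} (h : ∀ x, ξ.toFun x = η.toFun x) : ξ = η := by
  cases ξ; cases η
  congr
  exact LinearMap.ext h

/-- the equivalence with the linear forms -/
def eq : LL K N M ≃ ((N ⟶ M) →ₗ[K] K) where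
  toFun := LL.toFun
  invFun := LL.mk
  left_inv _ := rfl
  right_inv _ := rfl

instance : AddCommGroup (LL K N M) := eq.addCommGroup

instance : Module K (LL K N M) := eq.module K

@[simp] theorem add_toFun (ξ η : LL K N M) : (ξ + η).toFun = ξ.toFun + η.toFun := rfl
@[simp] theorem zero_toFun : (0 : LL K N M).toFun = 0 := rfl
@[simp] theorem smulK_toFun (c : K) (ξ : LL K N M) : (c • ξ).toFun = c • ξ.toFun := rfl

instance : SMul (End N) (LL K N M) := ⟨fun a ξ => ⟨ξ.toFun ∘ₗ Linear.leftComp K M a⟩⟩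

@[simp] theorem smul_toFun (a : End N) (ξ : LL K N M) (x : N ⟶ M) :
    (a • ξ).toFun x = ξ.toFun (a ≫ x) := rfl

instance : Module (End N) (LL K N M) where
  one_smul ξ := by ext x; simp
  mul_smul a b ξ := by ext x; simp
  smul_zero a := by ext x; simp
  smul_add a ξ η := by ext x; simp
  add_smul a b ξ := by
    ext x
    exact (congrArg ξ.toFun (Preadditive.add_comp N N M a b x)).trans (map_add _ _ _)
  zero_smul ξ := by ext x; simp

end LL

/-- the map `(M₁ ⟶ N) → LL K N M₂` defined by a linear form on `M₁ ⟶ M₂` -/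
def prL (N : 𝒟) {M₁ M₂ : 𝒟} (θ : (M₁ ⟶ M₂) →ₗ[K] K) : (M₁ ⟶ N) →ₗ[End N] LL K N M₂ where
  toFun g := ⟨θ ∘ₗ Linear.leftComp K M₂ g⟩
  map_add' g h := by ext x; simp
  map_smul' a g := by ext x; simp [End.smul_right]

@[simp] theorem prL_apply (N : 𝒟) {M₁ M₂ : 𝒟} (θ : (M₁ ⟶ M₂) →ₗ[K] K) (g : M₁ ⟶ N) (x : N ⟶ M₂) :
    (prL N θ g).toFun x = θ (g ≫ x) := rfl

end LL

end NTC
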