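import Pool.Agent.NTC.G1a

/-!
# [NTC-G1b] Yoneda for `(M ⟶ N)`
-/

set_option autoImplicit false

open CategoryTheory

namespace NTC

variable {𝒟 : Type 1} [Category.{0} 𝒟] [Preadditive 𝒟] {M M' M'' N : 𝒟}

/-- [G1] Yoneda. PROOF. `θ = ∑ φ (i k) ≫ r k`; `f = ∑ (r k ≫ f) • i k`. -/
theorem yonC (h : InAddC M N) (φ : (M ⟶ N) →ₗ[End N] (M' ⟶ N)) :
    ∃ θ : M' ⟶ M, ∀ f : M ⟶ N, φ f = θ ≫ f := by
  obtain ⟨n, i, r, h⟩ := h
  refine ⟨∑ k, φ (i k) ≫ r k, fun f => ?_⟩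
  have h1 : f = ∑ k, (show End N from r k ≫ f) • i k := by
    calc f = 𝟙 M ≫ f := (Category.id_comp f).symm
      _ = (∑ k, i k ≫ r k) ≫ f := by rw [h]
      _ = ∑ k, (i k ≫ r k) ≫ f := Preadditive.sum_comp _ _ _
      _ = ∑ k, (show End N from r k ≫ f) • i k :=
        Finset.sum_congr rfl fun k _ => Category.assoc _ _ _
  conv_lhs => rw [h1]
  rw [map_sum, Preadditive.sum_comp]
  refine Finset.sum_congr rfl fun k _ => ?_
  rw [map_smul]
  exact (Category.assoc _ _ _).symm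

/-- [G1] faithful -/
theorem faiC (h : InAddC M N) (θ : M' ⟶ M) (h0 : ∀ f : M ⟶ N, θ ≫ f = 0) : θ = 0 := by
  obtain ⟨n, i, r, h⟩ := h
  calc θ = θ ≫ 𝟙 M := (Category.comp_id θ).symm
    _ = θ ≫ ∑ k, i k ≫ r k := by rw [h]
    _ = ∑ k, θ ≫ i k ≫ r k := Preadditive.comp_sum _ _ _
    _ = 0 := Finset.sum_eq_zero fun k _ => by
      rw [← Category.assoc, h0, Limits.zero_comp]

/-- [G1] PROOF. The maps `(M ⟶ N) → (M' ⟶ N)` and back are precompositions (`yonC`), the relation follows from `faiC`. -/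
theorem reflC (hM : InAddC M N) (hM' : InAddC M' N) (h : InAdd (End N) (M ⟶ N) (M' ⟶ N)) :
    InAddC M M' := by
  obtain ⟨n, i, r, h⟩ := h
  choose θ hθ using fun k => yonC hM (i k)
  choose η hη using fun k => yonC hM' (r k)
  refine ⟨n, η, θ, ?_⟩
  refine sub_eq_zero.mp (faiC hM _ fun f => ?_)
  rw [Preadditive.sub_comp, Category.id_comp, sub_eq_zero, Preadditive.sum_comp]
  have h1 := LinearMap.congr_fun h f
  rw [LinearMap.sum_apply, LinearMap.id_apply] at h1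
  conv_rhs => rw [← h1]
  refine Finset.sum_congr rfl fun k _ => ?_
  rw [LinearMap.comp_apply, hθ, hη, Category.assoc]

end NTC
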