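import Pool.Agent.NTC.G0

/-!
# [NTC-G1a] `add`, projectivity of `(M ⟶ N)`
-/

set_option autoImplicit false

open CategoryTheory

namespace NTC

variable {𝒟 : Type 1} [Category.{0} 𝒟] [Preadditive 𝒟] {M M' M'' N : 𝒟}

theorem InAddC.refl (M : 𝒟) : InAddC M M :=
  ⟨1, fun _ => 𝟙 M, fun _ => 𝟙 M, by simp⟩

theorem InAddC.of_retract (i : M ⟶ N) (r : N ⟶ M) (h : i ≫ r = 𝟙 M) : InAddC M N :=
  ⟨1, fun _ => i, fun _ => r, by simp [h]⟩

theorem g1a_of_fintype {J : Type} [Fintype J] (i : J → (M ⟶ N)) (r : J → (N ⟶ M))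
    (h : ∑ k, i k ≫ r k = 𝟙 M) : InAddC M N := by
  classical
  refine ⟨Fintype.card J, fun k => i ((Fintype.equivFin J).symm k),
    fun k => r ((Fintype.equivFin J).symm k), ?_⟩
  rw [← h]
  exact Equiv.sum_comp (Fintype.equivFin J).symm (fun k => i k ≫ r k)

theorem InAddC.trans (h1 : InAddC M M') (h2 : InAddC M' M'') : InAddC M M'' := by
  obtain ⟨n, i, r, h⟩ := h1
  obtain ⟨m, i', r', h'⟩ := h2
  refine g1a_of_fintype (J := Fin n × Fin m) (fun q => i q.1 ≫ i' q.2) (fun q => r' q.2 ≫ r q.1) ?_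
  rw [Fintype.sum_prod_type]
  rw [← h]
  refine Finset.sum_congr rfl fun k _ => ?_
  have h1 : ∀ l, (i k ≫ i' l) ≫ r' l ≫ r k = i k ≫ (i' l ≫ r' l) ≫ r k := fun l => by
    simp only [Category.assoc]
  simp only [h1]
  rw [← Preadditive.comp_sum, ← Preadditive.sum_comp, h', Category.id_comp]

theorem InAddC.of_fintype {J : Type} [Fintype J] (i : J → (M ⟶ N)) (r : J → (N ⟶ M))
    (h : ∑ k, i k ≫ r k = 𝟙 M) : InAddC M N :=
  g1a_of_fintype i r h

/-- [G1] `M ∈ add M'` implies `(M ⟶ N) ∈ add (M' ⟶ N)`. PROOF: the maps are `pre N (r k)` and `pre N (i k)`. -/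
theorem InAddC.pre (h : InAddC M M') (N : 𝒟) : InAdd (End N) (M ⟶ N) (M' ⟶ N) := by
  obtain ⟨n, i, r, h⟩ := h
  refine ⟨n, fun k => NTC.pre N (r k), fun k => NTC.pre N (i k), ?_⟩
  ext f
  rw [LinearMap.sum_apply, LinearMap.id_apply]
  simp only [LinearMap.comp_apply, pre_apply]
  have h1 : ∀ k, i k ≫ r k ≫ f = (i k ≫ r k) ≫ f := fun k => (Category.assoc _ _ _).symm
  simp only [h1]
  rw [← Preadditive.sum_comp, h, Category.id_comp]

/-- [G1] `N ⟶ N` is the regular module. -/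
theorem inAdd_end (N : 𝒟) : InAdd (End N) (N ⟶ N) (End N) :=
  InAdd.of_equiv
    { toFun := fun f => f
      map_add' := fun _ _ => rfl
      map_smul' := fun _ _ => rfl
      invFun := fun f => f
      left_inv := fun _ => rfl
      right_inv := fun _ => rfl }

theorem inAdd_end' (N : 𝒟) : InAdd (End N) (End N) (N ⟶ N) :=
  InAdd.of_equiv
    { toFun := fun f => f
      map_add' := fun _ _ => rfl
      map_smul' := fun _ _ => rfl
      invFun := fun f => f
      left_inv := fun _ => rfl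
      right_inv := fun _ => rfl }

theorem projC (h : InAddC M N) : Module.Projective (End N) (M ⟶ N) :=
  ((h.pre N).trans (inAdd_end N)).projective inferInstance

theorem finC (h : InAddC M N) : Module.Finite (End N) (M ⟶ N) :=
  ((h.pre N).trans (inAdd_end N)).finite inferInstance

end NTC
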