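import Pool.Agent.NTC.G1

/-!
# [NTC-G2] injective modules over `End N`, perfect pairings
-/

set_option autoImplicit false

open CategoryTheory

namespace NTC

variable {K : Type} [Field K] {𝒟 : Type 1} [Category.{0} 𝒟] [Preadditive 𝒟] [Linear K 𝒟]
  {M M' N : 𝒟}

/-- the map `LL K N M' → LL K N M` induced by `u : M ⟶ M'` -/
def g2_map (N : 𝒟) (u : M ⟶ M') : LL K N M' →ₗ[End N] LL K N M where
  toFun ξ := ⟨ξ.toFun ∘ₗ Linear.rightComp K N u⟩
  map_add' ξ η := by ext x; simp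
  map_smul' a ξ := by ext x; simp

theorem g2_map_apply (N : 𝒟) (u : M ⟶ M') (ξ : LL K N M') (x : N ⟶ M) :
    (g2_map N u ξ).toFun x = ξ.toFun (x ≫ u) := rfl

theorem g2_sum_toFun {J : Type} (s : Finset J) (f : J → LL K N M) (x : N ⟶ M) :
    (∑ k ∈ s, f k).toFun x = ∑ k ∈ s, (f k).toFun x := by
  classical
  induction s using Finset.induction_on with
  | empty => simp
  | insert a s ha ih => rw [Finset.sum_insert ha, Finset.sum_insert ha, LL.add_toFun,
      LinearMap.add_apply, ih]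

/-- [G2] PROOF. `ξ ↦ (f ↦ ξ (f ≫ i k))`... `LL` is contravariant: a morphism `u : M ⟶ M'` induces `LL K N M' → LL K N M`, `ξ ↦ (x ↦ ξ (x ≫ u))`. -/
theorem InAddC.LL (h : InAddC M M') (N : 𝒟) : InAdd (End N) (LL K N M) (LL K N M') := by
  obtain ⟨n, i, r, h⟩ := h
  refine ⟨n, fun k => g2_map N (r k), fun k => g2_map N (i k), ?_⟩
  ext ξ x
  rw [LinearMap.sum_apply, LinearMap.id_apply, g2_sum_toFun]
  simp only [LinearMap.comp_apply, g2_map_apply]
  rw [← map_sum]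
  congr 1
  simp only [Category.assoc]
  rw [← Preadditive.comp_sum, h, Category.comp_id]

/-- [G2] `LL K N N` is the dual of the regular module -/
theorem inAdd_LL (N : 𝒟) : InAdd (End N) (LL K N N) (DD K (End N)) :=
  InAdd.of_equiv
    { toFun := fun ξ => ⟨{ toFun := fun x => ξ.toFun x, map_add' := fun x y => ξ.toFun.map_add x y, map_smul' := fun c x => ξ.toFun.map_smul c x }⟩
      map_add' := fun _ _ => rfl
      map_smul' := fun _ _ => rfl
      invFun := fun ξ => ⟨{ toFun := fun x => ξ.toFun x, map_add' := fun x y => ξ.toFun.map_add x y, map_smul' := fun c x => ξ.toFun.map_smul c x }⟩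
      left_inv := fun _ => rfl
      right_inv := fun _ => rfl }

theorem inAdd_LL' (N : 𝒟) : InAdd (End N) (DD K (End N)) (LL K N N) :=
  InAdd.of_equiv
    { toFun := fun ξ => ⟨{ toFun := fun x => ξ.toFun x, map_add' := fun x y => ξ.toFun.map_add x y, map_smul' := fun c x => ξ.toFun.map_smul c x }⟩
      map_add' := fun _ _ => rfl
      map_smul' := fun _ _ => rfl
      invFun := fun ξ => ⟨{ toFun := fun x => ξ.toFun x, map_add' := fun x y => ξ.toFun.map_add x y, map_smul' := fun c x => ξ.toFun.map_smul c x }⟩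
      left_inv := fun _ => rfl
      right_inv := fun _ => rfl }

theorem LL_inj (h : InAddC M N) : Module.Injective (End N) (LL K N M) :=
  ((h.LL N).trans (inAdd_LL N)).injective dd_injective

/-- [G2] a perfect pairing: the modules `M₁ ⟶ N` and `LL K N M₂` are isomorphic -/
theorem inAdd_of_pairing {M₁ M₂ : 𝒟} (θ : (M₁ ⟶ M₂) →ₗ[K] K)
    (h0 : ∀ g : M₁ ⟶ N, (∀ f : N ⟶ M₂, θ (g ≫ f) = 0) → g = 0)
    (h1 : ∀ ξ : (N ⟶ M₂) →ₗ[K] K, ∃ g : M₁ ⟶ N, ∀ f, ξ f = θ (g ≫ f)) :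
    InAdd (End N) (M₁ ⟶ N) (LL K N M₂) ∧ InAdd (End N) (LL K N M₂) (M₁ ⟶ N) := by
  have hb : Function.Bijective (prL (K := K) N θ) := by
    constructor
    · rw [injective_iff_map_eq_zero]
      intro g hg
      refine h0 g fun f => ?_
      rw [← prL_apply, hg]
      simp
    · intro ξ
      obtain ⟨g, hg⟩ := h1 ξ.toFun
      refine ⟨g, ?_⟩
      ext x
      rw [prL_apply, hg]
  exact ⟨InAdd.of_equiv (LinearEquiv.ofBijective _ hb),
    InAdd.of_equiv (LinearEquiv.ofBijective _ hb).symm⟩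

theorem inj_of_pairing {M₁ M₂ : 𝒟} (hM : InAddC M₂ N) (θ : (M₁ ⟶ M₂) →ₗ[K] K)
    (h0 : ∀ g : M₁ ⟶ N, (∀ f : N ⟶ M₂, θ (g ≫ f) = 0) → g = 0)
    (h1 : ∀ ξ : (N ⟶ M₂) →ₗ[K] K, ∃ g : M₁ ⟶ N, ∀ f, ξ f = θ (g ≫ f)) :
    Module.Injective (End N) (M₁ ⟶ N) :=
  (inAdd_of_pairing θ h0 h1).1.injective (LL_inj hM)

end NTC
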