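import Pool.Agent.NTC.G3d

/-!
# [NTC-G3a] the test at a direct sum
-/

set_option autoImplicit false

open CategoryTheory

namespace NTC

variable {K : Type} [Field K] {𝒟 : Type 1} [Category.{0} 𝒟] [Preadditive 𝒟] [Linear K 𝒟]

theorem g3a_in {N Y : 𝒟} {J : Type} [Fintype J] (S : J → 𝒟)
    (ι : ∀ j, S j ⟶ N) (π : ∀ j, N ⟶ S j) (h : ∑ j, π j ≫ ι j = 𝟙 N) (g : Y ⟶ N) :
    g = ∑ j, (g ≫ π j) ≫ ι j := by
  calc g = g ≫ 𝟙 N := (Category.comp_id g).symm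
    _ = g ≫ ∑ j, π j ≫ ι j := by rw [h]
    _ = ∑ j, (g ≫ π j) ≫ ι j := by
      rw [Preadditive.comp_sum]
      exact Finset.sum_congr rfl fun j _ => (Category.assoc _ _ _).symm

theorem g3a_out {N Y : 𝒟} {J : Type} [Fintype J] (S : J → 𝒟)
    (ι : ∀ j, S j ⟶ N) (π : ∀ j, N ⟶ S j) (h : ∑ j, π j ≫ ι j = 𝟙 N) (f : N ⟶ Y) :
    f = ∑ j, π j ≫ (ι j ≫ f) := by
  calc f = 𝟙 N ≫ f := (Category.id_comp f).symm
    _ = (∑ j, π j ≫ ι j) ≫ f := by rw [h]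
    _ = ∑ j, π j ≫ (ι j ≫ f) := by
      rw [Preadditive.sum_comp]
      exact Finset.sum_congr rfl fun j _ => Category.assoc _ _ _

/-- [G3] PROOF. Put `g = ∑ (g ≫ π j) ≫ ι j` etc. `ker`: for `f' : S j ⟶ X` `θ ((g ≫ π j) ≫ f') = θ (g ≫ (π j ≫ f')) = 0`, so `g ≫ π j = δ 0 ≫ h j`, `g = δ 0 ≫ ∑ h j ≫ ι j`.
`surj`: `ξ j f' = ξ (π j ≫ f') = θ (g j ≫ f')`, `g = ∑ g j ≫ ι j`, `f = ∑ π j ≫ (ι j ≫ f)`. `exl`, `exr` in the same way. -/
theorem Cx.Test.of_sum {X : 𝒟} (C : Cx K X) {N : 𝒟} {J : Type} [Fintype J] (S : J → 𝒟)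
    (ι : ∀ j, S j ⟶ N) (π : ∀ j, N ⟶ S j) (h : ∑ j, π j ≫ ι j = 𝟙 N)
    (hS : ∀ j, C.Test (S j)) : C.Test N := by
  constructor
  · intro g hg
    have h1 : ∀ j, ∃ hj : C.M 1 ⟶ S j, g ≫ π j = C.δ 0 ≫ hj := by
      intro j
      refine (hS j).ker (g ≫ π j) fun f => ?_
      rw [Category.assoc]
      exact hg (π j ≫ f)
    choose u hu using h1
    refine ⟨∑ j, u j ≫ ι j, ?_⟩
    rw [Preadditive.comp_sum]
    refine (g3a_in S ι π h g).trans (Finset.sum_congr rfl fun j _ => ?_)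
    rw [hu j, Category.assoc]
  · intro ξ
    have h1 : ∀ j, ∃ g : C.M 0 ⟶ S j, ∀ f : S j ⟶ X, ξ (π j ≫ f) = C.θ (g ≫ f) := by
      intro j
      exact (hS j).surj (ξ ∘ₗ Linear.leftComp K X (π j))
    choose u hu using h1
    refine ⟨∑ j, u j ≫ ι j, fun f => ?_⟩
    calc ξ f = ξ (∑ j, π j ≫ (ι j ≫ f)) := by rw [← g3a_out S ι π h f]
      _ = ∑ j, ξ (π j ≫ (ι j ≫ f)) := map_sum _ _ _
      _ = ∑ j, C.θ (u j ≫ (ι j ≫ f)) := Finset.sum_congr rfl fun j _ => hu j _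
      _ = C.θ (∑ j, u j ≫ (ι j ≫ f)) := (map_sum _ _ _).symm
      _ = C.θ ((∑ j, u j ≫ ι j) ≫ f) := by
        rw [Preadditive.sum_comp]
        congr 1
        exact Finset.sum_congr rfl fun j _ => (Category.assoc _ _ _).symm
  · intro n f hf
    have h1 : ∀ j, ∃ g : C.M (n + 2) ⟶ S j, f ≫ π j = C.δ (n + 1) ≫ g := by
      intro j
      refine (hS j).exl n (f ≫ π j) ?_
      rw [← Category.assoc, hf, Limits.zero_comp]
    choose u hu using h1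
    refine ⟨∑ j, u j ≫ ι j, ?_⟩
    rw [Preadditive.comp_sum]
    refine (g3a_in S ι π h f).trans (Finset.sum_congr rfl fun j _ => ?_)
    rw [hu j, Category.assoc]
  · intro n f hf
    have h1 : ∀ j, ∃ g : S j ⟶ C.M n, ι j ≫ f = g ≫ C.δ n := by
      intro j
      refine (hS j).exr n (ι j ≫ f) ?_
      rw [Category.assoc, hf, Limits.comp_zero]
    choose u hu using h1
    refine ⟨∑ j, π j ≫ u j, ?_⟩
    rw [Preadditive.sum_comp]
    refine (g3a_out S ι π h f).trans (Finset.sum_congr rfl fun j _ => ?_)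
    rw [hu j, Category.assoc]

end NTC
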