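import Pool.Agent.NTC.G2

/-!
# [NTC-G3d] complexes and tests: definitions (no sorry)
-/

set_option autoImplicit false

open CategoryTheory

namespace NTC

variable {K : Type} [Field K] {𝒟 : Type 1} [Category.{0} 𝒟] [Preadditive 𝒟] [Linear K 𝒟]

/-- A complex `M 0 ⟶ M 1 ⟶ ...` with a linear form `θ` on `M 0 ⟶ X`. -/
structure Cx (K : Type) [Field K] {𝒟 : Type 1} [Category.{0} 𝒟] [Preadditive 𝒟] [Linear K 𝒟]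
    (X : 𝒟) where
  /-- the objects -/
  M : ℕ → 𝒟
  /-- the differentials -/
  δ : ∀ n, M n ⟶ M (n + 1)
  /-- the linear form -/
  θ : (M 0 ⟶ X) →ₗ[K] K
  comp : ∀ n, δ n ≫ δ (n + 1) = 0
  θ0 : ∀ f : M 1 ⟶ X, θ (δ 0 ≫ f) = 0

/-- The conditions at a test object `T`. -/
structure Cx.Test {X : 𝒟} (C : Cx K X) (T : 𝒟) : Prop where
  ker : ∀ g : C.M 0 ⟶ T, (∀ f : T ⟶ X, C.θ (g ≫ f) = 0) → ∃ h : C.M 1 ⟶ T, g = C.δ 0 ≫ h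
  surj : ∀ ξ : (T ⟶ X) →ₗ[K] K, ∃ g : C.M 0 ⟶ T, ∀ f, ξ f = C.θ (g ≫ f)
  exl : ∀ n (f : C.M (n + 1) ⟶ T), C.δ n ≫ f = 0 → ∃ g : C.M (n + 2) ⟶ T, f = C.δ (n + 1) ≫ g
  exr : ∀ n (f : T ⟶ C.M (n + 1)), f ≫ C.δ (n + 1) = 0 → ∃ g : T ⟶ C.M n, f = g ≫ C.δ n

end NTC
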