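import Pool.Agent.NTC.R

/-!
# [NTC-G4a] comparison of an injective coresolution with a coresolution of `E` by projective-injective modules
-/

set_option autoImplicit false

namespace NTC

/-- extension of a map which vanishes on the kernel -/
theorem g4a_ext {E : Type} [Ring E] {X Y Q : Type} [AddCommGroup X] [Module E X] [AddCommGroup Y]
    [Module E Y] [AddCommGroup Q] [Module E Q] (hQ : Module.Injective E Q) (a : X →ₗ[E] Y)
    (b : X →ₗ[E] Q) (hab : ∀ x, a x = 0 → b x = 0) : ∃ h : Y →ₗ[E] Q, ∀ x, h (a x) = b x := by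
  have hle : LinearMap.ker a ≤ LinearMap.ker b := fun x hx => hab x hx
  have hf : Function.Injective ((LinearMap.ker a).liftQ a le_rfl) := by
    rw [← LinearMap.ker_eq_bot]
    exact Submodule.ker_liftQ_eq_bot _ _ _ le_rfl
  obtain ⟨h, hh⟩ := hQ.out ((LinearMap.ker a).liftQ a le_rfl) hf ((LinearMap.ker a).liftQ b hle)
  exact ⟨h, fun x => hh (Submodule.Quotient.mk x)⟩

/-- exactness is preserved by finite powers -/
theorem g4a_pow {E : Type} [Ring E] {X Y Z : Type} [AddCommGroup X] [Module E X] [AddCommGroup Y]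
    [Module E Y] [AddCommGroup Z] [Module E Z] (a : X →ₗ[E] Y) (b : Y →ₗ[E] Z)
    (hab : LinearMap.range a = LinearMap.ker b) (n : ℕ) :
    (∀ z : Fin n → Y, b.compLeft (Fin n) z = 0 → ∃ w : Fin n → X, a.compLeft (Fin n) w = z) ∧
      ∀ w : Fin n → X, b.compLeft (Fin n) (a.compLeft (Fin n) w) = 0 := by
  constructor
  · intro z hz
    have h1 : ∀ k, ∃ w : X, a w = z k := by
      intro k
      have h2 : z k ∈ LinearMap.ker b := by
        rw [LinearMap.mem_ker]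
        exact congrFun hz k
      rw [← hab] at h2
      exact h2
    choose w hw using h1
    exact ⟨w, funext hw⟩
  · intro w
    funext k
    have h2 : a (w k) ∈ LinearMap.ker b := by
      rw [← hab]
      exact ⟨w k, rfl⟩
    exact h2

/-- [G4a] PROOF. Let `ε : E → I 0`, `dI n : I n → I (n+1)` be as in `DomInf`, `id_P = ∑ k, r k ∘ i' k` (`k : Fin n`, `i' k : P → E`, `r k : E → P`). All modules `Fin n → I m` are injective
(products; `Module.Injective` of a finite power: `InAdd.injective (InAdd.pi n)`), projective and finite. `u : P → (Fin n → E)`, `u x k = i' k x`, `v : (Fin n → E) → P`, `v y = ∑ r k (y k)`, `v ∘ u = id`.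
`ε' : (Fin n → E) → (Fin n → I 0)` and `d' m` componentwise; `(Fin n → E) → (Fin n → I 0) → (Fin n → I 1) → ..` is exact.
`f⁰ : J₀ → (Fin n → I 0)` with `f⁰ ∘ i = ε' ∘ u` (injectivity of `Fin n → I 0`, `i` injective). `d' 0 ∘ f⁰` kills `range i = ker d`, so it defines a map on
`range d` (or on `J₀ ⧸ ker d`, which embeds into `J₁`) and extends to `f¹ : J₁ → (Fin n → I 1)` with `f¹ ∘ d = d' 0 ∘ f⁰`.
In the same way `g⁰ : (Fin n → I 0) → J₀` with `g⁰ ∘ ε' = i ∘ v`, `g¹ : (Fin n → I 1) → J₁` with `g¹ ∘ d' 0 = d ∘ g⁰` (`J₀`, `J₁` are injective, `ker (d' 0) = range ε'`, `d ∘ i = 0`).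
`id - g⁰ ∘ f⁰` kills `i P` (`g⁰ f⁰ i = g⁰ ε' u = i v u = i`), so there is `s¹ : J₁ → J₀` with `s¹ ∘ d = id - g⁰ ∘ f⁰`. Put `s = id - g¹ ∘ f¹ - d ∘ s¹`: `s ∘ d = d - g¹ d' f⁰ - d (id - g⁰ f⁰) = 0`.
Put `I = (Fin n → I 2)`, `g = d' 1 ∘ f¹`: `g ∘ d = d' 1 ∘ d' 0 ∘ f⁰ = 0`. If `g x = 0` then `f¹ x = d' 0 z`, `g¹ (f¹ x) = d (g⁰ z)`, and `x = g¹ (f¹ x) + d (s¹ x) + s x = d (g⁰ z + s¹ x) + s x`. -/
theorem cmp {E : Type} [Ring E] (hD : DomInf E) {P J₀ J₁ : Type} [AddCommGroup P] [Module E P]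
    [AddCommGroup J₀] [Module E J₀] [AddCommGroup J₁] [Module E J₁] (hP : InAdd E P E)
    (i : P →ₗ[E] J₀) (hi : Function.Injective i) (d : J₀ →ₗ[E] J₁)
    (h : LinearMap.range i = LinearMap.ker d) (h0 : Module.Injective E J₀)
    (h1 : Module.Injective E J₁) :
    ∃ (I : Type) (_ : AddCommGroup I) (_ : Module E I) (g : J₁ →ₗ[E] I) (s : J₁ →ₗ[E] J₁),
      Module.Projective E I ∧ Module.Finite E I ∧ g ∘ₗ d = 0 ∧ s ∘ₗ d = 0 ∧
        ∀ x, g x = 0 → ∃ y, x = d y + s x := by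
  obtain ⟨I, ε, dI, hε, hε0, hdI, hI⟩ := hD
  obtain ⟨n, i', r, hid⟩ := hP
  have inj : ∀ m, Module.Injective E (Fin n → I m) := fun m => (InAdd.pi n).injective (hI m).2.2
  have proj : ∀ m, Module.Projective E (Fin n → I m) := fun m => (InAdd.pi n).projective (hI m).2.1
  have fin : ∀ m, Module.Finite E (Fin n → I m) := fun m => (InAdd.pi n).finite (hI m).1
  obtain ⟨hε1, hε2⟩ := g4a_pow ε (dI 0) hε0 n
  obtain ⟨hd1, hd2⟩ := g4a_pow (dI 0) (dI 1) (hdI 0) n
  have hε' : Function.Injective (ε.compLeft (Fin n)) := by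
    intro x y hxy
    funext k
    exact hε (congrFun hxy k)
  set u : P →ₗ[E] (Fin n → E) := LinearMap.pi i' with hu
  set v : (Fin n → E) →ₗ[E] P := ∑ k, r k ∘ₗ LinearMap.proj k with hv
  have hvu : ∀ x, v (u x) = x := by
    intro x
    have h2 := LinearMap.congr_fun hid x
    rw [LinearMap.sum_apply] at h2
    rw [hv, LinearMap.sum_apply]
    exact h2
  have hdi : ∀ x, d (i x) = 0 := by
    intro x
    have h2 : i x ∈ LinearMap.ker d := by
      rw [← h]
      exact ⟨x, rfl⟩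
    exact h2
  have hdk : ∀ x, d x = 0 → ∃ p, i p = x := by
    intro x hx
    have h2 : x ∈ LinearMap.range i := by
      rw [h]
      exact hx
    exact h2
  obtain ⟨f0, hf0⟩ := (inj 0).out i hi (ε.compLeft (Fin n) ∘ₗ u)
  obtain ⟨f1, hf1⟩ := g4a_ext (inj 1) d ((dI 0).compLeft (Fin n) ∘ₗ f0) (by
    intro x hx
    obtain ⟨p, rfl⟩ := hdk x hx
    rw [LinearMap.comp_apply, hf0 p]
    exact hε2 (u p))
  obtain ⟨g0, hg0⟩ := h0.out (ε.compLeft (Fin n)) hε' (i ∘ₗ v)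
  obtain ⟨g1, hg1⟩ := g4a_ext h1 ((dI 0).compLeft (Fin n)) (d ∘ₗ g0) (by
    intro z hz
    obtain ⟨w, rfl⟩ := hε1 z hz
    rw [LinearMap.comp_apply, hg0 w]
    exact hdi (v w))
  obtain ⟨s1, hs1⟩ := g4a_ext h0 d (LinearMap.id - g0 ∘ₗ f0) (by
    intro x hx
    obtain ⟨p, rfl⟩ := hdk x hx
    rw [LinearMap.sub_apply, LinearMap.id_apply, LinearMap.comp_apply, hf0 p, LinearMap.comp_apply,
      hg0 (u p), LinearMap.comp_apply, hvu, sub_self])
  refine ⟨Fin n → I 2, inferInstance, inferInstance, (dI 1).compLeft (Fin n) ∘ₗ f1,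
    LinearMap.id - g1 ∘ₗ f1 - d ∘ₗ s1, proj 2, fin 2, ?_, ?_, ?_⟩
  · ext1 x
    rw [LinearMap.comp_apply, LinearMap.comp_apply, hf1 x]
    exact hd2 (f0 x)
  · ext1 x
    rw [LinearMap.comp_apply, LinearMap.sub_apply, LinearMap.sub_apply, LinearMap.id_apply,
      LinearMap.comp_apply, LinearMap.comp_apply, hf1 x, LinearMap.comp_apply, hg1 (f0 x), hs1 x,
      LinearMap.sub_apply, LinearMap.id_apply, map_sub, LinearMap.comp_apply, LinearMap.comp_apply,
      sub_self, LinearMap.zero_apply]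
  · intro x hx
    obtain ⟨z, hz⟩ := hd1 (f1 x) hx
    refine ⟨g0 z + s1 x, ?_⟩
    rw [LinearMap.sub_apply, LinearMap.sub_apply, LinearMap.id_apply, LinearMap.comp_apply,
      LinearMap.comp_apply, ← hz, hg1 z, LinearMap.comp_apply, map_add]
    abel

end NTC
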