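import Pool.Agent.NTC.G1
import Pool.Agent.NTC.G4a

/-!
# [NTC-G4b] a criterion for finite dominant dimension
-/

set_option autoImplicit false

open CategoryTheory

namespace NTC

variable {𝒟 : Type 1} [Category.{0} 𝒟] [Preadditive 𝒟]

/-- [G4b] PROOF. Suppose `DomInf (End N)`. Apply `cmp` with `P = (Y ⟶ N)`, `J₀ = (Q₀ ⟶ N)`, `J₁ = (Q₁ ⟶ N)`, `i = pre N p`, `d = pre N δ` (`(hY.pre N).trans (inAdd_end N)`; `hδp`, `hp`, `hex`): we get
`I`, `g`, `s`.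
(1) `g c = 0`. `I ∈ add (End N)` (`inAdd_of_projective`), so (`inAdd_end'`) it is enough that `t (g c) = 0` for every linear `t : I → (N ⟶ N)`. By `yonC` (`hQ₁`) `t ∘ g` is `x ↦ a ≫ x` for some
`a : N ⟶ Q₁`. For all `x : Q₀ ⟶ N`, `a ≫ δ ≫ x = t (g (d x)) = 0`, so `a ≫ δ = 0` by `faiC` (`hQ₀`). For `φ : W j ⟶ N`, `(φ ≫ a) ≫ δ = 0`, so `φ ≫ a ≫ c = 0` by `hc`; so `a ≫ c = 0` by `hW`.
(2) `s c = 0`. `s` is `x ↦ b ≫ x`, `b : Q₁ ⟶ Q₁` (`yonC`), `b ≫ δ = 0` as in (1). Write `𝟙 Q₁ = ∑ k, i k ≫ r k` (`i k : Q₁ ⟶ N`, `r k : N ⟶ Q₁`). For `φ : W j ⟶ N`, `φ ≫ (r k ≫ b ≫ c) = ((φ ≫ r k) ≫ b) ≫ c = 0`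
by `hc` (`((φ ≫ r k) ≫ b) ≫ δ = 0`), so `r k ≫ b ≫ c = 0` by `hW` and `b ≫ c = ∑ i k ≫ r k ≫ b ≫ c = 0`.
So `c = d y = δ ≫ y`, contradiction. -/
theorem not_domInf {N Q₀ Q₁ Y : 𝒟} (hQ₀ : InAddC Q₀ N) (hQ₁ : InAddC Q₁ N) (hY : InAddC Y N)
    (δ : Q₁ ⟶ Q₀) (p : Q₀ ⟶ Y) (hδp : δ ≫ p = 0) (hp : ∀ f : Y ⟶ N, p ≫ f = 0 → f = 0)
    (hex : ∀ g : Q₀ ⟶ N, δ ≫ g = 0 → ∃ f : Y ⟶ N, g = p ≫ f)
    (h0 : Module.Injective (End N) (Q₀ ⟶ N)) (h1 : Module.Injective (End N) (Q₁ ⟶ N))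
    {J : Type} (W : J → 𝒟) (hW : ∀ a : N ⟶ N, (∀ j (φ : W j ⟶ N), φ ≫ a = 0) → a = 0)
    (c : Q₁ ⟶ N) (hc : ∀ j (l : W j ⟶ Q₁), l ≫ δ = 0 → l ≫ c = 0)
    (hc' : ¬ ∃ g : Q₀ ⟶ N, c = δ ≫ g) : ¬ DomInf (End N) := by
  intro hD
  have key : ∀ (I : Type) [AddCommGroup I] [Module (End N) I] (_ : InAdd (End N) I (N ⟶ N))
      (g : (Q₁ ⟶ N) →ₗ[End N] I) (_ : g ∘ₗ pre N δ = 0), g c = 0 := by
    intro I _ _ hI g hg
    obtain ⟨n, i, r, hir⟩ := hI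
    have h2 : ∀ k, i k (g c) = 0 := by
      intro k
      obtain ⟨a, ha⟩ := yonC hQ₁ (i k ∘ₗ g)
      have h3 : a ≫ δ = 0 := by
        apply faiC hQ₀
        intro f
        have h4 : (i k ∘ₗ g) (δ ≫ f) = 0 := by
          have h5 := LinearMap.congr_fun hg f
          rw [LinearMap.comp_apply, pre_apply] at h5
          rw [LinearMap.comp_apply, h5, LinearMap.zero_apply, map_zero]
        rw [ha] at h4
        rw [Category.assoc]
        exact h4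
      have h6 : a ≫ c = 0 := by
        apply hW
        intro j φ
        rw [← Category.assoc]
        apply hc
        rw [Category.assoc, h3, Limits.comp_zero]
      have h7 := ha c
      rw [h6] at h7
      exact h7
    have h3 := LinearMap.congr_fun hir (g c)
    rw [LinearMap.sum_apply, LinearMap.id_apply] at h3
    rw [← h3]
    apply Finset.sum_eq_zero
    intro k _
    rw [LinearMap.comp_apply, h2, map_zero]
  have hrange : LinearMap.range (pre N p) = LinearMap.ker (pre N δ) := by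
    apply le_antisymm
    · rintro _ ⟨f, rfl⟩
      rw [LinearMap.mem_ker, pre_apply, pre_apply, ← Category.assoc, hδp, Limits.zero_comp]
    · intro g hg
      rw [LinearMap.mem_ker, pre_apply] at hg
      obtain ⟨f, hf⟩ := hex g hg
      exact ⟨f, hf.symm⟩
  have hinj : Function.Injective (pre N p) := by
    rw [injective_iff_map_eq_zero]
    intro f hf
    exact hp f hf
  obtain ⟨I, _, _, g, s, hIp, hIf, hgd, hsd, hx⟩ := cmp hD ((hY.pre N).trans (inAdd_end N))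
    (pre N p) hinj (pre N δ) hrange h0 h1
  have h2 := key I ((inAdd_of_projective hIp hIf).trans (inAdd_end' N)) g hgd
  have h3 := key (Q₁ ⟶ N) (hQ₁.pre N) s hsd
  obtain ⟨y, hy⟩ := hx c h2
  rw [h3, add_zero] at hy
  exact hc' ⟨y, hy⟩

end NTC
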