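import Pool.Agent.NTC.L0

/-!
# [NTC-L1b] duality for free modules
-/

set_option autoImplicit false

namespace NTC

variable {K Λ : Type} [Field K] [Ring Λ] [Algebra K Λ]
variable {V : Type} [AddCommGroup V] [Module K V] [Module Λ V] [IsScalarTower K Λ V]

theorem l1b_apply {n : ℕ} (g : (Fin n → Λ) →ₗ[Λ] V) (x : Fin n → Λ) :
    g x = ∑ k, x k • g (Pi.single k 1) := by
  have h : x = ∑ k, x k • (Pi.single k (1 : Λ) : Fin n → Λ) := by
    funext i
    rw [Finset.sum_apply, Finset.sum_eq_single i]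
    · simp
    · intro b _ hb
      simp [hb.symm]
    · intro h
      exact absurd (Finset.mem_univ i) h
  conv_lhs => rw [h]
  rw [map_sum]
  refine Finset.sum_congr rfl fun k _ => ?_
  rw [map_smul]

theorem l1b_toFun_sum {ι : Type} (s : Finset ι) (f : ι → DD K Λ) (x : Λ) :
    (∑ i ∈ s, f i).toFun x = ∑ i ∈ s, (f i).toFun x := by
  classical
  induction s using Finset.induction_on with
  | empty => simp
  | insert a s ha ih => rw [Finset.sum_insert ha, Finset.sum_insert ha, DD.add_toFun,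
      LinearMap.add_apply, ih]

/-- the map with `e_k ↦ v`, `e_l ↦ 0` -/
def l1b_L {n : ℕ} (k : Fin n) (v : V) : (Fin n → Λ) →ₗ[Λ] V where
  toFun x := x k • v
  map_add' x y := by rw [Pi.add_apply, add_smul]
  map_smul' a x := by rw [Pi.smul_apply, smul_eq_mul, mul_smul, RingHom.id_apply]

theorem l1b_L_apply {n : ℕ} (k : Fin n) (v : V) (x : Fin n → Λ) : l1b_L k v x = x k • v := rfl

theorem l1b_L_add {n : ℕ} (k : Fin n) (v w : V) :
    (l1b_L k (v + w) : (Fin n → Λ) →ₗ[Λ] V) = l1b_L k v + l1b_L k w := by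
  apply LinearMap.ext
  intro x
  rw [LinearMap.add_apply, l1b_L_apply, l1b_L_apply, l1b_L_apply, smul_add]

theorem l1b_L_smul {n : ℕ} (k : Fin n) (c : K) (v : V) :
    (l1b_L k (c • v) : (Fin n → Λ) →ₗ[Λ] V) = c • l1b_L k v := by
  apply LinearMap.ext
  intro x
  rw [LinearMap.smul_apply, l1b_L_apply, l1b_L_apply, smul_comm]

theorem l1b_sum {n : ℕ} (g : (Fin n → Λ) →ₗ[Λ] V) : g = ∑ k, l1b_L k (g (Pi.single k 1)) := by
  apply LinearMap.ext
  intro x
  rw [l1b_apply g x, LinearMap.sum_apply]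
  rfl

/-- [L1] adjunction. PROOF. `∑_k (h (f (d e_k)))_k (1) = ∑_k ∑_j (D_kj • h (f e_j))_k (1) = ∑_j ∑_k (h (f e_j))_k (D_kj)`. -/
theorem th_nu {m n : ℕ} (d : (Fin m → Λ) →ₗ[Λ] (Fin n → Λ)) (f : (Fin n → Λ) →ₗ[Λ] V)
    (h : V →ₗ[Λ] (Fin m → DD K Λ)) : th h (f ∘ₗ d) = th (nu K d ∘ₗ h) f := by
  rw [th_apply, th_apply]
  have h1 : ∀ j : Fin n, ((nu K d ∘ₗ h) (f (Pi.single j 1)) j).toFun 1 =
      ∑ k, (h (f (Pi.single j 1)) k).toFun (d (Pi.single k 1) j) := by
    intro j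
    rw [LinearMap.comp_apply, nu_apply]
    refine Finset.sum_congr rfl fun k _ => ?_
    rw [mul_one]
  simp only [h1]
  rw [Finset.sum_comm]
  refine Finset.sum_congr rfl fun k _ => ?_
  rw [LinearMap.comp_apply, l1b_apply f, map_sum, Finset.sum_apply, l1b_toFun_sum]
  refine Finset.sum_congr rfl fun j _ => ?_
  rw [map_smul, Pi.smul_apply, DD.smul_toFun, one_mul]

/-- [L1] -/
theorem th_comp {U : Type} [AddCommGroup U] [Module K U] [Module Λ U] [IsScalarTower K Λ U] {n : ℕ}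
    (g : (Fin n → Λ) →ₗ[Λ] V) (f : V →ₗ[Λ] U) (j : U →ₗ[Λ] (Fin n → DD K Λ)) :
    th j (f ∘ₗ g) = th (j ∘ₗ f) g := by
  rfl

/-- [L1] PROOF. `φ_k v = Φ (the map with e_k ↦ v, e_l ↦ 0)`, `h v k = (x ↦ φ_k (x • v))`. -/
theorem th_rep {n : ℕ} (Φ : ((Fin n → Λ) →ₗ[Λ] V) →ₗ[K] K) :
    ∃ h : V →ₗ[Λ] (Fin n → DD K Λ), ∀ g, Φ g = th h g := by
  refine ⟨{ toFun := fun v k => ⟨{ toFun := fun x => Φ (l1b_L k (x • v))
                                   map_add' := ?_
                                   map_smul' := ?_ }⟩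
            map_add' := ?_
            map_smul' := ?_ }, ?_⟩
  · intro x y
    rw [add_smul, l1b_L_add, map_add]
  · intro c x
    rw [smul_assoc, l1b_L_smul, map_smul, RingHom.id_apply]
  · intro v w
    funext k
    apply DD.ext'
    intro x
    show Φ (l1b_L k (x • (v + w))) = Φ (l1b_L k (x • v)) + Φ (l1b_L k (x • w))
    rw [smul_add, l1b_L_add, map_add]
  · intro a v
    funext k
    apply DD.ext'
    intro x
    show Φ (l1b_L k (x • a • v)) = Φ (l1b_L k ((x * a) • v))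
    rw [mul_smul]
  · intro g
    rw [th_apply]
    show Φ g = ∑ k, Φ (l1b_L k ((1 : Λ) • g (Pi.single k 1)))
    simp only [one_smul]
    rw [← map_sum, ← l1b_sum]

/-- [L1] PROOF. `(h v)_k (x) = (x • h v)_k (1) = (h (x • v))_k (1) = th h (e_k ↦ x • v, e_l ↦ 0)`. -/
theorem th_nondeg {n : ℕ} (h : V →ₗ[Λ] (Fin n → DD K Λ)) (h0 : ∀ g, th h g = 0) : h = 0 := by
  apply LinearMap.ext
  intro v
  funext k
  apply DD.ext'
  intro x
  have h1 : th h (l1b_L k (x • v)) = (h (x • v) k).toFun 1 := by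
    rw [th_apply, Finset.sum_eq_single k]
    · rw [l1b_L_apply, Pi.single_eq_same, one_smul]
    · intro l _ hl
      rw [l1b_L_apply, Pi.single_eq_of_ne hl.symm, zero_smul, map_zero]
      rfl
    · intro h
      exact absurd (Finset.mem_univ k) h
  rw [h0, map_smul, Pi.smul_apply, DD.smul_toFun, one_mul] at h1
  rw [← h1]
  rfl

end NTC
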