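import Pool.Agent.NTC.L0

/-!
# [NTC-L1c] duality for free modules: surjectivity
-/

set_option autoImplicit false

namespace NTC

variable {K Λ : Type} [Field K] [Ring Λ] [Algebra K Λ]
variable {V : Type} [AddCommGroup V] [Module K V] [Module Λ V] [IsScalarTower K Λ V]

/-- [L1] PROOF. The map `Hom(V, DD^n) → (V^*)^n`, `h ↦ (v ↦ (h v)_k (1))_k`, is injective and `K`-linear (in fact bijective), so `ξ` is the restriction of a linear form on `(V^*)^n`
(a linear form on a subspace extends), which is `(φ_k) ↦ ∑ φ_k (v_k)` for some `v_k ∈ V` as `V` is finite-dimensional. `g e_k = v_k`. -/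
theorem th_surj (hV : FiniteDimensional K V) {n : ℕ} (ξ : (V →ₗ[Λ] (Fin n → DD K Λ)) →ₗ[K] K) :
    ∃ g : (Fin n → Λ) →ₗ[Λ] V, ∀ h, ξ h = th h g := by
  -- the map to the duals
  let J : (V →ₗ[Λ] (Fin n → DD K Λ)) →ₗ[K] (Fin n → Module.Dual K V) :=
    { toFun := fun h k =>
        { toFun := fun v => (h v k).toFun 1
          map_add' := fun v w => by
            rw [map_add, Pi.add_apply, DD.add_toFun, LinearMap.add_apply]
          map_smul' := fun c v => by
            rw [LinearMap.map_smul_of_tower h c, Pi.smul_apply, DD.smulK_toFun,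
              LinearMap.smul_apply, RingHom.id_apply] }
      map_add' := fun h h' => by
        funext k
        apply LinearMap.ext
        intro v
        rfl
      map_smul' := fun c h => by
        funext k
        apply LinearMap.ext
        intro v
        rfl }
  have hJ : ∀ h k v, J h k v = (h v k).toFun 1 := fun h k v => rfl
  have hinj : LinearMap.ker J = ⊥ := by
    rw [LinearMap.ker_eq_bot']
    intro h h0
    apply LinearMap.ext
    intro v
    funext k
    apply DD.ext'
    intro x
    have h1 := hJ h k (x • v)
    have h2 : (h (x • v) k).toFun 1 = (h v k).toFun x := by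
      rw [map_smul, Pi.smul_apply, DD.smul_toFun, one_mul]
    rw [h0, h2] at h1
    exact h1.symm
  obtain ⟨G, hG⟩ := LinearMap.exists_leftInverse_of_injective J hinj
  have hex : ∀ k : Fin n, ∃ v : V, ∀ φ : Module.Dual K V, φ v = ξ (G (Pi.single k φ)) := by
    intro k
    let ψ : Module.Dual K (Module.Dual K V) :=
      (ξ ∘ₗ G) ∘ₗ LinearMap.single K (fun _ : Fin n => Module.Dual K V) k
    obtain ⟨v, hv⟩ := (Module.evalEquiv K V).surjective ψ
    refine ⟨v, fun φ => ?_⟩
    exact congrArg (fun f => f φ) hv
  choose v hv using hex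
  refine ⟨{ toFun := fun x => ∑ k, x k • v k
            map_add' := ?_
            map_smul' := ?_ }, ?_⟩
  · intro x y
    simp [add_smul, Finset.sum_add_distrib]
  · intro a x
    simp [mul_smul, Finset.smul_sum]
  · intro h
    have h1 : h = G (J h) := by
      have := congrArg (fun f => f h) hG
      exact this.symm
    have h2 : J h = ∑ k, (Pi.single k (J h k) : Fin n → Module.Dual K V) := by
      rw [Finset.univ_sum_single]
    conv_lhs => rw [h1, h2]
    rw [map_sum, map_sum, th_apply]
    refine Finset.sum_congr rfl fun k _ => ?_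
    rw [← hv, hJ]
    show (h (v k) k).toFun 1 = (h (∑ l, (Pi.single k (1 : Λ) : Fin n → Λ) l • v l) k).toFun 1
    rw [Finset.sum_eq_single k]
    · rw [Pi.single_eq_same, one_smul]
    · intro l _ hl
      rw [Pi.single_eq_of_ne hl, zero_smul]
    · intro h
      exact absurd (Finset.mem_univ k) h

end NTC
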