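import Pool.Agent.NTC.L0

/-!
# [NTC-L1a] maps between powers of `D(Λ)`
-/

set_option autoImplicit false

namespace NTC

variable {K Λ : Type} [Field K] [Ring Λ] [Algebra K Λ]
variable {V : Type} [AddCommGroup V] [Module K V] [Module Λ V] [IsScalarTower K Λ V]

theorem l1a_apply {m n : ℕ} (d : (Fin m → Λ) →ₗ[Λ] (Fin n → Λ)) (x : Fin m → Λ) (j : Fin n) :
    d x j = ∑ k, x k * d (Pi.single k 1) j := by
  have h : x = ∑ k, x k • (Pi.single k (1 : Λ) : Fin m → Λ) := by
    funext i
    rw [Finset.sum_apply, Finset.sum_eq_single i]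
    · simp
    · intro b _ hb
      simp [Pi.single_apply, hb.symm]
    · intro h
      exact absurd (Finset.mem_univ i) h
  conv_lhs => rw [h]
  rw [map_sum, Finset.sum_apply]
  refine Finset.sum_congr rfl fun k _ => ?_
  rw [map_smul, Pi.smul_apply, smul_eq_mul]

theorem l1a_ext {n : ℕ} {ξ η : Fin n → DD K Λ} (h : ∀ j x, (ξ j).toFun x = (η j).toFun x) :
    ξ = η := by
  funext j
  exact DD.ext' (h j)

theorem l1a_toFun_sum {ι : Type} (s : Finset ι) (f : ι → DD K Λ) (x : Λ) :
    (∑ i ∈ s, f i).toFun x = ∑ i ∈ s, (f i).toFun x := by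
  classical
  induction s using Finset.induction_on with
  | empty => simp
  | insert a s ha ih => rw [Finset.sum_insert ha, Finset.sum_insert ha, DD.add_toFun,
      LinearMap.add_apply, ih]

/-- [L1] PROOF. `d x j = ∑ k, x k * d (e_k) j`, `x = ∑ x k • e_k`. -/
theorem nu_comp {l m n : ℕ} (d : (Fin l → Λ) →ₗ[Λ] (Fin m → Λ)) (d' : (Fin m → Λ) →ₗ[Λ] (Fin n → Λ)) :
    nu K (d' ∘ₗ d) = nu K d' ∘ₗ nu K d := by
  apply LinearMap.ext
  intro ξ
  refine l1a_ext fun j x => ?_
  rw [LinearMap.comp_apply, nu_apply, nu_apply]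
  simp only [nu_apply, LinearMap.comp_apply]
  rw [Finset.sum_comm]
  refine Finset.sum_congr rfl fun k _ => ?_
  rw [l1a_apply d' (d (Pi.single k 1)) j, Finset.sum_mul, map_sum]
  refine Finset.sum_congr rfl fun i _ => ?_
  rw [mul_assoc]

/-- [L1] PROOF. `0 = (nu d ξ)_j (1) = ξ_k (d e_k j)` for `ξ` with the only nonzero entry `ξ_k`, for all linear forms `ξ_k` on `Λ`. -/
theorem nu_eq_zero {m n : ℕ} (d : (Fin m → Λ) →ₗ[Λ] (Fin n → Λ)) (h : nu K d = 0) : d = 0 := by
  have h1 : ∀ (k : Fin m) (j : Fin n), d (Pi.single k 1) j = 0 := by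
    intro k j
    rw [← Module.forall_dual_apply_eq_zero_iff K]
    intro φ
    have h2 : (nu K d (Pi.single k (⟨φ⟩ : DD K Λ)) j).toFun 1 = 0 := by
      rw [h]
      simp
    rw [nu_apply, Finset.sum_eq_single k] at h2
    · simpa using h2
    · intro b _ hb
      rw [Pi.single_eq_of_ne hb]
      simp
    · intro h
      exact absurd (Finset.mem_univ k) h
  apply LinearMap.ext
  intro x
  funext j
  rw [l1a_apply]
  simp [h1]

/-- [L1] PROOF. Every `Λ`-linear map `F : DD → DD` is `ξ ↦ (x ↦ ξ (c x))` for some `c : Λ`: the linear form `ξ ↦ (F ξ) 1` on the dual of the finite-dimensional space `Λ` is the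
evaluation at some `c`, and `(F ξ) x = (x • F ξ) 1 = (F (x • ξ)) 1 = (x • ξ) c = ξ (c x)`. Apply this to the matrix entries of `F` and take the linear map with `d e_k j = c k j`. -/
theorem nu_surj (hfd : FiniteDimensional K Λ) {m n : ℕ}
    (F : (Fin m → DD K Λ) →ₗ[Λ] (Fin n → DD K Λ)) :
    ∃ d : (Fin m → Λ) →ₗ[Λ] (Fin n → Λ), nu K d = F := by
  have hent : ∀ (k : Fin m) (j : Fin n), ∃ c : Λ, ∀ ξ : DD K Λ,
      ∀ x, (F (Pi.single k ξ) j).toFun x = ξ.toFun (c * x) := by
    intro k j
    let ψ : Module.Dual K (Module.Dual K Λ) :=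
      { toFun := fun φ => (F (Pi.single k (⟨φ⟩ : DD K Λ)) j).toFun 1
        map_add' := by
          intro φ φ'
          have e1 : (Pi.single k (⟨φ + φ'⟩ : DD K Λ) : Fin m → DD K Λ) =
              Pi.single k (⟨φ⟩ : DD K Λ) + Pi.single k (⟨φ'⟩ : DD K Λ) := by
            rw [← Pi.single_add]
            rfl
          rw [e1, map_add, Pi.add_apply, DD.add_toFun, LinearMap.add_apply]
        map_smul' := by
          intro c φ
          have e1 : (Pi.single k (⟨c • φ⟩ : DD K Λ) : Fin m → DD K Λ) =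
              c • Pi.single k (⟨φ⟩ : DD K Λ) := by
            rw [← Pi.single_smul]
            rfl
          rw [e1, LinearMap.map_smul_of_tower F c, Pi.smul_apply, DD.smulK_toFun,
            LinearMap.smul_apply, RingHom.id_apply] }
    obtain ⟨c, hc⟩ := (Module.evalEquiv K Λ).surjective ψ
    refine ⟨c, fun ξ x => ?_⟩
    have hc' : ∀ φ : Module.Dual K Λ, φ c = (F (Pi.single k (⟨φ⟩ : DD K Λ)) j).toFun 1 := by
      intro φ
      have := congrArg (fun f => f φ) hc
      exact this
    have e1 : (x • (Pi.single k ξ : Fin m → DD K Λ)) = Pi.single k (x • ξ) := by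
      rw [← Pi.single_smul]
    have e2 : (F (Pi.single k (x • ξ)) j).toFun 1 = (F (Pi.single k ξ) j).toFun x := by
      rw [← e1, map_smul, Pi.smul_apply, DD.smul_toFun, one_mul]
    rw [← e2]
    have e3 := hc' (x • ξ).toFun
    have e4 : (⟨(x • ξ).toFun⟩ : DD K Λ) = x • ξ := rfl
    rw [e4] at e3
    rw [← e3, DD.smul_toFun]
  choose c hc using hent
  refine ⟨{ toFun := fun x j => ∑ k, x k * c k j
            map_add' := ?_
            map_smul' := ?_ }, ?_⟩
  · intro x y
    funext j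
    simp [add_mul, Finset.sum_add_distrib]
  · intro a x
    funext j
    simp [mul_assoc, Finset.mul_sum]
  · apply LinearMap.ext
    intro ξ
    refine l1a_ext fun j x => ?_
    rw [nu_apply]
    have e1 : ξ = ∑ k, (Pi.single k (ξ k) : Fin m → DD K Λ) := by
      rw [Finset.univ_sum_single]
    conv_rhs => rw [e1]
    rw [map_sum, Finset.sum_apply, l1a_toFun_sum]
    refine Finset.sum_congr rfl fun k _ => ?_
    rw [hc]
    congr 2
    show ∑ k', (Pi.single k (1 : Λ) : Fin m → Λ) k' * c k' j = c k j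
    rw [Finset.sum_eq_single k]
    · simp
    · intro b _ hb
      rw [Pi.single_eq_of_ne hb, zero_mul]
    · intro h
      exact absurd (Finset.mem_univ k) h

end NTC
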