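import Pool.Agent.NTC.L1

/-!
# [NTC-L2] the Auslander-Reiten formula
-/

set_option autoImplicit false

namespace NTC

variable {K Λ : Type} [Field K] [Ring Λ] [Algebra K Λ]
variable {V : Type} [AddCommGroup V] [Module K V] [Module Λ V] [IsScalarTower K Λ V]
variable {U : Type} [AddCommGroup U] [Module K U] [Module Λ U] [IsScalarTower K Λ U]
variable {m n : ℕ} (d : (Fin m → Λ) →ₗ[Λ] (Fin n → Λ)) (j : U →ₗ[Λ] (Fin m → DD K Λ))

/-- precomposition with `d` is `K`-linear -/
def l2_pre (V : Type) [AddCommGroup V] [Module K V] [Module Λ V] [IsScalarTower K Λ V]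
    {m n : ℕ} (d : (Fin m → Λ) →ₗ[Λ] (Fin n → Λ)) :
    ((Fin n → Λ) →ₗ[Λ] V) →ₗ[K] ((Fin m → Λ) →ₗ[Λ] V) where
  toFun h := h ∘ₗ d
  map_add' _ _ := rfl
  map_smul' _ _ := rfl

/-- postcomposition with `j` is `K`-linear -/
def l2_post (V : Type) [AddCommGroup V] [Module K V] [Module Λ V] [IsScalarTower K Λ V]
    {U : Type} [AddCommGroup U] [Module K U] [Module Λ U] [IsScalarTower K Λ U]
    {m : ℕ} (j : U →ₗ[Λ] (Fin m → DD K Λ)) :
    (V →ₗ[Λ] U) →ₗ[K] (V →ₗ[Λ] (Fin m → DD K Λ)) where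
  toFun f := j ∘ₗ f
  map_add' f g := by
    ext1 x
    exact map_add j _ _
  map_smul' c f := by
    ext1 x
    exact LinearMap.map_smul_of_tower j c (f x)

/-- [L2] PROOF. `th j (f ∘ d) = th (nu d ∘ j) f = th 0 f`. -/
theorem ar_zero (hr : LinearMap.range j ≤ LinearMap.ker (nu K d)) (f : (Fin n → Λ) →ₗ[Λ] U) :
    th j (f ∘ₗ d) = 0 := by
  have h0 : nu K d ∘ₗ j = 0 := by
    ext1 u
    exact LinearMap.mem_ker.mp (hr (LinearMap.mem_range_self j u))
  rw [th_nu, h0]
  simp [th_apply]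

/-- [L2] PROOF. Otherwise there is a linear form `Φ` on `Hom(Λ^m, V)` with `Φ g ≠ 0` vanishing on the subspace of all `h' ∘ d` (`Submodule.exists_le_ker_of_notMem` or similar). `Φ = th h` (`th_rep`).
`th (nu d ∘ h) h' = th h (h' ∘ d) = 0` for all `h'`, so `nu d ∘ h = 0` (`th_nondeg`) and `h` has values in `ker (nu d) = range j`: `h = j ∘ f`, `f : V → U` (`j` injective). `Φ g = th (j ∘ f) g = th j (f ∘ g) = 0`
(`th_comp`, `h0`). -/
theorem ar_ker (hj : Function.Injective j) (hr : LinearMap.range j = LinearMap.ker (nu K d))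
    (g : (Fin m → Λ) →ₗ[Λ] V) (h0 : ∀ f : V →ₗ[Λ] U, th j (f ∘ₗ g) = 0) :
    ∃ h : (Fin n → Λ) →ₗ[Λ] V, g = h ∘ₗ d := by
  by_contra hcon
  have hg : g ∉ LinearMap.range (l2_pre (K := K) V d) := by
    rintro ⟨h, hh⟩
    exact hcon ⟨h, hh.symm⟩
  obtain ⟨Φ, hΦ, hker⟩ := Submodule.exists_le_ker_of_notMem hg
  obtain ⟨h, hh⟩ := th_rep Φ
  have h1 : nu K d ∘ₗ h = 0 := by
    refine th_nondeg _ (fun h' => ?_)
    rw [← th_nu, ← hh]
    exact LinearMap.mem_ker.mp (hker (LinearMap.mem_range_self (l2_pre (K := K) V d) h'))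
  have h2 : ∀ v, h v ∈ LinearMap.range j := by
    intro v
    rw [hr]
    exact LinearMap.mem_ker.mpr (LinearMap.congr_fun h1 v)
  let f : V →ₗ[Λ] U :=
    (LinearEquiv.ofInjective j hj).symm.toLinearMap ∘ₗ h.codRestrict (LinearMap.range j) h2
  have h3 : j ∘ₗ f = h := by
    ext1 v
    have h4 : (LinearEquiv.ofInjective j hj) ((LinearEquiv.ofInjective j hj).symm
        (h.codRestrict (LinearMap.range j) h2 v)) = h.codRestrict (LinearMap.range j) h2 v :=
      LinearEquiv.apply_symm_apply _ _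
    exact congrArg Subtype.val h4
  refine hΦ ?_
  rw [hh, ← h3, ← th_comp]
  exact h0 f

/-- [L2] PROOF. `f ↦ j ∘ f` is a `K`-linear injective map `Hom(V, U) → Hom(V, DD^m)`; extend `ξ` along it and apply `th_surj`, `th_comp`. -/
theorem ar_surj (hj : Function.Injective j) (hV : FiniteDimensional K V)
    (ξ : (V →ₗ[Λ] U) →ₗ[K] K) :
    ∃ g : (Fin m → Λ) →ₗ[Λ] V, ∀ f, ξ f = th j (f ∘ₗ g) := by
  have hinj : Function.Injective (l2_post (K := K) V j) := by
    intro f f' hff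
    ext1 v
    exact hj (LinearMap.congr_fun hff v)
  obtain ⟨L, hL⟩ := LinearMap.exists_leftInverse_of_injective (l2_post (K := K) V j)
    (LinearMap.ker_eq_bot.mpr hinj)
  obtain ⟨g, hg⟩ := th_surj hV (ξ ∘ₗ L)
  refine ⟨g, fun f => ?_⟩
  have h1 := hg (l2_post (K := K) V j f)
  have h2 : L (l2_post (K := K) V j f) = f := LinearMap.congr_fun hL f
  rw [LinearMap.comp_apply, h2] at h1
  rw [h1, th_comp]
  rfl

/-- [L2] a nonsplit extension. PROOF. Let `R = LinearMap.range d` and `d' : Λ^m → R` (`LinearMap.rangeRestrict`). If `th j (f ∘ d') = 0` for all `f : R → U` then `d' = h ∘ d` for some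
`h : Λ^n → R` (`ar_ker` for `V = R`), so `h` is the identity on `R` (`d'` is surjective), `R = ker π` is a direct summand of `Λ^n`, `π` splits and `X` is projective. So there is `f : R → U` with `th j (f ∘ d') ≠ 0`;
`c = f ∘ d'`. If `c = g ∘ d` then `th j c = 0` by `ar_zero`. -/
theorem exists_c {X : Type} [AddCommGroup X] [Module Λ X] (hj : Function.Injective j)
    (hr : LinearMap.range j = LinearMap.ker (nu K d)) (π : (Fin n → Λ) →ₗ[Λ] X)
    (hπ : Function.Surjective π) (hk : LinearMap.ker π = LinearMap.range d)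
    (hX : ¬ Module.Projective Λ X) :
    ∃ c : (Fin m → Λ) →ₗ[Λ] U, (∀ x, d x = 0 → c x = 0) ∧
      ¬ ∃ g : (Fin n → Λ) →ₗ[Λ] U, c = g ∘ₗ d := by
  have key : ∃ f : LinearMap.range d →ₗ[Λ] U, th j (f ∘ₗ d.rangeRestrict) ≠ 0 := by
    by_contra hcon
    have hcon' : ∀ f : LinearMap.range d →ₗ[Λ] U, th j (f ∘ₗ d.rangeRestrict) = 0 := by
      intro f
      by_contra hf
      exact hcon ⟨f, hf⟩
    obtain ⟨h, hh⟩ := ar_ker d j hj hr d.rangeRestrict hcon'
    have h1 : ∀ x, h (d x) = d.rangeRestrict x := fun x => (LinearMap.congr_fun hh x).symm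
    let e : (Fin n → Λ) →ₗ[Λ] (Fin n → Λ) := LinearMap.id - (LinearMap.range d).subtype ∘ₗ h
    have he : LinearMap.ker π ≤ LinearMap.ker e := by
      intro v hv
      rw [hk] at hv
      obtain ⟨x, rfl⟩ := hv
      rw [LinearMap.mem_ker]
      show d x - ((h (d x) : LinearMap.range d) : Fin n → Λ) = 0
      rw [h1]
      exact sub_self _
    let s : X →ₗ[Λ] (Fin n → Λ) := (Submodule.liftQ (LinearMap.ker π) e he) ∘ₗ
      (π.quotKerEquivOfSurjective hπ).symm.toLinearMap
    have hs : ∀ v, s (π v) = e v := by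
      intro v
      have h2 : (π.quotKerEquivOfSurjective hπ).symm (π v) = Submodule.Quotient.mk v := by
        rw [LinearEquiv.symm_apply_eq]
        rfl
      show Submodule.liftQ (LinearMap.ker π) e he ((π.quotKerEquivOfSurjective hπ).symm (π v)) = e v
      rw [h2]
      rfl
    have h3 : π ∘ₗ s = LinearMap.id := by
      ext1 x
      obtain ⟨v, rfl⟩ := hπ x
      show π (s (π v)) = π v
      rw [hs]
      show π (v - ((h v : LinearMap.range d) : Fin n → Λ)) = π v
      rw [map_sub]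
      have h4 : ((h v : LinearMap.range d) : Fin n → Λ) ∈ LinearMap.ker π := by
        rw [hk]
        exact (h v).2
      rw [LinearMap.mem_ker.mp h4, sub_zero]
    exact hX (Module.Projective.of_split s π h3)
  obtain ⟨f, hf⟩ := key
  refine ⟨f ∘ₗ d.rangeRestrict, ?_, ?_⟩
  · intro x hx
    have h1 : d.rangeRestrict x = 0 := Subtype.ext hx
    show f (d.rangeRestrict x) = 0
    rw [h1, map_zero]
  · rintro ⟨g, hg⟩
    refine hf ?_
    rw [hg]
    exact ar_zero d j hr.le g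

end NTC
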