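import Pool.Agent.NTC.L1
import Pool.Agent.NTC.R2

/-!
# [NTC-L3b] exactness of the complexes `Λ^{m n}` and `Hom(Λ^{m n}, X)`
-/

set_option autoImplicit false

open CategoryTheory

namespace NTC

variable {K Λ : Type} [Field K] [Ring Λ] [Algebra K Λ]

theorem l3b_nu_add {m n : ℕ} (a b : (Fin m → Λ) →ₗ[Λ] (Fin n → Λ)) :
    nu K (a + b) = nu K a + nu K b := by
  apply LinearMap.ext
  intro ξ
  funext j
  ext x
  simp [nu_apply, add_mul, Finset.sum_add_distrib]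

theorem l3b_nu_zero {m n : ℕ} : nu K (0 : (Fin m → Λ) →ₗ[Λ] (Fin n → Λ)) = 0 := by
  have h := l3b_nu_add (K := K) (0 : (Fin m → Λ) →ₗ[Λ] (Fin n → Λ)) 0
  rw [add_zero] at h
  exact left_eq_add.mp h

theorem l3b_nu_inj {m n : ℕ} {a b : (Fin m → Λ) →ₗ[Λ] (Fin n → Λ)} (h : nu K a = nu K b) :
    a = b := by
  have h1 : nu K (a - b) + nu K b = nu K b := by
    rw [← l3b_nu_add, sub_add_cancel, h]
  have h2 : nu K (a - b) = 0 := add_eq_right.mp h1
  exact sub_eq_zero.mp (nu_eq_zero _ h2)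

/-- [L3] exactness of the complex `Λ^{m n}`. PROOF. `nu (c (n+1) ∘ c n) = 0`, so `c (n+1) ∘ c n = 0` (`nu_eq_zero`). Let `c (n+1) y = 0` and `d' : Λ^1 → Λ^{m (n+1)}`, `x ↦ x 0 • y`. `nu (c (n+1)) ∘ nu d' = nu 0 = 0`, so
`range (nu d') ≤ range (nu (c n))`; `DD^1` is projective (`InAdd.projective`, `InAdd.pi'`), so `nu d' = nu (c n) ∘ t`, `t : DD^1 → DD^{m n}`, `t = nu t'` (`nu_surj`), `d' = c n ∘ t'` (`nu_comp`, `nu_eq_zero` for the difference),
`y = d' 1 ∈ range (c n)`. -/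
theorem exact_c (hfd : FiniteDimensional K Λ) (hD : InAdd Λ (DD K Λ) Λ) {l m n : ℕ}
    (c : (Fin l → Λ) →ₗ[Λ] (Fin m → Λ)) (c' : (Fin m → Λ) →ₗ[Λ] (Fin n → Λ))
    (h : LinearMap.range (nu K c) = LinearMap.ker (nu K c')) :
    LinearMap.range c = LinearMap.ker c' := by
  apply le_antisymm
  · have h0 : nu K c' ∘ₗ nu K c = 0 := by
      apply LinearMap.ext
      intro ξ
      have : nu K c ξ ∈ LinearMap.ker (nu K c') := h ▸ LinearMap.mem_range_self _ _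
      exact this
    have h1 : c' ∘ₗ c = 0 := nu_eq_zero (K := K) _ (by rw [nu_comp, h0])
    rintro _ ⟨x, rfl⟩
    exact LinearMap.congr_fun h1 x
  · intro y hy
    have hy' : c' y = 0 := hy
    let d' : (Fin 1 → Λ) →ₗ[Λ] (Fin m → Λ) := (LinearMap.proj 0 : (Fin 1 → Λ) →ₗ[Λ] Λ).smulRight y
    have h1 : c' ∘ₗ d' = 0 := by
      apply LinearMap.ext
      intro x
      change c' (x 0 • y) = 0
      rw [map_smul, hy', smul_zero]
    have h2 : nu K c' ∘ₗ nu K d' = 0 := by rw [← nu_comp, h1, l3b_nu_zero]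
    have h3 : ∀ ξ, nu K d' ξ ∈ LinearMap.range (nu K c) := by
      intro ξ
      rw [h]
      exact LinearMap.congr_fun h2 ξ
    have hP : Module.Projective Λ (Fin 1 → DD K Λ) := (hD.pi' 1).projective inferInstance
    obtain ⟨t, ht⟩ := Module.projective_lifting_property (nu K c).rangeRestrict
      (LinearMap.codRestrict _ (nu K d') h3) (nu K c).surjective_rangeRestrict
    have h4 : nu K c ∘ₗ t = nu K d' := by
      apply LinearMap.ext
      intro ξ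
      have := LinearMap.congr_fun ht ξ
      exact congrArg Subtype.val this
    obtain ⟨t', ht'⟩ := nu_surj (K := K) hfd t
    have h5 : c ∘ₗ t' = d' := by
      apply l3b_nu_inj (K := K)
      rw [nu_comp, ht', h4]
    refine ⟨t' (fun _ => 1), ?_⟩
    have h6 := LinearMap.congr_fun h5 (fun _ => 1)
    change c (t' fun _ => 1) = (1 : Λ) • y at h6
    rw [h6, one_smul]

/-- [L3] PROOF. By duality: otherwise there is a linear form `Φ` on `Hom(Λ^m, X)` with `Φ f ≠ 0` vanishing on the subspace of all `g ∘ c'`, `Φ = th h` (`th_rep`), `th (nu c' ∘ h) g = th h (g ∘ c') = 0` for all `g`, so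
`nu c' ∘ h = 0` (`th_nondeg`), `h = nu c ∘ h'` (`hh`), `Φ f = th (nu c ∘ h') f = th h' (f ∘ c) = 0`. -/
theorem hom_c {X : Type} [AddCommGroup X] [Module K X] [Module Λ X] [IsScalarTower K Λ X]
    {l m n : ℕ} (c : (Fin l → Λ) →ₗ[Λ] (Fin m → Λ)) (c' : (Fin m → Λ) →ₗ[Λ] (Fin n → Λ))
    (hh : ∀ h : X →ₗ[Λ] (Fin m → DD K Λ), nu K c' ∘ₗ h = 0 → ∃ h' : X →ₗ[Λ] (Fin l → DD K Λ),
      h = nu K c ∘ₗ h')
    (f : (Fin m → Λ) →ₗ[Λ] X) (hf : f ∘ₗ c = 0) : ∃ g : (Fin n → Λ) →ₗ[Λ] X, f = g ∘ₗ c' := by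
  let S : ((Fin n → Λ) →ₗ[Λ] X) →ₗ[K] ((Fin m → Λ) →ₗ[Λ] X) :=
    { toFun := fun g => g ∘ₗ c'
      map_add' := fun g g' => by ext; rfl
      map_smul' := fun a g => by ext; rfl }
  by_contra hne
  have hfS : f ∉ LinearMap.range S := by
    rintro ⟨g, hg⟩
    exact hne ⟨g, hg.symm⟩
  obtain ⟨Φ, hΦ1, hΦ2⟩ := Submodule.exists_dual_map_eq_bot_of_notMem hfS inferInstance
  obtain ⟨h, hh1⟩ := th_rep Φ
  have h1 : nu K c' ∘ₗ h = 0 := by
    apply th_nondeg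
    intro g
    rw [← th_nu, ← hh1]
    have : Φ (S g) ∈ (LinearMap.range S).map Φ := ⟨S g, ⟨g, rfl⟩, rfl⟩
    rw [hΦ2] at this
    exact this
  obtain ⟨h', hh'⟩ := hh h h1
  apply hΦ1
  rw [hh1, hh', ← th_nu, hf, map_zero]

end NTC
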