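import Pool.Agent.NTC.X2

/-!
# [NTC-X3] the complex `cxU`: morphisms into the vertices 0, 1; morphisms from the vertices 0, 1
-/

set_option autoImplicit false

open CategoryTheory

namespace NTC

namespace Dat

variable {K Λ : Type} [Field K] [Ring Λ] [Algebra K Λ] (D : Dat K Λ)

theorem x3_aux (b : ZMod 6) (hb : b = 0 ∨ b = 1) : adm 2 b ∧ adm 1 b := by
  rcases hb with rfl | rfl <;> decide

/-- the map `π` -/
def x3_pi : (Fr K Λ D.p).T →ₗ[Λ] (D.E 0).T := D.π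

theorem x3_pi_surj : Function.Surjective D.x3_pi := D.π_surj

theorem x3_d1_fst : D.δ1 ≫ prod.fst _ _ = bm 2 2 (D.e 0 ∘ₗ D.x3_pi) := D.x2_d1_fst

theorem x3_d1_snd : D.δ1 ≫ prod.snd _ _ = bm 2 1 D.x3_pi := D.x2_d1_snd

theorem x3_snd (n : ℕ) {b : ZMod 6} (h1 : adm 1 b) {V : Mo K Λ}
    (g : (D.E (n + 1)).T →ₗ[Λ] V.T) :
    D.δ2 n ≫ (prod.snd _ _ ≫ bm 1 b g) =
      prod.fst _ _ ≫ bm 2 b g - prod.snd _ _ ≫ bm 1 b (g ∘ₗ D.e n) := by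
  rw [← Category.assoc, x2_d2_snd, Preadditive.sub_comp, Category.assoc,
    Category.assoc, bm_comp (adm_refl 1) h1, u, bm_comp (by decide) h1, LinearMap.comp_id]

/-- [X3] morphisms into `B b V`, `b = 0, 1`, any `V` (`adm 2 b` and `adm 1 b` hold).
PROOF. `n = 0`: `f = bm 2 b φ`, `φ ∘ d = 0` (`un_bm`), `φ = g ∘ π` (`P_fac`), take `snd ≫ bm 1 b g`: `δ 1 ≫ snd = bm 2 1 π`.
`n = k + 1` (`k = 0` or not): `f = fst ≫ bm 2 b φ₁ + snd ≫ bm 1 b φ₂`. `δ (k+1) ≫ f = 0` gives `φ₁ ∘ e k + φ₂ = 0`: for `k = 0`, `δ 1 ≫ f = bm 2 b (φ₁ ∘ e 0 ∘ π + φ₂ ∘ π)` and `π` is surjective; for `k = l + 1`,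
`inl ≫ δ (l+2) ≫ f = bm 2 b (φ₁ ∘ e (l+1) + φ₂)`. Take `g = snd ≫ bm 1 b φ₁`: `δ (k+2) ≫ g = fst ≫ bm 2 b φ₁ - snd ≫ bm 1 b (φ₁ ∘ e k)`. -/
theorem exl_01 (b : ZMod 6) (hb : b = 0 ∨ b = 1) (V : Mo K Λ) (n : ℕ)
    (f : D.M (n + 1) ⟶ B b V) (h : D.δ n ≫ f = 0) :
    ∃ g : D.M (n + 2) ⟶ B b V, f = D.δ (n + 1) ≫ g := by
  obtain ⟨h2, h1⟩ := x3_aux b hb
  match n, f, h with
  | 0, f, h =>
    change B 2 (Fr K Λ D.p) ⟶ B b V at f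
    change bF K 2 D.d ≫ f = 0 at h
    have h3 : un f ∘ₗ D.d = 0 := by
      have h4 := x2_un_comp (adm_refl 2) h2 h2 (V := Fr K Λ D.q) D.d f
      rw [h, map_zero] at h4
      exact h4.symm
    obtain ⟨g, hg⟩ := D.P_fac (un f) h3
    refine ⟨(prod.snd _ _ ≫ bm 1 b g : prod (B 2 (D.E 1)) (B 1 (D.E 0)) ⟶ B b V), ?_⟩
    change f = D.δ1 ≫ prod.snd _ _ ≫ bm 1 b g
    have hg' : un f = g ∘ₗ D.x3_pi := hg
    rw [← Category.assoc, x3_d1_snd, bm_comp (by decide) h1, ← hg', bm_un]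
  | 1, f, h =>
    change prod (B 2 (D.E 1)) (B 1 (D.E 0)) ⟶ B b V at f
    change D.δ1 ≫ f = 0 at h
    have e1 := x2_dec f
    set φ₁ := un (prod.inl _ _ ≫ f) with hφ₁
    set φ₂ := un (prod.inr _ _ ≫ f) with hφ₂
    have e2 : prod.inl _ _ ≫ f = bm 2 b φ₁ := (bm_un _).symm
    have e3 : prod.inr _ _ ≫ f = bm 1 b φ₂ := (bm_un _).symm
    rw [e2, e3] at e1
    have h3 : (φ₁ ∘ₗ D.e 0 + φ₂) ∘ₗ D.x3_pi = 0 := by
      rw [e1, Preadditive.comp_add, ← Category.assoc, ← Category.assoc, x3_d1_fst, x3_d1_snd,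
        bm_comp (adm_refl 2) h2, bm_comp (by decide) h1, ← bm_add] at h
      rw [LinearMap.add_comp, LinearMap.comp_assoc, ← un_bm h2 (φ₁ ∘ₗ (D.e 0 ∘ₗ D.x3_pi) +
        φ₂ ∘ₗ D.x3_pi), h, map_zero]
    have h4 : φ₁ ∘ₗ D.e 0 + φ₂ = 0 := by
      refine LinearMap.ext fun x => ?_
      obtain ⟨y, rfl⟩ := D.x3_pi_surj x
      exact LinearMap.congr_fun h3 y
    have h5 : φ₂ = -(φ₁ ∘ₗ D.e 0) := eq_neg_of_add_eq_zero_right h4
    refine ⟨(prod.snd _ _ ≫ bm 1 b φ₁ : prod (B 2 (D.E 2)) (B 1 (D.E 1)) ⟶ B b V), ?_⟩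
    change f = D.δ2 0 ≫ (prod.snd _ _ ≫ bm 1 b φ₁)
    rw [D.x3_snd 0 h1, e1, h5, bm_neg, Preadditive.comp_neg, ← sub_eq_add_neg]
  | l + 2, f, h =>
    change prod (B 2 (D.E (l + 2))) (B 1 (D.E (l + 1))) ⟶ B b V at f
    change D.δ2 l ≫ f = 0 at h
    have e1 := x2_dec f
    set φ₁ := un (prod.inl _ _ ≫ f) with hφ₁
    set φ₂ := un (prod.inr _ _ ≫ f) with hφ₂
    have e2 : prod.inl _ _ ≫ f = bm 2 b φ₁ := (bm_un _).symm
    have e3 : prod.inr _ _ ≫ f = bm 1 b φ₂ := (bm_un _).symm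
    rw [e2, e3] at e1
    have h4 : φ₁ ∘ₗ D.e (l + 1) + φ₂ = 0 := by
      have h' := congrArg (fun t => prod.inl _ _ ≫ t) h
      simp only [Limits.comp_zero] at h'
      rw [← Category.assoc, x2_inl_d2, Preadditive.add_comp, Category.assoc, Category.assoc,
        e2, e3, bm_comp (adm_refl 2) h2, u, bm_comp (by decide) h1, ← bm_add,
        LinearMap.comp_id] at h'
      rw [← un_bm h2 (φ₁ ∘ₗ D.e (l + 1) + φ₂), h', map_zero]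
    have h5 : φ₂ = -(φ₁ ∘ₗ D.e (l + 1)) := eq_neg_of_add_eq_zero_right h4
    refine ⟨(prod.snd _ _ ≫ bm 1 b φ₁ : prod (B 2 (D.E (l + 3))) (B 1 (D.E (l + 2))) ⟶ B b V), ?_⟩
    change f = D.δ2 (l + 1) ≫ (prod.snd _ _ ≫ bm 1 b φ₁)
    rw [D.x3_snd (l + 1) h1, e1, h5, bm_neg, Preadditive.comp_neg, ← sub_eq_add_neg]

/-- [X3] morphisms from `B 0 V`: they are all `0` (`adm 0 2` and `adm 0 1` fail). -/
theorem exr_0 (V : Mo K Λ) (n : ℕ) (f : B 0 V ⟶ D.M (n + 1)) (h : f ≫ D.δ (n + 1) = 0) :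
    ∃ g : B 0 V ⟶ D.M n, f = g ≫ D.δ n := by
  refine ⟨0, ?_⟩
  rw [Limits.zero_comp]
  match n, f with
  | 0, f =>
    change B 0 V ⟶ B 2 (Fr K Λ D.p) at f
    exact hom_zero (by decide) f
  | n + 1, f =>
    change B 0 V ⟶ prod (B 2 (D.E (n + 1))) (B 1 (D.E n)) at f
    have e : f = (0 : B 0 V ⟶ prod (B 2 (D.E (n + 1))) (B 1 (D.E n))) := by
      apply prod.hom_ext
      · rw [hom_zero (by decide) (f ≫ prod.fst _ _), Limits.zero_comp]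
      · rw [hom_zero (by decide) (f ≫ prod.snd _ _), Limits.zero_comp]
    exact e

theorem x3_lift : ∀ (k : ℕ) (φ : D.X.T →ₗ[Λ] (D.E k).T), D.e k ∘ₗ φ = 0 →
    ∃ g : B 1 D.X ⟶ D.M (k + 1),
      (bm 1 1 φ ≫ prod.inr _ _ : B 1 D.X ⟶ prod (B 2 (D.E (k + 1))) (B 1 (D.E k))) = g ≫ D.δ (k + 1)
  | 0, φ, h1 => by
    have h3 : φ = 0 := by
      refine LinearMap.ext fun x => ?_
      apply D.e_inj
      rw [LinearMap.zero_apply, map_zero]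
      exact LinearMap.congr_fun h1 x
    refine ⟨0, ?_⟩
    rw [h3, bm_zero, Limits.zero_comp, Limits.zero_comp]
    rfl
  | l + 1, φ, h1 => by
    obtain ⟨ψ, hψ⟩ := D.E_hom l φ h1
    refine ⟨(-(bm 1 1 ψ ≫ prod.inr _ _) : B 1 D.X ⟶ prod (B 2 (D.E (l + 1))) (B 1 (D.E l))), ?_⟩
    change _ = (-(bm 1 1 ψ ≫ prod.inr _ _)) ≫ D.δ2 l
    rw [Preadditive.neg_comp, Category.assoc, x2_inr_d2, Preadditive.comp_neg, neg_neg,
      ← Category.assoc, bm_comp (adm_refl 1) (adm_refl 1), ← hψ]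

/-- [X3] morphisms from `B 1 X`. PROOF. `adm 1 2` fails, `adm 1 1` holds. `n = 0`: `f : B 1 X ⟶ B 2 _` is `0`. `n = k + 1`: `f = bm 1 1 φ ≫ inr`, `φ : X → E k`, `f ≫ δ (k+2) = -(bm 1 1 (e k ∘ φ) ≫ inr)`, so `e k ∘ φ = 0`. `k = 0`: `φ = 0`
(`e_inj`), `g = 0`. `k = l + 1`: `φ = e l ∘ ψ` (`E_hom l`), `g = -(bm 1 1 ψ ≫ inr)`. -/
theorem exr_X (n : ℕ) (f : B 1 D.X ⟶ D.M (n + 1)) (h : f ≫ D.δ (n + 1) = 0) :
    ∃ g : B 1 D.X ⟶ D.M n, f = g ≫ D.δ n := by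
  match n, f, h with
  | 0, f, h =>
    refine ⟨0, ?_⟩
    rw [Limits.zero_comp]
    change B 1 D.X ⟶ B 2 (Fr K Λ D.p) at f
    exact hom_zero (by decide) f
  | k + 1, f, h =>
    change B 1 D.X ⟶ prod (B 2 (D.E (k + 1))) (B 1 (D.E k)) at f
    change f ≫ D.δ2 k = 0 at h
    have e0 : f ≫ prod.fst _ _ = 0 := hom_zero (by decide) _
    have e1 := x2_dec' f
    rw [e0, Limits.zero_comp, zero_add] at e1
    set φ := un (f ≫ prod.snd _ _) with hφ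
    have e2 : f ≫ prod.snd _ _ = bm 1 1 φ := (bm_un _).symm
    rw [e2] at e1
    have h1 : D.e k ∘ₗ φ = 0 := by
      rw [e1, Category.assoc, x2_inr_d2, Preadditive.comp_neg, ← Category.assoc,
        bm_comp (adm_refl 1) (adm_refl 1), neg_eq_zero] at h
      have h' := congrArg (fun t => t ≫ prod.snd _ _) h
      simp only [Category.assoc, prod.inr_snd, Limits.zero_comp, Category.comp_id] at h'
      rw [← un_bm (adm_refl 1) (D.e k ∘ₗ φ), h', map_zero]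
    obtain ⟨g, hg⟩ := D.x3_lift k φ h1
    exact ⟨g, e1.trans hg⟩

end Dat

end NTC
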