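import Pool.Agent.NTC.X1

/-!
# [NTC-X4] the complex `cxU`: morphisms from a projective test object
-/

set_option autoImplicit false

open CategoryTheory

namespace NTC

namespace Dat

variable {K Λ : Type} [Field K] [Ring Λ] [Algebra K Λ] (D : Dat K Λ)

theorem x4_22 : adm 2 2 := by decide

theorem x4_21 : adm 2 1 := by decide

theorem x4_11 : adm 1 1 := by decide

/-- `π` with values in `E 0` -/
def x4p : (Fr K Λ D.p).T →ₗ[Λ] (D.E 0).T := D.π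

theorem x4_δ1 : D.δ1 = bm (V := Fr K Λ D.p) (W := D.E 1) 2 2 (D.e 0 ∘ₗ D.x4p) ≫ prod.inl _ _ +
    bm (V := Fr K Λ D.p) (W := D.E 0) 2 1 D.x4p ≫ prod.inr _ _ := rfl

theorem x4_δ1_fst : D.δ1 ≫ prod.fst _ _ = bm (V := Fr K Λ D.p) (W := D.E 1) 2 2 (D.e 0 ∘ₗ D.x4p) := by
  rw [x4_δ1, Preadditive.add_comp, Category.assoc, Category.assoc, prod.inl_fst, prod.inr_fst,
    Category.comp_id, Limits.comp_zero, add_zero]

theorem x4_δ1_snd : D.δ1 ≫ prod.snd _ _ = bm (V := Fr K Λ D.p) (W := D.E 0) 2 1 D.x4p := by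
  rw [x4_δ1, Preadditive.add_comp, Category.assoc, Category.assoc, prod.inl_snd, prod.inr_snd,
    Category.comp_id, Limits.comp_zero, zero_add]

theorem x4_δ2_fst (n : ℕ) : D.δ2 n ≫ prod.fst _ _ = prod.fst _ _ ≫ bm 2 2 (D.e (n + 1)) := by
  unfold δ2
  rw [Preadditive.sub_comp, Category.assoc, Category.assoc, Category.assoc, prod.inr_fst,
    Preadditive.add_comp, Category.assoc, Category.assoc, prod.inl_fst, prod.inr_fst]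
  simp

theorem x4_δ2_snd (n : ℕ) : D.δ2 n ≫ prod.snd _ _ =
    prod.fst _ _ ≫ bm 2 1 LinearMap.id - prod.snd _ _ ≫ bm 1 1 (D.e n) := by
  unfold δ2 u
  rw [Preadditive.sub_comp, Category.assoc, Category.assoc, Category.assoc, prod.inr_snd,
    Preadditive.add_comp, Category.assoc, Category.assoc, prod.inl_snd, prod.inr_snd]
  simp

/-- a morphism into the first sum -/
theorem x4_one (b : ZMod 6) (V : Mo K Λ) (f : B b V ⟶ prod (B 2 (D.E 1)) (B 1 (D.E 0)))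
    (g : B b V ⟶ B 2 (Fr K Λ D.p)) (h1 : f ≫ prod.fst _ _ = g ≫ bm 2 2 (D.e 0 ∘ₗ D.x4p))
    (h2 : f ≫ prod.snd _ _ = g ≫ bm 2 1 D.x4p) : f = g ≫ D.δ1 := by
  refine prod.hom_ext ?_ ?_
  · rw [h1, Category.assoc, x4_δ1_fst]
  · rw [h2, Category.assoc, x4_δ1_snd]

/-- a morphism into the other sums -/
theorem x4_two (n : ℕ) (b : ZMod 6) (V : Mo K Λ)
    (f : B b V ⟶ prod (B 2 (D.E (n + 2))) (B 1 (D.E (n + 1))))
    (g1 : B b V ⟶ B 2 (D.E (n + 1))) (g2 : B b V ⟶ B 1 (D.E n))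
    (h1 : f ≫ prod.fst _ _ = g1 ≫ bm 2 2 (D.e (n + 1)))
    (h2 : f ≫ prod.snd _ _ = g1 ≫ bm 2 1 LinearMap.id - g2 ≫ bm 1 1 (D.e n)) :
    f = (g1 ≫ prod.inl _ _ + g2 ≫ prod.inr _ _) ≫ D.δ2 n := by
  have e1 : (g1 ≫ prod.inl _ _ + g2 ≫ prod.inr _ _) ≫ prod.fst _ _ = g1 := by
    rw [Preadditive.add_comp, Category.assoc, Category.assoc, prod.inl_fst, prod.inr_fst,
      Category.comp_id, Limits.comp_zero, add_zero]
  have e2 : (g1 ≫ prod.inl _ _ + g2 ≫ prod.inr _ _) ≫ prod.snd _ _ = g2 := by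
    rw [Preadditive.add_comp, Category.assoc, Category.assoc, prod.inl_snd, prod.inr_snd,
      Category.comp_id, Limits.comp_zero, zero_add]
  refine prod.hom_ext ?_ ?_
  · rw [h1, Category.assoc, x4_δ2_fst, ← Category.assoc, e1]
  · rw [h2, Category.assoc, x4_δ2_snd, Preadditive.comp_sub, ← Category.assoc, ← Category.assoc, e1, e2]

theorem x4_cancel {V : Type} [AddCommGroup V] [Module Λ V] {f g : V →ₗ[Λ] (D.E 0).T}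
    (h : D.e 0 ∘ₗ f = D.e 0 ∘ₗ g) : f = g :=
  LinearMap.ext fun x => D.e_inj (LinearMap.congr_fun h x)

/-- equality of linear maps from equality of morphisms -/
theorem x4_inj {a b : ZMod 6} (hab : adm a b) {V W : Mo K Λ} {φ ψ : V.T →ₗ[Λ] W.T}
    (h : bm a b φ = bm a b ψ) : φ = ψ := by
  rw [← un_bm hab φ, h, un_bm hab ψ]

theorem x4_zero {a b : ZMod 6} (hab : adm a b) {V W : Mo K Λ} {φ : V.T →ₗ[Λ] W.T}
    (h : bm a b φ = 0) : φ = 0 :=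
  x4_inj hab (h.trans (bm_zero a b).symm)

theorem x4_case0 (b : ZMod 6) (V : Mo K Λ) (hV : Module.Projective Λ V.T)
    (f : B b V ⟶ B 2 (Fr K Λ D.p)) (h : f ≫ D.δ1 = 0) :
    ∃ g : B b V ⟶ B 2 (Fr K Λ D.q), f = g ≫ bF K 2 D.d := by
  by_cases hb : adm b 2
  · obtain ⟨φ, rfl⟩ : ∃ φ, f = bm b 2 φ := ⟨un f, (bm_un f).symm⟩
    have h1 : bm b 2 φ ≫ bm 2 2 (D.e 0 ∘ₗ D.x4p) = 0 := by
      rw [← x4_δ1_fst, ← Category.assoc, h, Limits.zero_comp]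
    rw [bm_comp hb x4_22] at h1
    have h2 := x4_zero hb h1
    have h3 : D.x4p ∘ₗ φ = 0 := by
      refine D.x4_cancel ?_
      rw [LinearMap.comp_zero, ← LinearMap.comp_assoc, h2]
    obtain ⟨ψ, hψ⟩ := D.P_proj hV φ h3
    refine ⟨bm b 2 ψ, ?_⟩
    rw [bm_comp hb x4_22, hψ]
  · exact ⟨0, by rw [hom_zero hb f, Limits.zero_comp]⟩

theorem x4_proj (n : ℕ) (b : ZMod 6) (V : Mo K Λ)
    (f : B b V ⟶ prod (B 2 (D.E (n + 1))) (B 1 (D.E n))) (h : f ≫ D.δ2 n = 0) :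
    (f ≫ prod.fst _ _) ≫ bm 2 2 (D.e (n + 1)) = 0 ∧
      (f ≫ prod.fst _ _) ≫ bm 2 1 LinearMap.id = (f ≫ prod.snd _ _) ≫ bm 1 1 (D.e n) := by
  constructor
  · rw [Category.assoc, ← x4_δ2_fst, ← Category.assoc, h, Limits.zero_comp]
  · have h1 : f ≫ (D.δ2 n ≫ prod.snd _ _) = 0 := by rw [← Category.assoc, h, Limits.zero_comp]
    rw [x4_δ2_snd, Preadditive.comp_sub, sub_eq_zero] at h1
    rw [Category.assoc, Category.assoc]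
    exact h1

theorem x4_case1 (b : ZMod 6) (V : Mo K Λ) (hV : Module.Projective Λ V.T)
    (f : B b V ⟶ prod (B 2 (D.E 1)) (B 1 (D.E 0))) (h : f ≫ D.δ2 0 = 0) :
    ∃ g : B b V ⟶ B 2 (Fr K Λ D.p), f = g ≫ D.δ1 := by
  obtain ⟨h1, h2⟩ := D.x4_proj 0 b V f h
  obtain ⟨f1, hf1⟩ : ∃ f1, f1 = f ≫ prod.fst (B 2 (D.E 1)) (B 1 (D.E 0)) := ⟨_, rfl⟩
  obtain ⟨f2, hf2⟩ : ∃ f2, f2 = f ≫ prod.snd (B 2 (D.E 1)) (B 1 (D.E 0)) := ⟨_, rfl⟩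
  rw [← hf1] at h1
  rw [← hf1, ← hf2] at h2
  by_cases hb : adm b 2
  · obtain ⟨φ, hφ⟩ : ∃ φ, f1 = bm b 2 φ := ⟨un f1, (bm_un f1).symm⟩
    rw [hφ, bm_comp hb x4_22] at h1
    obtain ⟨ψ0, h3⟩ := D.E_proj hV 0 φ (x4_zero hb h1)
    obtain ⟨ψ, h4⟩ : ∃ ψ : V.T →ₗ[Λ] (Fr K Λ D.p).T, ψ0 = D.x4p ∘ₗ ψ := D.P_lift hV ψ0
    refine ⟨bm b 2 ψ, D.x4_one b V f _ ?_ ?_⟩
    · rw [← hf1, hφ, bm_comp hb x4_22, h3, h4, LinearMap.comp_assoc]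
    · rw [← hf2]
      by_cases hb1 : adm b 1
      · obtain ⟨φ2, hφ2⟩ : ∃ φ2, f2 = bm b 1 φ2 := ⟨un f2, (bm_un f2).symm⟩
        rw [hφ, hφ2, bm_comp hb x4_21, bm_comp hb1 x4_11] at h2
        have h5 := x4_inj hb1 h2
        rw [LinearMap.id_comp, h3] at h5
        rw [hφ2, bm_comp hb x4_21, ← h4, D.x4_cancel h5]
      · exact (hom_zero hb1 f2).trans (hom_zero hb1 _).symm
  · have hf10 : f1 = 0 := hom_zero hb f1
    refine ⟨0, D.x4_one b V f _ ?_ ?_⟩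
    · rw [← hf1, hf10, Limits.zero_comp]
    · rw [← hf2, Limits.zero_comp]
      by_cases hb1 : adm b 1
      · obtain ⟨φ2, hφ2⟩ : ∃ φ2, f2 = bm b 1 φ2 := ⟨un f2, (bm_un f2).symm⟩
        rw [hf10, hφ2, bm_comp hb1 x4_11, Limits.zero_comp] at h2
        have h5 := x4_zero hb1 h2.symm
        rw [hφ2, D.x4_cancel (f := φ2) (g := 0) (by rw [h5, LinearMap.comp_zero]), bm_zero]
      · exact hom_zero hb1 f2

theorem x4_case2 (n : ℕ) (b : ZMod 6) (V : Mo K Λ) (hV : Module.Projective Λ V.T)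
    (f : B b V ⟶ prod (B 2 (D.E (n + 2))) (B 1 (D.E (n + 1)))) (h : f ≫ D.δ2 (n + 1) = 0) :
    ∃ g : B b V ⟶ prod (B 2 (D.E (n + 1))) (B 1 (D.E n)), f = g ≫ D.δ2 n := by
  obtain ⟨h1, h2⟩ := D.x4_proj (n + 1) b V f h
  obtain ⟨f1, hf1⟩ : ∃ f1, f1 = f ≫ prod.fst (B 2 (D.E (n + 2))) (B 1 (D.E (n + 1))) := ⟨_, rfl⟩
  obtain ⟨f2, hf2⟩ : ∃ f2, f2 = f ≫ prod.snd (B 2 (D.E (n + 2))) (B 1 (D.E (n + 1))) := ⟨_, rfl⟩
  rw [← hf1] at h1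
  rw [← hf1, ← hf2] at h2
  by_cases hb : adm b 2
  · obtain ⟨φ, hφ⟩ : ∃ φ, f1 = bm b 2 φ := ⟨un f1, (bm_un f1).symm⟩
    by_cases hb1 : adm b 1
    · obtain ⟨φ2, hφ2⟩ : ∃ φ2, f2 = bm b 1 φ2 := ⟨un f2, (bm_un f2).symm⟩
      rw [hφ, hφ2, bm_comp hb x4_21, bm_comp hb1 x4_11] at h2
      have h5 := x4_inj hb1 h2
      rw [LinearMap.id_comp] at h5
      refine ⟨_, D.x4_two n b V f (bm b 2 φ2) 0 ?_ ?_⟩
      · rw [← hf1, hφ, bm_comp hb x4_22, h5]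
      · rw [← hf2, hφ2, bm_comp hb x4_21, LinearMap.id_comp, Limits.zero_comp, sub_zero]
    · rw [hφ, bm_comp hb x4_22] at h1
      obtain ⟨ψ, h3⟩ := D.E_proj hV (n + 1) φ (x4_zero hb h1)
      refine ⟨_, D.x4_two n b V f (bm b 2 ψ) 0 ?_ ?_⟩
      · rw [← hf1, hφ, bm_comp hb x4_22, h3]
      · rw [← hf2]
        exact (hom_zero hb1 f2).trans (hom_zero hb1 _).symm
  · have hf10 : f1 = 0 := hom_zero hb f1
    by_cases hb1 : adm b 1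
    · obtain ⟨φ2, hφ2⟩ : ∃ φ2, f2 = bm b 1 φ2 := ⟨un f2, (bm_un f2).symm⟩
      rw [hf10, hφ2, bm_comp hb1 x4_11, Limits.zero_comp] at h2
      obtain ⟨ψ, h3⟩ := D.E_proj hV n φ2 (x4_zero hb1 h2.symm)
      refine ⟨_, D.x4_two n b V f 0 (-bm b 1 ψ) ?_ ?_⟩
      · rw [← hf1, hf10, Limits.zero_comp]
      · rw [← hf2, hφ2, Limits.zero_comp, Preadditive.neg_comp, bm_comp hb1 x4_11, h3, zero_sub, neg_neg]
    · refine ⟨_, D.x4_two n b V f 0 0 ?_ ?_⟩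
      · rw [← hf1, hf10, Limits.zero_comp]
      · rw [← hf2]
        exact (hom_zero hb1 f2).trans (hom_zero hb1 _).symm

/-- [X4] morphisms from `B b V`, `V` projective.
PROOF. `b = 0, 5`: all morphisms are `0`.
`b = 4`: morphisms into `B 1 _` are `0`. `n = 0`: `f = bm 4 2 φ`, `e 0 ∘ π ∘ φ = 0`, `π ∘ φ = 0` (`e_inj`), `φ = d ∘ ψ` (`P_proj`). `n = 1`: `f = bm 4 2 φ ≫ inl`, `e 1 ∘ φ = 0`, `φ = e 0 ∘ ψ₀` (`E_proj 0`), `ψ₀ = π ∘ ψ` (`P_lift`), `g = bm 4 2 ψ`.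
`n = k + 2`: `φ = e (k+1) ∘ ψ`, `g = bm 4 2 ψ ≫ inl`.
`b = 2, 3`: `n = 0`: `f = bm b 2 φ`; `f ≫ δ 1 ≫ snd = bm b 1 (π ∘ φ) = 0`, `φ = d ∘ ψ` (`P_proj`). `n = k + 1`: `f = bm b 2 φ₁ ≫ inl + bm b 1 φ₂ ≫ inr`, `f ≫ δ (k+2) ≫ snd = bm b 1 (φ₁ - e k ∘ φ₂) = 0`, so `φ₁ = e k ∘ φ₂`. `k = 0`: `φ₂ = π ∘ ψ` (`P_lift`),
`g = bm b 2 ψ`. `k = l + 1`: `g = bm b 2 φ₂ ≫ inl`: `g ≫ δ (l+2) = bm b 2 (e (l+1) ∘ φ₂) ≫ inl + bm b 1 φ₂ ≫ inr`.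
`b = 1`: morphisms into `B 2 _` are `0`. `n = 0`: `f = 0`. `n = k + 1`: `f = bm 1 1 φ ≫ inr`, `φ : V → E k`, `e k ∘ φ = 0`. `k = 0`: `φ = 0` (`e_inj`). `k = l + 1`: `φ = e l ∘ ψ` (`E_proj l`), `g = -(bm 1 1 ψ ≫ inr)` (for `l = 0` and `l > 0`; `M (l+2)`). -/
theorem exr_proj (b : ZMod 6) (V : Mo K Λ) (hV : Module.Projective Λ V.T) (n : ℕ)
    (f : B b V ⟶ D.M (n + 1)) (h : f ≫ D.δ (n + 1) = 0) :
    ∃ g : B b V ⟶ D.M n, f = g ≫ D.δ n := by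
  match n, f, h with
  | 0, f, h => exact D.x4_case0 b V hV f h
  | 1, f, h => exact D.x4_case1 b V hV f h
  | n + 2, f, h => exact D.x4_case2 n b V hV f h

end Dat

end NTC
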