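import Pool.Agent.NTC.X2
import Pool.Agent.NTC.X3
import Pool.Agent.NTC.X4
import Pool.Agent.NTC.G4b
import Pool.Agent.NTC.G3a

/-!
# [NTC-P1a] the algebra `End N`: first properties
-/

set_option autoImplicit false

open CategoryTheory

namespace NTC

namespace Dat

variable {K Λ : Type} [Field K] [Ring Λ] [Algebra K Λ] (D : Dat K Λ)

theorem fdS (j : J) : FiniteDimensional K (D.mo j).T := by
  match j with
  | Sum.inl _ => exact D.fd
  | Sum.inr false => exact D.fdX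
  | Sum.inr true => exact D.fdU

theorem fdN : FiniteDimensional K (End D.N) :=
  finiteDimensional_end _ (pi.finiteDimensional D.S fun j => D.fdS j)

theorem N_inAdd (j : J) : InAddC (D.S j) D.N := pi.inAdd D.S j

/-- [P1] (`bm_inAdd`) -/
theorem N_inAdd' (b : ZMod 6) (V : Mo K Λ) (hV : InAdd Λ V.T Λ) : InAddC (B b V) D.N :=
  (bm_inAdd (W := Mo.of K Λ Λ) hV b).trans (D.N_inAdd (Sum.inl b))

theorem N_X : InAddC (B 1 D.X) D.N := D.N_inAdd (Sum.inr false)

theorem N_U : InAddC (B 0 D.U) D.N := D.N_inAdd (Sum.inr true)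

theorem M_inAdd (n : ℕ) : InAddC (D.M n) D.N := by
  match n with
  | 0 => exact D.N_inAdd' 2 (Fr K Λ D.q) (InAdd.pi D.q)
  | 1 => exact D.N_inAdd' 2 (Fr K Λ D.p) (InAdd.pi D.p)
  | 2 => exact prod.inAdd (D.N_inAdd' 2 (D.E 1) (D.E_inAdd 0)) D.N_X
  | n + 3 =>
    exact prod.inAdd (D.N_inAdd' 2 (D.E (n + 2)) (D.E_inAdd (n + 1)))
      (D.N_inAdd' 1 (D.E (n + 1)) (D.E_inAdd n))

/-- [P1] a complex passes the test at `N` if it passes the tests at the summands (`Cx.Test.of_sum`, `pi.total`) -/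
theorem test_N {Y : Gr K Λ} (C : Cx K Y) (h : ∀ j, C.Test (D.S j)) : C.Test D.N :=
  Cx.Test.of_sum C D.S (pi.inj D.S) (pi.proj D.S) (pi.total D.S) h

end Dat

end NTC
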