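import Pool.Agent.NTC.X2
import Pool.Agent.NTC.X3
import Pool.Agent.NTC.X4
import Pool.Agent.NTC.G4b

/-!
# [NTC-P1b] the complex `cxU` passes the tests
-/

set_option autoImplicit false

open CategoryTheory

namespace NTC

namespace Dat

variable {K Λ : Type} [Field K] [Ring Λ] [Algebra K Λ] (D : Dat K Λ)

theorem p1b_fd (j : J) : FiniteDimensional K (D.mo j).T := by
  rcases j with b | (_ | _)
  · exact D.fd
  · exact D.fdX
  · exact D.fdU

theorem p1b_exl (j : J) (n : ℕ) (f : D.M (n + 1) ⟶ D.S j) (h : D.δ n ≫ f = 0) :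
    ∃ g : D.M (n + 2) ⟶ D.S j, f = D.δ (n + 1) ≫ g := by
  rcases j with b | (_ | _)
  · by_cases hb : b = 0
    · exact D.exl_01 b (Or.inl hb) (Mo.of K Λ Λ) n f h
    · by_cases hb' : b = 1
      · exact D.exl_01 b (Or.inr hb') (Mo.of K Λ Λ) n f h
      · exact D.exl_inj b hb hb' (Mo.of K Λ Λ) D.inj n f h
  · exact D.exl_01 1 (Or.inr rfl) D.X n f h
  · exact D.exl_01 0 (Or.inl rfl) D.U n f h

theorem p1b_exr (j : J) (n : ℕ) (f : D.S j ⟶ D.M (n + 1)) (h : f ≫ D.δ (n + 1) = 0) :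
    ∃ g : D.S j ⟶ D.M n, f = g ≫ D.δ n := by
  rcases j with b | (_ | _)
  · exact D.exr_proj b (Mo.of K Λ Λ) (inferInstance : Module.Projective Λ Λ) n f h
  · exact D.exr_X n f h
  · exact D.exr_0 D.U n f h

/-- [P1] (`X2`, `X3`, `X4`, `test_ker`, `test_surj`; cases `j = inl b`, `inr false`, `inr true`; `Λ` is injective and projective) -/
theorem cxU_test (j : J) : D.cxU.Test (D.S j) where
  ker g h0 := test_ker D.d D.jU (s := 2) (a := 0) (by decide) D.jU_inj D.jU_range (at' j)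
    (V := D.mo j) g h0
  surj ξ := test_surj D.jU (s := 2) (a := 0) (by decide) D.jU_inj (at' j)
    (V := D.mo j) (D.p1b_fd j) ξ
  exl n f h := D.p1b_exl j n f h
  exr n f h := D.p1b_exr j n f h

end Dat

end NTC
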