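import Pool.Agent.NTC.X2
import Pool.Agent.NTC.X3
import Pool.Agent.NTC.X4
import Pool.Agent.NTC.G4b

/-!
# [NTC-P1c] the complex for `B 1 X`
-/

set_option autoImplicit false

open CategoryTheory

namespace NTC

namespace Dat

variable {K Λ : Type} [Field K] [Ring Λ] [Algebra K Λ] (D : Dat K Λ)

/-- the complex for `B 1 X` -/
def cxX : Cx K (B 1 D.X) :=
  cxA (s := 3) (a := 1) (by decide) D.m D.c D.c_comp D.X D.jX D.jX_range.le

/-- [P1] (`cxA_test`; `hl`: `c_inj` for `Λ`, `chom` for `X`, `adm 3 0` is false; `hr'`: `c_proj` for `Λ`, `adm 1 3` and `adm 0 3` are false) -/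
theorem cxX_test (j : J) : D.cxX.Test (D.S j) := by
  have key : ∀ (b : ZMod 6) (V : Mo K Λ), FiniteDimensional K V.T →
      (adm 3 b → ∀ n (f : (Fin (D.m (n + 1)) → Λ) →ₗ[Λ] V.T), f ∘ₗ D.c n = 0 →
        ∃ g : (Fin (D.m (n + 2)) → Λ) →ₗ[Λ] V.T, f = g ∘ₗ D.c (n + 1)) →
      (adm b 3 → ∀ n (f : V.T →ₗ[Λ] (Fin (D.m (n + 1)) → Λ)), D.c (n + 1) ∘ₗ f = 0 →
        ∃ g : V.T →ₗ[Λ] (Fin (D.m n) → Λ), f = D.c n ∘ₗ g) → D.cxX.Test (B b V) :=
    fun b V hV hl hr' => cxA_test (s := 3) (a := 1) (by decide) D.m D.c D.c_comp D.X D.jX D.jX_inj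
      D.jX_range b V hV hl hr'
  rcases j with b | (_ | _)
  · refine key b (Mo.of K Λ Λ) D.fd (fun _ n f h => ?_) (fun _ n f h => ?_)
    · exact D.c_inj D.inj n f h
    · exact D.c_proj inferInstance n f h
  · refine key 1 D.X D.fdX (fun _ n f h => D.chom n f h) (fun h => ?_)
    exact absurd h (by decide)
  · refine key 0 D.U D.fdU (fun h => ?_) (fun h => ?_)
    · exact absurd h (by decide)
    · exact absurd h (by decide)

end Dat

end NTC
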