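import Pool.Agent.NTC.P1a
import Pool.Agent.NTC.G3b

/-!
# [NTC-P1d] the dual of `N ⟶ B b DD`
-/

set_option autoImplicit false

open CategoryTheory

namespace NTC

namespace Dat

variable {K Λ : Type} [Field K] [Ring Λ] [Algebra K Λ] (D : Dat K Λ)

/-- the ranks `1, 0, 0, ...` -/
def p1d_m : ℕ → ℕ
  | 0 => 1
  | _ + 1 => 0

/-- the diagonal map -/
def p1d_j (K Λ : Type) [Field K] [Ring Λ] [Algebra K Λ] :
    DD K Λ →ₗ[Λ] (Fin (p1d_m 0) → DD K Λ) := LinearMap.pi fun _ => LinearMap.id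

theorem p1d_inj : Function.Injective (p1d_j K Λ) := by
  intro x y h
  exact congrFun h (0 : Fin 1)

theorem p1d_range (d : (Fin (p1d_m 0) → Λ) →ₗ[Λ] (Fin (p1d_m 1) → Λ)) :
    LinearMap.range (p1d_j K Λ) = LinearMap.ker (nu K d) := by
  have h1 : LinearMap.ker (nu K d) = ⊤ := by
    rw [eq_top_iff]
    intro x _
    rw [LinearMap.mem_ker]
    funext i
    exact Fin.elim0 i
  have h2 : LinearMap.range (p1d_j K Λ) = ⊤ := by
    rw [LinearMap.range_eq_top]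
    intro x
    refine ⟨x (0 : Fin 1), ?_⟩
    funext i
    have h3 : i = (0 : Fin 1) := Subsingleton.elim (α := Fin 1) _ _
    rw [h3]
    rfl
  rw [h1, h2]

/-- the trivial complex -/
def p1d_cx (K Λ : Type) [Field K] [Ring Λ] [Algebra K Λ] (b : ZMod 6) :
    Cx K (B b (Mo.of K Λ (DD K Λ))) :=
  cxA (s := b + 2) (a := b) rfl p1d_m (fun _ => 0) (fun _ => LinearMap.comp_zero _)
    (Mo.of K Λ (DD K Λ)) (p1d_j K Λ) (p1d_range 0).le

/-- [P1] the dual of `N ⟶ B b DD`.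
PROOF. `cxA` with `s = b + 2`, `a = b`, `m 0 = 1`, `m (n+1) = 0`, `c n = 0`, `U = Mo.of K Λ (DD K Λ)`, `j ξ = fun _ => ξ` (`ker (nu 0) = ⊤`); `cxA_test`: `hl`, `hr'` are trivial as `Fin 0 → Λ` has one element (`Subsingleton`); `ev_LL`. -/
theorem ev_b [HasExt.{1} (ModuleCat.{0} (End D.N))] (b : ZMod 6) :
    EV (End D.N) (LL K D.N (B b (Mo.of K Λ (DD K Λ)))) (End D.N) := by
  refine ev_LL (p1d_cx K Λ b) (fun n => ?_) (D.test_N _ fun j => ?_)
  · exact D.N_inAdd' (b + 2) (Fr K Λ (p1d_m n)) (InAdd.pi (p1d_m n))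
  · refine cxA_test (s := b + 2) (a := b) rfl p1d_m (fun _ => 0) (fun _ => LinearMap.comp_zero _)
      (Mo.of K Λ (DD K Λ)) (p1d_j K Λ) p1d_inj (p1d_range 0) (at' j) (D.mo j) (D.fdS j) ?_ ?_
    · intro _ n f _
      refine ⟨0, ?_⟩
      rw [LinearMap.zero_comp]
      ext i
      exact Fin.elim0 i
    · intro _ n f _
      refine ⟨0, ?_⟩
      rw [LinearMap.comp_zero]
      ext x i
      exact Fin.elim0 i

end Dat

end NTC
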