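import Pool.Agent.NTC.P1b
import Pool.Agent.NTC.P1c
import Pool.Agent.NTC.P1d
import Pool.Agent.NTC.G3

/-!
# [NTC-P1e] `TVan` for `End N`
-/

set_option autoImplicit false

open CategoryTheory

namespace NTC

namespace Dat

variable {K Λ : Type} [Field K] [Ring Λ] [Algebra K Λ] (D : Dat K Λ)

/-- [P1] PROOF. `tvan_of_cx` with `S = D.S`; `inl b`: `Λ ∈ add DD` (`inAdd_of_injective`), `bm_inAdd`, `InAddC.LL`, `EV.add_left`, `ev_b`; `inr false`: `ev_LL` with `cxX`, `inr true`: `ev_LL` with `cxU`. -/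
theorem tvan_N [HasExt.{1} (ModuleCat.{0} (End D.N))] : TVan (End D.N) := by
  refine tvan_of_cx D.fdN D.S (fun j => pi.inj D.S j) (fun j => pi.proj D.S j) (pi.total D.S) ?_
  intro j
  rcases j with b | j
  · have h1 : InAdd Λ Λ (DD K Λ) := inAdd_of_injective D.fd Λ inferInstance D.inj
    have h2 : InAddC (B b (Mo.of K Λ Λ)) (B b (Mo.of K Λ (DD K Λ))) := bm_inAdd h1 b
    exact (D.ev_b b).add_left (h2.LL D.N)
  · cases j
    · refine ev_LL D.cxX ?_ (D.test_N D.cxX D.cxX_test)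
      intro n
      exact D.N_inAdd' _ _ ((InAdd.refl Λ Λ).pi' _)
    · exact ev_LL D.cxU D.M_inAdd (D.test_N D.cxU D.cxU_test)

end Dat

end NTC
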