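import Pool.Agent.NTC.P1a

/-!
# [NTC-P2a] injectivity of `(B b Λ^n ⟶ N)`
-/

set_option autoImplicit false

open CategoryTheory

namespace NTC

/-- a perfect pairing, tested at the summands of `N` -/
theorem p2a_gen {K : Type} [Field K] {𝒟 : Type 1} [Category.{0} 𝒟] [Preadditive 𝒟] [Linear K 𝒟]
    {M₁ M₂ N : 𝒟} {J : Type} [Fintype J] (S : J → 𝒟) (ι : ∀ j, S j ⟶ N) (π : ∀ j, N ⟶ S j)
    (h : ∑ j, π j ≫ ι j = 𝟙 N) (hM : InAddC M₂ N) (θ : (M₁ ⟶ M₂) →ₗ[K] K)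
    (h0 : ∀ j (g : M₁ ⟶ S j), (∀ f : S j ⟶ M₂, θ (g ≫ f) = 0) → g = 0)
    (h1 : ∀ j (ξ : (S j ⟶ M₂) →ₗ[K] K), ∃ g : M₁ ⟶ S j, ∀ f, ξ f = θ (g ≫ f)) :
    Module.Injective (End N) (M₁ ⟶ N) := by
  refine inj_of_pairing hM θ ?_ ?_
  · intro g hg
    have h2 : ∀ i : J, g ≫ π i = 0 := by
      intro i
      apply h0 i
      intro f
      rw [Category.assoc]
      exact hg _
    rw [← Category.comp_id g, ← h, Preadditive.comp_sum]
    refine Finset.sum_eq_zero fun i _ => ?_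
    rw [← Category.assoc, h2 i, Limits.zero_comp]
  · intro ξ
    have h2 : ∀ i : J, ∃ g : M₁ ⟶ S i, ∀ f : S i ⟶ M₂, ξ (π i ≫ f) = θ (g ≫ f) :=
      fun i => h1 i (ξ ∘ₗ Linear.leftComp K M₂ (π i))
    choose g hg using h2
    refine ⟨∑ j, g j ≫ ι j, fun f => ?_⟩
    have h4 : ξ f = ξ ((∑ j, π j ≫ ι j) ≫ f) := by rw [h, Category.id_comp]
    rw [h4, Preadditive.sum_comp, Preadditive.sum_comp, map_sum, map_sum]
    refine Finset.sum_congr rfl fun j _ => ?_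
    rw [Category.assoc, Category.assoc]
    exact hg j (ι j ≫ f)

theorem p2a_range (K Λ : Type) [Field K] [Ring Λ] [Algebra K Λ] (n : ℕ) :
    LinearMap.range (LinearMap.id : (Fin n → DD K Λ) →ₗ[Λ] (Fin n → DD K Λ)) =
      LinearMap.ker (nu K (0 : (Fin n → Λ) →ₗ[Λ] (Fin 0 → Λ))) := by
  rw [LinearMap.range_id]
  symm
  rw [eq_top_iff]
  intro x _
  rw [LinearMap.mem_ker]
  funext k
  exact k.elim0

namespace Dat

variable {K Λ : Type} [Field K] [Ring Λ] [Algebra K Λ] (D : Dat K Λ)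

/-- [P2] PROOF. `inj_of_pairing` with `M₁ = B b Λ^n`, `M₂ = B (b - 2) DD^n` (`∈ add N` by `N_inAdd'`, `D.dd`, `InAdd.pi'`) and `θ = th id ∘ un`: `h0`, `h1`: it is enough to test at the summands `D.S i` of `N`
(`pi.total`; as in `Cx.Test.of_sum`), where they are `test_ker`, `test_surj` with `d = 0 : Λ^n → Λ^0`, `j = id : DD^n → DD^n` (`ker (nu 0) = ⊤`; `g = bF 0 ≫ h = 0`). -/
theorem inj_B (b : ZMod 6) (n : ℕ) : Module.Injective (End D.N) (B b (Fr K Λ n) ⟶ D.N) := by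
  have hs : b = b - 2 + 2 := (sub_add_cancel b 2).symm
  have hM : InAddC (B (b - 2) (Dn K Λ n)) D.N :=
    D.N_inAdd' (b - 2) (Dn K Λ n) (D.dd.pi' n)
  refine p2a_gen D.S (pi.inj D.S) (pi.proj D.S) (pi.total D.S) hM
    (th (LinearMap.id : (Dn K Λ n).T →ₗ[Λ] (Fin n → DD K Λ)) ∘ₗ un) ?_ ?_
  · intro i g hg
    obtain ⟨h, hh⟩ := test_ker (0 : (Fin n → Λ) →ₗ[Λ] (Fin 0 → Λ))
      (U := Dn K Λ n) (LinearMap.id : (Dn K Λ n).T →ₗ[Λ] (Fin n → DD K Λ)) hs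
      Function.injective_id (p2a_range K Λ n) (at' i) (V := D.mo i) g hg
    refine hh.trans ?_
    rw [bF, bm_zero]
    exact Limits.zero_comp
  · intro i ξ
    exact test_surj (U := Dn K Λ n) (LinearMap.id : (Dn K Λ n).T →ₗ[Λ] (Fin n → DD K Λ)) hs
      Function.injective_id (at' i) (V := D.mo i) (D.fdS i) ξ

end Dat

end NTC
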