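import Pool.Agent.NTC.R
import Pool.Agent.NTC.C0

/-!
# [NTC-Q0] the inverse Nakayama functor `NN M = Hom_Λ(D(Λ), M)` (no row: definitions, complete)
-/

set_option autoImplicit false

namespace NTC

variable {K Λ : Type} [Field K] [Ring Λ] [Algebra K Λ]

/-- right multiplication: `(ξ · a) (x) = ξ (a x)` -/
def rmul (K : Type) {Λ : Type} [Field K] [Ring Λ] [Algebra K Λ] (a : Λ) : DD K Λ →ₗ[Λ] DD K Λ where
  toFun ξ := ⟨ξ.toFun ∘ₗ LinearMap.mulLeft K a⟩
  map_add' ξ η := by ext x; simp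
  map_smul' b ξ := by ext x; simp [mul_assoc]

@[simp] theorem rmul_apply (a : Λ) (ξ : DD K Λ) (x : Λ) : (rmul K a ξ).toFun x = ξ.toFun (a * x) := rfl

/-- `Hom_Λ(D(Λ), M)` as a left `Λ`-module -/
structure NN (K Λ M : Type) [Field K] [Ring Λ] [Algebra K Λ] [AddCommGroup M] [Module Λ M] where
  /-- the linear map -/
  toFun : DD K Λ →ₗ[Λ] M

namespace NN

variable {M : Type} [AddCommGroup M] [Module Λ M]

@[ext] theorem ext' {f g : NN K Λ M} (h : ∀ x, f.toFun x = g.toFun x) : f = g := by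
  cases f; cases g
  congr
  exact LinearMap.ext h

/-- the equivalence with the linear maps -/
def eq : NN K Λ M ≃ (DD K Λ →ₗ[Λ] M) where
  toFun := NN.toFun
  invFun := NN.mk
  left_inv _ := rfl
  right_inv _ := rfl

instance : AddCommGroup (NN K Λ M) := eq.addCommGroup

@[simp] theorem add_toFun (f g : NN K Λ M) : (f + g).toFun = f.toFun + g.toFun := rfl
@[simp] theorem zero_toFun : (0 : NN K Λ M).toFun = 0 := rfl

instance : SMul Λ (NN K Λ M) := ⟨fun a f => ⟨f.toFun ∘ₗ rmul K a⟩⟩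

@[simp] theorem smul_toFun (a : Λ) (f : NN K Λ M) (ξ : DD K Λ) :
    (a • f).toFun ξ = f.toFun (rmul K a ξ) := rfl

instance : Module Λ (NN K Λ M) where
  one_smul f := by
    ext ξ
    simp only [smul_toFun]
    congr 1
    ext x
    simp
  mul_smul a b f := by
    ext ξ
    simp only [smul_toFun]
    congr 1
    ext x
    simp [mul_assoc]
  smul_zero a := by ext x; simp
  smul_add a f g := by ext x; simp
  add_smul a b f := by
    ext ξ
    simp only [smul_toFun, add_toFun, LinearMap.add_apply]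
    rw [← map_add]
    congr 1
    ext x
    simp [add_mul]
  zero_smul f := by
    ext ξ
    simp only [smul_toFun, zero_toFun, LinearMap.zero_apply]
    rw [← map_zero f.toFun]
    congr 1
    ext x
    simp

end NN

/-- functoriality -/
def nnMap (K : Type) {Λ M M' : Type} [Field K] [Ring Λ] [Algebra K Λ] [AddCommGroup M] [Module Λ M]
    [AddCommGroup M'] [Module Λ M'] (f : M →ₗ[Λ] M') : NN K Λ M →ₗ[Λ] NN K Λ M' where
  toFun g := ⟨f ∘ₗ g.toFun⟩
  map_add' g h := by ext x; simp
  map_smul' a g := by ext x; simp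

@[simp] theorem nnMap_apply {M M' : Type} [AddCommGroup M] [Module Λ M]
    [AddCommGroup M'] [Module Λ M'] (f : M →ₗ[Λ] M') (g : NN K Λ M) (ξ : DD K Λ) :
    (nnMap K f g).toFun ξ = f (g.toFun ξ) := rfl

/-- the trace ideal -/
def tr (Λ P : Type) [Ring Λ] [AddCommGroup P] [Module Λ P] : Submodule Λ Λ :=
  ⨆ f : P →ₗ[Λ] Λ, LinearMap.range f

end NTC
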