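import Pool.Agent.NTC.Q0

/-!
# [NTC-Q1c] trace ideals
-/

set_option autoImplicit false

namespace NTC

variable {K Λ : Type} [Field K] [Ring Λ] [Algebra K Λ]
variable {M M' : Type} [AddCommGroup M] [Module Λ M] [AddCommGroup M'] [Module Λ M']

/-- [Q1] -/
theorem tr_mono (h : InAdd Λ M M') : tr Λ M ≤ tr Λ M' := by
  obtain ⟨n, i, r, hir⟩ := h
  unfold tr
  refine iSup_le fun f => ?_
  rintro _ ⟨x, rfl⟩
  have hx : x = ∑ k, r k (i k x) := by
    have := LinearMap.congr_fun hir x
    simpa using this.symm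
  rw [hx, map_sum]
  refine Submodule.sum_mem _ fun k _ => ?_
  exact Submodule.mem_iSup_of_mem (f ∘ₗ r k) ⟨i k x, rfl⟩

/-- [Q1] PROOF. `M` is generated by the images of the maps `M' → M` (`inAdd_of_generate`): let `x : M`, `(b, φ)` a dual basis of `M` (`InAdd Λ M Λ` gives `x = ∑ φ_k x • b_k`, `φ_k : M → Λ`). `φ_k x ∈ tr M ≤ tr M'` is a sum of elements
`f y`, `f : M' → Λ`, `y : M'`, and `f y • b_k` is the value at `y` of the map `M' → M`, `y ↦ f y • b_k`. -/
theorem inAdd_of_tr (hM : InAdd Λ M Λ) (h : tr Λ M ≤ tr Λ M') : InAdd Λ M M' := by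
  have hP : Module.Projective Λ M := InAdd.projective hM inferInstance
  have hF : Module.Finite Λ M := InAdd.finite hM inferInstance
  obtain ⟨n, i, r, hir⟩ := hM
  refine inAdd_of_generate hP hF fun x => ?_
  have key : ∀ (m : M) (c : Λ), c ∈ tr Λ M' → c • m ∈ ⨆ f : M' →ₗ[Λ] M, LinearMap.range f := by
    intro m c hc
    have h1 : c • m ∈ Submodule.map (LinearMap.toSpanSingleton Λ M m) (tr Λ M') :=
      ⟨c, hc, by simp⟩
    unfold tr at h1
    rw [Submodule.map_iSup] at h1
    refine (iSup_le fun f => ?_ : (⨆ f : M' →ₗ[Λ] Λ,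
      Submodule.map (LinearMap.toSpanSingleton Λ M m) (LinearMap.range f)) ≤ _) h1
    rw [← LinearMap.range_comp]
    exact le_iSup (fun f : M' →ₗ[Λ] M => LinearMap.range f)
      (LinearMap.toSpanSingleton Λ M m ∘ₗ f)
  have hx : x = ∑ k, i k x • r k 1 := by
    have := LinearMap.congr_fun hir x
    simp only [LinearMap.sum_apply, LinearMap.comp_apply, LinearMap.id_apply] at this
    rw [← this]
    refine Finset.sum_congr rfl fun k _ => ?_
    have h2 : r k (i k x • (1 : Λ)) = i k (∑ k, r k (i k x)) • r k 1 := by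
      rw [map_smul, this]
    rw [← h2, smul_eq_mul, mul_one]
  rw [hx]
  refine Submodule.sum_mem _ fun k _ => key _ _ (h ?_)
  exact Submodule.mem_iSup_of_mem (i k) ⟨x, rfl⟩

end NTC
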