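import Pool.Agent.NTC.Q0

/-!
# [NTC-Q1a] the inverse Nakayama functor: `D(Λ)`
-/

set_option autoImplicit false

namespace NTC

variable {K Λ : Type} [Field K] [Ring Λ] [Algebra K Λ]
variable {M M' : Type} [AddCommGroup M] [Module Λ M] [AddCommGroup M'] [Module Λ M']

/-- evaluation as an additive map -/
def q1a_ev (ξ : DD K Λ) : NN K Λ M →+ M where
  toFun f := f.toFun ξ
  map_zero' := rfl
  map_add' _ _ := rfl

theorem q1a_ev_apply (ξ : DD K Λ) (f : NN K Λ M) : q1a_ev ξ f = f.toFun ξ := rfl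

/-- [Q1] -/
theorem InAdd.nn (h : InAdd Λ M M') : InAdd Λ (NN K Λ M) (NN K Λ M') := by
  obtain ⟨n, i, r, hir⟩ := h
  refine ⟨n, fun k => nnMap K (i k), fun k => nnMap K (r k), ?_⟩
  apply LinearMap.ext
  intro g
  apply NN.ext'
  intro ξ
  rw [← q1a_ev_apply, LinearMap.sum_apply, map_sum, LinearMap.id_apply]
  have h1 := LinearMap.congr_fun hir (g.toFun ξ)
  rw [LinearMap.sum_apply, LinearMap.id_apply] at h1
  exact h1

/-- `a ↦ rmul a` -/
def q1a_e (K Λ : Type) [Field K] [Ring Λ] [Algebra K Λ] : Λ →ₗ[Λ] NN K Λ (DD K Λ) where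
  toFun a := ⟨rmul K a⟩
  map_add' a b := by
    apply NN.ext'
    intro ξ
    apply DD.ext'
    intro x
    show ξ.toFun ((a + b) * x) = ξ.toFun (a * x) + ξ.toFun (b * x)
    rw [add_mul, map_add]
  map_smul' a b := by
    apply NN.ext'
    intro ξ
    apply DD.ext'
    intro x
    show ξ.toFun ((a * b) * x) = ξ.toFun (a * (b * x))
    rw [mul_assoc]

theorem q1a_bij (hfd : FiniteDimensional K Λ) : Function.Bijective (q1a_e K Λ) := by
  constructor
  · intro a b h
    have h1 : ∀ φ : Module.Dual K Λ, φ a = φ b := by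
      intro φ
      have h2 : ((q1a_e K Λ a).toFun ⟨φ⟩).toFun 1 = ((q1a_e K Λ b).toFun ⟨φ⟩).toFun 1 := by rw [h]
      have h3 : φ (a * 1) = φ (b * 1) := h2
      rwa [mul_one, mul_one] at h3
    have h2 : ∀ φ : Module.Dual K Λ, φ (a - b) = 0 := by
      intro φ
      rw [map_sub, h1, sub_self]
    exact sub_eq_zero.1 ((Module.forall_dual_apply_eq_zero_iff K _).1 h2)
  · intro F
    let Φ : Module.Dual K (Module.Dual K Λ) :=
      { toFun := fun φ => (F.toFun ⟨φ⟩).toFun 1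
        map_add' := by
          intro φ ψ
          have h : (⟨φ + ψ⟩ : DD K Λ) = ⟨φ⟩ + ⟨ψ⟩ := rfl
          rw [h, map_add]
          rfl
        map_smul' := by
          intro c φ
          have h : (⟨c • φ⟩ : DD K Λ) = c • ⟨φ⟩ := rfl
          rw [h, LinearMap.map_smul_of_tower]
          rfl }
    refine ⟨(Module.evalEquiv K Λ).symm Φ, ?_⟩
    apply NN.ext'
    intro ξ
    apply DD.ext'
    intro x
    show ξ.toFun ((Module.evalEquiv K Λ).symm Φ * x) = (F.toFun ξ).toFun x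
    have h1 : (x • F.toFun ξ).toFun 1 = (F.toFun ξ).toFun x := by
      rw [DD.smul_toFun, one_mul]
    have h2 : (x • F.toFun ξ).toFun 1 = Φ (x • ξ).toFun := by
      rw [← map_smul]
      rfl
    have h3 : Φ (x • ξ).toFun = (x • ξ).toFun ((Module.evalEquiv K Λ).symm Φ) := by
      conv_lhs => rw [← (Module.evalEquiv K Λ).apply_symm_apply Φ]
      rfl
    rw [← h1, h2, h3, DD.smul_toFun]

/-- [Q1] PROOF. `a ↦ rmul a` is an isomorphism `Λ ≃ NN (DD)`: every `Λ`-linear map `F : DD → DD` is `rmul c` for a unique `c`: the linear form `ξ ↦ (F ξ) 1` on the dual of the finite-dimensional space `Λ` is the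
evaluation at some `c` and `(F ξ) x = (x • F ξ) 1 = (F (x • ξ)) 1 = (x • ξ) c = ξ (c x)`. `(a • rmul c) ξ = rmul c (rmul a ξ) = (x ↦ ξ (a c x))`. -/
theorem nn_dd (hfd : FiniteDimensional K Λ) :
    InAdd Λ (NN K Λ (DD K Λ)) Λ ∧ InAdd Λ Λ (NN K Λ (DD K Λ)) := by
  have e : Λ ≃ₗ[Λ] NN K Λ (DD K Λ) := LinearEquiv.ofBijective (q1a_e K Λ) (q1a_bij hfd)
  exact ⟨InAdd.of_equiv e.symm, InAdd.of_equiv e⟩

end NTC
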