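import Pool.Agent.NTC.Q1a

/-!
# [NTC-Q1b] the inverse Nakayama functor is fully faithful on `add D(Λ)`
-/

set_option autoImplicit false

namespace NTC

variable {K Λ : Type} [Field K] [Ring Λ] [Algebra K Λ]
variable {M M' : Type} [AddCommGroup M] [Module Λ M] [AddCommGroup M'] [Module Λ M']

/-- every endomorphism of `D(Λ)` is a right multiplication -/
theorem q1b_rmul (hfd : FiniteDimensional K Λ) (F : DD K Λ →ₗ[Λ] DD K Λ) :
    ∃ c : Λ, F = rmul K c := by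
  let g : Module.Dual K (Module.Dual K Λ) :=
    { toFun := fun ξ => (F ⟨ξ⟩).toFun 1
      map_add' := by
        intro ξ η
        have h : (⟨ξ + η⟩ : DD K Λ) = ⟨ξ⟩ + ⟨η⟩ := rfl
        rw [h, map_add]
        rfl
      map_smul' := by
        intro c ξ
        have h : (⟨c • ξ⟩ : DD K Λ) = (algebraMap K Λ c) • (⟨ξ⟩ : DD K Λ) := by
          ext x
          change c • ξ x = ξ (x * algebraMap K Λ c)
          rw [← Algebra.commutes, ← Algebra.smul_def, map_smul]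
        rw [h, map_smul]
        change (F ⟨ξ⟩).toFun (1 * algebraMap K Λ c) = c • (F ⟨ξ⟩).toFun 1
        rw [← Algebra.commutes, ← Algebra.smul_def, map_smul] }
  refine ⟨(Module.evalEquiv K Λ).symm g, ?_⟩
  have hg : ∀ ξ : Module.Dual K Λ, ξ ((Module.evalEquiv K Λ).symm g) = g ξ := by
    intro ξ
    have h := LinearMap.congr_fun ((Module.evalEquiv K Λ).apply_symm_apply g) ξ
    exact h
  refine LinearMap.ext fun ξ => ?_
  ext x
  have h1 : (F ξ).toFun x = (x • F ξ).toFun 1 := by simp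
  rw [h1, ← map_smul, rmul_apply]
  have h2 := hg (x • ξ).toFun
  change _ = (F (x • ξ)).toFun 1 at h2
  rw [← h2]
  rfl

/-- the additive homomorphism `NN M → Hom(DD, M)` -/
def q1b_hom (K Λ M : Type) [Field K] [Ring Λ] [Algebra K Λ] [AddCommGroup M] [Module Λ M] :
    NN K Λ M →+ (DD K Λ →ₗ[Λ] M) where
  toFun := NN.toFun
  map_zero' := rfl
  map_add' _ _ := rfl

/-- the homomorphism `f ↦ nnMap f` -/
def q1b_map (K : Type) {Λ M M' : Type} [Field K] [Ring Λ] [Algebra K Λ] [AddCommGroup M]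
    [Module Λ M] [AddCommGroup M'] [Module Λ M'] :
    (M →ₗ[Λ] M') →+ (NN K Λ M →ₗ[Λ] NN K Λ M') where
  toFun := nnMap K
  map_zero' := rfl
  map_add' _ _ := rfl

theorem q1b_comp {M'' : Type} [AddCommGroup M''] [Module Λ M''] (g : M' →ₗ[Λ] M'')
    (f : M →ₗ[Λ] M') : nnMap K (g ∘ₗ f) = nnMap K g ∘ₗ nnMap K f := rfl

theorem q1b_id : nnMap K (LinearMap.id : M →ₗ[Λ] M) = LinearMap.id := rfl

theorem q1b_sum {n : ℕ} (f : Fin n → (M →ₗ[Λ] M')) :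
    nnMap K (∑ k, f k) = ∑ k, nnMap K (f k) := map_sum (q1b_map K) f Finset.univ

theorem q1b_comp_sum {P Q R : Type} [AddCommGroup P] [Module Λ P] [AddCommGroup Q] [Module Λ Q]
    [AddCommGroup R] [Module Λ R] {n : ℕ} (g : Q →ₗ[Λ] R) (f : Fin n → (P →ₗ[Λ] Q)) :
    g ∘ₗ ∑ k, f k = ∑ k, g ∘ₗ f k := by
  refine LinearMap.ext fun x => ?_
  simp [LinearMap.sum_apply, map_sum]

/-- [Q1] PROOF. A linear map `Λ → NN M'` is given by `F = F(1) : DD → M'`, and for `M = DD`, `NN M = Λ` (`nn_dd`): a linear map `φ : NN DD → NN M'` is `nnMap F` for `F = (φ ⟨id⟩).toFun`: `φ ⟨rmul a⟩ = φ (a • ⟨id⟩) = a • ⟨F⟩ = ⟨F ∘ rmul a⟩`.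
For `M ∈ add DD`, `id = ∑ r k ∘ i k` (`i k : M → DD`, `r k : DD → M`): `φ = ∑ φ ∘ nnMap (r k) ∘ nnMap (i k) = ∑ nnMap F_k ∘ nnMap (i k) = nnMap (∑ F_k ∘ i k)`. -/
theorem nn_full (hfd : FiniteDimensional K Λ) (hM : InAdd Λ M (DD K Λ))
    (φ : NN K Λ M →ₗ[Λ] NN K Λ M') : ∃ F : M →ₗ[Λ] M', φ = nnMap K F := by
  obtain ⟨n, i, r, h⟩ := hM
  have hd : ∀ ψ : NN K Λ (DD K Λ) →ₗ[Λ] NN K Λ M', ψ = nnMap K (ψ ⟨LinearMap.id⟩).toFun := by
    intro ψ
    refine LinearMap.ext fun x => ?_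
    obtain ⟨c, hc⟩ := q1b_rmul hfd x.toFun
    have hx : x = c • (⟨LinearMap.id⟩ : NN K Λ (DD K Λ)) := by
      ext ξ
      rw [hc]
      rfl
    rw [hx, map_smul, map_smul]
    rfl
  refine ⟨∑ k, ((φ ∘ₗ nnMap K (r k)) ⟨LinearMap.id⟩).toFun ∘ₗ i k, ?_⟩
  rw [q1b_sum]
  have h1 : φ = φ ∘ₗ nnMap K (∑ k, r k ∘ₗ i k) := by
    rw [h, q1b_id, LinearMap.comp_id]
  conv_lhs => rw [h1]
  rw [q1b_sum, q1b_comp_sum]
  refine Finset.sum_congr rfl fun k _ => ?_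
  rw [q1b_comp, q1b_comp, ← hd, LinearMap.comp_assoc]

/-- [Q1] PROOF. `f ∘ r k = 0` for all `k` (`(nnMap f ⟨r k⟩).toFun = f ∘ r k`), `f = ∑ f ∘ r k ∘ i k`. -/
theorem nn_faithful (hM : InAdd Λ M (DD K Λ)) (f : M →ₗ[Λ] M') (h : nnMap K f = 0) : f = 0 := by
  obtain ⟨n, i, r, hs⟩ := hM
  have h1 : ∀ k, f ∘ₗ r k = 0 := by
    intro k
    have h2 := LinearMap.congr_fun h (⟨r k⟩ : NN K Λ M)
    exact congrArg NN.toFun h2
  have h3 : f = f ∘ₗ ∑ k, r k ∘ₗ i k := by rw [hs, LinearMap.comp_id]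
  rw [h3, q1b_comp_sum]
  refine Finset.sum_eq_zero fun k _ => ?_
  rw [← LinearMap.comp_assoc, h1, LinearMap.zero_comp]

/-- [Q1] -/
theorem nn_reflect (hfd : FiniteDimensional K Λ) (hM : InAdd Λ M (DD K Λ))
    (hM' : InAdd Λ M' (DD K Λ)) (h : InAdd Λ (NN K Λ M) (NN K Λ M')) : InAdd Λ M M' := by
  obtain ⟨n, i, r, hs⟩ := h
  choose I hI using fun k => nn_full (K := K) hfd hM (i k)
  choose R hR using fun k => nn_full (K := K) hfd hM' (r k)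
  refine ⟨n, I, R, ?_⟩
  rw [← sub_eq_zero]
  refine nn_faithful (K := K) hM _ ?_
  have h1 : nnMap K (∑ k, R k ∘ₗ I k) = LinearMap.id := by
    rw [q1b_sum, ← hs]
    refine Finset.sum_congr rfl fun k _ => ?_
    rw [q1b_comp, ← hI, ← hR]
  have h2 : nnMap K ((∑ k, R k ∘ₗ I k) - LinearMap.id) =
      nnMap K (∑ k, R k ∘ₗ I k) - nnMap K LinearMap.id := map_sub (q1b_map K) _ _
  rw [h2, h1, q1b_id, sub_self]

end NTC
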