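import Pool.Agent.NTC.D0

/-!
# [NTC-R1] `add`: first properties
-/

set_option autoImplicit false

open CategoryTheory

namespace NTC

section InAdd
variable {A : Type} [Ring A]
variable {M N L : Type} [AddCommGroup M] [Module A M] [AddCommGroup N] [Module A N]
  [AddCommGroup L] [Module A L]

/-- [R1] -/
theorem InAdd.refl (A M : Type) [Ring A] [AddCommGroup M] [Module A M] : InAdd A M M := by
  exact ⟨1, fun _ => LinearMap.id, fun _ => LinearMap.id, by simp⟩

/-- [R1] -/
theorem InAdd.of_retract (i : M →ₗ[A] N) (r : N →ₗ[A] M) (h : r ∘ₗ i = LinearMap.id) :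
    InAdd A M N := by
  exact ⟨1, fun _ => i, fun _ => r, by simpa using h⟩

/-- [R1] -/
theorem InAdd.of_equiv (e : M ≃ₗ[A] N) : InAdd A M N := by
  exact InAdd.of_retract e.toLinearMap e.symm.toLinearMap (by ext x; simp)

theorem r1_of_fintype {J : Type} [Fintype J] (i : J → (M →ₗ[A] N)) (r : J → (N →ₗ[A] M))
    (h : ∑ k, r k ∘ₗ i k = LinearMap.id) : InAdd A M N := by
  classical
  refine ⟨Fintype.card J, fun k => i ((Fintype.equivFin J).symm k), fun k => r ((Fintype.equivFin J).symm k), ?_⟩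
  rw [← h]
  exact Equiv.sum_comp (Fintype.equivFin J).symm (fun k => r k ∘ₗ i k)

/-- [R1] PROOF. `id = ∑ r_k i_k`, `id_N = ∑ r'_l i'_l`: `id = ∑ r_k r'_l i'_l i_k`; index set `Fin n × Fin m ≃ Fin (n * m)` (`finProdFinEquiv`). -/
theorem InAdd.trans (h1 : InAdd A M N) (h2 : InAdd A N L) : InAdd A M L := by
  obtain ⟨n, i, r, h⟩ := h1
  obtain ⟨m, i', r', h'⟩ := h2
  refine r1_of_fintype (J := Fin n × Fin m) (fun p => i' p.2 ∘ₗ i p.1) (fun p => r p.1 ∘ₗ r' p.2) ?_
  rw [Fintype.sum_prod_type, ← h]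
  refine Finset.sum_congr rfl fun k _ => ?_
  ext x
  simp only [LinearMap.sum_apply, LinearMap.comp_apply]
  rw [← map_sum]
  congr 1
  have := LinearMap.congr_fun h' (i k x)
  simpa [LinearMap.sum_apply] using this

/-- [R1] a finite index set may be used -/
theorem InAdd.of_fintype {J : Type} [Fintype J] (i : J → (M →ₗ[A] N)) (r : J → (N →ₗ[A] M))
    (h : ∑ k, r k ∘ₗ i k = LinearMap.id) : InAdd A M N := by
  exact r1_of_fintype i r h

/-- [R1] -/
theorem InAdd.pi (n : ℕ) : InAdd A (Fin n → M) M := by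
  refine ⟨n, fun k => LinearMap.proj k, fun k => LinearMap.single A (fun _ => M) k, ?_⟩
  refine LinearMap.ext fun x => ?_
  simp only [LinearMap.sum_apply, LinearMap.comp_apply, LinearMap.proj_apply, LinearMap.id_apply,
    LinearMap.single_apply]
  exact Finset.univ_sum_single x

/-- [R1] -/
theorem InAdd.pi' (h : InAdd A M N) (n : ℕ) : InAdd A (Fin n → M) N :=
  (InAdd.pi n).trans h

end InAdd

end NTC
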