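import Pool.Agent.NTC.V1d
import Pool.Agent.NTC.E4
import Pool.Agent.NTC.R3a

/-!
# [NTC-V1a] `EV` for `A ⊕ D(A)`
-/

set_option autoImplicit false

open CategoryTheory

namespace NTC

/-- the family `M₁`, `M₂` -/
def v1a_fam (M₁ M₂ : Type) : Bool → Type := fun b => match b with
  | true => M₁
  | false => M₂

instance v1a_acg (M₁ M₂ : Type) [i₁ : AddCommGroup M₁] [i₂ : AddCommGroup M₂] (j : Bool) :
    AddCommGroup (v1a_fam M₁ M₂ j) := match j with
  | true => i₁
  | false => i₂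

instance v1a_mod (A M₁ M₂ : Type) [Ring A] [AddCommGroup M₁] [AddCommGroup M₂]
    [i₁ : Module A M₁] [i₂ : Module A M₂] (j : Bool) : Module A (v1a_fam M₁ M₂ j) := match j with
  | true => i₁
  | false => i₂

/-- the projections -/
def v1a_i (A M₁ M₂ : Type) [Ring A] [AddCommGroup M₁] [AddCommGroup M₂] [Module A M₁]
    [Module A M₂] (j : Bool) : (M₁ × M₂) →ₗ[A] v1a_fam M₁ M₂ j := match j with
  | true => LinearMap.fst A M₁ M₂
  | false => LinearMap.snd A M₁ M₂

/-- the inclusions -/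
def v1a_r (A M₁ M₂ : Type) [Ring A] [AddCommGroup M₁] [AddCommGroup M₂] [Module A M₁]
    [Module A M₂] (j : Bool) : v1a_fam M₁ M₂ j →ₗ[A] (M₁ × M₂) := match j with
  | true => LinearMap.inl A M₁ M₂
  | false => LinearMap.inr A M₁ M₂

theorem v1a_sum (A M₁ M₂ : Type) [Ring A] [AddCommGroup M₁] [AddCommGroup M₂] [Module A M₁]
    [Module A M₂] : ∑ j, v1a_r A M₁ M₂ j ∘ₗ v1a_i A M₁ M₂ j = LinearMap.id := by
  rw [Fintype.sum_bool]
  refine LinearMap.ext fun x => ?_
  change (x.1, (0 : M₂)) + ((0 : M₁), x.2) = x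
  simp

section
variable {A : Type} [Ring A] [HasExt.{1} (ModuleCat.{0} A)]
variable {M₁ M₂ N : Type} [AddCommGroup M₁] [Module A M₁] [AddCommGroup M₂] [Module A M₂]
  [AddCommGroup N] [Module A N]

theorem v1a_left (h₁ : EV A M₁ N) (h₂ : EV A M₂ N) : EV A (M₁ × M₂) N := by
  refine EV.sum_left (v1a_fam M₁ M₂) (v1a_i A M₁ M₂) (v1a_r A M₁ M₂) (v1a_sum A M₁ M₂) ?_
  intro j
  cases j
  · exact h₂
  · exact h₁

theorem v1a_right (h₁ : EV A N M₁) (h₂ : EV A N M₂) : EV A N (M₁ × M₂) := by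
  refine EV.sum_right (v1a_fam M₁ M₂) (v1a_i A M₁ M₂) (v1a_r A M₁ M₂) (v1a_sum A M₁ M₂) ?_
  intro j
  cases j
  · exact h₂
  · exact h₁

end

variable {K A : Type} [Field K] [Ring A] [Algebra K A]

/-- [V1a] PROOF. `EV.sum_left`, `EV.sum_right` for the decomposition `A ⊕ DD`: `EV A DD A` (`TVan`; `tvan_iff`, `dd_injective`, `dd_finite`), `ev_of_projective`, `ev_of_injective`. -/
theorem ev_VN (hfd : FiniteDimensional K A) [HasExt.{1} (ModuleCat.{0} A)] (h : TVan A) :
    EV A (A × DD K A) (A × DD K A) := by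
  have h1 : EV A (DD K A) A := (tvan_iff.1 h) (DD K A) dd_injective (dd_finite hfd)
  have h2 : EV A A A := ev_of_projective inferInstance
  exact v1a_right (v1a_left h2 h1) (ev_of_injective dd_injective)

/-- [V1c] -/
theorem fd_VN (hfd : FiniteDimensional K A) : FiniteDimensional K (End (VN K A)) := by
  refine fd_Cb _ ?_
  have h1 : FiniteDimensional K (DD K A) := by
    let e : DD K A ≃ₗ[K] (A →ₗ[K] K) :=
      { DD.eq with
        map_add' := fun _ _ => rfl
        map_smul' := fun _ _ => rfl }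
    exact e.symm.finiteDimensional
  change FiniteDimensional K (A × DD K A)
  infer_instance

end NTC
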