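import Pool.Agent.NTC.R3a

/-!
# [NTC-W1] dominant dimension: the modules of the coresolution may be taken finitely generated
-/

set_option autoImplicit false

open CategoryTheory

namespace NTC

/-- `M` has a coresolution by modules which are projective and injective -/
def W1.CoR (A : Type) [Ring A] (M : Type) [AddCommGroup M] [Module A M] : Prop :=
  ∃ (I : ℕ → ModuleCat.{0} A) (ε : M →ₗ[A] I 0) (d : ∀ n, I n →ₗ[A] I (n + 1)),
    Function.Injective ε ∧ LinearMap.range ε = LinearMap.ker (d 0) ∧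
    (∀ n, LinearMap.range (d n) = LinearMap.ker (d (n + 1))) ∧
    ∀ n, Module.Projective A (I n) ∧ Module.Injective A (I n)

namespace W1

section retract
variable {A : Type} [Ring A] {M N : Type} [AddCommGroup M] [Module A M] [AddCommGroup N] [Module A N]

theorem proj_retract (i : M →ₗ[A] N) (r : N →ₗ[A] M) (h : ∀ x, r (i x) = x)
    (hN : Module.Projective A N) : Module.Projective A M :=
  (InAdd.of_retract i r (LinearMap.ext h)).projective hN

theorem inj_retract (i : M →ₗ[A] N) (r : N →ₗ[A] M) (h : ∀ x, r (i x) = x)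
    (hN : Module.Injective A N) : Module.Injective A M :=
  (InAdd.of_retract i r (LinearMap.ext h)).injective hN

end retract

variable {K A : Type} [Field K] [Ring A] [Algebra K A]

/-- an endomorphism of a module of finite length: the projection to the part where it is bijective -/
theorem exists_part (h : FiniteDimensional K A) {D : Type} [AddCommGroup D] [Module A D]
    (hD : Module.Finite A D) (u : D →ₗ[A] D) :
    ∃ (F : Submodule A D) (r : D →ₗ[A] F), (∀ x : F, r (u x) = x) ∧
      (∀ x : D, u x = x → x ∈ F) ∧ Module.Finite A F := by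
  let : Module K D := Module.compHom D (algebraMap K A)
  have : IsScalarTower K A D := r3a_tower D
  have : Module.Finite K D := Module.Finite.trans A D
  have : IsNoetherian K D := inferInstance
  have : IsArtinian K D := inferInstance
  have : IsNoetherian A D := isNoetherian_of_tower K inferInstance
  have : IsArtinian A D := isArtinian_of_tower K inferInstance
  obtain ⟨m, hm⟩ := (LinearMap.eventually_isCompl_ker_pow_range_pow u).exists_forall_of_atTop
  have h1 := hm (m + 1) (by omega)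
  have hinj : ∀ x : D, x ∈ LinearMap.range (u ^ (m + 1)) → (u ^ (m + 1)) x = 0 → x = 0 := by
    intro x hx hx0
    have : x ∈ LinearMap.ker (u ^ (m + 1)) ⊓ LinearMap.range (u ^ (m + 1)) := ⟨hx0, hx⟩
    rw [h1.inf_eq_bot] at this
    exact (Submodule.mem_bot A).1 this
  have hcomm : ∀ x, (u ^ (m + 1)) (u x) = u ((u ^ (m + 1)) x) := by
    intro x
    rw [← Module.End.mul_apply, ← Module.End.mul_apply, ← pow_succ, ← pow_succ']
  have hstab : ∀ x, x ∈ LinearMap.range (u ^ (m + 1)) → u x ∈ LinearMap.range (u ^ (m + 1)) := by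
    rintro _ ⟨y, rfl⟩
    exact ⟨u y, hcomm y⟩
  let F : Submodule A D := LinearMap.range (u ^ (m + 1))
  let v : D →ₗ[A] F := (u ^ (m + 1)).codRestrict F (fun x => ⟨x, rfl⟩)
  let w : F →ₗ[A] F := v ∘ₗ u ∘ₗ F.subtype
  have hwi : Function.Injective w := by
    rw [← LinearMap.ker_eq_bot, eq_bot_iff]
    intro x hx
    have hx' : (u ^ (m + 1)) (u (x : D)) = 0 := congrArg Subtype.val (LinearMap.mem_ker.1 hx)
    have h2 : u (x : D) = 0 := hinj _ (hstab _ x.2) hx'
    have h3 : (u ^ (m + 1)) (x : D) = 0 := by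
      rw [pow_succ, Module.End.mul_apply, h2, map_zero]
    have h4 : (x : D) = 0 := hinj _ x.2 h3
    exact (Submodule.mem_bot A).2 (Subtype.ext h4)
  have hwb : Function.Bijective w := IsArtinian.bijective_of_injective_endomorphism w hwi
  let e : F ≃ₗ[A] F := LinearEquiv.ofBijective w hwb
  refine ⟨F, e.symm.toLinearMap ∘ₗ v, ?_, ?_, inferInstance⟩
  · intro x
    show e.symm (w x) = x
    exact e.symm_apply_apply x
  · intro x hx
    refine ⟨x, ?_⟩
    have : ∀ k : ℕ, (u ^ k) x = x := by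
      intro k
      induction k with
      | zero => rfl
      | succ k ih => rw [pow_succ, Module.End.mul_apply, hx, ih]
    exact this (m + 1)

/-- the sequence with one more module -/
def Ic (J : ModuleCat.{0} A) (I : ℕ → ModuleCat.{0} A) : ℕ → ModuleCat.{0} A
  | 0 => J
  | n + 1 => I n

/-- the sequence with one more map -/
def dc (J : ModuleCat.{0} A) (I : ℕ → ModuleCat.{0} A) (d0 : J →ₗ[A] I 0)
    (d : ∀ n, I n →ₗ[A] I (n + 1)) : ∀ n, Ic J I n →ₗ[A] Ic J I (n + 1)
  | 0 => d0
  | n + 1 => d n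

theorem cons {M' : Type} [AddCommGroup M'] [Module A M'] (J : ModuleCat.{0} A)
    (hJ : Module.Projective A J ∧ Module.Injective A J) (ε' : M' →ₗ[A] J)
    (I : ℕ → ModuleCat.{0} A) (d0 : J →ₗ[A] I 0) (d : ∀ n, I n →ₗ[A] I (n + 1))
    (hε : Function.Injective ε') (h0 : LinearMap.range ε' = LinearMap.ker d0)
    (h1 : LinearMap.range d0 = LinearMap.ker (d 0))
    (hd : ∀ n, LinearMap.range (d n) = LinearMap.ker (d (n + 1)))
    (hI : ∀ n, Module.Projective A (I n) ∧ Module.Injective A (I n)) : CoR A M' := by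
  refine ⟨Ic J I, ε', dc J I d0 d, hε, h0, ?_, ?_⟩
  · rintro (_ | n)
    · exact h1
    · exact hd n
  · rintro (_ | n)
    · exact hJ
    · exact hI n

/-- one step -/
theorem step (h : FiniteDimensional K A) (M : Type) [AddCommGroup M] [Module A M]
    (hM : Module.Finite A M) (hC : CoR A M) :
    ∃ (F : ModuleCat.{0} A) (f : M →ₗ[A] F), Function.Injective f ∧ Module.Finite A F ∧
      Module.Projective A F ∧ Module.Injective A F ∧ CoR A (F ⧸ LinearMap.range f) := by
  obtain ⟨I, ε, d, hε, h0, hd, hI⟩ := hC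
  obtain ⟨m, g0, hg0⟩ := exists_embed h M hM
  have hDi : Module.Injective A (Fin m → DD K A) := (InAdd.pi m).injective dd_injective
  have hDf : Module.Finite A (Fin m → DD K A) := (InAdd.pi m).finite (dd_finite h)
  obtain ⟨hh, hhh⟩ := (hI 0).2.out g0 hg0 ε
  obtain ⟨g, hg⟩ := hDi.out ε hε g0
  obtain ⟨F, r, hr1, hr2, hFf⟩ := exists_part h hDf (g ∘ₗ hh)
  -- `j : F → I 0`, `ρ : I 0 → F`
  let j : F →ₗ[A] I 0 := hh ∘ₗ F.subtype
  let ρ : I 0 →ₗ[A] F := r ∘ₗ g
  have hρj : ∀ x : F, ρ (j x) = x := hr1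
  have hfr : ∀ x : M, g0 x ∈ F := fun x => hr2 _ (by
    show g (hh (g0 x)) = g0 x
    rw [hhh, hg])
  let f : M →ₗ[A] F := g0.codRestrict F hfr
  have hf : Function.Injective f := fun x y hxy => hg0 (congrArg Subtype.val hxy)
  have hjf : ∀ x, j (f x) = ε x := hhh
  have hFp : Module.Projective A F := proj_retract j ρ hρj (hI 0).1
  have hFi : Module.Injective A F := inj_retract j ρ hρj (hI 0).2
  refine ⟨ModuleCat.of A F, f, hf, hFf, hFp, hFi, ?_⟩
  -- the complement `G` of `j F` in `I 0`
  let G : Submodule A (I 0) := LinearMap.ker ρ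
  let πG : I 0 →ₗ[A] G := (LinearMap.id - j ∘ₗ ρ).codRestrict G (fun x => by
    show ρ (x - j (ρ x)) = 0
    rw [map_sub, hρj, sub_self])
  have hπG : ∀ x : G, πG x = x := by
    intro x
    apply Subtype.ext
    show (x : I 0) - j (ρ x) = x
    have : ρ (x : I 0) = 0 := x.2
    rw [this, map_zero, sub_zero]
  have hGi : Module.Injective A G := inj_retract G.subtype πG hπG (hI 0).2
  have hεd : ∀ x, d 0 (ε x) = 0 := by
    intro x
    have : ε x ∈ LinearMap.ker (d 0) := by rw [← h0]; exact ⟨x, rfl⟩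
    exact this
  let dG : G →ₗ[A] I 1 := d 0 ∘ₗ G.subtype
  have hdG : Function.Injective dG := by
    rw [← LinearMap.ker_eq_bot, eq_bot_iff]
    intro x hx
    have hx1 : (x : I 0) ∈ LinearMap.ker (d 0) := hx
    rw [← h0] at hx1
    obtain ⟨y, hy⟩ := hx1
    have hx2 : ρ (x : I 0) = 0 := x.2
    rw [← hy, ← hjf, hρj] at hx2
    have hx3 : (x : I 0) = 0 := by rw [← hy, ← hjf, hx2, map_zero]
    exact (Submodule.mem_bot A).2 (Subtype.ext hx3)
  obtain ⟨s, hs⟩ := hGi.out dG hdG LinearMap.id
  let P : Submodule A (I 1) := LinearMap.range dG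
  have hPk : P ≤ LinearMap.ker (LinearMap.id - dG ∘ₗ s) := by
    rintro _ ⟨x, rfl⟩
    show dG x - dG (s (dG x)) = 0
    rw [hs]
    show dG x - dG x = 0
    exact sub_self _
  let i1 : (I 1 ⧸ P) →ₗ[A] I 1 := P.liftQ (LinearMap.id - dG ∘ₗ s) hPk
  have hi1 : ∀ x, P.mkQ (i1 x) = x := by
    intro x
    obtain ⟨z, rfl⟩ := P.mkQ_surjective x
    have e1 : i1 (P.mkQ z) = z - dG (s z) := P.liftQ_apply _ z
    rw [e1, map_sub]
    have e2 : P.mkQ (dG (s z)) = 0 := (Submodule.Quotient.mk_eq_zero P).2 ⟨s z, rfl⟩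
    rw [e2, sub_zero]
  have hJ : Module.Projective A (I 1 ⧸ P) ∧ Module.Injective A (I 1 ⧸ P) :=
    ⟨proj_retract i1 P.mkQ hi1 (hI 1).1, inj_retract i1 P.mkQ hi1 (hI 1).2⟩
  have hfk : LinearMap.range f ≤ LinearMap.ker (P.mkQ ∘ₗ d 0 ∘ₗ j) := by
    rintro _ ⟨x, rfl⟩
    show P.mkQ (d 0 (j (f x))) = 0
    rw [hjf, hεd, map_zero]
  let ε' : (F ⧸ LinearMap.range f) →ₗ[A] (I 1 ⧸ P) := (LinearMap.range f).liftQ _ hfk
  have hε'a : ∀ x : F, ε' ((LinearMap.range f).mkQ x) = P.mkQ (d 0 (j x)) := fun x =>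
    (LinearMap.range f).liftQ_apply _ x
  have hdd : ∀ x, d 1 (d 0 x) = 0 := by
    intro x
    have : d 0 x ∈ LinearMap.ker (d 1) := by rw [← hd 0]; exact ⟨x, rfl⟩
    exact this
  have hP1 : P ≤ LinearMap.ker (d 1) := by
    rintro _ ⟨x, rfl⟩
    exact hdd _
  refine cons (ModuleCat.of A (I 1 ⧸ P)) hJ ε' (fun n => I (n + 2)) (P.liftQ (d 1) hP1)
    (fun n => d (n + 2)) ?_ ?_ ?_ (fun n => hd (n + 2)) (fun n => hI (n + 2))
  · rw [← LinearMap.ker_eq_bot, eq_bot_iff]
    intro q hq
    obtain ⟨x, rfl⟩ := (LinearMap.range f).mkQ_surjective q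
    have hq1 : ε' ((LinearMap.range f).mkQ x) = 0 := hq
    rw [hε'a] at hq1
    have hq2 : d 0 (j x) ∈ P := (Submodule.Quotient.mk_eq_zero P).1 hq1
    obtain ⟨y, hy⟩ := hq2
    have hq3 : j x - (y : I 0) ∈ LinearMap.ker (d 0) := by
      show d 0 (j x - (y : I 0)) = 0
      rw [map_sub]
      exact sub_eq_zero.2 hy.symm
    rw [← h0] at hq3
    obtain ⟨z, hz⟩ := hq3
    have hq4 : x = f z := by
      have e3 := congrArg ρ hz
      rw [← hjf, hρj, map_sub, hρj] at e3
      have e4 : ρ (y : I 0) = 0 := y.2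
      rw [e4, sub_zero] at e3
      exact e3.symm
    exact (Submodule.Quotient.mk_eq_zero _).2 ⟨z, hq4.symm⟩
  · apply le_antisymm
    · rintro _ ⟨q, rfl⟩
      obtain ⟨x, rfl⟩ := (LinearMap.range f).mkQ_surjective q
      show P.liftQ (d 1) hP1 (ε' ((LinearMap.range f).mkQ x)) = 0
      rw [hε'a]
      exact (P.liftQ_apply (d 1) _).trans (hdd _)
    · intro q hq
      obtain ⟨z, rfl⟩ := P.mkQ_surjective q
      have hq1 : d 1 z = 0 := (P.liftQ_apply (d 1) z).symm.trans hq
      have hq2 : z ∈ LinearMap.range (d 0) := by rw [hd 0]; exact hq1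
      obtain ⟨y, rfl⟩ := hq2
      refine ⟨(LinearMap.range f).mkQ (ρ y), ?_⟩
      rw [hε'a]
      have e5 : P.mkQ (d 0 (y - j (ρ y))) = 0 :=
        (Submodule.Quotient.mk_eq_zero P).2 ⟨πG y, rfl⟩
      rw [map_sub, map_sub, sub_eq_zero] at e5
      exact e5.symm
  · rw [Submodule.range_liftQ]
    exact hd 1

/-- a finitely generated module with a coresolution by projective-injective modules -/
structure St (A : Type) [Ring A] where
  /-- the module -/
  M : ModuleCat.{0} A
  fin : Module.Finite A M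
  cor : CoR A M

/-- the recursion -/
noncomputable def F (h : FiniteDimensional K A) (s : St A) : ModuleCat.{0} A :=
  (step h s.M s.fin s.cor).choose

/-- the recursion -/
noncomputable def f (h : FiniteDimensional K A) (s : St A) : s.M →ₗ[A] F h s :=
  (step h s.M s.fin s.cor).choose_spec.choose

theorem spec (h : FiniteDimensional K A) (s : St A) :
    Function.Injective (f h s) ∧ Module.Finite A (F h s) ∧
      Module.Projective A (F h s) ∧ Module.Injective A (F h s) ∧
      CoR A (F h s ⧸ LinearMap.range (f h s)) :=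
  (step h s.M s.fin s.cor).choose_spec.choose_spec

/-- the next state -/
noncomputable def next (h : FiniteDimensional K A) (s : St A) : St A where
  M := ModuleCat.of A (F h s ⧸ LinearMap.range (f h s))
  fin := by
    have := (spec h s).2.1
    exact Module.Finite.of_surjective (LinearMap.range (f h s)).mkQ
      (LinearMap.range (f h s)).mkQ_surjective
  cor := (spec h s).2.2.2.2

/-- the states -/
noncomputable def st (h : FiniteDimensional K A) (s : St A) : ℕ → St A
  | 0 => s
  | n + 1 => next h (st h s n)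

/-- the quotient map -/
noncomputable def q (h : FiniteDimensional K A) (s : St A) : F h s →ₗ[A] (next h s).M :=
  (LinearMap.range (f h s)).mkQ

theorem q_surj (h : FiniteDimensional K A) (s : St A) : Function.Surjective (q h s) :=
  Submodule.mkQ_surjective _

theorem q_ker (h : FiniteDimensional K A) (s : St A) (x : F h s) :
    q h s x = 0 ↔ x ∈ LinearMap.range (f h s) :=
  Submodule.Quotient.mk_eq_zero _

/-- the map `F n → M (n+1) → F (n+1)` -/
noncomputable def dd (h : FiniteDimensional K A) (s : St A) (n : ℕ) :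
    F h (st h s n) →ₗ[A] F h (st h s (n + 1)) :=
  f h (next h (st h s n)) ∘ₗ q h (st h s n)

theorem ker_dd (h : FiniteDimensional K A) (s : St A) (n : ℕ) :
    LinearMap.ker (dd h s n) = LinearMap.range (f h (st h s n)) := by
  ext x
  rw [← q_ker]
  show f h (next h (st h s n)) (q h (st h s n) x) = 0 ↔ _
  rw [map_eq_zero_iff _ (spec h (next h (st h s n))).1]

theorem range_dd (h : FiniteDimensional K A) (s : St A) (n : ℕ) :
    LinearMap.range (dd h s n) = LinearMap.range (f h (st h s (n + 1))) := by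
  apply le_antisymm
  · rintro _ ⟨x, rfl⟩
    exact ⟨q h (st h s n) x, rfl⟩
  · rintro _ ⟨y, rfl⟩
    obtain ⟨x, hx⟩ := q_surj h (st h s n) y
    exact ⟨x, congrArg (f h (next h (st h s n))) hx⟩

/-- finitely generated coresolution -/
theorem main (h : FiniteDimensional K A) (hD : CoR A A) : DomInf A := by
  let s : St A := ⟨ModuleCat.of A A, inferInstanceAs (Module.Finite A A), hD⟩
  refine ⟨fun n => F h (st h s n), f h s, dd h s, (spec h s).1, (ker_dd h s 0).symm, ?_, ?_⟩
  · intro n
    rw [range_dd, ker_dd]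
  · intro n
    exact ⟨(spec h _).2.1, (spec h _).2.2.1, (spec h _).2.2.2.1⟩

theorem of_domInf (hD : DomInf A) : CoR A A := by
  obtain ⟨I, ε, d, h1, h2, h3, h4⟩ := hD
  exact ⟨I, ε, d, h1, h2, h3, fun n => ⟨(h4 n).2.1, (h4 n).2.2⟩⟩

end W1

end NTC
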