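import Pool.Agent.NTC.L3
import Pool.Agent.NTC.C1b

/-!
# [NTC-X0] the Auslander-Reiten formula in `Gr K Λ`, the first type of complexes

Everything reduces to linear maps by `bm_un`, `un_bm`, `bm_comp`, `hom_zero`, `adm_iff`.
-/

set_option autoImplicit false

open CategoryTheory

namespace NTC

variable {K Λ : Type} [Field K] [Ring Λ] [Algebra K Λ]

/-- `bm` for matrices -/
abbrev bF (K : Type) {Λ : Type} [Field K] [Ring Λ] [Algebra K Λ] {m n : ℕ} (s : ZMod 6)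
    (d : (Fin m → Λ) →ₗ[Λ] (Fin n → Λ)) : B s (Fr K Λ m) ⟶ B s (Fr K Λ n) := bm s s d

section
variable {m n : ℕ} (d : (Fin m → Λ) →ₗ[Λ] (Fin n → Λ)) {U : Mo K Λ}
  (j : U.T →ₗ[Λ] (Fin m → DD K Λ)) {s a : ZMod 6} (hs : s = a + 2)
include hs

/-- [X0] PROOF. `f = bm s a φ` (`bm_un`), `bm s s d ≫ f = bm s a (φ ∘ d)` (`bm_comp`; `adm s a`), `un` of it is `φ ∘ d`; `ar_zero`. -/
theorem test_zero (hr : LinearMap.range j ≤ LinearMap.ker (nu K d))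
    (f : B s (Fr K Λ n) ⟶ B a U) : th j (un (bF K s d ≫ f)) = 0 := by
  have ha : adm s a := (adm_iff hs s).1 (adm_refl s)
  rw [← bm_un f, bm_comp (adm_refl s) ha, un_bm ha]
  exact ar_zero d j hr (un f)

/-- [X0] PROOF. If `adm s b` fails then `g = 0`. Otherwise `adm b a` (`adm_iff`); `g = bm s b γ`; for `φ : V → U` the hypothesis for `f = bm b a φ` is `th j (φ ∘ γ) = 0`; `ar_ker`. -/
theorem test_ker (hj : Function.Injective j) (hr : LinearMap.range j = LinearMap.ker (nu K d))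
    (b : ZMod 6) {V : Mo K Λ} (g : B s (Fr K Λ m) ⟶ B b V)
    (h0 : ∀ f : B b V ⟶ B a U, th j (un (g ≫ f)) = 0) :
    ∃ h : B s (Fr K Λ n) ⟶ B b V, g = bF K s d ≫ h := by
  by_cases hb : adm s b
  · have hba : adm b a := (adm_iff hs b).1 hb
    have ha : adm s a := (adm_iff hs s).1 (adm_refl s)
    obtain ⟨h, hh⟩ := ar_ker d j hj hr (un g) (fun φ => by
      have h1 := h0 (bm b a φ)
      rw [← bm_un g, bm_comp hb hba, un_bm ha] at h1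
      exact h1)
    refine ⟨bm s b h, ?_⟩
    rw [bm_comp (adm_refl s) hb, ← hh, bm_un]
  · refine ⟨0, ?_⟩
    rw [hom_zero hb g, Limits.comp_zero]

/-- [X0] PROOF. If `adm b a` fails then all `f` are `0`: `g = 0`. Otherwise apply `ar_surj` to `ξ ∘ bmL b a V U`. -/
theorem test_surj (hj : Function.Injective j) (b : ZMod 6) {V : Mo K Λ}
    (hV : FiniteDimensional K V.T) (ξ : (B b V ⟶ B a U) →ₗ[K] K) :
    ∃ g : B s (Fr K Λ m) ⟶ B b V, ∀ f, ξ f = th j (un (g ≫ f)) := by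
  by_cases hb : adm b a
  · have hsb : adm s b := (adm_iff hs b).2 hb
    have ha : adm s a := (adm_iff hs s).1 (adm_refl s)
    obtain ⟨g, hg⟩ := ar_surj j hj hV (ξ ∘ₗ bmL b a V U)
    refine ⟨bm s b g, fun f => ?_⟩
    have h1 := hg (un f)
    have h2 : (ξ ∘ₗ bmL b a V U) (un f) = ξ f := by
      show ξ (bm b a (un f)) = ξ f
      rw [bm_un]
    rw [h2] at h1
    rw [h1]
    conv_rhs => rw [← bm_un f]
    rw [bm_comp hsb hb, un_bm ha]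
  · refine ⟨0, fun f => ?_⟩
    rw [hom_zero hb f, map_zero, Limits.comp_zero, map_zero, map_zero]

end

/-- the complex `B s Λ^{m 0} ⟶ B s Λ^{m 1} ⟶ ...` for `B a U` -/
def cxA {s a : ZMod 6} (hs : s = a + 2) (m : ℕ → ℕ)
    (c : ∀ n, (Fin (m n) → Λ) →ₗ[Λ] (Fin (m (n + 1)) → Λ)) (hc : ∀ n, c (n + 1) ∘ₗ c n = 0)
    (U : Mo K Λ) (j : U.T →ₗ[Λ] (Fin (m 0) → DD K Λ))
    (hr : LinearMap.range j ≤ LinearMap.ker (nu K (c 0))) : Cx K (B a U) where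
  M n := B s (Fr K Λ (m n))
  δ n := bF K s (c n)
  θ := th j ∘ₗ un
  comp n := by
    rw [bm_comp (adm_refl s) (adm_refl s), hc, bm_zero]
  θ0 f := test_zero (c 0) j hs hr f

theorem x0_exl {s b : ZMod 6} {V : Mo K Λ} {k l n : ℕ} (c : (Fin k → Λ) →ₗ[Λ] (Fin l → Λ))
    (c' : (Fin l → Λ) →ₗ[Λ] (Fin n → Λ))
    (hl : adm s b → ∀ (f : (Fin l → Λ) →ₗ[Λ] V.T), f ∘ₗ c = 0 →
      ∃ g : (Fin n → Λ) →ₗ[Λ] V.T, f = g ∘ₗ c')
    (f : B s (Fr K Λ l) ⟶ B b V) (hf : bF K s c ≫ f = 0) :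
    ∃ g : B s (Fr K Λ n) ⟶ B b V, f = bF K s c' ≫ g := by
  by_cases hb : adm s b
  · have h1 : un f ∘ₗ c = 0 := by
      rw [← bm_un f, bm_comp (adm_refl s) hb] at hf
      have h3 := congrArg un hf
      rw [un_bm hb, map_zero] at h3
      exact h3
    obtain ⟨g, hg⟩ := hl hb (un f) h1
    refine ⟨bm s b g, ?_⟩
    rw [bm_comp (adm_refl s) hb, ← hg, bm_un]
  · refine ⟨0, ?_⟩
    rw [Limits.comp_zero]
    exact hom_zero hb f

theorem x0_exr {s b : ZMod 6} {V : Mo K Λ} {k l n : ℕ} (c : (Fin k → Λ) →ₗ[Λ] (Fin l → Λ))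
    (c' : (Fin l → Λ) →ₗ[Λ] (Fin n → Λ))
    (hr : adm b s → ∀ (f : V.T →ₗ[Λ] (Fin l → Λ)), c' ∘ₗ f = 0 →
      ∃ g : V.T →ₗ[Λ] (Fin k → Λ), f = c ∘ₗ g)
    (f : B b V ⟶ B s (Fr K Λ l)) (hf : f ≫ bF K s c' = 0) :
    ∃ g : B b V ⟶ B s (Fr K Λ k), f = g ≫ bF K s c := by
  by_cases hb : adm b s
  · have h1 : c' ∘ₗ un f = 0 := by
      rw [← bm_un f, bm_comp hb (adm_refl s)] at hf
      have h3 := congrArg un hf
      rw [un_bm hb, map_zero] at h3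
      exact h3
    obtain ⟨g, hg⟩ := hr hb (un f) h1
    refine ⟨bm b s g, ?_⟩
    rw [bm_comp hb (adm_refl s), ← hg, bm_un]
  · refine ⟨0, ?_⟩
    rw [Limits.zero_comp]
    exact hom_zero hb f

/-- [X0] PROOF. `ker`, `surj`: `test_ker`, `test_surj`. `exl`: `f = bm s b φ`; if `adm s b` then `φ ∘ c n = 0` (`un_bm`, `bm_comp`), `hl`; otherwise `f = 0`. `exr`: in the same way. -/
theorem cxA_test {s a : ZMod 6} (hs : s = a + 2) (m : ℕ → ℕ)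
    (c : ∀ n, (Fin (m n) → Λ) →ₗ[Λ] (Fin (m (n + 1)) → Λ)) (hc : ∀ n, c (n + 1) ∘ₗ c n = 0)
    (U : Mo K Λ) (j : U.T →ₗ[Λ] (Fin (m 0) → DD K Λ)) (hj : Function.Injective j)
    (hr : LinearMap.range j = LinearMap.ker (nu K (c 0))) (b : ZMod 6) (V : Mo K Λ)
    (hV : FiniteDimensional K V.T)
    (hl : adm s b → ∀ n (f : (Fin (m (n + 1)) → Λ) →ₗ[Λ] V.T), f ∘ₗ c n = 0 →
      ∃ g : (Fin (m (n + 2)) → Λ) →ₗ[Λ] V.T, f = g ∘ₗ c (n + 1))
    (hr' : adm b s → ∀ n (f : V.T →ₗ[Λ] (Fin (m (n + 1)) → Λ)), c (n + 1) ∘ₗ f = 0 →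
      ∃ g : V.T →ₗ[Λ] (Fin (m n) → Λ), f = c n ∘ₗ g) :
    (cxA hs m c hc U j hr.le).Test (B b V) := by
  refine ⟨?_, ?_, ?_, ?_⟩
  · intro g h0
    exact test_ker (c 0) j hs hj hr b g h0
  · intro ξ
    exact test_surj j hs hj b hV ξ
  · intro n f hf
    exact x0_exl (c n) (c (n + 1)) (fun hb => hl hb n) f hf
  · intro n f hf
    exact x0_exr (c n) (c (n + 1)) (fun hb => hr' hb n) f hf

end NTC
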