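import Pool.Agent.NTC.D2

/-!
# [NTC-X1] the second type of complexes

`B 2 Λ^q ⟶ B 2 Λ^p ⟶ B 2 E₁ ⊕ B 1 E₀ ⟶ B 2 E₂ ⊕ B 1 E₁ ⟶ ...`, `E₀ = X`. The differential `B 2 E_{n+1} ⊕ B 1 E_n ⟶ B 2 E_{n+2} ⊕ B 1 E_{n+1}` is `(x, y) ↦ (e x, u x - e y)`, `u : B 2 V ⟶ B 1 V`
(degree 1).
-/

set_option autoImplicit false

open CategoryTheory

namespace NTC

section aux

variable {K Λ : Type} [Field K] [Ring Λ] [Algebra K Λ]

theorem x1_bm0 {a b c : ZMod 6} (h : adm a b) (h' : adm b c) {V W Y : Mo K Λ}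
    (φ : V.T →ₗ[Λ] W.T) (ψ : W.T →ₗ[Λ] Y.T) (h0 : ψ ∘ₗ φ = 0) : bm a b φ ≫ bm b c ψ = 0 := by
  rw [bm_comp h h', h0, bm_zero]

theorem x1_bm2 {a b b' c : ZMod 6} (h : adm a b) (h' : adm b c) (k : adm a b') (k' : adm b' c)
    {V W W' Y : Mo K Λ} (φ : V.T →ₗ[Λ] W.T) (ψ : W.T →ₗ[Λ] Y.T) (φ' : V.T →ₗ[Λ] W'.T)
    (ψ' : W'.T →ₗ[Λ] Y.T) (h0 : ψ ∘ₗ φ = ψ' ∘ₗ φ') :
    bm a b φ ≫ bm b c ψ = bm a b' φ' ≫ bm b' c ψ' := by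
  rw [bm_comp h h', bm_comp k k', h0]

theorem x1_aux0 {P Q E1 E0 : Gr K Λ} (f : P ⟶ Q) (g : Q ⟶ E1) (h : Q ⟶ E0) (e1 : f ≫ g = 0)
    (e2 : f ≫ h = 0) : f ≫ (g ≫ prod.inl E1 E0 + h ≫ prod.inr E1 E0) = 0 := by
  rw [Preadditive.comp_add, ← Category.assoc, ← Category.assoc, e1, e2, Limits.zero_comp,
    Limits.zero_comp, add_zero]

theorem x1_aux1 {Q E1 E0 F1 F0 : Gr K Λ} (g : Q ⟶ E1) (h : Q ⟶ E0) (a : E1 ⟶ F1) (u : E1 ⟶ F0)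
    (b : E0 ⟶ F0) (e1 : g ≫ a = 0) (e2 : g ≫ u = h ≫ b) :
    (g ≫ prod.inl E1 E0 + h ≫ prod.inr E1 E0) ≫
      (prod.fst E1 E0 ≫ (a ≫ prod.inl F1 F0 + u ≫ prod.inr F1 F0) -
        prod.snd E1 E0 ≫ b ≫ prod.inr F1 F0) = 0 := by
  rw [Preadditive.add_comp, Preadditive.comp_sub, Preadditive.comp_sub, Category.assoc,
    Category.assoc, Category.assoc, Category.assoc, prod.inl_fst_assoc, prod.inl_snd_assoc,
    prod.inr_fst_assoc, prod.inr_snd_assoc, Limits.zero_comp, Limits.comp_zero, Limits.zero_comp,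
    Limits.comp_zero, Preadditive.comp_add, ← Category.assoc, ← Category.assoc, e1, e2,
    Limits.zero_comp, Category.assoc]
  abel

theorem x1_aux2 {E1 E0 F1 F0 G1 G0 : Gr K Λ} (a : E1 ⟶ F1) (u : E1 ⟶ F0) (b : E0 ⟶ F0)
    (a' : F1 ⟶ G1) (u' : F1 ⟶ G0) (b' : F0 ⟶ G0) (e1 : a ≫ a' = 0) (e2 : b ≫ b' = 0)
    (e3 : a ≫ u' = u ≫ b') :
    (prod.fst E1 E0 ≫ (a ≫ prod.inl F1 F0 + u ≫ prod.inr F1 F0) -
        prod.snd E1 E0 ≫ b ≫ prod.inr F1 F0) ≫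
      (prod.fst F1 F0 ≫ (a' ≫ prod.inl G1 G0 + u' ≫ prod.inr G1 G0) -
        prod.snd F1 F0 ≫ b' ≫ prod.inr G1 G0) = 0 := by
  rw [Preadditive.sub_comp, Category.assoc, x1_aux1 a u a' u' b' e1 e3, Limits.comp_zero, zero_sub,
    Category.assoc, Category.assoc, Preadditive.comp_sub, prod.inr_fst_assoc, prod.inr_snd_assoc,
    Limits.zero_comp, zero_sub, Preadditive.comp_neg, ← Category.assoc b, e2, Limits.zero_comp,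
    neg_zero, Limits.comp_zero, neg_zero]

end aux

namespace Dat

variable {K Λ : Type} [Field K] [Ring Λ] [Algebra K Λ] (D : Dat K Λ)

/-- the morphism of degree 1 -/
def u (V : Mo K Λ) : B 2 V ⟶ B 1 V := bm 2 1 LinearMap.id

/-- the objects -/
def M : ℕ → Gr K Λ
  | 0 => B 2 (Fr K Λ D.q)
  | 1 => B 2 (Fr K Λ D.p)
  | n + 2 => prod (B 2 (D.E (n + 1))) (B 1 (D.E n))

/-- `Λ^p → X` as a morphism -/
def π' (V : Mo K Λ) (f : (Fin D.p → Λ) →ₗ[Λ] V.T) (b : ZMod 6) : B 2 (Fr K Λ D.p) ⟶ B b V := bm 2 b f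

/-- the differential into the first sum -/
def δ1 : B 2 (Fr K Λ D.p) ⟶ prod (B 2 (D.E 1)) (B 1 (D.E 0)) :=
  D.π' (D.E 1) (D.e 0 ∘ₗ D.π) 2 ≫ prod.inl _ _ + D.π' (D.E 0) D.π 1 ≫ prod.inr _ _

/-- the differential between the sums -/
def δ2 (n : ℕ) : prod (B 2 (D.E (n + 1))) (B 1 (D.E n)) ⟶ prod (B 2 (D.E (n + 2))) (B 1 (D.E (n + 1))) :=
  prod.fst _ _ ≫ (bm 2 2 (D.e (n + 1)) ≫ prod.inl _ _ + u (D.E (n + 1)) ≫ prod.inr _ _) -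
    prod.snd _ _ ≫ bm 1 1 (D.e n) ≫ prod.inr _ _

/-- the differentials -/
def δ : ∀ n, D.M n ⟶ D.M (n + 1)
  | 0 => bF K 2 D.d
  | 1 => D.δ1
  | n + 2 => D.δ2 n

theorem x1_pi_d : D.π ∘ₗ D.d = 0 := by
  rw [← LinearMap.range_le_ker_iff, D.π_ker]

/-- [X1] `π ∘ d = 0` -/
theorem δ_comp0 : D.δ 0 ≫ D.δ 1 = 0 := by
  have h : D.π ∘ₗ D.d = 0 := D.x1_pi_d
  have h' : (D.e 0 ∘ₗ D.π) ∘ₗ D.d = 0 := by
    apply LinearMap.ext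
    intro x
    have := LinearMap.congr_fun h x
    show D.e 0 (D.π (D.d x)) = 0
    have h2 : D.π (D.d x) = 0 := this
    rw [h2]
    exact map_zero (D.e 0)
  exact x1_aux0 _ _ _ (x1_bm0 (by decide) (by decide) _ _ h')
    (x1_bm0 (V := Fr K Λ D.q) (W := Fr K Λ D.p) (Y := D.E 0) (by decide) (by decide) D.d D.π h)

/-- [X1] `(e π p, u π p) ↦ (e e π p, u e π p - e u π p) = 0` -/
theorem δ_comp1 : D.δ 1 ≫ D.δ 2 = 0 := by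
  have h : D.e 1 ∘ₗ (D.e 0 ∘ₗ D.π) = 0 := by
    apply LinearMap.ext
    intro x
    exact LinearMap.congr_fun (D.e_comp 0) (D.π x)
  exact x1_aux1 _ _ _ _ _ (x1_bm0 (V := Fr K Λ D.p) (W := D.E 1) (Y := D.E 2) (by decide)
      (by decide) (D.e 0 ∘ₗ D.π) (D.e 1) h)
    (x1_bm2 (V := Fr K Λ D.p) (W := D.E 1) (W' := D.E 0) (Y := D.E 1) (by decide) (by decide)
      (by decide) (by decide) (D.e 0 ∘ₗ D.π) LinearMap.id D.π (D.e 0) rfl)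

/-- [X1] `(x, y) ↦ (e x, u x - e y) ↦ (e e x, u e x - e (u x - e y)) = 0`. PROOF. `prod.hom_ext`, `prod.hom_ext'`, `bm_comp` -/
theorem δ_comp2 (n : ℕ) : D.δ (n + 2) ≫ D.δ (n + 3) = 0 :=
  x1_aux2 _ _ _ _ _ _ (x1_bm0 (by decide) (by decide) (D.e (n + 1)) (D.e (n + 2)) (D.e_comp (n + 1)))
    (x1_bm0 (by decide) (by decide) (D.e n) (D.e (n + 1)) (D.e_comp n))
    (x1_bm2 (by decide) (by decide) (by decide) (by decide) (D.e (n + 1)) LinearMap.id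
      LinearMap.id (D.e (n + 1)) rfl)

/-- the complex -/
def cxU : Cx K (B 0 D.U) where
  M := D.M
  δ := D.δ
  θ := th D.jU ∘ₗ un
  comp
    | 0 => D.δ_comp0
    | 1 => D.δ_comp1
    | n + 2 => D.δ_comp2 n
  θ0 f := test_zero D.d D.jU (s := 2) (a := 0) (by decide) D.jU_range.le f

end Dat

end NTC
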