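import Pool.Agent.NTC.X1

/-!
# [NTC-X2] the complex `cxU`: morphisms into a test object
-/

set_option autoImplicit false

open CategoryTheory

namespace NTC

theorem x2_un_comp {K Λ : Type} [Field K] [Ring Λ] [Algebra K Λ] {V W Y : Mo K Λ}
    {a b c : ZMod 6} (h : adm a b) (h' : adm b c) (h'' : adm a c)
    (φ : V.T →ₗ[Λ] W.T) (f : B b W ⟶ B c Y) : un (bm a b φ ≫ f) = un f ∘ₗ φ := by
  conv_lhs => rw [← bm_un f]
  rw [bm_comp h h', un_bm h'']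

theorem x2_comp_un {K Λ : Type} [Field K] [Ring Λ] [Algebra K Λ] {V W Y : Mo K Λ}
    {a b c : ZMod 6} (h : adm a b) (h' : adm b c) (h'' : adm a c)
    (f : B a V ⟶ B b W) (φ : W.T →ₗ[Λ] Y.T) : un (f ≫ bm b c φ) = φ ∘ₗ un f := by
  conv_lhs => rw [← bm_un f]
  rw [bm_comp h h', un_bm h'']

theorem x2_dec {K Λ : Type} [Field K] [Ring Λ] [Algebra K Λ] {M M' T : Gr K Λ}
    (f : prod M M' ⟶ T) :
    f = prod.fst M M' ≫ (prod.inl M M' ≫ f) + prod.snd M M' ≫ (prod.inr M M' ≫ f) := by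
  rw [← Category.assoc, ← Category.assoc, ← Preadditive.add_comp, prod.total, Category.id_comp]

theorem x2_dec' {K Λ : Type} [Field K] [Ring Λ] [Algebra K Λ] {M M' T : Gr K Λ}
    (f : T ⟶ prod M M') :
    f = (f ≫ prod.fst M M') ≫ prod.inl M M' + (f ≫ prod.snd M M') ≫ prod.inr M M' := by
  rw [Category.assoc, Category.assoc, ← Preadditive.comp_add, prod.total, Category.comp_id]

namespace Dat

variable {K Λ : Type} [Field K] [Ring Λ] [Algebra K Λ] (D : Dat K Λ)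

theorem x2_d1_fst : D.δ1 ≫ prod.fst _ _ = bm 2 2 (D.e 0 ∘ₗ D.π) := by
  rw [δ1, Preadditive.add_comp, Category.assoc, Category.assoc, prod.inl_fst, prod.inr_fst,
    Category.comp_id, Limits.comp_zero, add_zero]
  rfl

theorem x2_d1_snd : D.δ1 ≫ prod.snd _ _ = bm 2 1 D.π := by
  rw [δ1, Preadditive.add_comp, Category.assoc, Category.assoc, prod.inl_snd, prod.inr_snd,
    Category.comp_id, Limits.comp_zero, zero_add]
  rfl

theorem x2_d2_fst (n : ℕ) : D.δ2 n ≫ prod.fst _ _ = prod.fst _ _ ≫ bm 2 2 (D.e (n + 1)) := by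
  rw [δ2, Preadditive.sub_comp]
  simp only [Category.assoc, Preadditive.add_comp, prod.inl_fst, prod.inr_fst, Category.comp_id,
    Limits.comp_zero, add_zero, sub_zero]

theorem x2_d2_snd (n : ℕ) : D.δ2 n ≫ prod.snd _ _ =
    prod.fst _ _ ≫ u (D.E (n + 1)) - prod.snd _ _ ≫ bm 1 1 (D.e n) := by
  rw [δ2, Preadditive.sub_comp]
  simp only [Category.assoc, Preadditive.add_comp, prod.inl_snd, prod.inr_snd, Category.comp_id,
    Limits.comp_zero, zero_add]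

theorem x2_inl_d2 (n : ℕ) : prod.inl _ _ ≫ D.δ2 n =
    bm 2 2 (D.e (n + 1)) ≫ prod.inl _ _ + u (D.E (n + 1)) ≫ prod.inr _ _ := by
  rw [δ2, Preadditive.comp_sub, prod.inl_fst_assoc, prod.inl_snd_assoc, Limits.zero_comp, sub_zero]

theorem x2_inr_d2 (n : ℕ) : prod.inr _ _ ≫ D.δ2 n = -(bm 1 1 (D.e n) ≫ prod.inr _ _) := by
  rw [δ2, Preadditive.comp_sub, prod.inr_fst_assoc, prod.inr_snd_assoc, Limits.zero_comp, zero_sub]

theorem x2_zero {b : ZMod 6} (h2 : ¬ adm 2 b) (h1 : ¬ adm 1 b) {V : Mo K Λ} :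
    ∀ (n : ℕ) (f : D.M n ⟶ B b V), f = 0
  | 0, f => hom_zero h2 f
  | 1, f => hom_zero h2 f
  | n + 2, f => by
    have e : f = (0 : prod (B 2 (D.E (n + 1))) (B 1 (D.E n)) ⟶ B b V) := by
      apply prod.hom_ext'
      · rw [hom_zero h2 (prod.inl _ _ ≫ f), Limits.comp_zero]
      · rw [hom_zero h1 (prod.inr _ _ ≫ f), Limits.comp_zero]
    exact e

/-- the factorization through the first component -/
theorem x2_two (V : Mo K Λ) (hV : Module.Injective Λ V.T) : ∀ (n : ℕ) (f : D.M (n + 1) ⟶ B 2 V),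
    D.δ n ≫ f = 0 → ∃ g : D.M (n + 2) ⟶ B 2 V, f = D.δ (n + 1) ≫ g
  | 0, f, h => by
    change B 2 (Fr K Λ D.p) ⟶ B 2 V at f
    change bF K 2 D.d ≫ f = 0 at h
    have h1 : un f ∘ₗ D.d = 0 := by
      have h2 := x2_un_comp (adm_refl 2) (adm_refl 2) (adm_refl 2) (V := Fr K Λ D.q) D.d f
      rw [h, map_zero] at h2
      exact h2.symm
    obtain ⟨g, hg⟩ := D.P_inj hV (un f) h1
    refine ⟨(prod.fst _ _ ≫ bm 2 2 g : prod (B 2 (D.E 1)) (B 1 (D.E 0)) ⟶ B 2 V), ?_⟩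
    change f = D.δ1 ≫ prod.fst _ _ ≫ bm 2 2 g
    rw [← Category.assoc, x2_d1_fst, bm_comp (adm_refl 2) (adm_refl 2), ← hg, bm_un]
  | 1, f, h => by
    change prod (B 2 (D.E 1)) (B 1 (D.E 0)) ⟶ B 2 V at f
    change D.δ1 ≫ f = 0 at h
    have e0 : prod.inr _ _ ≫ f = 0 := hom_zero (by decide) _
    have e1 := x2_dec f
    rw [e0, Limits.comp_zero, add_zero] at e1
    set φ := un (prod.inl _ _ ≫ f) with hφ
    have e2 : prod.inl _ _ ≫ f = bm 2 2 φ := (bm_un _).symm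
    rw [e2] at e1
    have h1 : φ ∘ₗ (D.e 0 ∘ₗ D.π) = 0 := by
      rw [e1, ← Category.assoc, x2_d1_fst, bm_comp (adm_refl 2) (adm_refl 2)] at h
      rw [← un_bm (adm_refl 2) (φ ∘ₗ (D.e 0 ∘ₗ D.π)) (V := Fr K Λ D.p) (W := V), h, map_zero]
    have h2 : φ ∘ₗ D.e 0 = 0 := by
      refine LinearMap.ext fun x => ?_
      obtain ⟨y, rfl⟩ := D.π_surj x
      exact LinearMap.congr_fun h1 y
    obtain ⟨g, hg⟩ := D.E_inj hV 0 φ h2
    refine ⟨(prod.fst _ _ ≫ bm 2 2 g : prod (B 2 (D.E 2)) (B 1 (D.E 1)) ⟶ B 2 V), ?_⟩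
    change f = D.δ2 0 ≫ prod.fst _ _ ≫ bm 2 2 g
    rw [← Category.assoc, x2_d2_fst, Category.assoc, bm_comp (adm_refl 2) (adm_refl 2), ← hg, ← e1]
  | k + 2, f, h => by
    change prod (B 2 (D.E (k + 2))) (B 1 (D.E (k + 1))) ⟶ B 2 V at f
    change D.δ2 k ≫ f = 0 at h
    have e0 : prod.inr _ _ ≫ f = 0 := hom_zero (by decide) _
    have e1 := x2_dec f
    rw [e0, Limits.comp_zero, add_zero] at e1
    set φ := un (prod.inl _ _ ≫ f) with hφ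
    have e2 : prod.inl _ _ ≫ f = bm 2 2 φ := (bm_un _).symm
    rw [e2] at e1
    have h1 : φ ∘ₗ D.e (k + 1) = 0 := by
      rw [e1, ← Category.assoc, x2_d2_fst, Category.assoc, bm_comp (adm_refl 2) (adm_refl 2)] at h
      have h' := congrArg (fun t => prod.inl _ _ ≫ t) h
      simp only [prod.inl_fst_assoc, Limits.comp_zero] at h'
      rw [← un_bm (adm_refl 2) (φ ∘ₗ D.e (k + 1)), h', map_zero]
    obtain ⟨g, hg⟩ := D.E_inj hV (k + 1) φ h1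
    refine ⟨(prod.fst _ _ ≫ bm 2 2 g : prod (B 2 (D.E (k + 3))) (B 1 (D.E (k + 2))) ⟶ B 2 V), ?_⟩
    change f = D.δ2 (k + 1) ≫ prod.fst _ _ ≫ bm 2 2 g
    rw [← Category.assoc, x2_d2_fst, Category.assoc, bm_comp (adm_refl 2) (adm_refl 2), ← hg, ← e1]

theorem x2_five_aux (n : ℕ) {V : Mo K Λ} (g : (D.E (n + 1)).T →ₗ[Λ] V.T) :
    D.δ2 n ≫ (-(prod.snd _ _ ≫ bm 1 5 g)) = prod.snd _ _ ≫ bm 1 5 (g ∘ₗ D.e n) := by
  rw [Preadditive.comp_neg, ← Category.assoc, x2_d2_snd, Preadditive.sub_comp, Category.assoc,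
    Category.assoc, bm_comp (adm_refl 1) (by decide),
    hom_zero (by decide) (u (D.E (n + 1)) ≫ bm 1 5 g), Limits.comp_zero, zero_sub, neg_neg]

theorem x2_five (V : Mo K Λ) (hV : Module.Injective Λ V.T) : ∀ (n : ℕ) (f : D.M (n + 1) ⟶ B 5 V),
    D.δ n ≫ f = 0 → ∃ g : D.M (n + 2) ⟶ B 5 V, f = D.δ (n + 1) ≫ g
  | 0, f, _ => by
    have e : f = 0 := by
      change B 2 (Fr K Λ D.p) ⟶ B 5 V at f
      exact hom_zero (by decide) f
    refine ⟨0, ?_⟩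
    rw [e, Limits.comp_zero]
  | 1, f, _ => by
    change prod (B 2 (D.E 1)) (B 1 (D.E 0)) ⟶ B 5 V at f
    have e0 : prod.inl _ _ ≫ f = 0 := hom_zero (by decide) _
    have e1 := x2_dec f
    rw [e0, Limits.comp_zero, zero_add] at e1
    set φ := un (prod.inr _ _ ≫ f) with hφ
    have e2 : prod.inr _ _ ≫ f = bm 1 5 φ := (bm_un _).symm
    rw [e2] at e1
    obtain ⟨g, hg⟩ := D.E_inj0 hV φ
    refine ⟨(-(prod.snd _ _ ≫ bm 1 5 g) : prod (B 2 (D.E 2)) (B 1 (D.E 1)) ⟶ B 5 V), ?_⟩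
    change f = D.δ2 0 ≫ (-(prod.snd _ _ ≫ bm 1 5 g))
    rw [x2_five_aux, ← hg, ← e1]
  | k + 2, f, h => by
    change prod (B 2 (D.E (k + 2))) (B 1 (D.E (k + 1))) ⟶ B 5 V at f
    change D.δ2 k ≫ f = 0 at h
    have e0 : prod.inl _ _ ≫ f = 0 := hom_zero (by decide) _
    have e1 := x2_dec f
    rw [e0, Limits.comp_zero, zero_add] at e1
    set φ := un (prod.inr _ _ ≫ f) with hφ
    have e2 : prod.inr _ _ ≫ f = bm 1 5 φ := (bm_un _).symm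
    rw [e2] at e1
    have h1 : φ ∘ₗ D.e k = 0 := by
      have h3 : D.δ2 k ≫ (-(prod.snd _ _ ≫ bm 1 5 φ)) = 0 := by
        rw [Preadditive.comp_neg, ← e1, h, neg_zero]
      rw [x2_five_aux] at h3
      have h' := congrArg (fun t => prod.inr _ _ ≫ t) h3
      simp only [prod.inr_snd_assoc, Limits.comp_zero] at h'
      rw [← un_bm (a := 1) (b := 5) (by decide) (φ ∘ₗ D.e k), h', map_zero]
    obtain ⟨g, hg⟩ := D.E_inj hV k φ h1
    refine ⟨(-(prod.snd _ _ ≫ bm 1 5 g) : prod (B 2 (D.E (k + 3))) (B 1 (D.E (k + 2))) ⟶ B 5 V), ?_⟩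
    change f = D.δ2 (k + 1) ≫ (-(prod.snd _ _ ≫ bm 1 5 g))
    rw [x2_five_aux, ← hg, ← e1]

/-- [X2] morphisms into `B b V`, `V` injective.
PROOF. `b = 3, 4`: all morphisms are `0` (`hom_zero`; a morphism `f` from `prod` is `fst ≫ (inl ≫ f) + snd ≫ (inr ≫ f)`).
`b = 2`: the morphisms from `B 1 _` are `0`. `n = 0`: `f = bm 2 2 φ`, `φ ∘ d = 0`, `φ = g ∘ e 0 ∘ π` (`P_inj`), take `fst ≫ bm 2 2 g`. `n = 1`: `f = fst ≫ bm 2 2 φ`, `φ ∘ e 0 ∘ π = 0`, so `φ ∘ e 0 = 0` (`π` surjective), `φ = g ∘ e 1` (`E_inj 0`), take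
`fst ≫ bm 2 2 g`. `n = k + 2`: `φ ∘ e (k+1) = 0`, `φ = g ∘ e (k+2)` (`E_inj (k+1)`).
`b = 5`: the morphisms from `B 2 _` are `0`. `n = 0`: `f = 0`. `n = 1`: `f = snd ≫ bm 1 5 φ`, `φ : E 0 → V`, `φ = g ∘ e 0` (`E_inj0`), take `-(snd ≫ bm 1 5 g)`. `n = k + 2`: `f = snd ≫ bm 1 5 φ`, `δ (k+2) ≫ f = -(snd ≫ bm 1 5 (φ ∘ e k))`, so
`φ ∘ e k = 0`, `φ = g ∘ e (k+1)`, take `-(snd ≫ bm 1 5 g)`.
`b = 0, 1`: row X3 (`exl_01`, file X3; this theorem is only for `b = 2, 3, 4, 5`). -/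
theorem exl_inj (b : ZMod 6) (hb : b ≠ 0) (hb' : b ≠ 1) (V : Mo K Λ)
    (hV : Module.Injective Λ V.T) (n : ℕ) (f : D.M (n + 1) ⟶ B b V) (h : D.δ n ≫ f = 0) :
    ∃ g : D.M (n + 2) ⟶ B b V, f = D.δ (n + 1) ≫ g := by
  have hc : b = 2 ∨ b = 3 ∨ b = 4 ∨ b = 5 := by
    revert hb hb'
    clear h f
    revert b
    decide
  rcases hc with rfl | rfl | rfl | rfl
  · exact D.x2_two V hV n f h
  · exact ⟨0, by rw [Limits.comp_zero]; exact D.x2_zero (by decide) (by decide) _ f⟩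
  · exact ⟨0, by rw [Limits.comp_zero]; exact D.x2_zero (by decide) (by decide) _ f⟩
  · exact D.x2_five V hV n f h

end Dat

end NTC
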